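import Pool.Agent.Lib.LU2G.LogDefs
import Pool.Agent.Lib.LU2G.CompDefs

/-!
# The completion of a local ring dominated by a valuation ring: the definitions used in the final
# statement
-/

set_option autoImplicit false

namespace Pool.Agent.LUF

open IsLocalRing (ResidueField residue)

section Defs

variable (R : Type) {K : Type} [CommRing R] [Field K] [Algebra R K] (V : ValuationSubring K)

/-- The maximal ideal `m` of the local ring `R`, dominated by the valuation ring `V`: the ideal of
the elements of positive value. -/
def centerIdeal : Ideal R := Ideal.span {r | V.valuation (algebraMap R K r) < 1}

/-- The completion `R^` of the local ring `R` dominated by the valuation ring `V`. -/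
abbrev Completion : Type := AdicCompletion (centerIdeal R V) R

/-- The implicit prime ideal `H` of the completion `R^` of the local ring `R` dominated by the
valuation ring `V`. It consists of the elements `f` of `R^` of infinite value: the values of the
elements of `R` that are congruent to `f` modulo the `N`-th power of the maximal ideal of `R^` tend
to infinity with `N`. -/
noncomputable def implicitIdeal : Ideal (Completion R V) :=
  Ideal.span {f | ∀ c : K, c ≠ 0 → ∃ N : ℕ, ∀ r : R,
    f - algebraMap R (Completion R V) r ∈
      (centerIdeal R V).map (algebraMap R (Completion R V)) ^ N →
    V.valuation (algebraMap R K r) ≤ V.valuation c}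

/-- The dimension of `R^ / H`. -/
noncomputable def formalDim : WithBot ℕ∞ := ringKrullDim (Completion R V ⧸ implicitIdeal R V)

/-- The generic formal fibre of the local domain `R` is regular: the localizations of the
completion `R^` at the prime ideals `Q` with `Q ∩ R = 0` are regular. -/
def RegularFormalFibre : Prop :=
  ∀ Q : Ideal (Completion R V), ∀ _ : Q.IsPrime,
    Q.comap (algebraMap R (Completion R V)) = ⊥ → IsRegularLocalRing (Localization.AtPrime Q)

/-- The residue field of the local ring `R` dominated by the valuation ring `V`, as a subfield of
the residue field of `V`. -/
noncomputable def centerField : Subfield (ResidueField V) :=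
  Subfield.closure {x | ∃ (r : R) (h : algebraMap R K r ∈ V), x = residue V ⟨algebraMap R K r, h⟩}

/-- The transcendence degree of the residue field of `V` over the residue field of `R`. -/
noncomputable def centerDegree : Cardinal := Algebra.trdeg (centerField R V) (ResidueField V)

/-- The subfield `F` of the field `L` is generated by a perfect field `k` and by a finite set, and
in the case `mixed` the field `L` is algebraic over `k`. -/
def PerfectlyGenerated {L : Type} [Field L] (F : Subfield L) (mixed : Prop) : Prop :=
  ∃ (k : Subfield L) (s : Finset L), PerfectField k ∧ Subfield.closure ((k : Set L) ∪ s) = F ∧
    (mixed → Algebra.IsAlgebraic k L)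

end Defs

end Pool.Agent.LUF
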