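import Pool.Agent.Lib.LUZ.Final
import Pool.Agent.Lib.LUZ.StmtDefs

/-! # The final theorem, in the form of the statement -/

set_option autoImplicit false

namespace Pool.Agent.LUZ

open IsLocalRing
open Pool.Agent.LU2G (centerRing chart compRank LogUniformizable)

theorem centerField_centerRing {A : Type} [CommRing A] [IsDomain A]
    {V : ValuationSubring (FractionRing A)} {B : Subalgebra A (FractionRing A)}
    (hB : ∀ z ∈ B, z ∈ V) : LUF.centerField (centerRing V B) V = centerField V B := by
  apply le_antisymm
  · rw [LUF.centerField, Subfield.closure_le]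
    rintro x ⟨⟨z, a, ha, b, hb, hb1, rfl⟩, h, rfl⟩
    have hb0 : b ≠ 0 := by
      rintro rfl
      rw [map_zero] at hb1
      exact zero_ne_one hb1
    have h' : a / b ∈ V := h
    have e : residue V ⟨a / b, h'⟩ * residue V ⟨b, hB b hb⟩ = residue V ⟨a, hB a ha⟩ := by
      rw [← map_mul]
      congr 1
      exact Subtype.ext (div_mul_cancel₀ a hb0)
    have hbu : residue V ⟨b, hB b hb⟩ ≠ 0 := by
      rw [residue_ne_zero_iff_isUnit, V.valuation_eq_one_iff]
      exact hb1
    have e2 : residue V ⟨a / b, h'⟩ = residue V ⟨a, hB a ha⟩ / residue V ⟨b, hB b hb⟩ := by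
      rw [eq_div_iff hbu]
      exact e
    change residue V ⟨a / b, h'⟩ ∈ centerField V B
    rw [e2]
    exact (centerField V B).div_mem (Subfield.subset_closure ⟨a, ha, hB a ha, rfl⟩)
      (Subfield.subset_closure ⟨b, hb, hB b hb, rfl⟩)
  · rw [centerField, Subfield.closure_le]
    rintro x ⟨z, hz, h, rfl⟩
    exact Subfield.subset_closure ⟨⟨z, le_centerRing hz⟩, h, rfl⟩

/-- Log uniformization of valuations of rank one over noetherian domains. -/
theorem logUniformizable_stmt (p : ℕ) (hp : p.Prime) (A : Type) [CommRing A] [IsDomain A]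
    [IsNoetherianRing A] (V : ValuationSubring (FractionRing A))
    (hV : ∀ a : A, algebraMap A (FractionRing A) a ∈ V) (hrank : IsCoatom V)
    (hpV : V.valuation (p : FractionRing A) < 1) (I : Ideal A) (g : A) (hg : g ∈ I)
    (hg0 : g ≠ 0) (hgmin : ∀ a ∈ I, V.valuation (algebraMap A (FractionRing A) a) ≤
      V.valuation (algebraMap A (FractionRing A) g))
    (R : Subalgebra A (FractionRing A)) (hR : R = centerRing V (chart I g))
    (hk : LUF.PerfectlyGenerated (LUF.centerField R V) ((p : A) ≠ 0))
    (hreg : LUF.RegularFormalFibre R V) (n : ℕ)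
    (hn : LUF.formalDim R V = n)
    (hdef : (n : Cardinal) ≤ compRank V ⊤ + LUF.centerDegree R V + 1) :
    LogUniformizable V := by
  subst hR
  have hB : ∀ z ∈ chart I g, z ∈ V := chart_le hV I g hg0 hgmin
  obtain ⟨k, s, hperf, hks, hmix⟩ := hk
  have e := centerField_centerRing hB
  rw [e] at hks
  have hdef' : (n : Cardinal) ≤ compRank V ⊤ +
      Algebra.trdeg (centerField V (chart I g)) (ResidueField V) + 1 := by
    rw [LUF.centerDegree, e] at hdef
    exact hdef
  exact logUniformizable_formal p hp A V hV hrank hpV I g hg hg0 hgmin k s hks hreg n hn hdef' hmix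

end Pool.Agent.LUZ
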