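import Pool.Agent.Lib.LUC.Q1

/-!
# LUZ (formal descent): log uniformization over a noetherian local ring `R` from log uniformization over
# the quotient `C` of its completion

Everything happens in a field `Ω` with a real valuation `w`, as in LUC. `R` is a noetherian local subring, `C` a subring
which is the image of a ring `Ah` (the completion of `R`) under `π : Ah → Ω`; the kernel of `π` is the implicit prime.
-/

set_option autoImplicit false

namespace Pool.Agent.LUZ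

open Pool.Agent.H15JM (RVal)
open Pool.Agent.LU1 (VPos)
open Pool.Agent.LUC

universe u

variable {Ω : Type u} [Field Ω]

/-- The ideal of `Ah` generated by the image of the ideal `(μ) R`. -/
def II (R : Subring Ω) {q : ℕ} (μ : Fin q → Ω) {Ah : Type u} [CommRing Ah] (ι : R →+* Ah) :
    Ideal Ah :=
  (idl R μ).map ι

/-- The formal data: `R` is a noetherian local ring with maximal ideal `(μ)` and field of fractions `K`, `ι : R → Ah` and
`π : Ah → Ω` behave like the completion and its quotient by the ideal of the elements of infinite value, `C` is the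
image of `π`, with field of fractions `L`. -/
structure Fml (w : RVal Ω) (R C : Subring Ω) (K L : Subfield Ω) {q : ℕ} (μ : Fin q → Ω)
    {Ah : Type u} [CommRing Ah] (ι : R →+* Ah) (π : Ah →+* Ω) : Prop where
  noeth : IsNoetherianRing R
  noethA : IsNoetherianRing Ah
  q_pos : 0 < q
  geC : ∀ c ∈ C, w.Ge 0 c
  inv : ∀ r ∈ R, r ≠ 0 → w r = 0 → r⁻¹ ∈ R
  par : Par w R μ
  quo : QuoIs R K
  quoC : QuoIs C L
  comp : ∀ r : R, π (ι r) = r
  mem : ∀ f : Ah, π f ∈ C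
  surj : ∀ c ∈ C, ∃ f : Ah, π f = c
  dense : ∀ (M : ℕ) (f : Ah), ∃ r : R, f - ι r ∈ II R μ ι ^ M
  sep : ∀ (M : ℕ) (r : R), ι r ∈ II R μ ι ^ M → r ∈ idl R μ ^ M

/-- The kernel of `π` is generated by the `η j`; near it, it is generated by the `r` elements `η (β i)`; its height is at
least `r`. -/
structure FReg {Ah : Type u} [CommRing Ah] (π : Ah →+* Ω) {l r : ℕ} (η : Fin l → Ah) (δ : Ah)
    (a : Fin l → Fin r → Ah) (β : Fin r → Fin l) : Prop where
  span : Ideal.span (Set.range η) = RingHom.ker π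
  δ_ne : π δ ≠ 0
  rel : ∀ j, δ * η j = ∑ i, a j i * η (β i)
  diag : ∀ i i', π (a (β i) i') = if i = i' then π δ else 0
  height : (r : ℕ∞) ≤ (RingHom.ker π).height

/-- The coordinates `y t = cc t / c` of the chart. -/
def yy {R : Subring Ω} {τ : ℕ} (c : R) (cc : Fin τ → R) (t : Fin τ) : Ω := (cc t : Ω) / (c : Ω)

/-- The ring `O` over `C` has parameters `z` and is the local ring of `C[y]`, `y t = cc t / c` with `c, cc t ∈ R`. -/
structure FCh (w : RVal Ω) (R C : Subring Ω) {q n τ : ℕ} (μ : Fin q → Ω) (z : Fin n → Ω)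
    (J : Finset (Fin n)) (O : Subring Ω) (c : R) (cc : Fin τ → R) : Prop where
  par : Par w O z
  ge : ∀ f ∈ O, w.Ge 0 f
  inv : ∀ f ∈ O, f ≠ 0 → w f = 0 → f⁻¹ ∈ O
  c_ne : (c : Ω) ≠ 0
  c_sm : SM w O z J (c : Ω)
  O_eq : O = lv w (adj C (Set.range (yy c cc)))
  z_mem : ∀ i, z i ∈ adj R (Set.range (yy c cc))
  μ_sm : ∀ i, SM w O z J (μ i)
  J_ne : J.Nonempty

/-- Evaluation of polynomials over `Ah` at `y`. -/
noncomputable def ev {R : Subring Ω} {Ah : Type u} [CommRing Ah] (π : Ah →+* Ω) {τ : ℕ} (c : R)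
    (cc : Fin τ → R) : MvPolynomial (Fin τ) Ah →+* Ω :=
  MvPolynomial.eval₂Hom π (yy c cc)

/-- Evaluation of polynomials over `R` at `y`. -/
noncomputable def evR {R : Subring Ω} {τ : ℕ} (c : R) (cc : Fin τ → R) :
    MvPolynomial (Fin τ) R →+* Ω :=
  MvPolynomial.eval₂Hom R.subtype (yy c cc)

/-- `F₀` over `R` is an approximation of `F` over `Ah` modulo the ideal `I`. -/
def Ap {R : Subring Ω} {Ah : Type u} [CommRing Ah] (ι : R →+* Ah) (I : Ideal Ah) {τ : ℕ}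
    (F : MvPolynomial (Fin τ) Ah) (F₀ : MvPolynomial (Fin τ) R) : Prop :=
  F - MvPolynomial.map ι F₀ ∈ I.map (MvPolynomial.C : Ah →+* MvPolynomial (Fin τ) Ah)

/-- The product of the generators of the maximal ideal of `R`. -/
def M0 {q : ℕ} (μ : Fin q → Ω) : Ω := ∏ i, μ i

/-- The monomial `G₁ = c^Φ (∏ μ)^b`. -/
def G1 {R : Subring Ω} {q : ℕ} (μ : Fin q → Ω) (c : R) (Φ b : ℕ) : Ω := (c : Ω) ^ Φ * M0 μ ^ b

/-- The constants of the construction. -/
structure FB (w : RVal Ω) (R O : Subring Ω) {q n τ l : ℕ} (μ : Fin q → Ω) {Ah : Type u}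
    [CommRing Ah] (ι : R →+* Ah) (π : Ah →+* Ω) (η : Fin l → Ah) (z : Fin n → Ω)
    (J : Finset (Fin n)) (c : R) (cc : Fin τ → R) (Φ b N₁ N' : ℕ) (η₀ : Fin l → R) : Prop where
  K0 : ∀ F : MvPolynomial (Fin τ) Ah, ev π c cc F = 0 →
    MvPolynomial.C (ι c ^ Φ) * F ∈ Ideal.span
      (Set.range (fun j => (MvPolynomial.C (η j) : MvPolynomial (Fin τ) Ah)) ∪
        Set.range fun t => MvPolynomial.C (ι c) * MvPolynomial.X t - MvPolynomial.C (ι (cc t)))
  hN₁ : ∀ φ : Fin N₁ → Fin q, ∃ s ∈ O, ∏ i, μ (φ i) = G1 μ c Φ b * (∏ j ∈ J, z j) * s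
  hN' : 4 * N₁ + 1 ≤ N'
  η₀_ne : ∀ j, η₀ j ≠ 0
  η₀_ap : ∀ j, η j - ι (η₀ j) ∈ II R μ ι ^ N'

/-- The elements `μ^φ / G₁`. -/
def bb {R : Subring Ω} {q : ℕ} (μ : Fin q → Ω) (c : R) (Φ b N₁ : ℕ) (φ : Fin N₁ → Fin q) : Ω :=
  (∏ i, μ (φ i)) / G1 μ c Φ b

/-- The elements `q j = η₀ j / G₁^3`. -/
def qq {R : Subring Ω} {q l : ℕ} (μ : Fin q → Ω) (c : R) (Φ b : ℕ) (η₀ : Fin l → R)
    (j : Fin l) : Ω :=
  (η₀ j : Ω) / G1 μ c Φ b ^ 3

/-- The generators over `R` of the ring `R[y, μ^φ / G₁, q]`. -/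
def FR {R : Subring Ω} {q τ l : ℕ} (μ : Fin q → Ω) (c : R) (cc : Fin τ → R) (Φ b N₁ : ℕ)
    (η₀ : Fin l → R) : Set Ω :=
  Set.range (yy c cc) ∪ Set.range (bb μ c Φ b N₁) ∪ Set.range (qq μ c Φ b η₀)

/-- The ring `B = lv w (R[y, μ^φ / G₁, q])`. -/
def BB (w : RVal Ω) {R : Subring Ω} {q τ l : ℕ} (μ : Fin q → Ω) (c : R) (cc : Fin τ → R)
    (Φ b N₁ : ℕ) (η₀ : Fin l → R) : Subring Ω :=
  lv w (adj R (FR μ c cc Φ b N₁ η₀))

/-- The ideal of the elements of positive value. -/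
def vI (w : RVal Ω) (B : Subring Ω) (hB : ∀ f ∈ B, w.Ge 0 f) : Ideal B where
  carrier := {f | VPos w (f : Ω)}
  add_mem' := by
    intro a b ha hb
    exact VPos.add ha hb
  zero_mem' := VPos.zero
  smul_mem' := by
    intro a b hb
    exact VPos.mul' (hB a a.2) hb

/-- The ideal of `B` generated by the elements of `S` (in `B`). -/
def idS (B : Subring Ω) (S : Set Ω) : Ideal B := Ideal.span {g : B | (g : Ω) ∈ S}

/-- `f` is in the ideal `I` of the subring `B`. -/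
def In {B : Subring Ω} (I : Ideal B) (f : Ω) : Prop := ∃ g : B, (g : Ω) = f ∧ g ∈ I

section In

variable {B : Subring Ω} {I I' : Ideal B} {f g : Ω}

theorem In.mem (h : In I f) : f ∈ B := by
  obtain ⟨g, rfl, -⟩ := h
  exact g.2

theorem In.iff_mem (h : f ∈ B) : In I f ↔ (⟨f, h⟩ : B) ∈ I := by
  constructor
  · rintro ⟨g, hg, hg'⟩
    have : (⟨f, h⟩ : B) = g := Subtype.ext hg.symm
    rwa [this]
  · intro h'
    exact ⟨_, rfl, h'⟩

theorem In.coe {g : B} : In I (g : Ω) ↔ g ∈ I := by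
  rw [In.iff_mem g.2]

theorem In.zero : In I (0 : Ω) := ⟨0, rfl, I.zero_mem⟩

theorem In.add (h : In I f) (h' : In I g) : In I (f + g) := by
  obtain ⟨a, rfl, ha⟩ := h
  obtain ⟨b, rfl, hb⟩ := h'
  exact ⟨a + b, rfl, I.add_mem ha hb⟩

theorem In.neg (h : In I f) : In I (-f) := by
  obtain ⟨a, rfl, ha⟩ := h
  exact ⟨-a, rfl, neg_mem ha⟩

theorem In.sub (h : In I f) (h' : In I g) : In I (f - g) := by
  rw [sub_eq_add_neg]
  exact h.add h'.neg

theorem In.mul_left (h : In I f) (hg : g ∈ B) : In I (g * f) := by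
  obtain ⟨a, rfl, ha⟩ := h
  exact ⟨⟨g, hg⟩ * a, rfl, I.mul_mem_left _ ha⟩

theorem In.mul_right (h : In I f) (hg : g ∈ B) : In I (f * g) := by
  rw [mul_comm]
  exact h.mul_left hg

theorem In.sum {κ : Type*} (s : Finset κ) (F : κ → Ω) (h : ∀ i ∈ s, In I (F i)) :
    In I (∑ i ∈ s, F i) := by
  classical
  induction s using Finset.induction_on with
  | empty => simpa using In.zero
  | insert a s ha ih =>
    rw [Finset.sum_insert ha]
    exact (h a (Finset.mem_insert_self a s)).add (ih fun i hi => h i (Finset.mem_insert_of_mem hi))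

theorem In.mono (hI : I ≤ I') (h : In I f) : In I' f := by
  obtain ⟨a, rfl, ha⟩ := h
  exact ⟨a, rfl, hI ha⟩

theorem In.mul (h : In I f) (h' : In I' g) : In (I * I') (f * g) := by
  obtain ⟨a, rfl, ha⟩ := h
  obtain ⟨b, rfl, hb⟩ := h'
  exact ⟨a * b, rfl, Ideal.mul_mem_mul ha hb⟩

end In

theorem idS_le {B : Subring Ω} {S : Set Ω} {I : Ideal B} (h : ∀ f ∈ S, f ∈ B → In I f) :
    idS B S ≤ I := by
  rw [idS, Ideal.span_le]
  intro g hg
  exact In.coe.1 (h g hg g.2)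

theorem In.of_mem {B : Subring Ω} {S : Set Ω} {f : Ω} (h : f ∈ S) (hB : f ∈ B) :
    In (idS B S) f :=
  ⟨⟨f, hB⟩, rfl, Ideal.subset_span h⟩

theorem in_vI {w : RVal Ω} {B : Subring Ω} {hB : ∀ f ∈ B, w.Ge 0 f} {f : Ω} :
    In (vI w B hB) f ↔ f ∈ B ∧ VPos w f := by
  constructor
  · rintro ⟨g, rfl, hg⟩
    exact ⟨g.2, hg⟩
  · rintro ⟨h, h'⟩
    exact ⟨⟨f, h⟩, rfl, h'⟩

end Pool.Agent.LUZ
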