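import Pool.Agent.Lib.LU2G.LogDefs
import Pool.Agent.Lib.LU2G.CompDefs

/-!
# The completion of a local ring dominated by a valuation ring: the definitions used in the final
# statement
-/

set_option autoImplicit false

namespace Pool.Agent.LUZ

open Pool.Agent.LU2G (centerRing)

section Defs

variable {A : Type} [CommRing A] [IsDomain A] (V : ValuationSubring (FractionRing A))
  (B : Subalgebra A (FractionRing A))

/-- The maximal ideal of the local ring `centerRing V B` of `Spec B` at the center of the valuation
ring `V ⊇ B`: the ideal of the elements of positive value. -/
def centerIdeal : Ideal (centerRing V B) :=
  Ideal.span {x | V.valuation (x : FractionRing A) < 1}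

/-- The completion of the local ring of `Spec B` at the center of the valuation ring `V ⊇ B`. -/
abbrev CenterCompletion : Type := AdicCompletion (centerIdeal V B) (centerRing V B)

/-- The implicit prime ideal of `V`: the ideal of the elements of infinite value of the completion,
that is, of the elements `f` such that the values of the elements of the local ring that are
congruent to `f` modulo the `N`-th power of the maximal ideal tend to infinity with `N`. -/
noncomputable def implicitIdeal : Ideal (CenterCompletion V B) :=
  Ideal.span {f | ∀ c : FractionRing A, c ≠ 0 → ∃ N : ℕ, ∀ r : centerRing V B,
    f - algebraMap (centerRing V B) (CenterCompletion V B) r ∈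
      (centerIdeal V B).map (algebraMap (centerRing V B) (CenterCompletion V B)) ^ N →
    V.valuation (r : FractionRing A) ≤ V.valuation c}

/-- The residue field of `Spec B` at the center of `V ⊇ B`: the subfield of the residue field of `V`
generated by the residues of the elements of `B`. -/
noncomputable def centerField : Subfield (IsLocalRing.ResidueField V) :=
  Subfield.closure {x | ∃ z ∈ B, ∃ h : z ∈ V, x = IsLocalRing.residue V ⟨z, h⟩}

end Defs

end Pool.Agent.LUZ
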