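import Pool.Agent.Lib.LUZ.Y06

/-! # W1: log uniformization over the local ring of a blowing up -/

set_option autoImplicit false

namespace Pool.Agent.LUZ

open Pool.Agent.H15JM (RVal)
open Pool.Agent.LU1 (VPos)
open Pool.Agent.LUC

universe u

variable {Ω : Type u} [Field Ω] {w : RVal Ω}

theorem LUs.of_chart {A' : Subring Ω} {L : Subfield Ω} (hA' : ∀ a ∈ A', w.Ge 0 a) (g : Ω)
    (hg : g ∈ A') (hg0 : g ≠ 0) (G : Finset Ω) (hG : ∀ x ∈ G, x ∈ A' ∧ w.Ge (w g) x)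
    (h : LUs w (lv w (adj A' ((fun x => x / g) '' (G : Set Ω)))) L) : LUs w A' L := by
  classical
  set S1 : Subring Ω := adj A' ((fun x => x / g) '' (G : Set Ω)) with hS1
  have hwg : 0 ≤ w g := hA' g hg hg0
  have hS1ge : ∀ a ∈ S1, w.Ge 0 a := by
    refine adj_nonneg hA' ?_
    rintro _ ⟨x, hx, rfl⟩
    intro h0
    have hx0 : x ≠ 0 := by
      rintro rfl
      simp at h0
    change 0 ≤ w (x / g)
    rw [w.map_div hx0 hg0]
    have := (hG x hx).2 hx0
    linarith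
  have hS : LUs w S1 L := lus_of_lv S1 hS1ge L h
  intro B hB hQ T hT
  have hAL : ∀ a ∈ A', a ∈ L := fun a ha => hQ.1 a (base_le_adj _ _ ha)
  have hgL : g ∈ L := hAL g hg
  have hBS : adj A' (B : Set Ω) ≤ adj S1 (B : Set Ω) := adj_mono (base_le_adj _ _) le_rfl
  have hQ1 : QuoIs (adj S1 (B : Set Ω)) L := by
    refine ⟨fun f hf => ?_, fun f hf => ?_⟩
    · have hle : adj S1 (B : Set Ω) ≤ L.toSubring := by
        refine adj_le ?_ fun f hf => hQ.1 f (mem_adj hf)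
        refine adj_le hAL ?_
        rintro _ ⟨x, hx, rfl⟩
        exact L.div_mem (hAL x (hG x hx).1) hgL
      exact hle hf
    · obtain ⟨a, ha, b, hb, hb0, hfab⟩ := hQ.2 f hf
      exact ⟨a, hBS ha, b, hBS hb, hb0, hfab⟩
  obtain ⟨n, z, J, O, hM, hdim⟩ := hS B hB hQ1 (insert g T) (by
    intro t ht
    rcases Finset.mem_insert.1 ht with rfl | ht
    · exact ⟨hgL, hg0⟩
    · exact hT t ht)
  have hz := hM.par.ne
  obtain ⟨g2, hg2, hg20, hg2s, G2, hG2, hO⟩ := hM.chart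
  have hadj1 : ∀ f ∈ adj S1 ((B : Set Ω) ∪ (fun x => x / g2) '' (G2 : Set Ω)), w.Ge 0 f := by
    refine adj_nonneg hS1ge ?_
    rintro f (hf | ⟨x, hx, rfl⟩)
    · exact hB f hf
    · intro h0
      have hx0 : x ≠ 0 := by
        rintro rfl
        simp at h0
      change 0 ≤ w (x / g2)
      rw [w.map_div hx0 hg20]
      have := (hG2 x hx).2 hx0
      linarith
  have hO0 : ∀ f ∈ O, w.Ge 0 f := by
    rw [hO]
    exact lv_nonneg hadj1
  have hOinv : ∀ f ∈ O, f ≠ 0 → w f = 0 → f⁻¹ ∈ O := by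
    rw [hO]
    exact fun f => lv_inv
  have hSO : S1 ≤ O := by
    rw [hO]
    exact (base_le_adj _ _).trans (le_lv w _)
  have hBO : ∀ a ∈ B, a ∈ O := by
    intro a ha
    rw [hO]
    exact le_lv w _ (mem_adj (Or.inl ha))
  have hAB : ∀ a ∈ adj A' (B : Set Ω), w.Ge 0 a := adj_nonneg hA' fun f hf => hB f hf
  have hgs : SM w O z J g := hM.mono g (Finset.mem_coe.2 (Finset.mem_insert_self g T))
  -- the quotients with monomial denominators
  have hinv : g⁻¹ ∈ QM w O z J hz (adj A' (B : Set Ω)) hAB :=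
    qm_inv hOinv (le_QM (base_le_adj _ _ hg)) hwg hgs
  have hS1Q : S1 ≤ QM w O z J hz (adj A' (B : Set Ω)) hAB := by
    refine adj_le ((base_le_adj _ _).trans le_QM) ?_
    rintro _ ⟨x, hx, rfl⟩
    change x / g ∈ QM w O z J hz (adj A' (B : Set Ω)) hAB
    rw [div_eq_mul_inv]
    exact mul_mem (le_QM (base_le_adj _ _ (hG x hx).1)) hinv
  have hSBQ : adj S1 (B : Set Ω) ≤ QM w O z J hz (adj A' (B : Set Ω)) hAB :=
    adj_le hS1Q fun f hf => le_QM (mem_adj hf)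
  have hSB0 : ∀ f ∈ adj S1 (B : Set Ω), w.Ge 0 f := adj_nonneg hS1ge fun f hf => hB f hf
  have hinv2 : g2⁻¹ ∈ QM w O z J hz (adj A' (B : Set Ω)) hAB :=
    qm_inv hOinv (hSBQ hg2) (hSB0 g2 hg2 hg20) hg2s
  have hFR : O = lv w (adj A' ((((G.image fun x => x / g) ∪ (B ∪ G2.image fun x => x / g2) :
      Finset Ω)) : Set Ω)) := by
    rw [hO, hS1, adj_adj]
    congr 2
    rw [Finset.coe_union, Finset.coe_union, Finset.coe_image, Finset.coe_image]
  refine ⟨n, z, J, O, ⟨hM.par, ?_, fun t ht => hM.mono t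
    (Finset.mem_coe.2 (Finset.mem_insert_of_mem (Finset.mem_coe.1 ht)))⟩, hdim⟩
  refine chart_of (hz := hz) hOinv hO0 B hAB hBO
    ((G.image fun x => x / g) ∪ (B ∪ G2.image fun x => x / g2)) hFR ?_
  intro f hf
  rcases Finset.mem_union.1 hf with hf | hf
  · obtain ⟨x, hx, rfl⟩ := Finset.mem_image.1 hf
    rw [div_eq_mul_inv]
    exact mul_mem (le_QM (base_le_adj _ _ (hG x hx).1)) hinv
  rcases Finset.mem_union.1 hf with hf | hf
  · exact le_QM (mem_adj hf)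
  · obtain ⟨x, hx, rfl⟩ := Finset.mem_image.1 hf
    rw [div_eq_mul_inv]
    exact mul_mem (hSBQ (hG2 x hx).1) hinv2

end Pool.Agent.LUZ
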