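import Pool.Agent.Lib.LUC.Loc
import Pool.Agent.Lib.LUC.Q1

/-! # Y06: from the local ring to the ring

Recipe. `S = lv w A'`. Given `B` (finite) and `T`: `QuoIs (adj A' B) L` gives `QuoIs (adj S B) L` (`S ⊆ L`: quotients of elements of `A'`). Apply `h`: `IsMod w S B T z J O`, `g, G`. Every element `f` of `adj S B` is `f' / u`, `f' ∈ adj A' B`, `u ∈ A'`, `u ≠ 0`, `w u = 0`
(`adj_induction`); common `u` for `g` and all `y ∈ G`: `g' = g u`, `y' = y u`, `y' / g' = y / g`; `g'` is a strong monomial (`SM.mul_unit`: `u ∈ O`). `O = lv w (adj S (B ∪ G / g)) = lv w (adj A' (B ∪ G' / g'))` by `lv_adj_lv`. -/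

set_option autoImplicit false

namespace Pool.Agent.LUZ

open Pool.Agent.H15JM (RVal)
open Pool.Agent.LU1 (VPos)
open Pool.Agent.LUC

universe u

variable {Ω : Type u} [Field Ω] {w : RVal Ω}

/-- Elements of `adj (lv w A') F` have denominators of value zero in `A'`. -/
private theorem exists_den (A' : Subring Ω) {F : Set Ω} {f : Ω} (hf : f ∈ adj (lv w A') F) :
    ∃ u ∈ A', u ≠ 0 ∧ w u = 0 ∧ f * u ∈ adj A' F := by
  refine adj_induction (p := fun f => ∃ u ∈ A', u ≠ 0 ∧ w u = 0 ∧ f * u ∈ adj A' F) ?_ ?_ ?_ ?_ hf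
  · rintro f ⟨a, ha, b, hb, hb0, hvb, rfl⟩
    refine ⟨b, hb, hb0, hvb, ?_⟩
    rw [div_mul_cancel₀ _ hb0]
    exact base_le_adj A' F ha
  · intro f hf
    refine ⟨1, A'.one_mem, one_ne_zero, w.map_one, ?_⟩
    rw [mul_one]
    exact mem_adj hf
  · rintro f g ⟨u, hu, hu0, hvu, hfu⟩ ⟨v, hv, hv0, hvv, hgv⟩
    refine ⟨u * v, A'.mul_mem hu hv, mul_ne_zero hu0 hv0, by rw [w.map_mul hu0 hv0, hvu, hvv, add_zero], ?_⟩
    have e : (f + g) * (u * v) = (f * u) * v + (g * v) * u := by ring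
    rw [e]
    exact add_mem (mul_mem hfu (base_le_adj A' F hv)) (mul_mem hgv (base_le_adj A' F hu))
  · rintro f g ⟨u, hu, hu0, hvu, hfu⟩ ⟨v, hv, hv0, hvv, hgv⟩
    refine ⟨u * v, A'.mul_mem hu hv, mul_ne_zero hu0 hv0, by rw [w.map_mul hu0 hv0, hvu, hvv, add_zero], ?_⟩
    have e : (f * g) * (u * v) = (f * u) * (g * v) := by ring
    rw [e]
    exact mul_mem hfu hgv

private theorem exists_den_finset (A' : Subring Ω) {F : Set Ω} (G : Finset Ω)
    (hG : ∀ y ∈ G, y ∈ adj (lv w A') F) :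
    ∃ u ∈ A', u ≠ 0 ∧ w u = 0 ∧ ∀ y ∈ G, y * u ∈ adj A' F := by
  classical
  induction G using Finset.induction_on with
  | empty => exact ⟨1, A'.one_mem, one_ne_zero, w.map_one, fun y hy => absurd hy (Finset.notMem_empty y)⟩
  | insert a G _ ih =>
    obtain ⟨u, hu, hu0, hvu, hGu⟩ := ih fun y hy => hG y (Finset.mem_insert_of_mem hy)
    obtain ⟨v, hv, hv0, hvv, hav⟩ := exists_den A' (hG a (Finset.mem_insert_self a G))
    refine ⟨u * v, A'.mul_mem hu hv, mul_ne_zero hu0 hv0, by rw [w.map_mul hu0 hv0, hvu, hvv, add_zero], ?_⟩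
    intro y hy
    rcases Finset.mem_insert.1 hy with rfl | hy
    · have e : y * (u * v) = (y * v) * u := by ring
      rw [e]
      exact mul_mem hav (base_le_adj A' F hu)
    · have e : y * (u * v) = (y * u) * v := by ring
      rw [e]
      exact mul_mem (hGu y hy) (base_le_adj A' F hv)

theorem lus_of_lv (A' : Subring Ω) (hA' : ∀ a ∈ A', w.Ge 0 a) (L : Subfield Ω)
    (h : LUs w (lv w A') L) : LUs w A' L := by
  classical
  intro A hA hQ T hT
  have hQ' : QuoIs (adj (lv w A') (A : Set Ω)) L := by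
    refine ⟨fun f hf => ?_, fun f hf => ?_⟩
    · have hle : adj (lv w A') (A : Set Ω) ≤ L.toSubring := by
        refine adj_le ?_ fun f hf => hQ.1 f (mem_adj hf)
        rintro f ⟨a, ha, b, hb, -, -, rfl⟩
        exact L.div_mem (hQ.1 a (base_le_adj A' _ ha)) (hQ.1 b (base_le_adj A' _ hb))
      exact hle hf
    · obtain ⟨a, ha, b, hb, hb0, hfab⟩ := hQ.2 f hf
      exact ⟨a, adj_mono (le_lv w A') le_rfl ha, b, adj_mono (le_lv w A') le_rfl hb, hb0, hfab⟩
  obtain ⟨n, z, J, O, hM, hdim⟩ := h A hA hQ' T hT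
  refine ⟨n, z, J, O, ⟨hM.par, ?_, hM.mono⟩, hdim⟩
  obtain ⟨g, hg, hg0, hgs, G, hG, hO⟩ := hM.chart
  obtain ⟨u, hu, hu0, hvu, hGu⟩ := exists_den_finset A' (insert g G) (F := (A : Set Ω)) (by
    intro y hy
    rcases Finset.mem_insert.1 hy with rfl | hy
    · exact hg
    · exact (hG y hy).1)
  have huO : u ∈ O := by
    rw [hO]
    exact le_lv w _ (base_le_adj _ _ (le_lv w A' hu))
  have hvg : w (g * u) = w g := by rw [w.map_mul hg0 hu0, hvu, add_zero]
  refine ⟨g * u, hGu g (Finset.mem_insert_self g G), mul_ne_zero hg0 hu0,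
    SM.mul_unit hM.par.ne hgs huO hu0 hvu, G.image (fun y => y * u), ?_, ?_⟩
  · intro x hx
    obtain ⟨y, hy, rfl⟩ := Finset.mem_image.1 hx
    refine ⟨hGu y (Finset.mem_insert_of_mem hy), ?_⟩
    rw [hvg]
    have h1 := (hG y hy).2.mul (RVal.ge_self (v := w) u)
    rw [hvu, add_zero] at h1
    exact h1
  · have e : (fun x => x / (g * u)) '' ((G.image (fun y => y * u) : Finset Ω) : Set Ω) =
        (fun x => x / g) '' (G : Set Ω) := by
      rw [Finset.coe_image, Set.image_image]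
      apply Set.image_congr
      intro y _
      exact mul_div_mul_right y g hu0
    rw [e, hO, lv_adj_lv]

end Pool.Agent.LUZ
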