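import Pool.Agent.Lib.LUZ.Y08c

/-! # Y08e: the residue field at the center -/

set_option autoImplicit false

namespace Pool.Agent.LUZ

open IsLocalRing
open Pool.Agent.LU2G (centerRing chart)

section Residue

variable {A : Type} [CommRing A] [IsDomain A] {V : ValuationSubring (FractionRing A)}
  {B : Subalgebra A (FractionRing A)}

/-- The homomorphism of the local ring to the residue field of `V`. -/
noncomputable def resMap (hB : ∀ z ∈ B, z ∈ V) : centerRing V B →+* ResidueField V :=
  (residue V).comp ((algebraMap (centerRing V B) (FractionRing A)).codRestrict V (centerRing_le hB))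

theorem resMap_apply (hB : ∀ z ∈ B, z ∈ V) (r : centerRing V B) :
    resMap hB r = residue V ⟨algebraMap (centerRing V B) (FractionRing A) r,
      centerRing_le hB r⟩ := rfl

theorem resMap_eq_zero (hB : ∀ z ∈ B, z ∈ V) (r : centerRing V B) :
    resMap hB r = 0 ↔ V.valuation (r : FractionRing A) < 1 := by
  rw [resMap_apply, residue_eq_zero_iff, V.valuation_lt_one_iff]
  rfl

theorem resMap_mem (hB : ∀ z ∈ B, z ∈ V) (r : centerRing V B) :
    resMap hB r ∈ centerField V B := by
  obtain ⟨a, ha, b, hb, hb1, hr⟩ := r.2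
  have h1 : resMap hB ⟨a, le_centerRing ha⟩ ∈ centerField V B :=
    Subfield.subset_closure ⟨a, ha, hB a ha, rfl⟩
  have h2 : resMap hB ⟨b, le_centerRing hb⟩ ∈ centerField V B :=
    Subfield.subset_closure ⟨b, hb, hB b hb, rfl⟩
  have hb0 : resMap hB ⟨b, le_centerRing hb⟩ ≠ 0 := by
    rw [Ne, resMap_eq_zero]
    exact fun h => h.ne hb1
  have hb0' : b ≠ 0 := by
    rintro rfl
    rw [map_zero] at hb1
    exact zero_ne_one hb1
  have h3 : resMap hB r = resMap hB ⟨a, le_centerRing ha⟩ / resMap hB ⟨b, le_centerRing hb⟩ := by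
    rw [eq_div_iff hb0, ← map_mul]
    congr 1
    apply Subtype.ext
    change (r : FractionRing A) * b = a
    rw [hr, div_mul_cancel₀ _ hb0']
  rw [h3]
  exact div_mem h1 h2

theorem exists_resMap (hB : ∀ z ∈ B, z ∈ V) {x : ResidueField V} (hx : x ∈ centerField V B) :
    ∃ r : centerRing V B, resMap hB r = x := by
  have hle : centerField V B ≤
      { (resMap hB).range with
        inv_mem' := by
          rintro _ ⟨r, rfl⟩
          by_cases h : resMap hB r = 0
          · rw [h, inv_zero]
            exact (resMap hB).range.zero_mem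
          · have h1 : IsUnit r := by
              refine isUnit_centerRing r (le_antisymm
                ((V.valuation_le_one_iff _).2 (centerRing_le hB r)) ?_)
              rw [resMap_eq_zero, not_lt] at h
              exact h
            obtain ⟨r', hr'⟩ := h1.exists_right_inv
            refine ⟨r', ?_⟩
            refine eq_inv_of_mul_eq_one_right ?_
            rw [← map_mul, hr', map_one] } := by
    refine (Subfield.closure_le).2 ?_
    rintro _ ⟨z, hz, h, rfl⟩
    exact ⟨⟨z, le_centerRing hz⟩, rfl⟩
  exact hle hx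

/-- The residue field of the local ring. -/
theorem exists_center_residue (hB : ∀ z ∈ B, z ∈ V) [IsLocalRing (centerRing V B)] :
    ∃ e : ResidueField (centerRing V B) ≃+* centerField V B,
      ∀ r : centerRing V B, ((e (residue _ r) : centerField V B) : ResidueField V) =
        resMap hB r := by
  let f : centerRing V B →+* centerField V B := (resMap hB).codRestrict _ (resMap_mem hB)
  have hloc : IsLocalHom f := by
    refine ⟨fun a ha => ?_⟩
    rw [isUnit_centerRing_iff hB]
    refine le_antisymm ((V.valuation_le_one_iff _).2 (centerRing_le hB a)) ?_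
    by_contra h
    have h1 : resMap hB a = 0 := (resMap_eq_zero hB a).2 (not_le.1 h)
    exact ha.ne_zero (Subtype.ext h1)
  refine ⟨RingEquiv.ofBijective (ResidueField.lift f) ⟨(ResidueField.lift f).injective, ?_⟩,
    fun r => ?_⟩
  · rintro ⟨x, hx⟩
    obtain ⟨r, hr⟩ := exists_resMap hB hx
    refine ⟨residue _ r, ?_⟩
    rw [ResidueField.lift_residue_apply]
    exact Subtype.ext hr
  · change ((ResidueField.lift f (residue _ r) : centerField V B) : ResidueField V) = _
    rw [ResidueField.lift_residue_apply]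
    rfl

/-- Monic polynomials over the local ring. -/
theorem exists_monic2 (hB : ∀ z ∈ B, z ∈ V)
    (halg : Algebra.IsAlgebraic (centerField V B) (ResidueField V)) (x : FractionRing A)
    (hx : x ∈ V) : ∃ P : Polynomial (centerRing V B), P.Monic ∧
      V.valuation (Polynomial.aeval x P) < 1 := by
  let f : centerRing V B →+* centerField V B := (resMap hB).codRestrict _ (resMap_mem hB)
  have hsurj : Function.Surjective f := by
    rintro ⟨y, hy⟩
    obtain ⟨r, hr⟩ := exists_resMap hB hy
    exact ⟨r, Subtype.ext hr⟩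
  have hint : IsIntegral (centerField V B) (residue V ⟨x, hx⟩) :=
    (halg.isAlgebraic _).isIntegral
  obtain ⟨P, hP, -, hPm⟩ := Polynomial.lifts_and_natDegree_eq_and_monic
    ((Polynomial.mem_lifts _).2 (Polynomial.map_surjective f hsurj
      (minpoly (centerField V B) (residue V ⟨x, hx⟩)))) (minpoly.monic hint)
  refine ⟨P, hPm, ?_⟩
  let φ : centerRing V B →+* V :=
    (algebraMap (centerRing V B) (FractionRing A)).codRestrict V (centerRing_le hB)
  have h1 : Polynomial.aeval x P = ((Polynomial.eval₂ φ ⟨x, hx⟩ P : V) : FractionRing A) := by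
    have h := Polynomial.hom_eval₂ P φ V.subtype ⟨x, hx⟩
    rw [Polynomial.aeval_def]
    exact h.symm
  have h2 : residue V (Polynomial.eval₂ φ ⟨x, hx⟩ P) = 0 := by
    rw [Polynomial.hom_eval₂]
    have h3 := minpoly.aeval (centerField V B) (residue V ⟨x, hx⟩)
    rw [← hP, Polynomial.aeval_def, Polynomial.eval₂_map] at h3
    exact h3
  rw [h1, ← V.valuation_lt_one_iff, ← residue_eq_zero_iff]
  exact h2

/-- A finitely generated field. -/
theorem essFiniteType_of_closure {F : Type} [Field F] (k L : Subfield F) (hkL : k ≤ L)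
    (s : Finset F) (h : Subfield.closure ((k : Set F) ∪ s) = L) :
    @Algebra.EssFiniteType k L _ _ (Subfield.inclusion hkL).toAlgebra := by
  classical
  let _ : Algebra k L := (Subfield.inclusion hkL).toAlgebra
  have hs : ∀ x ∈ s, x ∈ L := fun x hx => by
    rw [← h]
    exact Subfield.subset_closure (Or.inr hx)
  rw [Algebra.essFiniteType_iff]
  let σ : Finset L := s.attach.image fun x => ⟨x.1, hs x.1 x.2⟩
  have key : ∀ x ∈ Subring.closure ((k : Set F) ∪ s), ∃ y ∈ Algebra.adjoin k (σ : Set L),
      (y : F) = x := by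
    intro x hx
    induction hx using Subring.closure_induction with
    | mem x hx =>
      rcases hx with hx | hx
      · exact ⟨algebraMap k L ⟨x, hx⟩, Subalgebra.algebraMap_mem _ _, rfl⟩
      · refine ⟨⟨x, hs x hx⟩, Algebra.subset_adjoin ?_, rfl⟩
        exact Finset.mem_coe.2 (Finset.mem_image.2 ⟨⟨x, hx⟩, Finset.mem_attach _ _, rfl⟩)
    | zero => exact ⟨0, Subalgebra.zero_mem _, rfl⟩
    | one => exact ⟨1, Subalgebra.one_mem _, rfl⟩
    | add x y _ _ hx hy =>
      obtain ⟨a, ha, rfl⟩ := hx
      obtain ⟨b, hb, rfl⟩ := hy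
      exact ⟨a + b, Subalgebra.add_mem _ ha hb, rfl⟩
    | neg x _ hx =>
      obtain ⟨a, ha, rfl⟩ := hx
      exact ⟨-a, Subalgebra.neg_mem _ ha, rfl⟩
    | mul x y _ _ hx hy =>
      obtain ⟨a, ha, rfl⟩ := hx
      obtain ⟨b, hb, rfl⟩ := hy
      exact ⟨a * b, Subalgebra.mul_mem _ ha hb, rfl⟩
  refine ⟨σ, fun x => ?_⟩
  have hx : (x : F) ∈ Subfield.closure ((k : Set F) ∪ s) := by
    rw [h]
    exact x.2
  rw [Subfield.mem_closure_iff] at hx
  obtain ⟨y, hy, z, hz, hyz⟩ := hx
  obtain ⟨y', hy', rfl⟩ := key y hy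
  obtain ⟨z', hz', rfl⟩ := key z hz
  by_cases hz0 : z' = 0
  · refine ⟨1, Subalgebra.one_mem _, isUnit_one, ?_⟩
    have : x = 0 := by
      apply Subtype.ext
      rw [← hyz, hz0]
      simp
    rw [this, zero_mul]
    exact Subalgebra.zero_mem _
  · refine ⟨z', hz', isUnit_iff_ne_zero.2 hz0, ?_⟩
    have : x * z' = y' := by
      apply Subtype.ext
      change (x : F) * (z' : F) = y'
      rw [← hyz, div_mul_cancel₀]
      exact fun h => hz0 (Subtype.ext h)
    rw [this]
    exact hy'

end Residue

end Pool.Agent.LUZ
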