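import Pool.Agent.Lib.LUZ.Y08a
import Pool.Agent.Lib.LUZ.Y08e
import Pool.Agent.Lib.LUZ.Y06
import Pool.Agent.Lib.LUZ.W1
import Pool.Agent.Lib.LUC.H1
import Pool.Agent.Lib.LUM.C03
import Pool.Agent.Lib.LUM.Final

/-! # The final theorem -/

set_option autoImplicit false

namespace Pool.Agent.LUZ

open IsLocalRing
open Pool.Agent.H15JM (RVal)
open Pool.Agent.LU1 (VPos)
open Pool.Agent.LU2 (IsR1 IndVal IndRes Rel vring rel_vring)
open Pool.Agent.LU2G (centerRing chart compRank LogUniformizable)
open Pool.Agent.LUC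

universe u

/-- The elements of infinite value, in terms of the valuation ring. -/
def implV {R K : Type u} [CommRing R] [Field K] [Algebra R K] (V : ValuationSubring K)
    (m : Ideal R) : Set (AdicCompletion m R) :=
  {f | ∀ c : K, c ≠ 0 → ∃ N : ℕ, ∀ r : R,
    f - algebraMap R (AdicCompletion m R) r ∈ m.map (algebraMap R (AdicCompletion m R)) ^ N →
    V.valuation (algebraMap R K r) ≤ V.valuation c}

theorem implV_eq {R K : Type u} [CommRing R] [IsLocalRing R] [Field K] [Algebra R K]
    {V : ValuationSubring K} {v : RVal K} (hrel : Rel V v) (hR : IsR1 V) :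
    implV V (maximalIdeal R) = impl v := by
  ext f
  constructor
  · intro h B
    obtain ⟨x1, hx1⟩ := LU2.indVal_one hR.1
    have h1 := hrel.indVal_iff.1 hx1
    have h2 : v (x1 0) ≠ 0 := h1.2.ne_zero 0
    obtain ⟨c, hc0, hc⟩ : ∃ c : K, c ≠ 0 ∧ 0 < v c := by
      rcases lt_or_gt_of_ne h2 with h4 | h4
      · refine ⟨(x1 0)⁻¹, inv_ne_zero (h1.1 0), ?_⟩
        rw [v.map_inv (h1.1 0)]
        linarith
      · exact ⟨x1 0, h1.1 0, h4⟩
    obtain ⟨n, hn⟩ := exists_nat_gt (B / v c)
    obtain ⟨N, hN⟩ := h (c ^ n) (pow_ne_zero n hc0)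
    refine ⟨N, fun r hr h0 => ?_⟩
    have h3 := (hrel.le_iff h0 (pow_ne_zero n hc0)).1 (hN r hr)
    rw [v.map_pow hc0] at h3
    rw [div_lt_iff₀ hc] at hn
    linarith
  · intro h c hc
    obtain ⟨N, hN⟩ := h (v c)
    refine ⟨N, fun r hr => ?_⟩
    by_cases h0 : algebraMap R K r = 0
    · rw [h0, map_zero]
      exact zero_le
    · exact (hrel.le_iff h0 hc).2 (hN r hr h0)

theorem lus_local2' (p : ℕ) (hp : p.Prime) {R K k : Type u} [CommRing R] [IsDomain R]
    [IsLocalRing R] [IsNoetherianRing R] [Field k] [PerfectField k] (ι : k →+* ResidueField R)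
    (hfg : @Algebra.EssFiniteType k (ResidueField R) _ _ ι.toAlgebra)
    [Field K] [Algebra R K] [IsFractionRing R K] {V : ValuationSubring K}
    {v : RVal K} (hR : IsR1 V) (hrel : Rel V v) (hge : ∀ r : R, algebraMap R K r ∈ V)
    (𝔪 : Ideal R) (h𝔪 : 𝔪 = maximalIdeal R)
    (hpos : ∀ r ∈ 𝔪, V.valuation (algebraMap R K r) < 1)
    (hm : 𝔪 ≠ ⊥) (hpm : (p : R) ∈ 𝔪)
    (hreg : ∀ Q : Ideal (AdicCompletion 𝔪 R), ∀ _ : Q.IsPrime,
      Q.comap (algebraMap R (AdicCompletion 𝔪 R)) = ⊥ →
      IsRegularLocalRing (Localization.AtPrime Q)) {m : ℕ}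
    (hdim : ringKrullDim (AdicCompletion 𝔪 R ⧸ Ideal.span (implV (K := K) V 𝔪)) = m) {r d : ℕ}
    (a : Fin r → K) (ha : IndVal V a) (b : Fin d → K) (hb : ∀ i, b i ∈ V)
    (hb' : ∀ P : MvPolynomial (Fin d) R, V.valuation (MvPolynomial.aeval b P) < 1 →
      ∀ α, P.coeff α ∈ 𝔪)
    (hdef : m ≤ r + d + 1)
    (hmix : (p : R) ≠ 0 → d = 0 ∧ PerfectField (ResidueField R) ∧
      ∀ x ∈ V, ∃ P : Polynomial R, P.Monic ∧ V.valuation (Polynomial.aeval x P) < 1) :
    ∃ (Ω : Type u) (_ : Field Ω) (w : RVal Ω) (j : K →+* Ω), (∀ x : K, x ≠ 0 → w (j x) = v x) ∧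
      LUs w (j.comp (algebraMap R K)).range j.fieldRange := by
  subst h𝔪
  refine lus_local2 p hp ι hfg hR hrel hge hpos hm hpm hreg
    (Ideal.span (implV (K := K) V (maximalIdeal R))) (fun f => ?_) hdim a ha b hb hb' hdef hmix
  obtain ⟨Ω, i0, w, π, j, -, -, -, -, h5, -⟩ := exists_hat (R := R) v
    (fun r => (hrel.mem_iff _).1 (hge r)) (fun r hr => (hrel.lt_one_iff' _).1 (hpos r hr)) hm
  rw [implV_eq hrel hR]
  have h6 : (impl v : Set (Hat R)) = (RingHom.ker π : Set (Hat R)) := by
    ext g
    rw [SetLike.mem_coe, RingHom.mem_ker, h5]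
  rw [h6, Ideal.span_eq]
  rfl

/-- Elements with independent residues over a subfield `F` of the residue field. -/
theorem exists_indep2 {R K : Type u} [CommRing R] [Field K] [Algebra R K]
    (V : ValuationSubring K) (hV : ∀ r : R, algebraMap R K r ∈ V)
    (F : Subfield (ResidueField V)) (hF : ∀ r : R, residue V ⟨algebraMap R K r, hV r⟩ ∈ F)
    {d : ℕ} (hd : (d : Cardinal) ≤ Algebra.trdeg F (ResidueField V)) :
    ∃ b : Fin d → K, (∀ i, b i ∈ V) ∧ ∀ P : MvPolynomial (Fin d) R,
      V.valuation (MvPolynomial.aeval b P) < 1 →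
        ∀ α, V.valuation (algebraMap R K (P.coeff α)) < 1 := by
  obtain ⟨ι, y, hy⟩ := exists_isTranscendenceBasis' F (ResidueField V)
  have hcard : (d : Cardinal) ≤ Cardinal.mk ι := by
    refine le_trans hd ?_
    rw [hy.cardinalMk_eq_trdeg]
  obtain ⟨j⟩ : Nonempty (Fin d ↪ ι) := by
    have h1 : Cardinal.lift.{u, 0} (Cardinal.mk (Fin d)) ≤ Cardinal.lift.{0, u} (Cardinal.mk ι) := by
      simpa using hcard
    exact Cardinal.lift_mk_le'.1 h1
  have hres : ∀ i, ∃ a : V, residue V a = y (j i) := fun i => residue_surjective _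
  choose z hz using hres
  have hind : AlgebraicIndependent F (fun i => y (j i)) := hy.1.comp _ j.injective
  refine ⟨fun i => (z i : K), fun i => (z i).2, fun P hP α => ?_⟩
  let φ : R →+* V := (algebraMap R K).codRestrict V hV
  let ψ : R →+* F := ((residue V).comp φ).codRestrict F hF
  have h1 : MvPolynomial.aeval (fun i => (z i : K)) P =
      ((MvPolynomial.eval₂ φ z P : V) : K) := by
    have h := MvPolynomial.map_eval₂Hom φ z V.subtype P
    rw [MvPolynomial.aeval_def]
    refine Eq.trans ?_ h.symm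
    have hc : (V.subtype.comp φ) = algebraMap R K := by
      ext c
      rfl
    rw [MvPolynomial.coe_eval₂Hom, hc]
    rfl
  have h2 : residue V (MvPolynomial.eval₂ φ z P) = 0 := by
    rw [residue_eq_zero_iff, V.valuation_lt_one_iff, ← h1]
    exact hP
  have h3 : MvPolynomial.aeval (fun i => y (j i)) (MvPolynomial.map ψ P) = 0 := by
    rw [← h2]
    have h := MvPolynomial.map_eval₂Hom φ z (residue V) P
    rw [MvPolynomial.aeval_def, MvPolynomial.eval₂_map]
    refine Eq.trans ?_ h.symm
    rw [MvPolynomial.coe_eval₂Hom]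
    have h4 : (fun i => y (j i)) = fun i => residue V (z i) := funext fun i => (hz i).symm
    have h5 : (algebraMap F (ResidueField V)).comp ψ = (residue V).comp φ := by
      ext r
      rfl
    rw [h4, h5]
  have h4 := (injective_iff_map_eq_zero _).1 hind _ h3
  have h5 := congrArg (MvPolynomial.coeff α) h4
  rw [MvPolynomial.coeff_map, MvPolynomial.coeff_zero] at h5
  have h6 : residue V (φ (P.coeff α)) = 0 := congrArg (Subtype.val : F → ResidueField V) h5
  rw [residue_eq_zero_iff, V.valuation_lt_one_iff] at h6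
  exact h6

section Final

variable {A : Type} [CommRing A] [IsDomain A] {V : ValuationSubring (FractionRing A)}

/-- Log uniformization over the local ring of a chart. -/
theorem exists_lus_center (p : ℕ) (hp : p.Prime) (B : Subalgebra A (FractionRing A))
    [IsNoetherianRing B] (hB : ∀ z ∈ B, z ∈ V) (hR : IsR1 V) {v : RVal (FractionRing A)}
    (hrel : Rel V v) (hpV : V.valuation (p : FractionRing A) < 1)
    (k : Subfield (ResidueField V)) [PerfectField k] (s : Finset (ResidueField V))
    (hk : Subfield.closure ((k : Set (ResidueField V)) ∪ s) = centerField V B)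
    (hreg : ∀ Q : Ideal (CenterCompletion V B), ∀ _ : Q.IsPrime,
      Q.comap (algebraMap (centerRing V B) (CenterCompletion V B)) = ⊥ →
      IsRegularLocalRing (Localization.AtPrime Q))
    (m : ℕ) (hm : ringKrullDim (CenterCompletion V B ⧸ implicitIdeal V B) = m)
    (hdef : (m : Cardinal) ≤ compRank V ⊤ +
      Algebra.trdeg (centerField V B) (ResidueField V) + 1)
    (hmix : (p : A) ≠ 0 → Algebra.IsAlgebraic k (ResidueField V)) :
    ∃ (Ω : Type) (_ : Field Ω) (w : RVal Ω) (j : FractionRing A →+* Ω),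
      (∀ x : FractionRing A, x ≠ 0 → w (j x) = v x) ∧
      LUs w (j.comp (algebraMap (centerRing V B) (FractionRing A))).range j.fieldRange := by
  have i1 : IsLocalRing (centerRing V B) := isLocalRing_center hB
  have i2 : IsNoetherianRing (centerRing V B) := isNoetherian_center
  have i3 : IsFractionRing (centerRing V B) (FractionRing A) := isFractionRing_center
  have hpos : ∀ r ∈ centerIdeal V B, V.valuation
      (algebraMap (centerRing V B) (FractionRing A) r) < 1 := by
    intro r hr
    rw [centerIdeal_eq hB] at hr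
    exact (mem_max_center hB r).1 hr
  have hmem : ∀ r : centerRing V B, V.valuation (r : FractionRing A) < 1 →
      r ∈ centerIdeal V B := fun r hr => Ideal.subset_span hr
  have hbot : centerIdeal V B ≠ ⊥ := by
    intro h0
    apply hR.1
    rw [eq_top_iff]
    intro x _
    obtain ⟨a, b, hb, rfl⟩ := IsFractionRing.div_surjective (A := centerRing V B) x
    have hb1 : V.valuation (algebraMap (centerRing V B) (FractionRing A) b) = 1 := by
      refine le_antisymm ((V.valuation_le_one_iff _).2 (centerRing_le hB b)) ?_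
      by_contra hcon
      have h1 := hmem b (not_le.1 hcon)
      rw [h0, Ideal.mem_bot] at h1
      exact nonZeroDivisors.ne_zero hb h1
    rw [← V.valuation_le_one_iff, map_div₀, hb1, div_one]
    exact (V.valuation_le_one_iff _).2 (centerRing_le hB a)
  have hpm : ((p : ℕ) : centerRing V B) ∈ centerIdeal V B :=
    hmem _ (by push_cast; exact hpV)
  -- the residue field
  have hkF : k ≤ centerField V B := by
    rw [← hk]
    exact fun x hx => Subfield.subset_closure (Or.inl hx)
  obtain ⟨e, he⟩ := exists_center_residue hB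
  let ι : k →+* ResidueField (centerRing V B) := e.symm.toRingHom.comp (Subfield.inclusion hkF)
  have hfg : @Algebra.EssFiniteType k (ResidueField (centerRing V B)) _ _ ι.toAlgebra := by
    let j1 : Algebra k (centerField V B) := (Subfield.inclusion hkF).toAlgebra
    let j2 : Algebra k (ResidueField (centerRing V B)) := ι.toAlgebra
    have j3 : Algebra.EssFiniteType k (centerField V B) := essFiniteType_of_closure k _ hkF s hk
    exact (Algebra.EssFiniteType.iff_of_algEquiv (R := k)
      (AlgEquiv.ofRingEquiv (f := e.symm) fun _ => rfl)).1 j3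
  -- the invariants
  obtain ⟨r, d, hr, hd, hrd⟩ := LU2G.exists_nat_split (δ := 1) (T := (m : Cardinal))
    Cardinal.natCast_lt_aleph0 (by exact_mod_cast hdef)
  have hrd : m ≤ r + d + 1 := by exact_mod_cast hrd
  obtain ⟨a, -, ha⟩ := LU2G.exists_units V ⊤ hr
  obtain ⟨b, hb, hb'⟩ := exists_indep2 V (centerRing_le hB) (centerField V B)
    (fun r => resMap_mem hB r) hd
  refine lus_local2' p hp ι hfg hR hrel (centerRing_le hB) (centerIdeal V B)
    (centerIdeal_eq hB) hpos hbot hpm hreg hm a ha b hb (fun P hP α => hmem _ (hb' P hP α))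
    hrd fun h => ?_
  have hp0 : (p : A) ≠ 0 := fun h0 => h (by
    have h1 := congrArg (algebraMap A (centerRing V B)) h0
    rwa [map_natCast, map_zero] at h1)
  have halg := hmix hp0
  let j1 : Algebra k (centerField V B) := (Subfield.inclusion hkF).toAlgebra
  have j2 : IsScalarTower k (centerField V B) (ResidueField V) :=
    IsScalarTower.of_algebraMap_eq fun _ => rfl
  have h1 : Algebra.IsAlgebraic (centerField V B) (ResidueField V) :=
    Algebra.IsAlgebraic.tower_top (K := k) (centerField V B)
  have h2 : Algebra.IsAlgebraic k (centerField V B) :=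
    Algebra.IsAlgebraic.tower_bot k (centerField V B) (ResidueField V)
  have h3 : PerfectField (centerField V B) := Algebra.IsAlgebraic.perfectField (K := k)
  refine ⟨?_, PerfectField.of_ringEquiv e.symm, exists_monic2 hB h1⟩
  have h4 : Algebra.trdeg (centerField V B) (ResidueField V) = 0 := trdeg_eq_zero_iff.2 h1
  rw [h4] at hd
  have hd' : d ≤ 0 := by exact_mod_cast hd
  omega

/-- Log uniformization of valuations of rank one over noetherian domains. -/
theorem logUniformizable_formal (p : ℕ) (hp : p.Prime) (A : Type) [CommRing A] [IsDomain A]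
    [IsNoetherianRing A] (V : ValuationSubring (FractionRing A))
    (hV : ∀ a : A, algebraMap A (FractionRing A) a ∈ V) (hrank : IsCoatom V)
    (hpV : V.valuation (p : FractionRing A) < 1) (I : Ideal A) (g : A) (hg : g ∈ I)
    (hg0 : g ≠ 0) (hgmin : ∀ a ∈ I, V.valuation (algebraMap A (FractionRing A) a) ≤
      V.valuation (algebraMap A (FractionRing A) g))
    (k : Subfield (ResidueField V)) [PerfectField k] (s : Finset (ResidueField V))
    (hk : Subfield.closure ((k : Set (ResidueField V)) ∪ s) = centerField V (chart I g))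
    (hreg : ∀ Q : Ideal (CenterCompletion V (chart I g)), ∀ _ : Q.IsPrime,
      Q.comap (algebraMap (centerRing V (chart I g)) (CenterCompletion V (chart I g))) = ⊥ →
      IsRegularLocalRing (Localization.AtPrime Q))
    (m : ℕ)
    (hm : ringKrullDim (CenterCompletion V (chart I g) ⧸ implicitIdeal V (chart I g)) = m)
    (hdef : (m : Cardinal) ≤ compRank V ⊤ +
      Algebra.trdeg (centerField V (chart I g)) (ResidueField V) + 1)
    (hmix : (p : A) ≠ 0 → Algebra.IsAlgebraic k (ResidueField V)) :
    LogUniformizable V := by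
  classical
  have hR : IsR1 V := by
    refine ⟨hrank.1, fun W hW => ?_⟩
    rcases hW.eq_or_lt with h1 | h1
    · exact Or.inl h1.symm
    · exact Or.inr (hrank.2 W h1)
  obtain ⟨v, hrel, -⟩ := hR.exists_real
  have hrel : Rel V v := hrel
  have hB : ∀ z ∈ chart I g, z ∈ V := chart_le hV I g hg0 hgmin
  have i0 : IsNoetherianRing (chart I g) := isNoetherian_chart I g
  obtain ⟨Ω, i1, w, j, hval, hLU⟩ := exists_lus_center p hp (chart I g) hB hR hrel hpV k s hk
    hreg m hm hdef hmix
  let i4 : Algebra (FractionRing A) Ω := j.toAlgebra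
  let i5 : Algebra A Ω := (j.comp (algebraMap A (FractionRing A))).toAlgebra
  have i6 : IsScalarTower A (FractionRing A) Ω := IsScalarTower.of_algebraMap_eq fun _ => rfl
  have hVw : ∀ f : FractionRing A, f ∈ V ↔ w.Ge 0 (algebraMap (FractionRing A) Ω f) := by
    intro f
    rw [hrel.mem_iff]
    constructor
    · intro h1 h0
      have h2 := (map_ne_zero j).1 h0
      change 0 ≤ w (j f)
      rw [hval f h2]
      exact h1 h2
    · intro h1 h0
      rw [← hval f h0]
      exact h1 ((map_ne_zero j).2 h0)
  have hA' : ∀ a ∈ (algebraMap A Ω).range, w.Ge 0 a := by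
    rintro _ ⟨a, rfl⟩
    exact (hVw _).1 (hV a)
  obtain ⟨F, hF, hchart⟩ := exists_chart_eq I g
  have hg' : algebraMap A Ω g ≠ 0 := by
    intro h
    have h1 : algebraMap A (FractionRing A) g = 0 := (map_eq_zero j).1 h
    exact hg0 (IsFractionRing.injective A (FractionRing A) (h1.trans (map_zero _).symm))
  have hv : ∀ a ∈ I, w.Ge (w (algebraMap A Ω g)) (algebraMap A Ω a) := by
    intro a ha
    have h1 : algebraMap A (FractionRing A) g ≠ 0 := fun h =>
      hg0 (IsFractionRing.injective A (FractionRing A) (h.trans (map_zero _).symm))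
    exact (F2.val_le_iff hVw _ h1).1 (hgmin a ha)
  have himg : (fun x => x / algebraMap A Ω g) '' ((F.image (algebraMap A Ω) : Finset Ω) : Set Ω) =
      algebraMap (FractionRing A) Ω '' ((fun a => algebraMap A (FractionRing A) a /
        algebraMap A (FractionRing A) g) '' (F : Set A)) := by
    rw [Finset.coe_image, Set.image_image, Set.image_image]
    refine Set.image_congr fun a _ => ?_
    change _ = j _
    rw [map_div₀]
    rfl
  have hlv : lv w (adj (algebraMap A Ω).range ((fun x => x / algebraMap A Ω g) ''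
      ((F.image (algebraMap A Ω) : Finset Ω) : Set Ω))) =
      (j.comp (algebraMap (centerRing V (chart I g)) (FractionRing A))).range := by
    rw [himg, F2.map_adjoin, ← hchart, F2.map_locV hVw]
    ext x
    constructor
    · rintro ⟨z, hz, rfl⟩
      exact ⟨⟨z, hz⟩, rfl⟩
    · rintro ⟨z, rfl⟩
      exact ⟨z, z.2, rfl⟩
  have hfin : LUs w (algebraMap A Ω).range (algebraMap (FractionRing A) Ω).fieldRange := by
    refine LUs.of_chart hA' (algebraMap A Ω g) ⟨g, rfl⟩ hg' (F.image (algebraMap A Ω)) ?_ ?_
    · intro x hx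
      obtain ⟨a, ha, rfl⟩ := Finset.mem_image.1 hx
      exact ⟨⟨a, rfl⟩, hv a (hF a ha)⟩
    · rw [hlv]
      exact hLU
  exact LUM.logUniformizable_of_LU A A V hV (LUrV.lu (LUs.lurV hVw hV hfin))

end Final

end Pool.Agent.LUZ

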