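import Pool.Agent.Lib.LUZ.YDefs
import Pool.Agent.Lib.LCD.B1s

/-! # Y00: density and separation of the completion of a noetherian local ring

Recipes. Mathlib: `AdicCompletion.evalₐ`, kernel of `eval n` = `I^n • ⊤` = `(I.map algebraMap)^n` for finitely generated `I` (`AdicCompletion.pow_smul_top_eq_ker_eval`, used in
`Mathlib/RingTheory/AdicCompletion/LocalRing.lean`). `hat_dense`: `eval N f = mk r`. `hat_sep`: `algebraMap r ∈ hatI^M` has `eval M = 0`, i.e. `r ∈ m^M`. `hat_isNoetherian`: `exists_powerSeries_surj R (Hat R) (hatI R) x` (`Pool.Agent.LCD`, file `LCD/B1s.lean` = lcd_B1s.lean of the store, also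
lcd_B1.lean) for `x` the images of generators of the maximal ideal, `IsAdicComplete (hatI R) (Hat R)` by `AdicCompletion.isAdicComplete_self`; `MvPowerSeries (Fin n) R` is noetherian (Mathlib instance), `isNoetherianRing_of_surjective`. -/

set_option autoImplicit false

namespace Pool.Agent.LUZ

universe u

variable {R : Type u} [CommRing R] [IsLocalRing R] [IsNoetherianRing R]

private theorem mem_hatI_pow (N : ℕ) (x : Hat R) :
    x ∈ hatI R ^ N ↔ AdicCompletion.eval (IsLocalRing.maximalIdeal R) R N x = 0 := by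
  rw [hatI, ← Ideal.map_pow, ← Submodule.restrictScalars_mem R, ← Ideal.smul_top_eq_map,
    AdicCompletion.pow_smul_top_eq_ker_eval
      (IsLocalRing.maximalIdeal R).fg_of_isNoetherianRing, LinearMap.mem_ker]

theorem hat_dense (N : ℕ) (f : Hat R) : ∃ r : R, f - algebraMap R (Hat R) r ∈ hatI R ^ N := by
  obtain ⟨r, hr⟩ := Submodule.Quotient.mk_surjective _
    (AdicCompletion.eval (IsLocalRing.maximalIdeal R) R N f)
  refine ⟨r, ?_⟩
  rw [mem_hatI_pow, map_sub, ← hr, AdicCompletion.algebraMap_apply, AdicCompletion.eval_of]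
  exact sub_self _

theorem hat_sep (M : ℕ) (r : R) (h : algebraMap R (Hat R) r ∈ hatI R ^ M) :
    r ∈ IsLocalRing.maximalIdeal R ^ M := by
  rw [mem_hatI_pow, AdicCompletion.algebraMap_apply, AdicCompletion.eval_of] at h
  have h1 := (Submodule.Quotient.mk_eq_zero _).1 h
  rwa [smul_eq_mul, Ideal.mul_top] at h1

omit [IsLocalRing R] [IsNoetherianRing R] in
private theorem map_span_range {S : Type*} [CommRing S] (f : R →+* S) {n : ℕ} (s : Fin n → R)
    (I : Ideal R) (hs : Submodule.span R (Set.range s) = I) :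
    I.map f = Ideal.span (Set.range fun i => f (s i)) := by
  subst hs
  change Ideal.map _ (Ideal.span (Set.range s)) = _
  rw [Ideal.map_span, ← Set.range_comp]
  rfl

theorem hat_isNoetherian : IsNoetherianRing (Hat R) := by
  obtain ⟨n, s, hs⟩ := Submodule.fg_iff_exists_fin_generating_family.1
    (IsLocalRing.maximalIdeal R).fg_of_isNoetherianRing
  have hI : hatI R = Ideal.span (Set.range fun i => algebraMap R (Hat R) (s i)) :=
    map_span_range _ s _ hs
  have hc : IsAdicComplete (hatI R) (Hat R) :=
    AdicCompletion.isAdicComplete_self _ (IsLocalRing.maximalIdeal R).fg_of_isNoetherianRing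
  obtain ⟨φ, -, hφ⟩ := Pool.Agent.LCD.exists_powerSeries_surj R (Hat R) (hatI R)
    (fun i => algebraMap R (Hat R) (s i)) hI (fun a => by
      obtain ⟨r, hr⟩ := hat_dense 1 a
      exact ⟨r, by rwa [pow_one] at hr⟩)
  exact isNoetherianRing_of_surjective _ _ φ.toRingHom hφ

end Pool.Agent.LUZ
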