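import Pool.Agent.Lib.LUZ.Y00

/-! # Y01: the extension of the valuation to the completion

Recipe (S1 of the paper). `ε > 0` with `v.Ge ε r` for `r ∈ m` (`m` finitely generated, generators of positive value; `m ≠ 0` gives a generator which is not 0), so `v.Ge (N ε) r` for `r ∈ m^N`. For `f : Hat R` choose `r_N` with
`f - r_N ∈ hatI^N` (`hat_dense`); two such approximations differ by an element of `m^N` (`hat_sep`). DICHOTOMY: either for some `N` and `r` with `f - r ∈ hatI^N` one has `r ≠ 0`, `v r < N ε`, and then all closer approximations `r'` have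
`v r' = v r` (`RVal.add_of_lt`); or all approximations modulo `hatI^N` satisfy `v.Ge (N ε)`, i.e. `f ∈ impl v`. `val f` = the common value for `f ∉ impl v`: multiplicative (approximation of a product by the product), and
`val (f + g) ≥ min`. So `impl v` is (the set of elements of) a prime ideal `H` (`1 ∉ H`; `f g ∈ H` implies `f ∈ H` or `g ∈ H` by multiplicativity). `Ω = FractionRing (Hat R ⧸ H)`, `w (a / b) = val a - val b`
(well defined; build an `RVal` from a function on `Hat R` not in `H`; there may be a constructor of `RVal` of a fraction field from a domain in `LU1_h15` or `LU2_h15`, search `exists_extVal`, `RVal` in `JM_H15`). `j : K → Ω`: `R → Hat R ⧸ H` is injective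
(`r ∈ impl v` with `r ≠ 0` is impossible: `r` is an approximation of itself), `IsFractionRing.lift`. Density: `x = π a / π b`, `a₀, b₀ ∈ R` close to `a, b`: `x - j (a₀ / b₀) = (a b₀ - a₀ b) / (b b₀)`. -/

set_option autoImplicit false

namespace Pool.Agent.LUZ

open Pool.Agent.H15JM (RVal)
open Pool.Agent.LU1 (VPos)
open Pool.Agent.LUC

universe u

section aux

variable {R K : Type u} [CommRing R] [IsLocalRing R] [IsNoetherianRing R] [Field K] [Algebra R K]

/-- `r` is an approximation of `f`. -/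
private def Apx (N : ℕ) (f : Hat R) (r : R) : Prop :=
  f - algebraMap R (Hat R) r ∈ hatI R ^ N

private theorem Apx.diff {N : ℕ} {f : Hat R} {r s : R} (h : Apx N f r) (h' : Apx N f s) :
    s - r ∈ IsLocalRing.maximalIdeal R ^ N := by
  refine hat_sep N _ ?_
  have h1 := Ideal.sub_mem _ h h'
  rwa [sub_sub_sub_cancel_left, ← map_sub] at h1

omit [IsNoetherianRing R] in
private theorem Apx.mul {N : ℕ} {f g : Hat R} {r s : R} (h : Apx N f r) (h' : Apx N g s) :
    Apx N (f * g) (r * s) := by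
  have h1 : f * g - algebraMap R (Hat R) (r * s) = f * (g - algebraMap R (Hat R) s) +
      (f - algebraMap R (Hat R) r) * algebraMap R (Hat R) s := by
    rw [map_mul]
    ring
  unfold Apx
  rw [h1]
  exact Ideal.add_mem _ (Ideal.mul_mem_left _ _ h') (Ideal.mul_mem_right _ _ h)

omit [IsNoetherianRing R] in
private theorem Apx.add {N : ℕ} {f g : Hat R} {r s : R} (h : Apx N f r) (h' : Apx N g s) :
    Apx N (f + g) (r + s) := by
  unfold Apx
  rw [map_add, add_sub_add_comm]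
  exact Ideal.add_mem _ h h'

omit [IsNoetherianRing R] in
private theorem Apx.anti {M N : ℕ} (hMN : M ≤ N) {f : Hat R} {r : R} (h : Apx N f r) :
    Apx M f r := Ideal.pow_le_pow_right hMN h

omit [IsNoetherianRing R] in
private theorem Apx.self (N : ℕ) (r : R) : Apx N (algebraMap R (Hat R) r) r := by
  unfold Apx
  rw [sub_self]
  exact Ideal.zero_mem _

/-- The value of `f` is `γ`. -/
private def PV (v : RVal K) (f : Hat R) (γ : ℝ) : Prop :=
  ∃ N : ℕ, ∀ r : R, Apx N f r → algebraMap R K r ≠ 0 ∧ v (algebraMap R K r) = γ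

private theorem add_ge {v : RVal K} {x d : K} {c : ℝ} (hx : x ≠ 0) (hd : v.Ge c d)
    (h : v x < c) : x + d ≠ 0 ∧ v (x + d) = v x := by
  by_cases h0 : d = 0
  · rw [h0, add_zero]
    exact ⟨hx, rfl⟩
  · exact v.add_of_lt hx h0 (h.trans_le (hd h0))

omit [IsNoetherianRing R] in
private theorem PV.at_level {v : RVal K} {f : Hat R} {γ : ℝ} (h : PV v f γ) :
    ∃ N : ℕ, ∀ M, N ≤ M → ∀ r : R, Apx M f r →
      algebraMap R K r ≠ 0 ∧ v (algebraMap R K r) = γ := by
  obtain ⟨N, hN⟩ := h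
  exact ⟨N, fun M hM r hr => hN r (hr.anti hM)⟩

private theorem PV.uniq {v : RVal K} {f : Hat R} {γ δ : ℝ} (h : PV v f γ) (h' : PV v f δ) :
    γ = δ := by
  obtain ⟨N, hN⟩ := h.at_level
  obtain ⟨M, hM⟩ := h'.at_level
  obtain ⟨r, hr⟩ := hat_dense (max N M) f
  rw [← (hN _ (le_max_left N M) r hr).2, ← (hM _ (le_max_right N M) r hr).2]

omit [IsNoetherianRing R] in
private theorem impl_level {v : RVal K} {f : Hat R} (h : f ∈ impl v) (B : ℝ) :
    ∃ N : ℕ, ∀ M, N ≤ M → ∀ r : R, Apx M f r → v.Ge B (algebraMap R K r) := by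
  obtain ⟨N, hN⟩ := h B
  exact ⟨N, fun M hM r hr => hN r (hr.anti hM)⟩

private theorem PV.not_impl {v : RVal K} {f : Hat R} {γ : ℝ} (h : PV v f γ) : f ∉ impl v := by
  intro hf
  obtain ⟨N, hN⟩ := h.at_level
  obtain ⟨M, hM⟩ := impl_level hf (γ + 1)
  obtain ⟨r, hr⟩ := hat_dense (max N M) f
  obtain ⟨h1, h2⟩ := hN _ (le_max_left N M) r hr
  have h3 := hM _ (le_max_right N M) r hr h1
  linarith

variable {v : RVal K} {ε : ℝ} (hε : 0 < ε)
  (hI : ∀ N : ℕ, ∀ r ∈ IsLocalRing.maximalIdeal R ^ N, v.Ge (N * ε) (algebraMap R K r))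

include hI in
private theorem PV.lift {N : ℕ} {f : Hat R} {r : R} (h : Apx N f r)
    (hr : algebraMap R K r ≠ 0) (hv : v (algebraMap R K r) < N * ε) :
    PV v f (v (algebraMap R K r)) := by
  refine ⟨N, fun s hs => ?_⟩
  have h1 := add_ge hr (hI N _ (h.diff hs)) hv
  rwa [map_sub, add_sub_cancel] at h1

include hε in
private theorem exists_level (B : ℝ) : ∃ N : ℕ, ∀ M : ℕ, N ≤ M → B < M * ε := by
  obtain ⟨N, hN⟩ := exists_nat_gt (B / ε)
  refine ⟨N, fun M hM => ?_⟩
  rw [div_lt_iff₀ hε] at hN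
  refine hN.trans_le (mul_le_mul_of_nonneg_right ?_ hε.le)
  exact_mod_cast hM

include hε hI in
private theorem dich (f : Hat R) : f ∈ impl v ∨ ∃ γ, PV v f γ := by
  by_cases h : f ∈ impl v
  · exact Or.inl h
  · right
    simp only [impl, Set.mem_ofPred_eq] at h
    push Not at h
    obtain ⟨B, hB⟩ := h
    obtain ⟨N, hN⟩ := exists_level hε B
    obtain ⟨r, hr, hr'⟩ := hB N
    unfold RVal.Ge at hr'
    push Not at hr'
    exact ⟨_, PV.lift hI hr hr'.1 (hr'.2.trans (hN N le_rfl))⟩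

include hε hI in
private theorem PV.mul {f g : Hat R} {γ δ : ℝ} (hf : PV v f γ) (hg : PV v g δ) :
    PV v (f * g) (γ + δ) := by
  obtain ⟨N₁, h₁⟩ := hf.at_level
  obtain ⟨N₂, h₂⟩ := hg.at_level
  obtain ⟨N₃, h₃⟩ := exists_level hε (γ + δ)
  obtain ⟨N, hN⟩ : ∃ N, N = max (max N₁ N₂) N₃ := ⟨_, rfl⟩
  have e1 : N₁ ≤ N := by rw [hN]; exact (le_max_left _ _).trans (le_max_left _ _)
  have e2 : N₂ ≤ N := by rw [hN]; exact (le_max_right _ _).trans (le_max_left _ _)
  have e3 : N₃ ≤ N := by rw [hN]; exact le_max_right _ _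
  obtain ⟨r, hr⟩ := hat_dense N f
  obtain ⟨s, hs⟩ := hat_dense N g
  obtain ⟨r0, rv⟩ := h₁ N e1 r hr
  obtain ⟨s0, sv⟩ := h₂ N e2 s hs
  have h4 : algebraMap R K (r * s) ≠ 0 := by rw [map_mul]; exact mul_ne_zero r0 s0
  have h5 : v (algebraMap R K (r * s)) = γ + δ := by rw [map_mul, v.map_mul r0 s0, rv, sv]
  rw [← h5]
  refine PV.lift hI (Apx.mul hr hs) h4 ?_
  rw [h5]
  exact h₃ N e3

include hε hI in
private theorem impl_mul {f : Hat R} (g : Hat R) (hge : ∀ r : R, v.Ge 0 (algebraMap R K r))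
    (hf : f ∈ impl v) : g * f ∈ impl v := by
  intro B
  obtain ⟨N₁, h₁⟩ := impl_level hf B
  obtain ⟨N₂, h₂⟩ := exists_level hε B
  refine ⟨max N₁ N₂, fun s hs => ?_⟩
  obtain ⟨r, hr⟩ := hat_dense (max N₁ N₂) f
  obtain ⟨t, ht⟩ := hat_dense (max N₁ N₂) g
  have h3 : s = t * r + (s - t * r) := by ring
  rw [h3, map_add, map_mul]
  refine RVal.Ge.add ?_ ((hI _ _ ((Apx.mul ht hr).diff hs)).mono (h₂ _ (le_max_right _ _)).le)
  have h4 := (hge t).mul (h₁ _ (le_max_left _ _) r hr)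
  rwa [zero_add] at h4

include hε hI in
private theorem impl_add {f g : Hat R} (hf : f ∈ impl v) (hg : g ∈ impl v) :
    f + g ∈ impl v := by
  intro B
  obtain ⟨N₁, h₁⟩ := impl_level hf B
  obtain ⟨N₂, h₂⟩ := impl_level hg B
  obtain ⟨N₃, h₃⟩ := exists_level hε B
  obtain ⟨N, hN⟩ : ∃ N, N = max (max N₁ N₂) N₃ := ⟨_, rfl⟩
  have e1 : N₁ ≤ N := by rw [hN]; exact (le_max_left _ _).trans (le_max_left _ _)
  have e2 : N₂ ≤ N := by rw [hN]; exact (le_max_right _ _).trans (le_max_left _ _)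
  have e3 : N₃ ≤ N := by rw [hN]; exact le_max_right _ _
  refine ⟨N, fun s hs => ?_⟩
  obtain ⟨r, hr⟩ := hat_dense N f
  obtain ⟨t, ht⟩ := hat_dense N g
  have h4 : s = r + t + (s - (r + t)) := by ring
  rw [h4, map_add, map_add]
  exact ((h₁ N e1 r hr).add (h₂ N e2 t ht)).add
    ((hI _ _ ((Apx.add hr ht).diff hs)).mono (h₃ N e3).le)

include hε hI in
private theorem impl_zero : (0 : Hat R) ∈ impl v := by
  intro B
  obtain ⟨N, hN⟩ := exists_level hε B
  refine ⟨N, fun r hr => ?_⟩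
  have h0 : Apx N (0 : Hat R) (0 : R) := by
    have := Apx.self N (0 : R)
    rwa [map_zero] at this
  have h1 := h0.diff hr
  rw [sub_zero] at h1
  exact (hI _ _ h1).mono (hN N le_rfl).le

include hε hI in
private theorem PV.add_impl {f g : Hat R} {γ : ℝ} (hf : f ∈ impl v) (hg : PV v g γ) :
    PV v (f + g) γ := by
  obtain ⟨N₁, h₁⟩ := impl_level hf (γ + 1)
  obtain ⟨N₂, h₂⟩ := hg.at_level
  obtain ⟨N₃, h₃⟩ := exists_level hε γ
  obtain ⟨N, hN⟩ : ∃ N, N = max (max N₁ N₂) N₃ := ⟨_, rfl⟩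
  have e1 : N₁ ≤ N := by rw [hN]; exact (le_max_left _ _).trans (le_max_left _ _)
  have e2 : N₂ ≤ N := by rw [hN]; exact (le_max_right _ _).trans (le_max_left _ _)
  have e3 : N₃ ≤ N := by rw [hN]; exact le_max_right _ _
  obtain ⟨r, hr⟩ := hat_dense N f
  obtain ⟨t, ht⟩ := hat_dense N g
  obtain ⟨t0, tv⟩ := h₂ N e2 t ht
  have h4 := add_ge t0 (h₁ N e1 r hr) (by rw [tv]; linarith)
  rw [← map_add, add_comm t r, tv] at h4
  rw [← h4.2]
  refine PV.lift hI (Apx.add hr ht) h4.1 ?_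
  rw [h4.2]
  exact h₃ N e3

include hε hI in
private theorem PV.of_base {r : R} (hr : algebraMap R K r ≠ 0) :
    PV v (algebraMap R (Hat R) r) (v (algebraMap R K r)) := by
  obtain ⟨N, hN⟩ := exists_level hε (v (algebraMap R K r))
  exact PV.lift hI (Apx.self N r) hr (hN N le_rfl)

private theorem PV.add_le {f g : Hat R} {γ δ θ : ℝ} (hf : PV v f γ) (hg : PV v g δ)
    (hfg : PV v (f + g) θ) : min γ δ ≤ θ := by
  obtain ⟨N₁, h₁⟩ := hf.at_level
  obtain ⟨N₂, h₂⟩ := hg.at_level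
  obtain ⟨N₃, h₃⟩ := hfg.at_level
  obtain ⟨N, hN⟩ : ∃ N, N = max (max N₁ N₂) N₃ := ⟨_, rfl⟩
  have e1 : N₁ ≤ N := by rw [hN]; exact (le_max_left _ _).trans (le_max_left _ _)
  have e2 : N₂ ≤ N := by rw [hN]; exact (le_max_right _ _).trans (le_max_left _ _)
  have e3 : N₃ ≤ N := by rw [hN]; exact le_max_right _ _
  obtain ⟨r, hr⟩ := hat_dense N f
  obtain ⟨t, ht⟩ := hat_dense N g
  obtain ⟨r0, rv⟩ := h₁ N e1 r hr
  obtain ⟨t0, tv⟩ := h₂ N e2 t ht
  obtain ⟨u0, uv⟩ := h₃ N e3 _ (Apx.add hr ht)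
  rw [← rv, ← tv, ← uv]
  rw [map_add] at u0 ⊢
  exact v.map_add r0 t0 u0

private theorem PV.nonneg (hge : ∀ r : R, v.Ge 0 (algebraMap R K r)) {f : Hat R} {γ : ℝ}
    (hf : PV v f γ) : 0 ≤ γ := by
  obtain ⟨N, hN⟩ := hf
  obtain ⟨r, hr⟩ := hat_dense N f
  obtain ⟨r0, rv⟩ := hN r hr
  rw [← rv]
  exact hge r r0

include hI in
private theorem PV.ge_of_mem {M : ℕ} {f : Hat R} {γ : ℝ} (hf : PV v f γ)
    (hM : f ∈ hatI R ^ M) : M * ε ≤ γ := by
  obtain ⟨N, hN⟩ := hf.at_level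
  obtain ⟨r, hr⟩ := hat_dense (max N M) f
  obtain ⟨r0, rv⟩ := hN _ (le_max_left N M) r hr
  have h0 : Apx M f 0 := by
    unfold Apx
    rw [map_zero, sub_zero]
    exact hM
  have h1 := h0.diff (Apx.anti (le_max_right N M) hr)
  rw [sub_zero] at h1
  rw [← rv]
  exact hI M r h1 r0

end aux

/-- The minimum of finitely many positive values. -/
private theorem exists_eps {K : Type u} [Field K] (v : RVal K) (s : Finset K)
    (hs : ∀ x ∈ s, VPos v x) : ∃ ε : ℝ, 0 < ε ∧ ∀ x ∈ s, v.Ge ε x := by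
  classical
  induction s using Finset.induction_on with
  | empty => exact ⟨1, one_pos, fun x hx => absurd hx (Finset.notMem_empty x)⟩
  | insert a s ha ih =>
    obtain ⟨ε, h1, h2⟩ := ih fun x hx => hs x (Finset.mem_insert_of_mem hx)
    by_cases h0 : a = 0
    · refine ⟨ε, h1, fun x hx => ?_⟩
      rcases Finset.mem_insert.1 hx with rfl | hx
      · rw [h0]
        exact RVal.Ge.zero
      · exact h2 x hx
    · refine ⟨min ε (v a), lt_min h1 (hs a (Finset.mem_insert_self a s) h0), fun x hx => ?_⟩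
      rcases Finset.mem_insert.1 hx with rfl | hx
      · exact fun _ => min_le_right _ _
      · exact (h2 x hx).mono (min_le_left _ _)

theorem exists_hat {R K : Type u} [CommRing R] [IsDomain R] [IsLocalRing R] [IsNoetherianRing R]
    [Field K] [Algebra R K] [IsFractionRing R K] (v : RVal K)
    (hge : ∀ r : R, v.Ge 0 (algebraMap R K r))
    (hpos : ∀ r ∈ IsLocalRing.maximalIdeal R, VPos v (algebraMap R K r))
    (hm : IsLocalRing.maximalIdeal R ≠ ⊥) :
    ∃ (Ω : Type u) (_ : Field Ω) (w : RVal Ω) (π : Hat R →+* Ω) (j : K →+* Ω),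
      (∀ r : R, π (algebraMap R (Hat R) r) = j (algebraMap R K r)) ∧
      (∀ x : K, x ≠ 0 → w (j x) = v x) ∧
      (∀ x : Ω, ∃ a b, π b ≠ 0 ∧ x = π a / π b) ∧
      (∀ f, w.Ge 0 (π f)) ∧ (∀ f, π f = 0 ↔ f ∈ impl v) ∧
      ∀ (x : Ω) (B : ℝ), ∃ y : K, w.Ge B (x - j y) := by
  classical
  -- the powers of the maximal ideal
  obtain ⟨ε, hε, hI⟩ : ∃ ε : ℝ, 0 < ε ∧ ∀ N : ℕ, ∀ r ∈ IsLocalRing.maximalIdeal R ^ N,
      v.Ge (N * ε) (algebraMap R K r) := by
    obtain ⟨s, hs⟩ := (IsNoetherian.noetherian (IsLocalRing.maximalIdeal R) :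
      (IsLocalRing.maximalIdeal R).FG)
    obtain ⟨ε, hε, h1⟩ := exists_eps v (s.image (algebraMap R K)) (by
      intro x hx
      obtain ⟨r, hr, rfl⟩ := Finset.mem_image.1 hx
      refine hpos r ?_
      rw [← hs]
      exact Submodule.subset_span hr)
    have h2 : ∀ r ∈ IsLocalRing.maximalIdeal R, v.Ge ε (algebraMap R K r) := by
      intro r hr
      rw [← hs] at hr
      refine Submodule.span_induction (p := fun r _ => v.Ge ε (algebraMap R K r)) ?_ ?_ ?_ ?_ hr
      · intro x hx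
        exact h1 _ (Finset.mem_image_of_mem _ hx)
      · rw [map_zero]
        exact RVal.Ge.zero
      · intro x y _ _ hx hy
        rw [map_add]
        exact hx.add hy
      · intro a x _ hx
        rw [smul_eq_mul, map_mul]
        have := (hge a).mul hx
        rwa [zero_add] at this
    refine ⟨ε, hε, fun N => ?_⟩
    induction N with
    | zero =>
      intro r _
      rw [Nat.cast_zero, zero_mul]
      exact hge r
    | succ N ih =>
      intro r hr
      rw [pow_succ] at hr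
      refine Submodule.mul_induction_on (C := fun r : R => v.Ge ((N + 1 : ℕ) * ε)
        (algebraMap R K r)) hr ?_ ?_
      · intro a ha b hb
        rw [map_mul]
        have := (ih a ha).mul (h2 b hb)
        have e : ((N + 1 : ℕ) : ℝ) * ε = N * ε + ε := by push_cast; ring
        rw [e]
        exact this
      · intro a b ha hb
        rw [map_add]
        exact ha.add hb
  have hR0 : ∀ r : R, algebraMap R K r = 0 ↔ r = 0 := by
    intro r
    rw [map_eq_zero_iff _ (IsFractionRing.injective R K)]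
  -- the implicit prime
  let H : Ideal (Hat R) :=
    { carrier := impl v
      add_mem' := fun ha hb => impl_add hε hI ha hb
      zero_mem' := impl_zero hε hI
      smul_mem' := fun c x hx => impl_mul hε hI c hge hx }
  have hH : ∀ f, f ∈ H ↔ f ∈ impl v := fun _ => Iff.rfl
  have h1P : PV v (1 : Hat R) 0 := by
    have := PV.of_base (v := v) hε hI (r := (1 : R)) (by rw [map_one]; exact one_ne_zero)
    rwa [map_one, map_one, v.map_one] at this
  have hHp : H.IsPrime := by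
    refine ⟨?_, ?_⟩
    · rw [Ideal.ne_top_iff_one]
      exact h1P.not_impl
    · intro a b hab
      rcases dich (v := v) hε hI a with ha | ⟨γ, ha⟩
      · exact Or.inl ha
      · rcases dich (v := v) hε hI b with hb | ⟨δ, hb⟩
        · exact Or.inr hb
        · exact absurd hab (PV.mul hε hI ha hb).not_impl
  have hdom : IsDomain (Hat R ⧸ H) := Ideal.Quotient.isDomain H
  let Ω := FractionRing (Hat R ⧸ H)
  let π : Hat R →+* Ω := (algebraMap (Hat R ⧸ H) Ω).comp (Ideal.Quotient.mk H)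
  have hπ : ∀ f, π f = 0 ↔ f ∈ impl v := by
    intro f
    change algebraMap (Hat R ⧸ H) Ω (Ideal.Quotient.mk H f) = 0 ↔ _
    rw [map_eq_zero_iff _ (IsFractionRing.injective (Hat R ⧸ H) Ω), Ideal.Quotient.eq_zero_iff_mem]
    exact hH f
  have hπP : ∀ {f : Hat R} {γ : ℝ}, PV v f γ → π f ≠ 0 := fun hf h0 => hf.not_impl ((hπ _).1 h0)
  have hPπ : ∀ {f : Hat R}, π f ≠ 0 → ∃ γ, PV v f γ := by
    intro f hf
    rcases dich (v := v) hε hI f with h1 | h1
    · exact absurd ((hπ f).2 h1) hf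
    · exact h1
  have hfrac : ∀ x : Ω, ∃ a b, π b ≠ 0 ∧ x = π a / π b := by
    intro x
    obtain ⟨a, b, hb, rfl⟩ := IsFractionRing.div_surjective (A := Hat R ⧸ H) x
    obtain ⟨a, rfl⟩ := Ideal.Quotient.mk_surjective a
    obtain ⟨b, rfl⟩ := Ideal.Quotient.mk_surjective b
    refine ⟨a, b, ?_, rfl⟩
    intro h0
    have h1 : Ideal.Quotient.mk H b = 0 := by
      rw [Ideal.Quotient.eq_zero_iff_mem]
      exact (hπ b).1 h0
    exact nonZeroDivisors.ne_zero hb h1
  -- the values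
  let QV : Ω → ℝ → Prop := fun x γ => ∃ (a b : Hat R) (α β : ℝ), PV v a α ∧ PV v b β ∧
    x = π a / π b ∧ γ = α - β
  have hQu : ∀ {x : Ω} {γ δ : ℝ}, QV x γ → QV x δ → γ = δ := by
    rintro x γ δ ⟨a, b, α, β, ha, hb, hx, rfl⟩ ⟨a', b', α', β', ha', hb', hx', rfl⟩
    have h1 : π (a * b' - a' * b) = 0 := by
      rw [hx, div_eq_div_iff (hπP hb) (hπP hb')] at hx'
      rw [map_sub, map_mul, map_mul, hx', sub_self]
    have h2 := PV.add_impl hε hI ((hπ _).1 h1) (PV.mul hε hI ha' hb)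
    rw [sub_add_cancel] at h2
    have h3 := h2.uniq (PV.mul hε hI ha hb')
    linarith
  have hQe : ∀ {x : Ω}, x ≠ 0 → ∃ γ, QV x γ := by
    intro x hx
    obtain ⟨a, b, hb, rfl⟩ := hfrac x
    obtain ⟨α, hα⟩ := hPπ (f := a) (by
      intro h0
      rw [h0, zero_div] at hx
      exact hx rfl)
    obtain ⟨β, hβ⟩ := hPπ hb
    exact ⟨α - β, a, b, α, β, hα, hβ, rfl, rfl⟩
  have hQm : ∀ {x y : Ω} {γ δ : ℝ}, QV x γ → QV y δ → QV (x * y) (γ + δ) := by
    rintro x y γ δ ⟨a, b, α, β, ha, hb, rfl, rfl⟩ ⟨a', b', α', β', ha', hb', rfl, rfl⟩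
    refine ⟨a * a', b * b', α + α', β + β', PV.mul hε hI ha ha', PV.mul hε hI hb hb', ?_, by ring⟩
    rw [map_mul, map_mul, div_mul_div_comm]
  have hQa : ∀ {x y : Ω} {γ δ θ : ℝ}, QV x γ → QV y δ → x + y ≠ 0 → QV (x + y) θ →
      min γ δ ≤ θ := by
    rintro x y γ δ θ ⟨a, b, α, β, ha, hb, rfl, rfl⟩ ⟨a', b', α', β', ha', hb', rfl, rfl⟩ hxy hθ
    have h1 : π a / π b + π a' / π b' = π (a * b' + b * a') / π (b * b') := by
      rw [div_add_div _ _ (hπP hb) (hπP hb'), map_add, map_mul, map_mul, map_mul]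
    have h2 : π (a * b' + b * a') ≠ 0 := by
      intro h0
      rw [h1, h0, zero_div] at hxy
      exact hxy rfl
    obtain ⟨κ, hκ⟩ := hPπ h2
    have h3 : QV (π a / π b + π a' / π b') (κ - (β + β')) :=
      ⟨_, _, κ, β + β', hκ, PV.mul hε hI hb hb', h1, rfl⟩
    rw [hQu hθ h3]
    have h4 := PV.add_le (PV.mul hε hI ha hb') (PV.mul hε hI hb ha') hκ
    have h5 : min (α - β) (α' - β') + (β + β') ≤ min (α + β') (β + α') := by
      refine le_min ?_ ?_
      · linarith [min_le_left (α - β) (α' - β')]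
      · linarith [min_le_right (α - β) (α' - β')]
    linarith
  let wf : Ω → ℝ := fun x => if hx : x ≠ 0 then (hQe hx).choose else 0
  have hwf : ∀ x : Ω, x ≠ 0 → QV x (wf x) := by
    intro x hx
    have h1 : wf x = (hQe hx).choose := dif_pos hx
    rw [h1]
    exact (hQe hx).choose_spec
  let w : RVal Ω :=
    { toFun := wf
      map_mul' := fun x y hx hy =>
        hQu (hwf _ (mul_ne_zero hx hy)) (hQm (hwf x hx) (hwf y hy))
      map_add' := fun x y hx hy hxy => hQa (hwf x hx) (hwf y hy) hxy (hwf _ hxy) }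
  have hw : ∀ x : Ω, x ≠ 0 → QV x (w x) := hwf
  have hwπ : ∀ {f : Hat R} {γ : ℝ}, PV v f γ → w (π f) = γ := by
    intro f γ hf
    have h1 : QV (π f) (γ - 0) := ⟨f, 1, γ, 0, hf, h1P, by rw [map_one, div_one], rfl⟩
    rw [sub_zero] at h1
    exact hQu (hw _ (hπP hf)) h1
  -- the embedding
  have hinj : Function.Injective (π.comp (algebraMap R (Hat R))) := by
    rw [injective_iff_map_eq_zero]
    intro r hr
    by_contra h0
    exact hπP (PV.of_base hε hI (r := r) (by rw [Ne, hR0]; exact h0)) hr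
  let j : K →+* Ω := IsFractionRing.lift hinj
  have hj : ∀ r : R, j (algebraMap R K r) = π (algebraMap R (Hat R) r) := by
    intro r
    exact IsFractionRing.lift_algebraMap hinj r
  refine ⟨Ω, inferInstance, w, π, j, fun r => (hj r).symm, ?_, hfrac, ?_, hπ, ?_⟩
  · intro x hx
    obtain ⟨a, b, hb, rfl⟩ := IsFractionRing.div_surjective (A := R) x
    have hb0 : algebraMap R K b ≠ 0 := by
      rw [Ne, hR0]
      exact nonZeroDivisors.ne_zero hb
    have ha0 : algebraMap R K a ≠ 0 := by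
      intro h0
      rw [h0, zero_div] at hx
      exact hx rfl
    rw [map_div₀, hj, hj, w.map_div (hπP (PV.of_base hε hI ha0)) (hπP (PV.of_base hε hI hb0)),
      hwπ (PV.of_base hε hI ha0), hwπ (PV.of_base hε hI hb0), v.map_div ha0 hb0]
  · intro f hf
    obtain ⟨γ, hγ⟩ := hPπ hf
    rw [hwπ hγ]
    exact hγ.nonneg hge
  · intro x B
    obtain ⟨a, b, hb, rfl⟩ := hfrac x
    obtain ⟨β, hβ⟩ := hPπ hb
    obtain ⟨N₁, h₁⟩ := hβ.at_level
    obtain ⟨N₂, h₂⟩ := exists_level hε (B + 2 * β)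
    obtain ⟨M, hM⟩ : ∃ M, M = max N₁ N₂ := ⟨_, rfl⟩
    have e1 : N₁ ≤ M := by rw [hM]; exact le_max_left _ _
    have e2 : N₂ ≤ M := by rw [hM]; exact le_max_right _ _
    obtain ⟨a₀, ha₀⟩ := hat_dense M a
    obtain ⟨b₀, hb₀⟩ := hat_dense M b
    obtain ⟨b1, b2⟩ := h₁ M e1 b₀ hb₀
    have hb3 := PV.of_base (v := v) hε hI b1
    rw [b2] at hb3
    refine ⟨algebraMap R K a₀ / algebraMap R K b₀, ?_⟩
    rw [map_div₀, hj, hj, div_sub_div _ _ hb (hπP hb3), ← map_mul, ← map_mul, ← map_sub]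
    intro hne
    have hnum : π (a * algebraMap R (Hat R) b₀ - b * algebraMap R (Hat R) a₀) ≠ 0 := by
      intro h0
      rw [h0, zero_div] at hne
      exact hne rfl
    obtain ⟨κ, hκ⟩ := hPπ hnum
    have hmem : a * algebraMap R (Hat R) b₀ - b * algebraMap R (Hat R) a₀ ∈ hatI R ^ M := by
      have h3 : a * algebraMap R (Hat R) b₀ - b * algebraMap R (Hat R) a₀ =
          (a - algebraMap R (Hat R) a₀) * algebraMap R (Hat R) b₀ -
            (b - algebraMap R (Hat R) b₀) * algebraMap R (Hat R) a₀ := by ring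
      rw [h3]
      exact Ideal.sub_mem _ (Ideal.mul_mem_right _ _ ha₀) (Ideal.mul_mem_right _ _ hb₀)
    have h4 := hκ.ge_of_mem hI hmem
    have h5 := h₂ M e2
    rw [w.map_div hnum (mul_ne_zero hb (hπP hb3)), w.map_mul hb (hπP hb3), hwπ hκ, hwπ hβ,
      hwπ hb3]
    linarith

end Pool.Agent.LUZ
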