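import Pool.Agent.Lib.LUZ.Y00
import Pool.Agent.Lib.LUZ.Defs

/-! # Y03: the formal data of the completion

Recipe. `f₀ = j.comp (algebraMap R K) : R →+* Ω` is injective; `e : R ≃+* f₀.range` (`RingHom.rangeRestrict` bijective, `RingEquiv.ofBijective`), `ι = (algebraMap R (Hat R)).comp e.symm`. `μ`: the nonzero elements of a finite generating set of
the maximal ideal of `R` (`hm`: there is one), enumerated, in `Ω`. `idl f₀.range μ` corresponds to the maximal ideal under `e`, so `II .. = hatI R`. `noeth`: `isNoetherianRing_of_ringEquiv`; `noethA`: `hat_isNoetherian`. `inv`: `w r = 0` means that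
`r` is a unit of `R` (elements of the maximal ideal have positive value). `par.gen`: positive value means not a unit. `quo`: `IsFractionRing R K`; `quoC`: the hypothesis `hfrac` (`L = ⊤`). -/

set_option autoImplicit false

namespace Pool.Agent.LUZ

open Pool.Agent.H15JM (RVal)
open Pool.Agent.LU1 (VPos)
open Pool.Agent.LUC

universe u

theorem exists_Fml {R K Ω : Type u} [CommRing R] [IsDomain R] [IsLocalRing R]
    [IsNoetherianRing R] [Field K] [Algebra R K] [IsFractionRing R K] [Field Ω] (w : RVal Ω)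
    (π : Hat R →+* Ω) (j : K →+* Ω)
    (hcomp : ∀ r : R, π (algebraMap R (Hat R) r) = j (algebraMap R K r))
    (hfrac : ∀ x : Ω, ∃ a b, π b ≠ 0 ∧ x = π a / π b)
    (hge : ∀ f, w.Ge 0 (π f))
    (hpos : ∀ r ∈ IsLocalRing.maximalIdeal R, VPos w (j (algebraMap R K r)))
    (hm : IsLocalRing.maximalIdeal R ≠ ⊥) :
    ∃ (q : ℕ) (μ : Fin q → Ω) (ι : (j.comp (algebraMap R K)).range →+* Hat R),
      Fml w (j.comp (algebraMap R K)).range π.range j.fieldRange ⊤ μ ι π := by
  classical
  set f₀ : R →+* Ω := j.comp (algebraMap R K) with hf₀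
  have hinj : Function.Injective f₀ :=
    j.injective.comp (IsFractionRing.injective R K)
  have hcomp' : ∀ r : R, π (algebraMap R (Hat R) r) = f₀ r := hcomp
  have hge' : ∀ r : R, w.Ge 0 (f₀ r) := fun r => by
    rw [← hcomp']
    exact hge _
  have hpos' : ∀ r ∈ IsLocalRing.maximalIdeal R, VPos w (f₀ r) := hpos
  let e : R ≃+* f₀.range := RingEquiv.ofBijective f₀.rangeRestrict
    ⟨fun a b hab => hinj (congrArg (fun z : f₀.range => (z : Ω)) hab),
      f₀.rangeRestrict_surjective⟩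
  have he : ∀ r : R, ((e r : f₀.range) : Ω) = f₀ r := fun r => rfl
  let ι : f₀.range →+* Hat R := (algebraMap R (Hat R)).comp (e.symm : f₀.range →+* R)
  have hι : ∀ r : R, ι (e r) = algebraMap R (Hat R) r := by
    intro r
    change algebraMap R (Hat R) (e.symm (e r)) = _
    rw [e.symm_apply_apply]
  -- the generators
  obtain ⟨q, g, hgm, hg0, hspan⟩ : ∃ (q : ℕ) (g : Fin q → R),
      (∀ i, g i ∈ IsLocalRing.maximalIdeal R) ∧ (∀ i, g i ≠ 0) ∧
        IsLocalRing.maximalIdeal R = Ideal.span (Set.range g) := by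
    obtain ⟨G, hG⟩ := (IsNoetherian.noetherian (IsLocalRing.maximalIdeal R) :
      (IsLocalRing.maximalIdeal R).FG)
    set G' : Finset R := G.filter fun x => x ≠ 0 with hG'
    have hG'm : ∀ x : G', (x : R) ∈ G ∧ (x : R) ≠ 0 := fun x => Finset.mem_filter.1 x.2
    have hGm : ∀ x ∈ G, x ∈ IsLocalRing.maximalIdeal R := by
      intro x hx
      rw [← hG]
      exact Submodule.subset_span hx
    refine ⟨G'.card, fun i => ((G'.equivFin.symm i : G') : R), fun i => hGm _ (hG'm _).1,
      fun i => (hG'm _).2, ?_⟩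
    apply le_antisymm
    · intro x hx
      rw [← hG] at hx
      refine (Submodule.span_le.2 ?_ : Submodule.span R (G : Set R) ≤
        Ideal.span (Set.range fun i => ((G'.equivFin.symm i : G') : R))) hx
      intro y hy
      by_cases hy0 : y = 0
      · rw [hy0]
        exact Ideal.zero_mem _
      · refine Ideal.subset_span ⟨G'.equivFin ⟨y, Finset.mem_filter.2 ⟨hy, hy0⟩⟩, ?_⟩
        simp
    · rw [Ideal.span_le]
      rintro _ ⟨i, rfl⟩
      exact hGm _ (hG'm _).1
  set μ : Fin q → Ω := fun i => f₀ (g i) with hμ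
  have hidl : idl f₀.range μ = (IsLocalRing.maximalIdeal R).map (e : R →+* f₀.range) := by
    rw [hspan, Ideal.map_span, idl]
    congr 1
    ext b
    constructor
    · rintro ⟨i, hi⟩
      exact ⟨g i, ⟨i, rfl⟩, Subtype.ext hi.symm⟩
    · rintro ⟨_, ⟨i, rfl⟩, rfl⟩
      exact ⟨i, rfl⟩
  have hcompe : ι.comp (e : R →+* f₀.range) = algebraMap R (Hat R) := RingHom.ext hι
  have hII : II f₀.range μ ι = hatI R := by
    rw [II, hidl, Ideal.map_map, hcompe, hatI]
  have hunit : ∀ a : R, IsUnit a → w (f₀ a) = 0 := by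
    intro a ha
    obtain ⟨b, hb⟩ := ha.exists_right_inv
    have h1 : f₀ a * f₀ b = 1 := by rw [← map_mul, hb, map_one]
    have ha0 : f₀ a ≠ 0 := left_ne_zero_of_mul (by rw [h1]; exact one_ne_zero)
    have hb0 : f₀ b ≠ 0 := right_ne_zero_of_mul (a := f₀ a) (by rw [h1]; exact one_ne_zero)
    have h2 := w.map_mul ha0 hb0
    rw [h1, w.map_one] at h2
    have h3 := hge' a ha0
    have h4 := hge' b hb0
    linarith
  have hf0ne : ∀ a : R, a ≠ 0 → f₀ a ≠ 0 := fun a ha h0 => ha (hinj (by rw [h0, map_zero]))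
  have hmem : ∀ a : R, f₀ a ∈ f₀.range := fun a => ⟨a, rfl⟩
  refine ⟨q, μ, ι, ?_⟩
  refine ⟨?_, hat_isNoetherian, ?_, ?_, ?_, ?_, ?_, ?_, ?_, ?_, ?_, ?_, ?_⟩
  · exact isNoetherianRing_of_ringEquiv R e
  · rcases Nat.eq_zero_or_pos q with hq | hq
    · subst hq
      exfalso
      apply hm
      rw [hspan, Set.range_eq_empty, Ideal.span_empty]
    · exact hq
  · rintro _ ⟨f, rfl⟩
    exact hge f
  · rintro _ ⟨a, rfl⟩ h0 h1
    have ha : IsUnit a := by
      by_contra hu
      have h2 := hpos' a ((IsLocalRing.mem_maximalIdeal a).2 hu) h0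
      rw [h1] at h2
      exact lt_irrefl _ h2
    obtain ⟨b, hb⟩ := ha.exists_right_inv
    have h2 : f₀ a * f₀ b = 1 := by rw [← map_mul, hb, map_one]
    rw [inv_eq_of_mul_eq_one_right h2]
    exact hmem b
  · refine ⟨fun i => hmem _, fun i => hf0ne _ (hg0 i), fun i => hpos' _ (hgm i)
      (hf0ne _ (hg0 i)), ?_⟩
    rintro _ ⟨a, rfl⟩ hv
    have ha : a ∈ IsLocalRing.maximalIdeal R := by
      rw [IsLocalRing.mem_maximalIdeal, mem_nonunits_iff]
      intro hu
      have h1 := hunit a hu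
      have h2 : f₀ a ≠ 0 := by
        obtain ⟨b, hb⟩ := hu.exists_right_inv
        exact left_ne_zero_of_mul (b := f₀ b) (by rw [← map_mul, hb, map_one]; exact one_ne_zero)
      have h3 := hv h2
      rw [h1] at h3
      exact lt_irrefl _ h3
    refine ⟨e a, rfl, ?_⟩
    rw [pow_one, hidl]
    exact Ideal.mem_map_of_mem _ ha
  · refine ⟨?_, ?_⟩
    · rintro _ ⟨a, rfl⟩
      exact ⟨algebraMap R K a, rfl⟩
    · rintro _ ⟨x, rfl⟩
      obtain ⟨a, b, hb, rfl⟩ := IsFractionRing.div_surjective (A := R) x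
      refine ⟨f₀ a, hmem a, f₀ b, hmem b, hf0ne b (nonZeroDivisors.ne_zero hb), ?_⟩
      rw [map_div₀]
      rfl
  · refine ⟨fun f _ => trivial, fun x _ => ?_⟩
    obtain ⟨a, b, hb, hx⟩ := hfrac x
    exact ⟨π a, ⟨a, rfl⟩, π b, ⟨b, rfl⟩, hb, hx⟩
  · intro r
    obtain ⟨a, rfl⟩ := e.surjective r
    rw [hι, hcomp', he]
  · exact fun f => ⟨f, rfl⟩
  · rintro c ⟨f, rfl⟩
    exact ⟨f, rfl⟩
  · intro M f
    obtain ⟨r, hr⟩ := hat_dense M f
    refine ⟨e r, ?_⟩
    rw [hι, hII]
    exact hr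
  · intro M r hr
    obtain ⟨a, rfl⟩ := e.surjective r
    rw [hι, hII] at hr
    have h1 := hat_sep M a hr
    rw [hidl, ← Ideal.map_pow]
    exact Ideal.mem_map_of_mem _ h1

end Pool.Agent.LUZ
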