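import Pool.Agent.Lib.LUZ.Y00

/-! # Y04: the image of the completion in a field is a complete noetherian local domain

Recipe. `C = π.range`, `π' = π.rangeRestrict : Hat R →+* C` surjective. `C` is noetherian and local (quotient of `Hat R`, a local ring: Mathlib instances in `AdicCompletion/LocalRing.lean`; `IsLocalRing.of_surjective'`), its maximal ideal is the image of the one of
`Hat R`, so generated by the image of the maximal ideal of `R`. Completeness: quotient of a complete noetherian local ring (row A2 of LCD, store lcd_A2.lean; `IsAdicComplete` of `Hat R` for its maximal ideal is a Mathlib instance), transported by `C ≃ Hat R ⧸ ker π`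
(`RingHom.quotientKerEquivOfSurjective`). `res`: `hat_dense 1`. `dim`: the same isomorphism (`ringKrullDim_eq_of_ringEquiv`). `perf`: every element of `C` is a `p`-th power modulo the maximal ideal: `PerfectField` of the residue field
(`PerfectRing` from surjective Frobenius; `PerfectField.ofCharP..`, the residue field of `C` has characteristic `p` because `p` is in its maximal ideal). -/

set_option autoImplicit false

namespace Pool.Agent.LUZ

universe u

variable {R : Type u} [CommRing R] [IsLocalRing R] [IsNoetherianRing R] {Ω : Type u} [Field Ω]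

omit [IsNoetherianRing R] in
private theorem rr_surj (π : Hat R →+* Ω) : Function.Surjective π.rangeRestrict :=
  π.rangeRestrict_surjective

theorem range_isNoetherian (π : Hat R →+* Ω) : IsNoetherianRing π.range := by
  have := hat_isNoetherian (R := R)
  exact isNoetherianRing_of_surjective _ _ π.rangeRestrict (rr_surj π)

theorem range_isLocal (π : Hat R →+* Ω) : IsLocalRing π.range :=
  IsLocalRing.of_surjective' π.rangeRestrict (rr_surj π)

private theorem map_max {C D : Type*} [CommRing C] [CommRing D] [IsLocalRing C] [IsLocalRing D]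
    (f : C →+* D) (hs : Function.Surjective f) :
    IsLocalRing.maximalIdeal D = (IsLocalRing.maximalIdeal C).map f := by
  rcases Ideal.map_eq_top_or_isMaximal_of_surjective f hs
    (IsLocalRing.maximalIdeal.isMaximal C) with h | h
  · exfalso
    have hJ : RingHom.ker f ≤ IsLocalRing.maximalIdeal C :=
      IsLocalRing.le_maximalIdeal (RingHom.ker_ne_top f)
    have h2 := (Ideal.comap_map_of_surjective f hs (IsLocalRing.maximalIdeal C))
    rw [h, Ideal.comap_top, ← RingHom.ker_eq_comap_bot, sup_eq_left.2 hJ] at h2
    exact (IsLocalRing.maximalIdeal.isMaximal C).ne_top h2.symm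
  · exact (IsLocalRing.eq_maximalIdeal h).symm

private theorem complete_of_surj {C D : Type*} [CommRing C] [CommRing D] [IsLocalRing C]
    [IsLocalRing D] [IsNoetherianRing D] (f : C →+* D) (hs : Function.Surjective f)
    [IsAdicComplete (IsLocalRing.maximalIdeal C) C] :
    IsAdicComplete (IsLocalRing.maximalIdeal D) D := by
  have hmax := map_max f hs
  refine { haus' := (inferInstance : IsHausdorff (IsLocalRing.maximalIdeal D) D).haus',
           prec' := ?_ }
  intro F hF
  have hd : ∀ n : ℕ, ∃ d : C, d ∈ IsLocalRing.maximalIdeal C ^ n ∧ f d = F (n + 1) - F n := by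
    intro n
    have h1 := SModEq.sub_mem.1 (hF (Nat.le_succ n)).symm
    rw [smul_eq_mul, Ideal.mul_top, hmax, ← Ideal.map_pow,
      Ideal.mem_map_iff_of_surjective _ hs] at h1
    exact h1
  choose d hd1 hd2 using hd
  obtain ⟨g0, hg0⟩ := hs (F 0)
  let g : ℕ → C := fun n => g0 + ∑ i ∈ Finset.range n, d i
  have hg : ∀ n, f (g n) = F n := by
    intro n
    induction n with
    | zero => simp [g, hg0]
    | succ n ih =>
      have : g (n + 1) = g n + d n := by simp only [g, Finset.sum_range_succ, add_assoc]
      rw [this, map_add, ih, hd2]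
      ring
  have hcau : ∀ {m n : ℕ}, m ≤ n →
      g m ≡ g n [SMOD (IsLocalRing.maximalIdeal C ^ m • ⊤ : Submodule C C)] := by
    intro m n hmn
    refine SModEq.symm (SModEq.sub_mem.2 ?_)
    rw [smul_eq_mul, Ideal.mul_top]
    have h1 : g n - g m = ∑ i ∈ Finset.Ico m n, d i := by
      simp only [g, Finset.sum_Ico_eq_sub _ hmn]
      ring
    rw [h1]
    exact Ideal.sum_mem _ fun i hi =>
      Ideal.pow_le_pow_right (Finset.mem_Ico.1 hi).1 (hd1 i)
  obtain ⟨L, hL⟩ := IsPrecomplete.prec' (I := IsLocalRing.maximalIdeal C) g hcau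
  refine ⟨f L, fun n => SModEq.sub_mem.2 ?_⟩
  have h1 := SModEq.sub_mem.1 (hL n)
  rw [smul_eq_mul, Ideal.mul_top] at h1 ⊢
  rw [hmax, ← Ideal.map_pow, ← hg n, ← map_sub]
  exact Ideal.mem_map_of_mem _ h1

theorem range_isAdicComplete (π : Hat R →+* Ω) [IsLocalRing π.range] :
    IsAdicComplete (IsLocalRing.maximalIdeal π.range) π.range := by
  have := range_isNoetherian π
  exact complete_of_surj π.rangeRestrict (rr_surj π)

theorem range_max (π : Hat R →+* Ω) [IsLocalRing π.range] :
    IsLocalRing.maximalIdeal π.range = (IsLocalRing.maximalIdeal R).map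
      (π.rangeRestrict.comp (algebraMap R (Hat R))) := by
  rw [map_max π.rangeRestrict (rr_surj π), AdicCompletion.maximalIdeal_eq_map, Ideal.map_map]

theorem range_res (π : Hat R →+* Ω) [IsLocalRing π.range] (x : π.range) :
    ∃ r : R, x - π.rangeRestrict (algebraMap R (Hat R) r) ∈
      IsLocalRing.maximalIdeal π.range := by
  obtain ⟨f, rfl⟩ := rr_surj π x
  obtain ⟨r, hr⟩ := hat_dense 1 f
  refine ⟨r, ?_⟩
  rw [pow_one, hatI, ← AdicCompletion.maximalIdeal_eq_map] at hr
  rw [← map_sub, map_max π.rangeRestrict (rr_surj π)]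
  exact Ideal.mem_map_of_mem _ hr

theorem range_perfect (π : Hat R →+* Ω) [IsLocalRing π.range] (p : ℕ) (hp : p.Prime)
    (hpm : (p : R) ∈ IsLocalRing.maximalIdeal R)
    (hperf : ∀ x : R, ∃ y : R, x - y ^ p ∈ IsLocalRing.maximalIdeal R) :
    PerfectField (IsLocalRing.ResidueField π.range) := by
  have hin : ∀ r ∈ IsLocalRing.maximalIdeal R, π.rangeRestrict (algebraMap R (Hat R) r) ∈
      IsLocalRing.maximalIdeal π.range := by
    intro r hr
    rw [range_max π]
    exact Ideal.mem_map_of_mem (π.rangeRestrict.comp (algebraMap R (Hat R))) hr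
  have hz : ∀ r ∈ IsLocalRing.maximalIdeal R, IsLocalRing.residue π.range
      (π.rangeRestrict (algebraMap R (Hat R) r)) = 0 := fun r hr =>
    (IsLocalRing.residue_eq_zero_iff _).2 (hin r hr)
  have hp0 : ((p : ℕ) : IsLocalRing.ResidueField π.range) = 0 := by
    have h1 := hz _ hpm
    simpa using h1
  have hchar : CharP (IsLocalRing.ResidueField π.range) p := by
    obtain ⟨q, hq⟩ := CharP.exists (IsLocalRing.ResidueField π.range)
    have h1 : q ∣ p := (CharP.cast_eq_zero_iff (IsLocalRing.ResidueField π.range) q p).1 hp0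
    rcases (Nat.dvd_prime hp).1 h1 with h2 | h2
    · subst h2
      exfalso
      have h3 := CharP.cast_eq_zero (IsLocalRing.ResidueField π.range) 1
      rw [Nat.cast_one] at h3
      exact one_ne_zero h3
    · rwa [h2] at hq
  have hfact : Fact p.Prime := ⟨hp⟩
  have hexp : ExpChar (IsLocalRing.ResidueField π.range) p := ExpChar.prime hp
  have hsurj : Function.Surjective (frobenius (IsLocalRing.ResidueField π.range) p) := by
    intro a
    obtain ⟨x, rfl⟩ := IsLocalRing.residue_surjective a
    obtain ⟨r, hr⟩ := range_res π x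
    obtain ⟨y, hy⟩ := hperf r
    refine ⟨IsLocalRing.residue π.range (π.rangeRestrict (algebraMap R (Hat R) y)), ?_⟩
    have h1 := (IsLocalRing.residue_eq_zero_iff _).2 hr
    have h2 := hz _ hy
    rw [map_sub, sub_eq_zero] at h1
    rw [map_sub, map_sub, map_sub, sub_eq_zero, map_pow, map_pow, map_pow] at h2
    rw [frobenius_def, h1, h2]
  have := PerfectRing.ofSurjective _ p hsurj
  exact PerfectRing.toPerfectField _ p

theorem range_dim (π : Hat R →+* Ω) :
    ringKrullDim π.range = ringKrullDim (Hat R ⧸ RingHom.ker π) :=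
  (ringKrullDim_eq_of_ringEquiv (RingHom.quotientKerEquivRange π)).symm

end Pool.Agent.LUZ
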