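import Pool.Agent.Lib.LUZ.Y00

/-! # Y05: elements with independent residues

Recipes. `exists_indep`: `d ≤ trdeg` gives an algebraically independent family `Fin d → κ(V)` over `R ⧸ m` (compare `LU2G.exists_indRes'` in `LU2G/CompOf.lean`: `Algebra.trdeg` is a supremum; `exists_indRes'` shows how); lift to elements `b i ∈ V`. If
`P` over `R` has `P(b)` of positive value (`V.valuation (aeval b P) < 1`), then the reduction of `P` modulo `m` vanishes at the residues, so it is 0: all coefficients in `m`. `indep_range`: `P` over `C = π.range`; `P₀` over `R` with coefficients congruent modulo the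
maximal ideal of `C` (`range_res`-type hypothesis `hres`); `w (P(b) - P₀(b)) > 0` (coefficients of positive value, `b i` of value `≥ 0`), so `P₀(b)` has positive value, its coefficients are in `m`, so those of `P` are in `m_C` (`hmax`). -/

set_option autoImplicit false

namespace Pool.Agent.LUZ

open Pool.Agent.H15JM (RVal)
open Pool.Agent.LU1 (VPos)
open Pool.Agent.LUC

universe u

theorem exists_indep {R K : Type u} [CommRing R] [Field K] [Algebra R K]
    (V : ValuationSubring K) (m : Ideal R) [m.IsMaximal]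
    (f : R ⧸ m →+* IsLocalRing.ResidueField V)
    (hV : ∀ r : R, algebraMap R K r ∈ V)
    (hf : ∀ r : R, f (Ideal.Quotient.mk m r) = IsLocalRing.residue V ⟨algebraMap R K r, hV r⟩)
    {d : ℕ} (hd : (d : Cardinal) ≤ @Algebra.trdeg (R ⧸ m) (IsLocalRing.ResidueField V) _ _
      f.toAlgebra) :
    ∃ b : Fin d → K, (∀ i, b i ∈ V) ∧ ∀ P : MvPolynomial (Fin d) R,
      V.valuation (MvPolynomial.aeval b P) < 1 → ∀ α, P.coeff α ∈ m := by
  let _ : Algebra (R ⧸ m) (IsLocalRing.ResidueField V) := f.toAlgebra
  have hinj : Function.Injective (algebraMap (R ⧸ m) (IsLocalRing.ResidueField V)) := by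
    let _ : Field (R ⧸ m) := Ideal.Quotient.field m
    exact RingHom.injective f
  have : FaithfulSMul (R ⧸ m) (IsLocalRing.ResidueField V) :=
    (faithfulSMul_iff_algebraMap_injective (R ⧸ m) _).2 hinj
  obtain ⟨ι, y, hy⟩ := exists_isTranscendenceBasis' (R ⧸ m) (IsLocalRing.ResidueField V)
  have : Nontrivial (R ⧸ m) := Ideal.Quotient.nontrivial_iff.2 (Ideal.IsMaximal.ne_top ‹_›)
  have hcard : (d : Cardinal) ≤ Cardinal.mk ι := by
    refine le_trans hd ?_
    rw [hy.cardinalMk_eq_trdeg]
  obtain ⟨j⟩ : Nonempty (Fin d ↪ ι) := by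
    have h1 : Cardinal.lift.{u, 0} (Cardinal.mk (Fin d)) ≤ Cardinal.lift.{0, u} (Cardinal.mk ι) := by
      simpa using hcard
    exact Cardinal.lift_mk_le'.1 h1
  have hres : ∀ i, ∃ a : V, IsLocalRing.residue V a = y (j i) := fun i =>
    IsLocalRing.residue_surjective _
  choose z hz using hres
  have hind : AlgebraicIndependent (R ⧸ m) (fun i => y (j i)) := hy.1.comp _ j.injective
  refine ⟨fun i => (z i : K), fun i => (z i).2, fun P hP α => ?_⟩
  set φ : R →+* V := (algebraMap R K).codRestrict V hV with hφ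
  have h1 : MvPolynomial.aeval (fun i => (z i : K)) P =
      ((MvPolynomial.eval₂ φ z P : V) : K) := by
    have h := MvPolynomial.map_eval₂Hom φ z V.subtype P
    rw [MvPolynomial.aeval_def]
    refine Eq.trans ?_ h.symm
    have hc : (V.subtype.comp φ) = algebraMap R K := by
      ext c
      rfl
    rw [MvPolynomial.coe_eval₂Hom, hc]
    rfl
  have h2 : IsLocalRing.residue V (MvPolynomial.eval₂ φ z P) = 0 := by
    rw [IsLocalRing.residue_eq_zero_iff, V.valuation_lt_one_iff, ← h1]
    exact hP
  have h3 : MvPolynomial.aeval (fun i => y (j i)) (MvPolynomial.map (Ideal.Quotient.mk m) P)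
      = 0 := by
    rw [← h2]
    have h := MvPolynomial.map_eval₂Hom φ z (IsLocalRing.residue V) P
    rw [MvPolynomial.aeval_def, MvPolynomial.eval₂_map]
    refine Eq.trans ?_ h.symm
    rw [MvPolynomial.coe_eval₂Hom]
    have h4 : (fun i => y (j i)) = fun i => IsLocalRing.residue V (z i) :=
      funext fun i => (hz i).symm
    have h5 : (algebraMap (R ⧸ m) (IsLocalRing.ResidueField V)).comp (Ideal.Quotient.mk m) =
        (IsLocalRing.residue V).comp φ := by
      ext r
      exact hf r
    rw [h4, h5]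
  have h4 := (injective_iff_map_eq_zero _).1 hind _ h3
  have h5 := congrArg (MvPolynomial.coeff α) h4
  rw [MvPolynomial.coeff_map, MvPolynomial.coeff_zero] at h5
  exact Ideal.Quotient.eq_zero_iff_mem.1 h5

theorem indep_range {R K Ω : Type u} [CommRing R] [IsLocalRing R] [IsNoetherianRing R] [Field K]
    [Algebra R K] [Field Ω] (w : RVal Ω) (π : Hat R →+* Ω) (j : K →+* Ω)
    (hcomp : ∀ r : R, π (algebraMap R (Hat R) r) = j (algebraMap R K r))
    (hge : ∀ f, w.Ge 0 (π f)) [IsLocalRing π.range]
    (hpos : ∀ x ∈ IsLocalRing.maximalIdeal π.range, VPos w (x : Ω))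
    (hres : ∀ x : π.range, ∃ r : R, x - π.rangeRestrict (algebraMap R (Hat R) r) ∈
      IsLocalRing.maximalIdeal π.range)
    (hmR : ∀ r ∈ IsLocalRing.maximalIdeal R, π.rangeRestrict (algebraMap R (Hat R) r) ∈
      IsLocalRing.maximalIdeal π.range)
    {d : ℕ} (b : Fin d → K) (hb : ∀ i, w.Ge 0 (j (b i)))
    (hb' : ∀ P : MvPolynomial (Fin d) R, VPos w (j (MvPolynomial.aeval b P)) →
      ∀ α, P.coeff α ∈ IsLocalRing.maximalIdeal R)
    (P : MvPolynomial (Fin d) π.range)
    (hP : VPos w (MvPolynomial.eval₂ π.range.subtype (fun i => j (b i)) P)) (α : Fin d →₀ ℕ) :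
    P.coeff α ∈ IsLocalRing.maximalIdeal π.range := by
  classical
  choose r hr using hres
  let P₀ : MvPolynomial (Fin d) R := ∑ β ∈ P.support, MvPolynomial.monomial β (r (P.coeff β))
  have hP₀ : j (MvPolynomial.aeval b P₀) = ∑ β ∈ P.support,
      π (algebraMap R (Hat R) (r (P.coeff β))) * ∏ i, j (b i) ^ β i := by
    simp only [P₀, map_sum]
    refine Finset.sum_congr rfl fun β _ => ?_
    rw [MvPolynomial.aeval_monomial, map_mul, hcomp, Finsupp.prod_fintype _ _ fun i => pow_zero _,
      map_prod]
    simp only [map_pow]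
  have hmon : ∀ β : Fin d →₀ ℕ, w.Ge 0 (∏ i, j (b i) ^ β i) := by
    intro β
    refine Finset.prod_induction _ (w.Ge 0) (fun x y hx hy => by simpa using hx.mul hy) ?_ ?_
    · intro _
      rw [w.map_one]
    · intro i _
      induction β i with
      | zero =>
        intro _
        rw [pow_zero, w.map_one]
      | succ n ih =>
        rw [pow_succ]
        simpa using ih.mul (hb i)
  have hdiff : VPos w (MvPolynomial.eval₂ π.range.subtype (fun i => j (b i)) P -
      j (MvPolynomial.aeval b P₀)) := by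
    rw [hP₀, MvPolynomial.eval₂_eq', ← Finset.sum_sub_distrib]
    refine Finset.sum_induction _ (VPos w) (fun _ _ h h' => h.add h') VPos.zero fun β _ => ?_
    rw [← sub_mul]
    refine VPos.mul (hpos _ (hr (P.coeff β))) (hmon β)
  have hP₀pos : VPos w (j (MvPolynomial.aeval b P₀)) := by
    have h1 := hP.sub hdiff
    rwa [sub_sub_cancel] at h1
  by_cases hα : α ∈ P.support
  · have h1 := hb' P₀ hP₀pos α
    have h2 : P₀.coeff α = r (P.coeff α) := by
      simp only [P₀, MvPolynomial.coeff_sum, MvPolynomial.coeff_monomial]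
      rw [Finset.sum_ite_eq' P.support α, if_pos hα]
    rw [h2] at h1
    have h3 := Ideal.add_mem _ (hr (P.coeff α)) (hmR _ h1)
    rwa [sub_add_cancel] at h3
  · rw [MvPolynomial.notMem_support_iff.1 hα]
    exact Ideal.zero_mem _

end Pool.Agent.LUZ
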