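import Pool.Agent.Lib.LUZ.Z01

/-! # Z03: the constants

Recipe. `P = ∏ j ∈ J, z j`. All `μ i` are divisible by `P` in `O` (`hc.μ_sm`, positive value `h.par.pos`: `SM.dvd`), so the products of `N` of them are
divisible by `P^N`. `G1` is a strong monomial of value `≥ 0` (`SM.mul`, induction for powers and the product; `w c ≥ 0`: `c ∈ R ≤ C ≤ O`), so
`P^E = G1 * a` (`SM.dvd_pow`); `N₁ = E + 1`, `N' = 4 * N₁ + 1`. `η₀ j` from `h.dense N'`; if it is 0 take `μ₀^N'` instead (`h.q_pos`; it is not 0 and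
`ι (μ₀^N') ∈ II^N'`). -/

set_option autoImplicit false

namespace Pool.Agent.LUZ

open Pool.Agent.H15JM (RVal)
open Pool.Agent.LU1 (VPos)
open Pool.Agent.LUC

universe u

variable {Ω : Type u} [Field Ω] {w : RVal Ω} {R C : Subring Ω} {K L : Subfield Ω} {q n τ l : ℕ}
  {μ : Fin q → Ω} {Ah : Type u} [CommRing Ah] {ι : R →+* Ah} {π : Ah →+* Ω} {z : Fin n → Ω}
  {J : Finset (Fin n)} {O : Subring Ω} {c : R} {cc : Fin τ → R}

private theorem SM.pw {t : Ω} (hz : ∀ i, z i ≠ 0) (h : SM w O z J t) (h0 : 0 ≤ w t) (m : ℕ) :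
    SM w O z J (t ^ m) ∧ 0 ≤ w (t ^ m) := by
  have hv : ∀ m : ℕ, 0 ≤ w (t ^ m) := fun m => by
    rw [w.map_pow (h.ne hz)]
    positivity
  refine ⟨?_, hv m⟩
  induction m with
  | zero => rw [pow_zero]; exact SM.one
  | succ m ih =>
    rw [pow_succ]
    exact ih.mul hz (hv m) h h0

private theorem SM.pr {κ : Type*} (s : Finset κ) (f : κ → Ω) (hz : ∀ i, z i ≠ 0)
    (h : ∀ i ∈ s, SM w O z J (f i) ∧ 0 ≤ w (f i)) :
    SM w O z J (∏ i ∈ s, f i) ∧ 0 ≤ w (∏ i ∈ s, f i) := by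
  classical
  induction s using Finset.induction_on with
  | empty =>
    rw [Finset.prod_empty]
    exact ⟨SM.one, by rw [w.map_one]⟩
  | insert a s ha ih =>
    rw [Finset.prod_insert ha]
    have h1 := h a (Finset.mem_insert_self a s)
    have h2 := ih fun i hi => h i (Finset.mem_insert_of_mem hi)
    refine ⟨h1.1.mul hz h1.2 h2.1 h2.2, ?_⟩
    rw [w.map_mul (h1.1.ne hz) (h2.1.ne hz)]
    exact add_nonneg h1.2 h2.2

theorem exists_FB (h : Fml w R C K L μ ι π) (hc : FCh w R C μ z J O c cc) (η : Fin l → Ah)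
    (Φ : ℕ)
    (hΦ : ∀ F : MvPolynomial (Fin τ) Ah, ev π c cc F = 0 →
      MvPolynomial.C (ι c ^ Φ) * F ∈ Ideal.span
        (Set.range (fun j => (MvPolynomial.C (η j) : MvPolynomial (Fin τ) Ah)) ∪
          Set.range fun t => MvPolynomial.C (ι c) * MvPolynomial.X t -
            MvPolynomial.C (ι (cc t)))) (b : ℕ) :
    ∃ (N₁ N' : ℕ) (η₀ : Fin l → R), FB w R O μ ι π η z J c cc Φ b N₁ N' η₀ := by
  classical
  have hzm := hc.par.mem
  have hzn := hc.par.ne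
  have hcw : 0 ≤ w (c : Ω) := h.ge c c.2 hc.c_ne
  have hM : SM w O z J (M0 μ) ∧ 0 ≤ w (M0 μ) :=
    SM.pr Finset.univ μ hzn fun i _ => ⟨hc.μ_sm i, (h.par.pos i).le⟩
  have hM' := SM.pw hzn hM.1 hM.2 b
  have hC := SM.pw hzn hc.c_sm hcw Φ
  have hG : SM w O z J (G1 μ c Φ b) := hC.1.mul hzn hC.2 hM'.1 hM'.2
  have hG0 : 0 ≤ w (G1 μ c Φ b) := by
    rw [G1, w.map_mul (hC.1.ne hzn) (hM'.1.ne hzn)]
    exact add_nonneg hC.2 hM'.2
  obtain ⟨E, a, ha, hE⟩ := SM.dvd_pow hc.inv hzm hzn hG hG0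
  have hμ : ∀ i, ∃ a ∈ O, μ i = (∏ j ∈ J, z j) * a := fun i =>
    SM.dvd hzm hzn (hc.μ_sm i) (h.par.pos i)
  choose d hd hμd using hμ
  have hη : ∀ j, ∃ r : R, r ≠ 0 ∧ η j - ι r ∈ II R μ ι ^ (4 * (E + 1) + 1) := by
    intro j
    obtain ⟨r, hr⟩ := h.dense (4 * (E + 1) + 1) (η j)
    by_cases hr0 : r = 0
    · let i₀ : Fin q := ⟨0, h.q_pos⟩
      let m : R := ⟨μ i₀, h.par.mem i₀⟩
      have hm0 : m ≠ 0 := fun hm => h.par.ne i₀ (congrArg Subtype.val hm)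
      have hmI : ι m ∈ II R μ ι := Ideal.mem_map_of_mem _ (Ideal.subset_span ⟨i₀, rfl⟩)
      refine ⟨m ^ (4 * (E + 1) + 1), pow_ne_zero _ hm0, ?_⟩
      rw [hr0, map_zero, sub_zero] at hr
      rw [map_pow]
      exact Ideal.sub_mem _ hr (Ideal.pow_mem_pow hmI _)
    · exact ⟨r, hr0, hr⟩
  choose η₀ hη0 hηI using hη
  refine ⟨E + 1, 4 * (E + 1) + 1, η₀, ⟨hΦ, ?_, le_rfl, hη0, hηI⟩⟩
  intro φ
  refine ⟨a * ∏ i, d (φ i), O.mul_mem ha (O.prod_mem fun i _ => hd _), ?_⟩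
  have h1 : ∏ i, μ (φ i) = (∏ j ∈ J, z j) ^ (E + 1) * ∏ i, d (φ i) := by
    rw [Finset.prod_congr rfl fun i _ => hμd (φ i), Finset.prod_mul_distrib, Finset.prod_const,
      Finset.card_univ, Fintype.card_fin]
  rw [h1, pow_succ, hE]
  ring

end Pool.Agent.LUZ
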