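import Pool.Agent.Lib.LUZ.Z04

/-! # Z10: the ring `R_sharp`

Recipe (F11 of the paper). `F = {x / g : x ∈ G}`, `B = lv w (adj R F)`. `Bg = Localization.Away (ι g)`; `πg : Bg →+* Ω` the extension of `π` (`π (ι g) = g ≠ 0`; `IsLocalization.Away.lift`). `E` = the subring of `Bg` generated by the image of
`Ah` and the `ι x / ι g`, `x ∈ G` (an `Ah`-subalgebra of finite type, so noetherian). `N = {f ∈ E | VPos w (πg f)}` is a prime ideal (`hge`: `πg E ⊆ adj C F`). `S = Localization.AtPrime N`,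
`p : S → Ω` the lift of `πg`. `p S = lv w (adj C F)`. `f : B →+* S`: `adj R F → E` (`R[1/g] → Bg`: `Localization.Away`, or: the elements `a` of `E` with `πg a ∈ ..`; one way: `R' = adj R F` is the
range of `MvPolynomial G R → Ω`, a polynomial relation `P(x/g) = 0` in `Ω` becomes, multiplied by `g^d`, an identity in `R`, so it holds in `Bg`), then invert the elements of value 0.
`max`: `E = R' + μ E` (`Ah = ι R + II` by `h.dense 1`; set of such elements is a subring containing generators), so an element `e ∈ E` with `VPos w (πg e)` is `f r' + μ..` with `VPos w r'`: in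
`(maximalIdeal B).map f`. `height`: for a chain `P_0 < .. < P_r = ker π` of primes of `Ah` (they do not contain `ι g`) the ideals `P_i Bg ∩ E` are primes of `E`, distinct (intersect with `Ah`:
`IsLocalization.comap_map_of_isPrime_disjoint`), contained in `ker πg ∩ E ≤ N`, so primes of `S` below `ker p`; in Lean: `Ideal.height` and order embeddings
(`Ideal.height_comap`.., `IsLocalization.AtPrime.orderIsoOfPrime`): strictly monotone map from the primes `≤ ker π` of `Ah` to the primes `≤ ker p` of `S`. -/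

set_option autoImplicit false

namespace Pool.Agent.LUZ

open Pool.Agent.H15JM (RVal)
open Pool.Agent.LU1 (VPos)
open Pool.Agent.LUC

universe u

variable {Ω : Type u} [Field Ω] {w : RVal Ω} {R C : Subring Ω} {K L : Subfield Ω} {q : ℕ}
  {μ : Fin q → Ω} {Ah : Type u} [CommRing Ah] {ι : R →+* Ah} {π : Ah →+* Ω}

/-! ### The subring of the elements of value zero -/

private def zM (w : RVal Ω) (B : Subring Ω) : Submonoid B where
  carrier := {s | (s : Ω) ≠ 0 ∧ w (s : Ω) = 0}
  mul_mem' := by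
    rintro a b ⟨ha, ha'⟩ ⟨hb, hb'⟩
    exact ⟨by rw [Subring.coe_mul]; exact mul_ne_zero ha hb, by
      rw [Subring.coe_mul, w.map_mul ha hb, ha', hb', add_zero]⟩
  one_mem' := ⟨by simp, by simpa using w.map_one⟩

private theorem lv_loc (w : RVal Ω) (B : Subring Ω) :
    letI := (Subring.inclusion (le_lv w B)).toAlgebra
    IsLocalization (zM w B) (lv w B) := by
  let _ := (Subring.inclusion (le_lv w B)).toAlgebra
  have hmap : ∀ s : B, ((algebraMap B (lv w B) s : lv w B) : Ω) = s := fun _ => rfl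
  refine ⟨?_, ?_, ?_⟩
  · rintro ⟨s, hs, hs'⟩
    refine IsUnit.of_mul_eq_one ⟨(s : Ω)⁻¹, lv_inv (le_lv w B s.2) hs hs'⟩ ?_
    apply Subtype.ext
    rw [Subring.coe_mul, hmap]
    exact mul_inv_cancel₀ hs
  · rintro ⟨f, a, ha, b, hb, hb0, hvb, rfl⟩
    refine ⟨(⟨a, ha⟩, ⟨⟨b, hb⟩, hb0, hvb⟩), ?_⟩
    apply Subtype.ext
    rw [Subring.coe_mul, hmap, hmap]
    exact div_mul_cancel₀ a hb0
  · intro a b hab
    have : a = b := Subtype.ext (congrArg (fun z : lv w B => (z : Ω)) hab)
    exact ⟨1, by rw [this]⟩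

/-! ### The localization at the center -/

/-- The center of `w` on `E`. -/
private def NI (w : RVal Ω) {E : Type u} [CommRing E] (ρ : E →+* Ω) (hρ : ∀ e, w.Ge 0 (ρ e)) :
    Ideal E where
  carrier := {e | VPos w (ρ e)}
  add_mem' := by
    intro a b ha hb
    simp only [Set.mem_ofPred_eq, map_add]
    exact VPos.add ha hb
  zero_mem' := by
    simp only [Set.mem_ofPred_eq, map_zero]
    exact VPos.zero
  smul_mem' := by
    intro c e he
    simp only [Set.mem_ofPred_eq, smul_eq_mul, map_mul]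
    exact VPos.mul' (hρ c) he

private theorem mem_NI {E : Type u} [CommRing E] {ρ : E →+* Ω} {hρ : ∀ e, w.Ge 0 (ρ e)} {e : E} :
    e ∈ NI w ρ hρ ↔ VPos w (ρ e) := Iff.rfl

private theorem not_vpos {x : Ω} (h : ¬ VPos w x) (h' : w.Ge 0 x) : x ≠ 0 ∧ w x = 0 := by
  unfold VPos at h
  push Not at h
  exact ⟨h.1, le_antisymm h.2 (h' h.1)⟩

private theorem vpos_ne {x : Ω} (h : w x = 0) (h0 : x ≠ 0) : ¬ VPos w x := by
  intro h1
  have := h1 h0
  linarith

private theorem NI_prime {E : Type u} [CommRing E] (ρ : E →+* Ω) (hρ : ∀ e, w.Ge 0 (ρ e)) :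
    (NI w ρ hρ).IsPrime := by
  refine ⟨?_, ?_⟩
  · rw [Ideal.ne_top_iff_one, mem_NI, map_one]
    exact vpos_ne w.map_one one_ne_zero
  · intro a b hab
    rw [mem_NI, map_mul] at hab
    by_contra hc
    push Not at hc
    obtain ⟨h1, h2⟩ := not_vpos hc.1 (hρ a)
    obtain ⟨h3, h4⟩ := not_vpos hc.2 (hρ b)
    refine vpos_ne ?_ (mul_ne_zero h1 h3) hab
    rw [w.map_mul h1 h3, h2, h4, add_zero]

section loc

variable {E : Type u} [CommRing E] (ρ : E →+* Ω) (hρ : ∀ e, w.Ge 0 (ρ e))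
  [hN : (NI w ρ hρ).IsPrime]

private noncomputable def pp : Localization.AtPrime (NI w ρ hρ) →+* Ω :=
  IsLocalization.lift (M := (NI w ρ hρ).primeCompl) (g := ρ) (by
    intro c
    exact isUnit_iff_ne_zero.2 fun h => c.2 (by
      change VPos w (ρ c)
      rw [h]
      exact VPos.zero))

private theorem pp_map (e : E) : pp ρ hρ (algebraMap E _ e) = ρ e :=
  IsLocalization.lift_eq _ e

private theorem pp_mk (e : E) (c : (NI w ρ hρ).primeCompl) :
    pp ρ hρ (IsLocalization.mk' _ e c) = ρ e / ρ c := by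
  have h1 : ρ c ≠ 0 := fun h => c.2 (by
    change VPos w (ρ c)
    rw [h]
    exact VPos.zero)
  rw [eq_div_iff h1, ← pp_map ρ hρ (c : E), ← map_mul, IsLocalization.mk'_spec, pp_map]

private theorem compl_val (c : (NI w ρ hρ).primeCompl) : ρ c ≠ 0 ∧ w (ρ c) = 0 :=
  not_vpos (fun h => c.2 h) (hρ _)

private theorem pp_vpos (s : Localization.AtPrime (NI w ρ hρ)) :
    s ∈ IsLocalRing.maximalIdeal (Localization.AtPrime (NI w ρ hρ)) ↔ VPos w (pp ρ hρ s) := by
  obtain ⟨e, c, rfl⟩ := IsLocalization.exists_mk'_eq (NI w ρ hρ).primeCompl s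
  rw [pp_mk]
  obtain ⟨h1, h2⟩ := compl_val ρ hρ c
  have h3 : VPos w (ρ e / ρ c) ↔ VPos w (ρ e) := by
    constructor
    · intro h h0
      have := h (div_ne_zero h0 h1)
      rw [w.map_div h0 h1, h2, sub_zero] at this
      exact this
    · intro h h0
      have h4 : ρ e ≠ 0 := by
        intro h5
        rw [h5, zero_div] at h0
        exact h0 rfl
      rw [w.map_div h4 h1, h2, sub_zero]
      exact h h4
  rw [h3, ← mem_NI (hρ := hρ)]
  exact IsLocalization.AtPrime.mk'_mem_maximal_iff _ (NI w ρ hρ) e c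

private theorem pp_mem {D : Subring Ω} (hD : ∀ e, ρ e ∈ D)
    (s : Localization.AtPrime (NI w ρ hρ)) : pp ρ hρ s ∈ lv w D := by
  obtain ⟨e, c, rfl⟩ := IsLocalization.exists_mk'_eq (NI w ρ hρ).primeCompl s
  rw [pp_mk]
  obtain ⟨h1, h2⟩ := compl_val ρ hρ c
  exact ⟨ρ e, hD e, ρ c, hD c, h1, h2, rfl⟩

private theorem pp_surj {D : Subring Ω} (hD : ∀ d ∈ D, ∃ e, ρ e = d) :
    ∀ o ∈ lv w D, ∃ s, pp ρ hρ s = o := by
  rintro _ ⟨a, ha, b, hb, hb0, hvb, rfl⟩
  obtain ⟨e, rfl⟩ := hD a ha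
  obtain ⟨c, rfl⟩ := hD b hb
  refine ⟨IsLocalization.mk' _ e (⟨c, fun h => vpos_ne hvb hb0 h⟩ : (NI w ρ hρ).primeCompl), ?_⟩
  rw [pp_mk]

private theorem height_pp : (RingHom.ker ρ).height = (RingHom.ker (pp ρ hρ)).height := by
  rw [← IsLocalization.height_under (NI w ρ hρ).primeCompl (RingHom.ker (pp ρ hρ))]
  congr 1
  ext e
  rw [Ideal.mem_under, RingHom.mem_ker, RingHom.mem_ker, pp_map]

end loc

/-! ### Inverting one element -/

section away

variable {A : Type u} [CommRing A] (π : A →+* Ω) (a₀ : A) (h₀ : π a₀ ≠ 0)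

private noncomputable def pg : Localization.Away a₀ →+* Ω :=
  IsLocalization.Away.lift a₀ (g := π) (isUnit_iff_ne_zero.2 h₀)

private theorem pg_map (a : A) : pg π a₀ h₀ (algebraMap A (Localization.Away a₀) a) = π a :=
  IsLocalization.Away.lift_eq a₀ _ a

private theorem height_away (E : Subalgebra A (Localization.Away a₀)) :
    (RingHom.ker π).height =
      (RingHom.ker ((pg π a₀ h₀).comp (algebraMap E (Localization.Away a₀)))).height := by
  have h1 : (RingHom.ker π).height = (RingHom.ker (pg π a₀ h₀)).height := by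
    rw [← IsLocalization.height_under (Submonoid.powers a₀) (RingHom.ker (pg π a₀ h₀))]
    congr 1
    ext e
    rw [Ideal.mem_under, RingHom.mem_ker, RingHom.mem_ker, pg_map]
  have hu : IsUnit (algebraMap A (Localization.Away a₀) a₀) :=
    IsLocalization.Away.algebraMap_isUnit a₀
  have hloc : IsLocalization (Submonoid.powers (algebraMap A E a₀)) (Localization.Away a₀) := by
    refine ⟨?_, ?_, ?_⟩
    · rintro ⟨_, n, rfl⟩
      have e1 : algebraMap E (Localization.Away a₀) (algebraMap A E a₀ ^ n) =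
          algebraMap A (Localization.Away a₀) a₀ ^ n := by
        rw [map_pow]
        rfl
      change IsUnit (algebraMap E (Localization.Away a₀) (algebraMap A E a₀ ^ n))
      rw [e1]
      exact hu.pow n
    · intro z
      obtain ⟨n, a, hz⟩ := IsLocalization.Away.surj a₀ z
      refine ⟨(algebraMap A E a, ⟨algebraMap A E a₀ ^ n, n, rfl⟩), ?_⟩
      have e1 : algebraMap E (Localization.Away a₀) (algebraMap A E a₀ ^ n) =
          algebraMap A (Localization.Away a₀) a₀ ^ n := by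
        rw [map_pow]
        rfl
      change z * algebraMap E (Localization.Away a₀) (algebraMap A E a₀ ^ n) = _
      rw [e1, hz]
      rfl
    · intro x y hxy
      have : x = y := Subtype.ext hxy
      exact ⟨1, by rw [this]⟩
  rw [h1, ← IsLocalization.height_under (Submonoid.powers (algebraMap A E a₀))
    (RingHom.ker (pg π a₀ h₀))]
  rfl

end away

private theorem exists_sharp' (h : Fml w R C K L μ ι π) (g : R) (hg : (g : Ω) ≠ 0) (G : Finset R)
    (F : Set Ω) (hF : F = (fun x : R => (x : Ω) / (g : Ω)) '' (G : Set R))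
    (hge : ∀ f ∈ adj C F, w.Ge 0 f) [IsLocalRing (lv w (adj R F))] :
    ∃ (S : Type u) (_ : CommRing S) (_ : IsNoetherianRing S) (_ : IsLocalRing S)
      (f : lv w (adj R F) →+* S) (p : S →+* Ω),
      IsLocalRing.maximalIdeal S ≤ (IsLocalRing.maximalIdeal (lv w (adj R F))).map f ∧
      (∀ x, p (f x) = x) ∧ (∀ s, p s ∈ lv w (adj C F)) ∧
      (∀ o ∈ lv w (adj C F), ∃ s, p s = o) ∧
      (RingHom.ker π).height ≤ (RingHom.ker p).height := by
  classical
  have hnA := h.noethA
  obtain ⟨a₀, ha₀⟩ : ∃ a₀, a₀ = ι g := ⟨_, rfl⟩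
  have hπa : π a₀ = g := by rw [ha₀, h.comp]
  have h₀ : π a₀ ≠ 0 := by rw [hπa]; exact hg
  have hu : IsUnit (((algebraMap Ah (Localization.Away a₀)).comp ι) g) := by
    rw [RingHom.comp_apply, ← ha₀]
    exact IsLocalization.Away.algebraMap_isUnit a₀
  -- the ring `R[1/g]`
  obtain ⟨j₁, hj₁⟩ : ∃ j₁ : Localization.Away g →+* Ω, ∀ r, j₁ (algebraMap R _ r) = r :=
    ⟨IsLocalization.Away.lift g (g := R.subtype) (isUnit_iff_ne_zero.2 hg),
      IsLocalization.Away.lift_eq g _⟩
  obtain ⟨j₂, hj₂⟩ : ∃ j₂ : Localization.Away g →+* Localization.Away a₀,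
      ∀ r, j₂ (algebraMap R _ r) = algebraMap Ah _ (ι r) :=
    ⟨IsLocalization.Away.lift g hu, IsLocalization.Away.lift_eq g hu⟩
  have hj₁i : Function.Injective j₁ := by
    rw [injective_iff_map_eq_zero]
    intro z hz
    obtain ⟨n, a, hza⟩ := IsLocalization.Away.surj g z
    have h1 := congrArg j₁ hza
    rw [map_mul, hz, zero_mul, hj₁] at h1
    have h2 : a = 0 := Subtype.ext h1.symm
    rw [h2, map_zero] at hza
    exact (((IsLocalization.Away.algebraMap_isUnit g).pow n).mul_left_eq_zero).1 hza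
  have hj₁₂ : ∀ z, pg π a₀ h₀ (j₂ z) = j₁ z := by
    intro z
    have : (pg π a₀ h₀).comp j₂ = j₁ := by
      refine IsLocalization.ringHom_ext (Submonoid.powers g) ?_
      ext r
      change pg π a₀ h₀ (j₂ (algebraMap R _ r)) = j₁ (algebraMap R _ r)
      rw [hj₂, pg_map, h.comp, hj₁]
    rw [← this]
    rfl
  obtain ⟨v, hv⟩ : ∃ v : R → Localization.Away g, ∀ x, j₁ (v x) = (x : Ω) / (g : Ω) := by
    refine ⟨fun x => IsLocalization.mk' _ x (⟨g, Submonoid.mem_powers g⟩ :
      Submonoid.powers g), fun x => ?_⟩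
    have h1 := congrArg j₁ (IsLocalization.mk'_spec (Localization.Away g) x
      (⟨g, Submonoid.mem_powers g⟩ : Submonoid.powers g))
    rw [map_mul, hj₁, hj₁] at h1
    rw [eq_div_iff hg]
    exact h1
  -- the ring `E`
  obtain ⟨E, hE⟩ : ∃ E : Subalgebra Ah (Localization.Away a₀),
      E = Algebra.adjoin Ah ((G.image fun x => j₂ (v x) : Finset _) :
        Set (Localization.Away a₀)) := ⟨_, rfl⟩
  have hEn : IsNoetherianRing E := by
    have h1 : Algebra.FiniteType Ah E := by
      rw [hE]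
      exact (Subalgebra.fg_iff_finiteType _).1 ⟨_, rfl⟩
    exact Algebra.FiniteType.isNoetherianRing Ah E
  have hEg : ∀ x ∈ G, j₂ (v x) ∈ E := by
    intro x hx
    rw [hE]
    refine Algebra.subset_adjoin ?_
    rw [Finset.coe_image]
    exact ⟨x, hx, rfl⟩
  obtain ⟨ρ, hρd⟩ : ∃ ρ : E →+* Ω, ρ = (pg π a₀ h₀).comp (algebraMap E (Localization.Away a₀)) :=
    ⟨_, rfl⟩
  have hρa : ∀ e : E, ρ e = pg π a₀ h₀ (e : Localization.Away a₀) := by
    intro e
    rw [hρd]
    rfl
  have hρm : ∀ e : E, ρ e ∈ adj C F := by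
    intro e
    rw [hρa]
    have h1 : (e : Localization.Away a₀) ∈ Algebra.adjoin Ah
        ((G.image fun x => j₂ (v x) : Finset _) : Set (Localization.Away a₀)) := by
      rw [← hE]
      exact e.2
    refine Algebra.adjoin_induction (p := fun z _ => pg π a₀ h₀ z ∈ adj C F) ?_ ?_ ?_ ?_ h1
    · intro z hz
      rw [Finset.coe_image] at hz
      obtain ⟨x, hx, rfl⟩ := hz
      change pg π a₀ h₀ (j₂ (v x)) ∈ adj C F
      rw [hj₁₂, hv]
      refine mem_adj ?_
      rw [hF]
      exact ⟨x, hx, rfl⟩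
    · intro a
      rw [pg_map]
      exact base_le_adj C F (h.mem a)
    · intro a b _ _ ha hb
      rw [map_add]
      exact Subring.add_mem _ ha hb
    · intro a b _ _ ha hb
      rw [map_mul]
      exact Subring.mul_mem _ ha hb
  have hρ : ∀ e, w.Ge 0 (ρ e) := fun e => hge _ (hρm e)
  have hρs : ∀ d ∈ adj C F, ∃ e, ρ e = d := by
    intro d hd
    refine adj_induction (p := fun d => ∃ e, ρ e = d) ?_ ?_ ?_ ?_ hd
    · intro c hc
      obtain ⟨a, rfl⟩ := h.surj c hc
      exact ⟨algebraMap Ah E a, by rw [hρa]; exact pg_map π a₀ h₀ a⟩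
    · intro f hf
      rw [hF] at hf
      obtain ⟨x, hx, rfl⟩ := hf
      exact ⟨⟨_, hEg x hx⟩, by rw [hρa]; exact (hj₁₂ _).trans (hv x)⟩
    · rintro _ _ ⟨a, rfl⟩ ⟨b, rfl⟩
      exact ⟨a + b, map_add _ _ _⟩
    · rintro _ _ ⟨a, rfl⟩ ⟨b, rfl⟩
      exact ⟨a * b, map_mul _ _ _⟩
  -- the map from `R[F]` to `E`
  have hkey : ∀ f ∈ adj R F, ∃ a : Localization.Away g, j₁ a = f ∧ j₂ a ∈ E := by
    intro f hf
    refine adj_induction (p := fun f => ∃ a : Localization.Away g, j₁ a = f ∧ j₂ a ∈ E)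
      ?_ ?_ ?_ ?_ hf
    · intro r hr
      refine ⟨algebraMap R _ ⟨r, hr⟩, hj₁ _, ?_⟩
      rw [hj₂]
      exact E.algebraMap_mem _
    · intro f hf
      rw [hF] at hf
      obtain ⟨x, hx, rfl⟩ := hf
      exact ⟨v x, hv x, hEg x hx⟩
    · rintro _ _ ⟨a, rfl, ha⟩ ⟨b, rfl, hb⟩
      exact ⟨a + b, map_add _ _ _, by rw [map_add]; exact E.add_mem ha hb⟩
    · rintro _ _ ⟨a, rfl, ha⟩ ⟨b, rfl, hb⟩
      exact ⟨a * b, map_mul _ _ _, by rw [map_mul]; exact E.mul_mem ha hb⟩
  obtain ⟨φ₀, hφ₀⟩ : ∃ φ₀ : adj R F →+* E, ∀ (x : adj R F) (a : Localization.Away g),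
      j₁ a = x → (φ₀ x : Localization.Away a₀) = j₂ a := by
    choose a ha ha' using fun x : adj R F => hkey x x.2
    refine ⟨{
      toFun := fun x => ⟨j₂ (a x), ha' x⟩
      map_one' := ?_
      map_mul' := ?_
      map_zero' := ?_
      map_add' := ?_ }, ?_⟩
    · apply Subtype.ext
      change j₂ (a 1) = 1
      have : a 1 = 1 := hj₁i (by rw [ha, map_one]; rfl)
      rw [this, map_one]
    · intro x y
      apply Subtype.ext
      change j₂ (a (x * y)) = j₂ (a x) * j₂ (a y)
      have : a (x * y) = a x * a y := hj₁i (by rw [ha, map_mul, ha, ha]; rfl)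
      rw [this, map_mul]
    · apply Subtype.ext
      change j₂ (a 0) = 0
      have : a 0 = 0 := hj₁i (by rw [ha, map_zero]; rfl)
      rw [this, map_zero]
    · intro x y
      apply Subtype.ext
      change j₂ (a (x + y)) = j₂ (a x) + j₂ (a y)
      have : a (x + y) = a x + a y := hj₁i (by rw [ha, map_add, ha, ha]; rfl)
      rw [this, map_add]
    · intro x b hb
      change j₂ (a x) = j₂ b
      have : a x = b := hj₁i (by rw [ha, hb])
      rw [this]
  have hρφ : ∀ x : adj R F, ρ (φ₀ x) = x := by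
    intro x
    obtain ⟨a, ha, -⟩ := hkey x x.2
    rw [hρa, hφ₀ x a ha, hj₁₂, ha]
  have hφι : ∀ r : R, φ₀ ⟨r, base_le_adj R F r.2⟩ = algebraMap Ah E (ι r) := by
    intro r
    apply Subtype.ext
    rw [hφ₀ _ (algebraMap R _ r) (hj₁ r), hj₂]
    rfl
  have hN : (NI w ρ hρ).IsPrime := NI_prime ρ hρ
  let _ := (Subring.inclusion (le_lv w (adj R F))).toAlgebra
  have hloc : IsLocalization (zM w (adj R F)) (lv w (adj R F)) := lv_loc w (adj R F)
  have hunit : ∀ y : zM w (adj R F), IsUnit (((algebraMap E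
      (Localization.AtPrime (NI w ρ hρ))).comp φ₀) y) := by
    rintro ⟨y, hy0, hy⟩
    refine IsLocalization.map_units _ (⟨φ₀ y, ?_⟩ : (NI w ρ hρ).primeCompl)
    intro hc
    have hc' : VPos w (ρ (φ₀ y)) := hc
    rw [hρφ] at hc'
    exact vpos_ne hy hy0 hc'
  obtain ⟨f, hf⟩ : ∃ f : lv w (adj R F) →+* Localization.AtPrime (NI w ρ hρ),
      ∀ x : adj R F, f (algebraMap _ (lv w (adj R F)) x) = algebraMap E _ (φ₀ x) :=
    ⟨IsLocalization.lift hunit, IsLocalization.lift_eq hunit⟩
  have hpf : ∀ x, pp ρ hρ (f x) = x := by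
    intro x
    have : (pp ρ hρ).comp f = (lv w (adj R F)).subtype := by
      refine IsLocalization.ringHom_ext (zM w (adj R F)) ?_
      ext x
      change pp ρ hρ (f (algebraMap _ (lv w (adj R F)) x)) = x
      rw [hf, pp_map, hρφ]
    exact congrArg (fun k : lv w (adj R F) →+* Ω => k x) this
  have hRF : ∀ x ∈ adj R F, w.Ge 0 x := by
    intro x hx
    have := hρ (φ₀ ⟨x, hx⟩)
    rw [hρφ] at this
    exact this
  refine ⟨Localization.AtPrime (NI w ρ hρ), inferInstance,
    IsLocalization.isNoetherianRing (NI w ρ hρ).primeCompl _ hEn, inferInstance, f, pp ρ hρ, ?_,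
    hpf, ?_, ?_, ?_⟩
  · -- the maximal ideal
    obtain ⟨Q, hQ⟩ : ∃ Q, Q = (IsLocalRing.maximalIdeal (lv w (adj R F))).map f := ⟨_, rfl⟩
    rw [← hQ]
    have hmB : ∀ x : lv w (adj R F), VPos w (x : Ω) → f x ∈ Q := by
      intro x hx
      rw [hQ]
      exact Ideal.mem_map_of_mem f ((mem_max_iff hRF x).2 hx)
    have hQm : Q ≤ IsLocalRing.maximalIdeal (Localization.AtPrime (NI w ρ hρ)) := by
      rw [hQ, Ideal.map_le_iff_le_comap]
      intro x hx
      rw [Ideal.mem_comap, pp_vpos, hpf]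
      exact (mem_max_iff hRF x).1 hx
    have hII : ∀ a ∈ II R μ ι, algebraMap E (Localization.AtPrime (NI w ρ hρ))
        (algebraMap Ah E a) ∈ Q := by
      have h1 : II R μ ι ≤ Q.comap ((algebraMap E (Localization.AtPrime (NI w ρ hρ))).comp
          (algebraMap Ah E)) := by
        rw [II, idl, Ideal.map_span, Ideal.span_le]
        rintro _ ⟨r, ⟨i, hi⟩, rfl⟩
        change algebraMap E (Localization.AtPrime (NI w ρ hρ)) (algebraMap Ah E (ι r)) ∈ Q
        rw [← hφι, ← hf]
        refine hmB _ ?_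
        change VPos w (r : Ω)
        rw [hi]
        exact fun _ => h.par.pos i
      exact fun a ha => h1 ha
    have hdec : ∀ z ∈ Algebra.adjoin Ah ((G.image fun x => j₂ (v x) : Finset _) :
        Set (Localization.Away a₀)), ∀ hz : z ∈ E, ∃ r : lv w (adj R F),
        algebraMap E (Localization.AtPrime (NI w ρ hρ)) ⟨z, hz⟩ - f r ∈ Q := by
      intro z hz
      refine Algebra.adjoin_induction (p := fun z _ => ∀ hz : z ∈ E, ∃ r : lv w (adj R F),
        algebraMap E (Localization.AtPrime (NI w ρ hρ)) ⟨z, hz⟩ - f r ∈ Q) ?_ ?_ ?_ ?_ hz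
      · intro z hz hzE
        rw [Finset.coe_image] at hz
        obtain ⟨x, hx, rfl⟩ := hz
        have hxF : (x : Ω) / (g : Ω) ∈ adj R F := mem_adj (by rw [hF]; exact ⟨x, hx, rfl⟩)
        refine ⟨algebraMap (adj R F) (lv w (adj R F)) ⟨_, hxF⟩, ?_⟩
        have h1 : φ₀ ⟨_, hxF⟩ = ⟨j₂ (v x), hzE⟩ := by
          apply Subtype.ext
          exact hφ₀ _ (v x) (hv x)
        rw [hf, h1]
        change algebraMap E (Localization.AtPrime (NI w ρ hρ)) ⟨j₂ (v x), hzE⟩ -
          algebraMap E (Localization.AtPrime (NI w ρ hρ)) ⟨j₂ (v x), hzE⟩ ∈ Q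
        rw [sub_self]
        exact Q.zero_mem
      · intro a hzE
        obtain ⟨r, hr⟩ := h.dense 1 a
        rw [pow_one] at hr
        refine ⟨algebraMap (adj R F) (lv w (adj R F)) ⟨r, base_le_adj R F r.2⟩, ?_⟩
        rw [hf, hφι]
        have h1 := hII _ hr
        rw [map_sub, map_sub] at h1
        exact h1
      · intro a b ha hb iha ihb hzE
        have ha' : a ∈ E := by rw [hE]; exact ha
        have hb' : b ∈ E := by rw [hE]; exact hb
        obtain ⟨r, hr⟩ := iha ha'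
        obtain ⟨s, hs⟩ := ihb hb'
        refine ⟨r + s, ?_⟩
        have h1 : (⟨a + b, hzE⟩ : E) = ⟨a, ha'⟩ + ⟨b, hb'⟩ := rfl
        rw [h1, map_add, map_add, add_sub_add_comm]
        exact Q.add_mem hr hs
      · intro a b ha hb iha ihb hzE
        have ha' : a ∈ E := by rw [hE]; exact ha
        have hb' : b ∈ E := by rw [hE]; exact hb
        obtain ⟨r, hr⟩ := iha ha'
        obtain ⟨s, hs⟩ := ihb hb'
        refine ⟨r * s, ?_⟩
        have h1 : (⟨a * b, hzE⟩ : E) = ⟨a, ha'⟩ * ⟨b, hb'⟩ := rfl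
        rw [h1, map_mul, map_mul]
        have h2 : ∀ x y x' y' : Localization.AtPrime (NI w ρ hρ), x * y - x' * y' =
          x * (y - y') + (x - x') * y' := by intros; ring
        rw [h2]
        exact Q.add_mem (Q.mul_mem_left _ hs) (Q.mul_mem_right _ hr)
    have hEQ : ∀ e : E, VPos w (ρ e) →
        algebraMap E (Localization.AtPrime (NI w ρ hρ)) e ∈ Q := by
      intro e he
      obtain ⟨r, hr⟩ := hdec e (by rw [← hE]; exact e.2) e.2
      have h1 : f r ∈ IsLocalRing.maximalIdeal (Localization.AtPrime (NI w ρ hρ)) := by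
        have h2 : algebraMap E (Localization.AtPrime (NI w ρ hρ)) e ∈
            IsLocalRing.maximalIdeal (Localization.AtPrime (NI w ρ hρ)) := by
          rw [pp_vpos, pp_map]
          exact he
        have h3 := Ideal.sub_mem _ h2 (hQm hr)
        have h4 : algebraMap E (Localization.AtPrime (NI w ρ hρ)) e -
          (algebraMap E (Localization.AtPrime (NI w ρ hρ)) ⟨(e : Localization.Away a₀), e.2⟩ -
            f r) = f r := sub_sub_cancel _ _
        rwa [h4] at h3
      rw [pp_vpos, hpf] at h1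
      have h5 := Q.add_mem hr (hmB r h1)
      rwa [sub_add_cancel] at h5
    intro s hs
    obtain ⟨e, c, rfl⟩ := IsLocalization.exists_mk'_eq (NI w ρ hρ).primeCompl s
    have h6 : VPos w (ρ e) := (IsLocalization.AtPrime.mk'_mem_maximal_iff _ (NI w ρ hρ) e c).1 hs
    rw [IsLocalization.mk'_eq_mul_mk'_one]
    exact Q.mul_mem_right _ (hEQ e h6)
  · exact fun s => pp_mem ρ hρ hρm s
  · exact pp_surj ρ hρ hρs
  · rw [height_away π a₀ h₀ E, ← hρd, height_pp ρ hρ]

theorem exists_sharp (h : Fml w R C K L μ ι π) (g : R) (hg : (g : Ω) ≠ 0) (G : Finset R)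
    (hge : ∀ f ∈ adj C ((fun x : R => (x : Ω) / (g : Ω)) '' (G : Set R)), w.Ge 0 f)
    [IsLocalRing (lv w (adj R ((fun x : R => (x : Ω) / (g : Ω)) '' (G : Set R))))] :
    ∃ (S : Type u) (_ : CommRing S) (_ : IsNoetherianRing S) (_ : IsLocalRing S)
      (f : lv w (adj R ((fun x : R => (x : Ω) / (g : Ω)) '' (G : Set R))) →+* S)
      (p : S →+* Ω),
      IsLocalRing.maximalIdeal S ≤ (IsLocalRing.maximalIdeal
        (lv w (adj R ((fun x : R => (x : Ω) / (g : Ω)) '' (G : Set R))))).map f ∧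
      (∀ x, p (f x) = x) ∧
      (∀ s, p s ∈ lv w (adj C ((fun x : R => (x : Ω) / (g : Ω)) '' (G : Set R)))) ∧
      (∀ o ∈ lv w (adj C ((fun x : R => (x : Ω) / (g : Ω)) '' (G : Set R))), ∃ s, p s = o) ∧
      (RingHom.ker π).height ≤ (RingHom.ker p).height := by
  exact exists_sharp' h g hg G _ rfl hge

end Pool.Agent.LUZ
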