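import Mathlib

/-! # Z11: dimension inequalities for local rings

Recipes. `dim_le_of_map`: let `d = dim R` (finite); there are `d` elements of `R` generating an ideal `I` with `m_R^k ≤ I` (systems of parameters: Mathlib
`exists_..height..`, `Ideal.exists_spanRank_eq_and_height_eq`, or LUM/LUC rows `exists_sop`: see luc_C1.lean / lum C01 for what was used), so `m_S^k ≤ (m_R.map f)^k ≤ I.map f`, and `I.map f` is
generated by `d` elements: Krull (`Ideal.height_le_spanRank_toENat_of_mem_minimal_primes` ..), `m_S` is minimal over `I.map f ≤ m_S` (`f` is local). Alternative: growth of the lengths (`dim_le_of_growth` in luc_Dim.lean / luc_C1.lean, LUM `length_pow_le`):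
`length (S / m_S^M) ≤ length (S / I^M S) ≤ C * M^d`. `height_add_dim`: concatenate chains
(`Ideal.height_add_ringKrullDim_quotient_le` or similar, search `primeHeight_add`, `ringKrullDim_quotient`). -/

set_option autoImplicit false

namespace Pool.Agent.LUZ

universe u v

theorem dim_le_of_map {R : Type u} {S : Type v} [CommRing R] [CommRing S] [IsNoetherianRing R]
    [IsNoetherianRing S] [IsLocalRing R] [IsLocalRing S] (f : R →+* S) [IsLocalHom f]
    (hm : IsLocalRing.maximalIdeal S ≤ (IsLocalRing.maximalIdeal R).map f) :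
    ringKrullDim S ≤ ringKrullDim R := by
  rw [← IsLocalRing.maximalIdeal_height_eq_ringKrullDim,
    ← IsLocalRing.maximalIdeal_height_eq_ringKrullDim]
  obtain ⟨J, hJ, hr, hh⟩ := Ideal.exists_spanRank_eq_and_height_eq (IsLocalRing.maximalIdeal R)
    Ideal.IsPrime.ne_top'
  have hJP : ∀ P : Ideal R, P.IsPrime → J ≤ P → P = IsLocalRing.maximalIdeal R := by
    intro P hP hJP
    by_contra hne
    have hlt : P < IsLocalRing.maximalIdeal R :=
      lt_of_le_of_ne (IsLocalRing.le_maximalIdeal hP.ne_top) hne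
    have h1 := Ideal.height_strict_mono_of_isPrime_of_isPrime hlt
    have h2 : J.height ≤ P.height := Ideal.height_mono hJP
    rw [hh] at h2
    exact absurd h1 (not_lt.2 h2)
  have hmin : IsLocalRing.maximalIdeal S ∈ (J.map f).minimalPrimes := by
    refine ⟨⟨inferInstance, ?_⟩, ?_⟩
    · refine (Ideal.map_mono hJ).trans ?_
      rw [Ideal.map_le_iff_le_comap, IsLocalRing.maximalIdeal_comap]
    · rintro Q ⟨hQ, hJQ⟩ _
      have h3 : Q.comap f = IsLocalRing.maximalIdeal R :=
        hJP _ (hQ.comap f) (Ideal.map_le_iff_le_comap.1 hJQ)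
      exact hm.trans (Ideal.map_le_iff_le_comap.2 h3.ge)
  have h4 := Ideal.height_le_spanRank_toENat_of_mem_minimalPrimes _ _ hmin
  have h5 := Cardinal.toENat.monotone' (Ideal.lift_spanRank_map_le f J)
  have h6 : Cardinal.toENat (J.map f).spanRank ≤ Cardinal.toENat J.spanRank := by
    rw [← Cardinal.toENat_lift (c := J.spanRank), ← Cardinal.toENat_lift (c := (J.map f).spanRank)]
    exact h5
  rw [hr, Cardinal.toENat_ofENat] at h6
  exact_mod_cast h4.trans h6

theorem height_add_dim {S : Type u} [CommRing S] (P : Ideal S) [P.IsPrime] {r n : ℕ}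
    (hr : (r : ℕ∞) ≤ P.height) (hn : (n : WithBot ℕ∞) ≤ ringKrullDim (S ⧸ P)) :
    ((n + r : ℕ) : WithBot ℕ∞) ≤ ringKrullDim S := by
  have hset : PrimeSpectrum.zeroLocus (R := S) P
      = Set.Ici (⟨P, inferInstance⟩ : PrimeSpectrum S) := by
    ext x
    exact Iff.rfl
  rw [ringKrullDim_quotient, hset, ← Order.coheight_eq_krullDim_Ici] at hn
  have hn' : (n : ℕ∞) ≤ Order.coheight (⟨P, inferInstance⟩ : PrimeSpectrum S) := by
    exact_mod_cast hn
  have hr' : (r : ℕ∞) ≤ Order.height (⟨P, inferInstance⟩ : PrimeSpectrum S) := by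
    rw [← PrimeSpectrum.height_eq_orderHeight]
    exact hr
  have : Nonempty (PrimeSpectrum S) := ⟨⟨P, inferInstance⟩⟩
  rw [ringKrullDim, Order.krullDim_eq_iSup_height_add_coheight_of_nonempty]
  have h1 : ((n + r : ℕ) : ℕ∞) ≤ ⨆ a : PrimeSpectrum S, Order.height a + Order.coheight a := by
    refine le_trans ?_ (le_iSup _ (⟨P, inferInstance⟩ : PrimeSpectrum S))
    rw [Nat.cast_add, add_comm]
    exact add_le_add hr' hn'
  exact_mod_cast h1

end Pool.Agent.LUZ
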