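import Pool.Agent.Lib.LUZ.Z09
import Pool.Agent.Lib.LUZ.Z10
import Pool.Agent.Lib.LUZ.Z11

/-! # Z12: the dimension of `B`

Recipe. Upper bound: `BB_par`-type hypothesis `hpar` (`Par.max_eq`, `ringKrullDim_le_spanFinrank_maximalIdeal`, `Submodule.spanFinrank_span_le_ncard_of_finite`; see row H0 of LUC: store luc_H0.lean). Lower bound: all elements of `FR` are quotients of
elements of `R` with the same denominator `g = c * G1^3` (`yy t = cc t * G1^3 / g`, `bb φ = (∏ μ) * c * G1^2 / g`, `qq j = η₀ j * c / g`); `G` = the finite set of the numerators, `(fun x => x / g) '' G = FR`. `adj C FR ≤ O` (`BB_le`-type: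
`C_le_O`, `bb_memO`, `qq_memO`), and `lv w (adj C FR) = O` (`hc.O_eq`, `lv_eq_of_le`). `exists_sharp`: `f` is local: if `f x` is a unit then `x = p (f x)` is a unit of `O`, so it has value 0 and is a unit of `B`. `dim_le_of_map`: `dim S ≤ dim B`; `S ⧸ ker p` is isomorphic to the range of `p`, the ring
`O` (`hO`); `height_add_dim` with `hht`. -/

set_option autoImplicit false

namespace Pool.Agent.LUZ

open Pool.Agent.H15JM (RVal)
open Pool.Agent.LU1 (VPos)
open Pool.Agent.LUC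

universe u

variable {Ω : Type u} [Field Ω] {w : RVal Ω} {R C : Subring Ω} {K L : Subfield Ω} {q n τ l r : ℕ}
  {μ : Fin q → Ω} {Ah : Type u} [CommRing Ah] {ι : R →+* Ah} {π : Ah →+* Ω} {η : Fin l → Ah}
  {z : Fin n → Ω} {J : Finset (Fin n)} {O : Subring Ω} {c : R} {cc : Fin τ → R}
  {Φ b N₁ N' : ℕ} {η₀ : Fin l → R}

/-- The numerators. -/
private noncomputable def numR {R : Subring Ω} (P c : R) (cc : Fin τ → R) (η₀ : Fin l → R)
    (N₁ : ℕ) (μ' : Fin q → R) : Fin τ ⊕ (Fin N₁ → Fin q) ⊕ Fin l → R :=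
  Sum.elim (fun t => cc t * P ^ 3)
    (Sum.elim (fun φ => (∏ i, μ' (φ i)) * c * P ^ 2) (fun j => η₀ j * c))

/-- The upper bound of the dimension. -/
private theorem dim_le_of_par {B : Subring Ω} (hB0 : ∀ f ∈ B, w.Ge 0 f)
    (hnoe : IsNoetherianRing (lv w B)) {m : ℕ} {y : Fin m → Ω} (hpar : Par w (lv w B) y) :
    ringKrullDim (lv w B) ≤ m := by
  have hloc : IsLocalRing (lv w B) := lv_isLocalRing hB0
  refine (ringKrullDim_le_spanFinrank_maximalIdeal (lv w B)).trans ?_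
  rw [hpar.max_eq hB0, idl]
  have hsub : {b : lv w B | ∃ i, (b : Ω) = y i} =
      Set.range fun i => (⟨y i, hpar.mem i⟩ : lv w B) := by
    ext b
    constructor
    · rintro ⟨i, hi⟩
      exact ⟨i, Subtype.ext hi.symm⟩
    · rintro ⟨i, rfl⟩
      exact ⟨i, rfl⟩
  rw [hsub]
  have hcard : (Set.range fun i => (⟨y i, hpar.mem i⟩ : lv w B)).ncard ≤ m := by
    rw [← Set.image_univ]
    refine (Set.ncard_image_le Set.finite_univ).trans ?_
    rw [Set.ncard_univ, Nat.card_eq_fintype_card, Fintype.card_fin]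
  exact_mod_cast (Submodule.spanFinrank_span_le_ncard_of_finite (Set.finite_range _)).trans hcard

theorem BB_dim (h : Fml w R C K L μ ι π) (hη : ∀ j, π (η j) = 0)
    (hht : (r : ℕ∞) ≤ (RingHom.ker π).height)
    (hc : FCh w R C μ z J O c cc) (hO : ringKrullDim O = n)
    (hb : FB w R O μ ι π η z J c cc Φ b N₁ N' η₀) (σ : Fin r → Fin l)
    (hpar : Par w (BB w μ c cc Φ b N₁ η₀) (Fin.append z fun k => qq μ c Φ b η₀ (σ k))) :
    ringKrullDim (BB w μ c cc Φ b N₁ η₀) = ((n + r : ℕ) : WithBot ℕ∞) := by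
  classical
  obtain ⟨μ', hμ'⟩ : ∃ μ' : Fin q → R, ∀ i, (μ' i : Ω) = μ i :=
    ⟨fun i => ⟨μ i, h.par.mem i⟩, fun _ => rfl⟩
  obtain ⟨P, hP⟩ : ∃ P : R, (P : Ω) = G1 μ c Φ b := ⟨⟨_, G1_mem h c Φ b⟩, rfl⟩
  have hG := G1_ne h hc Φ b
  have hP0 : (P : Ω) ≠ 0 := by rw [hP]; exact hG
  obtain ⟨g, hg⟩ : ∃ g : R, g = c * P ^ 3 := ⟨_, rfl⟩
  have hg' : (g : Ω) = (c : Ω) * (P : Ω) ^ 3 := by rw [hg]; push_cast; rfl
  have hg0 : (g : Ω) ≠ 0 := by
    rw [hg']
    exact mul_ne_zero hc.c_ne (pow_ne_zero _ hP0)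
  obtain ⟨G, hGdef⟩ : ∃ G : Finset R, G = Finset.univ.image (numR P c cc η₀ N₁ μ') := ⟨_, rfl⟩
  -- the set of the quotients
  have hF : (fun x : R => (x : Ω) / (g : Ω)) '' (G : Set R) = FR μ c cc Φ b N₁ η₀ := by
    have e1 : ∀ t, ((cc t * P ^ 3 : R) : Ω) / (g : Ω) = yy c cc t := by
      intro t
      rw [hg', yy]
      push_cast
      rw [mul_div_mul_right _ _ (pow_ne_zero 3 hP0)]
    have e2 : ∀ φ : Fin N₁ → Fin q,
        (((∏ i, μ' (φ i)) * c * P ^ 2 : R) : Ω) / (g : Ω) = bb μ c Φ b N₁ φ := by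
      intro φ
      rw [hg', bb, ← hP]
      have e3 : (((∏ i, μ' (φ i)) : R) : Ω) = ∏ i, μ (φ i) := by
        rw [SubmonoidClass.coe_finsetProd]
        exact Finset.prod_congr rfl fun i _ => hμ' _
      push_cast
      rw [← e3]
      have := hc.c_ne
      field_simp
      push_cast
      rfl
    have e4 : ∀ j, ((η₀ j * c : R) : Ω) / (g : Ω) = qq μ c Φ b η₀ j := by
      intro j
      rw [hg', qq, ← hP]
      push_cast
      rw [mul_comm (c : Ω), mul_div_mul_right _ _ hc.c_ne]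
    ext f
    rw [hGdef, Finset.coe_image, Finset.coe_univ, Set.image_univ]
    constructor
    · rintro ⟨_, ⟨x, rfl⟩, rfl⟩
      rcases x with t | φ | j
      · exact Or.inl (Or.inl ⟨t, (e1 t).symm⟩)
      · exact Or.inl (Or.inr ⟨φ, (e2 φ).symm⟩)
      · exact Or.inr ⟨j, (e4 j).symm⟩
    · rintro ((⟨t, rfl⟩ | ⟨φ, rfl⟩) | ⟨j, rfl⟩)
      · exact ⟨_, ⟨Sum.inl t, rfl⟩, e1 t⟩
      · exact ⟨_, ⟨Sum.inr (Sum.inl φ), rfl⟩, e2 φ⟩
      · exact ⟨_, ⟨Sum.inr (Sum.inr j), rfl⟩, e4 j⟩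
  have hnoe := BB_noeth (c := c) (cc := cc) (Φ := Φ) (b := b) (N₁ := N₁) (η₀ := η₀) h
  have hBO := BB_le h hη hc hb
  have hRB : adj R (FR μ c cc Φ b N₁ η₀) ≤ BB w μ c cc Φ b N₁ η₀ := le_lv w _
  have hCO : C ≤ O := (base_le_adj C _).trans (C_le_O h hc)
  have hFO : FR μ c cc Φ b N₁ η₀ ⊆ (O : Set Ω) := fun f hf => hBO (hRB (mem_adj hf))
  have hCF : adj C (FR μ c cc Φ b N₁ η₀) ≤ O := adj_le hCO hFO
  have hB0 : ∀ f ∈ adj R (FR μ c cc Φ b N₁ η₀), w.Ge 0 f := fun f hf => hc.ge f (hBO (hRB hf))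
  have hOlv : lv w (adj C (FR μ c cc Φ b N₁ η₀)) = O := by
    apply le_antisymm (lv_le hCF hc.inv)
    nth_rewrite 1 [hc.O_eq]
    exact lv_mono (adj_mono le_rfl fun _ hf => Or.inl (Or.inl hf))
  apply le_antisymm
  · exact dim_le_of_par hB0 hnoe hpar
  · have hloc : IsLocalRing (lv w (adj R (FR μ c cc Φ b N₁ η₀))) := lv_isLocalRing hB0
    have hex := exists_sharp (w := w) h g hg0 G
    rw [hF] at hex
    obtain ⟨S, i1, i2, i3, f, p, hmax, hpf, hp1, hp2, hht2⟩ :=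
      hex (fun f hf => hc.ge f (hCF hf))
    rw [hOlv] at hp1 hp2
    have hfl : IsLocalHom f := by
      refine ⟨fun x hx => ?_⟩
      obtain ⟨y, hy⟩ := hx.exists_right_inv
      have h1 : (x : Ω) * p y = 1 := by
        rw [← hpf x, ← map_mul, hy, map_one]
      have hx0 : (x : Ω) ≠ 0 := left_ne_zero_of_mul (by rw [h1]; exact one_ne_zero)
      have hy0 : p y ≠ 0 := right_ne_zero_of_mul (a := (x : Ω)) (by rw [h1]; exact one_ne_zero)
      have h2 := w.map_mul hx0 hy0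
      rw [h1, w.map_one] at h2
      have h3 := lv_nonneg hB0 (x : Ω) x.2 hx0
      have h4 := hc.ge _ (hp1 y) hy0
      exact lv_isUnit x hx0 (by linarith)
    have hnoe' : IsNoetherianRing (lv w (adj R (FR μ c cc Φ b N₁ η₀))) := hnoe
    have hd1 : ringKrullDim S ≤ ringKrullDim (lv w (adj R (FR μ c cc Φ b N₁ η₀))) :=
      dim_le_of_map f hmax
    have hprime : (RingHom.ker p).IsPrime := RingHom.ker_isPrime p
    have hrange : p.range = O := by
      ext x
      rw [RingHom.mem_range]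
      constructor
      · rintro ⟨s, rfl⟩
        exact hp1 s
      · exact hp2 x
    have hd2 : ringKrullDim (S ⧸ RingHom.ker p) = n := by
      rw [ringKrullDim_eq_of_ringEquiv (RingHom.quotientKerEquivRange p), hrange, hO]
    have hd3 := height_add_dim (RingHom.ker p) (hht.trans hht2) hd2.ge
    exact hd3.trans hd1

end Pool.Agent.LUZ
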