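import Pool.Agent.Lib.LUZ.Defs

/-! # Z13: a basis of rows over the valuation ring

Recipe. Among the `σ : Fin r → Fin l` with `det (fun k i => a (σ k) i) ≠ 0` (`β` is one: determinant `d^r`) choose one with the least value of the determinant `D`
(`Finset.exists_min_image` on a finite nonempty set). `lam j k = det (updateRow A k (a j)) / D` (Cramer's rule: `∑ k, det (updateRow A k v) * A k i = det A * v i`; `Matrix.cramer_transpose_apply`, `Matrix.mulVec_cramer`). The numerator is
the determinant for `Function.update σ k j` (0 or of value `≥ w D`). It is in `L` (`Matrix.det_apply`, sums of products). `r = 0`: fine. -/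

set_option autoImplicit false

namespace Pool.Agent.LUZ

open Pool.Agent.H15JM (RVal)
open Pool.Agent.LU1 (VPos)
open Pool.Agent.LUC

universe u

variable {Ω : Type u} [Field Ω]

private noncomputable def z13D {l r : ℕ} (a : Fin l → Fin r → Ω) (σ : Fin r → Fin l) : Ω :=
  Matrix.det (Matrix.of fun k i => a (σ k) i)

private lemma z13_mem (L : Subfield Ω) {l r : ℕ} {a : Fin l → Fin r → Ω}
    (haL : ∀ j i, a j i ∈ L) (σ : Fin r → Fin l) : z13D a σ ∈ L := by
  unfold z13D
  rw [Matrix.det_apply]
  refine Subfield.sum_mem _ fun s _ => ?_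
  rw [Units.smul_def]
  refine Subfield.zsmul_mem _ (Subfield.prod_mem _ fun i _ => haL _ _) _

private lemma z13_beta {l r : ℕ} {a : Fin l → Fin r → Ω} {β : Fin r → Fin l} {d : Ω}
    (hβ : ∀ i i', a (β i) i' = if i = i' then d else 0) : z13D a β = d ^ r := by
  unfold z13D
  have h : (Matrix.of fun k i => a (β k) i) = Matrix.diagonal fun _ : Fin r => d := by
    ext i j
    rw [Matrix.of_apply, hβ, Matrix.diagonal_apply]
  rw [h, Matrix.det_diagonal, Finset.prod_const, Finset.card_univ, Fintype.card_fin]

private lemma z13_cramer {l r : ℕ} (a : Fin l → Fin r → Ω) (σ : Fin r → Fin l) (j : Fin l)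
    (i : Fin r) : ∑ k, z13D a (Function.update σ k j) * a (σ k) i = z13D a σ * a j i := by
  have h1 : ∀ k, z13D a (Function.update σ k j)
      = Matrix.cramer (Matrix.of fun k i => a (σ k) i).transpose (a j) k := by
    intro k
    rw [Matrix.cramer_transpose_apply]
    unfold z13D
    congr 1
    ext k' i'
    rw [Matrix.of_apply, Matrix.updateRow_apply]
    by_cases hk : k' = k
    · rw [hk, Function.update_self, if_pos rfl]
    · rw [Function.update_of_ne hk, if_neg hk, Matrix.of_apply]
  have h2 := congrFun (Matrix.mulVec_cramer (Matrix.of fun k i => a (σ k) i).transpose (a j)) i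
  rw [Matrix.mulVec, dotProduct, Pi.smul_apply, smul_eq_mul, Matrix.det_transpose] at h2
  unfold z13D at h1 ⊢
  rw [← h2]
  refine Finset.sum_congr rfl fun k _ => ?_
  rw [h1 k, Matrix.transpose_apply, Matrix.of_apply, mul_comm]

theorem exists_rows (w : RVal Ω) (L : Subfield Ω) {l r : ℕ} (a : Fin l → Fin r → Ω)
    (haL : ∀ j i, a j i ∈ L) (β : Fin r → Fin l) (d : Ω) (hd : d ≠ 0)
    (hβ : ∀ i i', a (β i) i' = if i = i' then d else 0) :
    ∃ (σ : Fin r → Fin l) (lam : Fin l → Fin r → Ω),
      (∀ j k, lam j k ∈ L ∧ w.Ge 0 (lam j k)) ∧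
        ∀ j i, a j i = ∑ k, lam j k * a (σ k) i := by
  classical
  obtain ⟨σ, hσ, hmin⟩ := Finset.exists_min_image
    (Finset.univ.filter fun σ : Fin r → Fin l => z13D a σ ≠ 0) (fun σ => w (z13D a σ))
    ⟨β, Finset.mem_filter.2 ⟨Finset.mem_univ _, by rw [z13_beta hβ]; exact pow_ne_zero _ hd⟩⟩
  have hσ0 := (Finset.mem_filter.1 hσ).2
  refine ⟨σ, fun j k => z13D a (Function.update σ k j) / z13D a σ, fun j k => ⟨?_, ?_⟩, ?_⟩
  · exact Subfield.div_mem _ (z13_mem L haL _) (z13_mem L haL _)
  · intro hne
    have h0 : z13D a (Function.update σ k j) ≠ 0 := by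
      intro h
      exact hne (by simp only [h, zero_div])
    have h1 := hmin _ (Finset.mem_filter.2 ⟨Finset.mem_univ _, h0⟩)
    have h2 : w (z13D a (Function.update σ k j))
        = w (z13D a (Function.update σ k j) / z13D a σ) + w (z13D a σ) := by
      rw [← w.map_mul hne hσ0, div_mul_cancel₀ _ hσ0]
    linarith
  · intro j i
    have h := z13_cramer a σ j i
    have h3 : a j i = (∑ k, z13D a (Function.update σ k j) * a (σ k) i) / z13D a σ := by
      rw [h, mul_div_cancel_left₀ _ hσ0]
    rw [h3, Finset.sum_div]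
    refine Finset.sum_congr rfl fun k _ => ?_
    rw [div_mul_eq_mul_div]

end Pool.Agent.LUZ
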