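import Pool.Agent.Lib.LUZ.Defs

/-! # Z14: the regular point of the implicit prime -/

set_option autoImplicit false

namespace Pool.Agent.LUZ

open Pool.Agent.H15JM (RVal)
open Pool.Agent.LU1 (VPos)
open Pool.Agent.LUC

universe u

variable {Ω : Type u} [Field Ω]

private theorem z14_gens {A : Type u} [CommRing A] {L : Type u} [CommRing L] [Algebra A L]
    (S : Submonoid A) [IsLocalization S L] {r : ℕ} (h : Fin r → A) (y : A)
    (hy : algebraMap A L y ∈ Ideal.span (Set.range (fun i => algebraMap A L (h i)))) :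
    ∃ s ∈ S, ∃ a : Fin r → A, s * y = ∑ i, a i * h i := by
  obtain ⟨c, hc⟩ := Ideal.mem_span_range_iff_exists_fun.1 hy
  obtain ⟨b, hb⟩ := IsLocalization.exist_integer_multiples_of_finite S c
  choose a ha using hb
  have h1 : algebraMap A L ((b : A) * y) = algebraMap A L (∑ i, a i * h i) := by
    rw [map_mul, ← hc, Finset.mul_sum, map_sum]
    refine Finset.sum_congr rfl fun i _ => ?_
    rw [map_mul, ha i, Algebra.smul_def]
    simp only [mul_assoc]
  obtain ⟨t, ht⟩ := (IsLocalization.eq_iff_exists S L).1 h1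
  refine ⟨(t : A) * b, S.mul_mem t.2 b.2, fun i => t * a i, ?_⟩
  rw [mul_assoc, ht, Finset.mul_sum]
  refine Finset.sum_congr rfl fun i _ => ?_
  ring

theorem exists_FReg {Ah : Type u} [CommRing Ah] [IsNoetherianRing Ah] (π : Ah →+* Ω)
    [(RingHom.ker π).IsPrime]
    [IsRegularLocalRing (Localization.AtPrime (RingHom.ker π))] :
    ∃ (l r : ℕ) (η : Fin l → Ah) (δ : Ah) (a : Fin l → Fin r → Ah) (β : Fin r → Fin l),
      FReg π η δ a β := by
  classical
  set L := Localization.AtPrime (RingHom.ker π) with hL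
  set m : Ideal L := IsLocalRing.maximalIdeal L with hm
  have hfg : m.FG := IsNoetherian.noetherian _
  have hmap : (RingHom.ker π).map (algebraMap Ah L) = m := Localization.AtPrime.map_eq_maximalIdeal
  have hfin : (Submodule.generators m).Finite := Submodule.FG.finite_generators hfg
  have : Finite (Submodule.generators m) := hfin.to_subtype
  have hcard : Nat.card (Submodule.generators m) = m.spanFinrank := by
    rw [← Submodule.FG.generators_ncard hfg]
    rfl
  let e := Finite.equivFinOfCardEq hcard
  set r := m.spanFinrank with hr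
  let x : Fin r → L := fun i => (e.symm i : L)
  have hxm : ∀ i, x i ∈ (RingHom.ker π).map (algebraMap Ah L) := by
    intro i
    rw [hmap]
    exact Submodule.FG.generators_mem m (e.symm i).2
  have hx1 : ∀ i, ∃ z : (RingHom.ker π) × (RingHom.ker π).primeCompl,
      x i * algebraMap Ah L z.2 = algebraMap Ah L z.1 := fun i =>
    (IsLocalization.mem_map_algebraMap_iff (RingHom.ker π).primeCompl L).1 (hxm i)
  choose z hz using hx1
  let h : Fin r → Ah := fun i => (z i).1
  have hspan : ∀ y ∈ RingHom.ker π,
      algebraMap Ah L y ∈ Ideal.span (Set.range (fun i => algebraMap Ah L (h i))) := by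
    intro y hy
    have h1 : algebraMap Ah L y ∈ m := hmap ▸ Ideal.mem_map_of_mem _ hy
    have h2 : m ≤ Ideal.span (Set.range (fun i => algebraMap Ah L (h i))) := by
      rw [← Submodule.span_generators m]
      refine Submodule.span_le.2 fun g hg => ?_
      have h3 : g = x (e ⟨g, hg⟩) := by
        simp only [x, Equiv.symm_apply_apply]
      have hu : IsUnit (algebraMap Ah L (z (e ⟨g, hg⟩)).2) :=
        IsLocalization.map_units L (z (e ⟨g, hg⟩)).2
      obtain ⟨u, hu⟩ := hu
      have h4 : g = (↑u⁻¹ : L) * algebraMap Ah L (h (e ⟨g, hg⟩)) := by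
        have h5 := hz (e ⟨g, hg⟩)
        rw [← hu, ← h3] at h5
        show g = (↑u⁻¹ : L) * algebraMap Ah L (z (e ⟨g, hg⟩)).1
        rw [← h5, mul_comm g, ← mul_assoc, Units.inv_mul, one_mul]
      show g ∈ Ideal.span (Set.range (fun i => algebraMap Ah L (h i)))
      rw [h4]
      exact Ideal.mul_mem_left _ _ (Ideal.subset_span ⟨_, rfl⟩)
    exact h2 h1
  obtain ⟨l', g, hg⟩ : ∃ (l' : ℕ) (g : Fin l' → Ah), Ideal.span (Set.range g) = RingHom.ker π := by
    obtain ⟨n, g, hg⟩ := Submodule.fg_iff_exists_fin_generating_family.1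
      (IsNoetherian.noetherian (RingHom.ker π))
    exact ⟨n, g, hg⟩
  have hgm : ∀ j, g j ∈ RingHom.ker π := fun j => hg ▸ Ideal.subset_span ⟨j, rfl⟩
  have hex : ∀ j, ∃ s ∈ (RingHom.ker π).primeCompl, ∃ a : Fin r → Ah, s * g j = ∑ i, a i * h i :=
    fun j => z14_gens (L := L) _ h (g j) (hspan _ (hgm j))
  choose s hs c hc using hex
  refine ⟨r + l', r, Fin.append h g, ∏ j, s j,
    Fin.append (fun i i' => if i = i' then ∏ j, s j else 0)
      (fun j i' => (∏ k ∈ Finset.univ.erase j, s k) * c j i'), Fin.castAdd l', ?_, ?_, ?_, ?_, ?_⟩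
  · apply le_antisymm
    · rw [Ideal.span_le]
      rintro _ ⟨j, rfl⟩
      refine Fin.addCases (fun i => ?_) (fun j => ?_) j
      · rw [Fin.append_left]
        exact (z i).1.2
      · rw [Fin.append_right]
        exact hgm j
    · rw [← hg, Ideal.span_le]
      rintro _ ⟨j, rfl⟩
      refine Ideal.subset_span ⟨Fin.natAdd r j, ?_⟩
      rw [Fin.append_right]
  · rw [map_prod]
    exact Finset.prod_ne_zero_iff.2 fun j _ hj => hs j (RingHom.mem_ker.2 hj)
  · intro j
    refine Fin.addCases (fun i => ?_) (fun j => ?_) j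
    · simp only [Fin.append_left]
      simp
    · simp only [Fin.append_left, Fin.append_right]
      rw [← Finset.mul_prod_erase Finset.univ s (Finset.mem_univ j)]
      calc s j * (∏ k ∈ Finset.univ.erase j, s k) * g j
          = (∏ k ∈ Finset.univ.erase j, s k) * (s j * g j) := by ring
        _ = _ := by
            rw [hc j, Finset.mul_sum]
            exact Finset.sum_congr rfl fun i _ => by ring
  · intro i i'
    rw [Fin.append_left]
    split_ifs with hii <;> simp
  · have h1 : (m.spanFinrank : WithBot ℕ∞) = ringKrullDim L :=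
      IsRegularLocalRing.spanFinrank_maximalIdeal
    rw [IsLocalization.AtPrime.ringKrullDim_eq_height (RingHom.ker π) L] at h1
    have h2 : ((r : ℕ∞) : WithBot ℕ∞) = ((RingHom.ker π).height : WithBot ℕ∞) := by
      rw [← h1]
      rfl
    exact (WithBot.coe_inj.1 h2).le

end Pool.Agent.LUZ
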