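import Pool.Agent.Lib.LUZ.Z01
import Pool.Agent.Lib.LUC.G2

/-! # Z15: the chart over `C`, in coordinates from `R`

Recipe (F3, F4 of the paper; compare row G3 of LUC (luc_G3.lean) and G5). For `a ∈ A`, `a ∈ K`, so `a = α_a / β_a`, `α_a, β_a ∈ R`, `β_a ≠ 0` (`h.quo`). `T' = T ∪ {μ i} ∪ {β_a} ∪ {α_a ≠ 0}` (all in `L`: `R ≤ C`). `QuoIs (adj C A) L`: elements of `A` are in `K ⊆ L`; `h.quoC`.
`hL A T'`: `n, z₀, J, O`, `IsMod`, `g, G`: `O = lv w (adj C (A ∪ G / g))`, `g, G ⊆ adj C A`. `J ≠ ∅`: `μ 0` has positive value and is `SM` (`SM.nonempty`, `h.q_pos`). `P = ∏ j ∈ J, z₀ j`; the `μ i` are divisible by `P` in `O` (`SM.dvd`), `g * P ^ 2` divides a power of `P`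
(`SM.dvd_pow`), so for large `N` elements of `(μ)^N O` are in `g P^2 O`. Every element of `adj C A` is in `adj R A + (μ)^N (adj C A)` (`C = R + (μ)^N C` by `h.dense`, `h.surj`, `pi_ip`; `IP.approx` or `adj_induction`). `b, b_y ∈ adj R A` for `g, y ∈ G`:
`b = g * U`, `U ∈ 1 + P^2 O`, a unit. `W` = the `b_y` and the products of `N` of the `μ i`. `O = lv w (adj C (A ∪ W / b))` as in G3 / G5 (`ip_div`). All the elements of `A ∪ W / b` are quotients of elements of `R` with a common denominator `c`: `b * βtot^D ∈ R`, `b_y * βtot^D ∈ R`, `βtot = ∏ β_a` (elements of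
`adj R A` become elements of `R` after multiplication by a power of `βtot`: `adj_induction`); `c = b * βtot^D * βtot ∈ R`, a strong monomial (`SM.mul`, `SM.mul_unit`; values `≥ 0`). `cc` enumerates the numerators (`Finset.equivFin`), so `range (yy c cc) = A ∪ W / b` and `A ⊆ adj R (range yy)`. Parameters: `z₀ i = s / u`,
`s, u ∈ adj C (range yy)`, `w u = 0`; `s₀ ∈ adj R (range yy)` with `s - s₀ ∈ (μ)^N O ⊆ P^2 O`; `z i = s₀`: for `i ∈ J` a unit times `z₀ i`; for all `i` `z₀ i * u - s₀ ∈ P^2 O ⊆ (z j)`, `j ∈ J`; if `s₀ = 0` (`i ∉ J`) take `(∏ j ∈ J, z j)^2` instead (as in row G4 `exists_desc_par`). `Par w O z`, `SM w O z J t`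
for all `SM w O z₀ J t` (same exponents: `e i = 0` off `J`). `FCh`: `ge`: `O = lv w ..`, values `≥ 0`. -/

set_option autoImplicit false

namespace Pool.Agent.LUZ

open Pool.Agent.H15JM (RVal)
open Pool.Agent.LU1 (VPos)
open Pool.Agent.LUC

universe u

variable {Ω : Type u} [Field Ω] {w : RVal Ω} {R C : Subring Ω} {K L : Subfield Ω} {q : ℕ}
  {μ : Fin q → Ω} {Ah : Type u} [CommRing Ah] {ι : R →+* Ah} {π : Ah →+* Ω}

/-- Elements of `C[F]` are approximated by elements of `R[F]`. -/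
private theorem approx_adj (h : Fml w R C K L μ ι π) (F : Set Ω) (k : ℕ) :
    ∀ x ∈ adj C F, ∃ y ∈ adj R F, IP (adj C F) μ k (x - y) := by
  have hRC : R ≤ C := Fml.le h
  have hCB : C ≤ adj C F := base_le_adj C F
  have hRB : adj R F ≤ adj C F := adj_mono hRC le_rfl
  have hμB : ∀ i, μ i ∈ adj C F := fun i => hCB (hRC (h.par.mem i))
  intro x hx
  have h1 : x ∈ adj C F ∧ ∃ y ∈ adj R F, IP (adj C F) μ k (x - y) := by
    refine adj_induction (p := fun x => x ∈ adj C F ∧ ∃ y ∈ adj R F, IP (adj C F) μ k (x - y))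
      ?_ ?_ ?_ ?_ hx
    · intro f hf
      refine ⟨hCB hf, ?_⟩
      obtain ⟨g, rfl⟩ := h.surj f hf
      obtain ⟨r, hr⟩ := h.dense k g
      refine ⟨(r : Ω), base_le_adj R F r.2, ?_⟩
      have h2 := pi_ip h hr
      rw [map_sub, h.comp] at h2
      exact h2.mono hCB hμB
    · intro f hf
      refine ⟨mem_adj hf, f, mem_adj hf, ?_⟩
      rw [sub_self]
      exact IP.zero
    · rintro f g ⟨hf, a, ha, ha'⟩ ⟨hg, b, hb, hb'⟩
      refine ⟨Subring.add_mem _ hf hg, a + b, Subring.add_mem _ ha hb, ?_⟩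
      have h2 : f + g - (a + b) = (f - a) + (g - b) := by ring
      rw [h2]
      exact ha'.add hb'
    · rintro f g ⟨hf, a, ha, ha'⟩ ⟨hg, b, hb, hb'⟩
      refine ⟨Subring.mul_mem _ hf hg, a * b, Subring.mul_mem _ ha hb, ?_⟩
      have h2 : f * g - a * b = f * (g - b) + (f - a) * b := by ring
      rw [h2]
      exact (hb'.mul_left hf).add (ha'.mul_right (hRB hb))
  exact h1.2

/-- Elements of `R[F]` become elements of `R` after multiplication by a power of `β`. -/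
private theorem clear_adj {β : Ω} (hβ : β ∈ R) (F : Set Ω) (hF : ∀ f ∈ F, ∃ D : ℕ, β ^ D * f ∈ R) :
    ∀ f ∈ adj R F, ∃ D : ℕ, β ^ D * f ∈ R := by
  intro f hf
  refine adj_induction (p := fun f => ∃ D : ℕ, β ^ D * f ∈ R) ?_ hF ?_ ?_ hf
  · exact fun f hf => ⟨0, by simpa using hf⟩
  · rintro f g ⟨D, hD⟩ ⟨E, hE⟩
    refine ⟨D + E, ?_⟩
    have h2 : β ^ (D + E) * (f + g) = β ^ E * (β ^ D * f) + β ^ D * (β ^ E * g) := by ring
    rw [h2]
    exact R.add_mem (R.mul_mem (R.pow_mem hβ _) hD) (R.mul_mem (R.pow_mem hβ _) hE)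
  · rintro f g ⟨D, hD⟩ ⟨E, hE⟩
    refine ⟨D + E, ?_⟩
    have h2 : β ^ (D + E) * (f * g) = (β ^ D * f) * (β ^ E * g) := by ring
    rw [h2]
    exact R.mul_mem hD hE

private theorem clear_finset {β : Ω} (hβ : β ∈ R) (F : Finset Ω)
    (hF : ∀ f ∈ F, ∃ D : ℕ, β ^ D * f ∈ R) : ∃ D : ℕ, ∀ f ∈ F, β ^ D * f ∈ R := by
  classical
  choose! D hD using hF
  refine ⟨F.sup D, fun f hf => ?_⟩
  obtain ⟨k, hk⟩ := Nat.exists_eq_add_of_le (Finset.le_sup (f := D) hf)
  have h2 : β ^ (F.sup D) * f = β ^ k * (β ^ D f * f) := by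
    rw [hk]
    ring
  rw [h2]
  exact R.mul_mem (R.pow_mem hβ _) (hD f hf)

private theorem zpow_mem_of {A : Subring Ω} {u : Ω} (h : u ∈ A) (h' : u⁻¹ ∈ A) (n : ℤ) :
    u ^ n ∈ A := by
  cases n with
  | ofNat n => simpa using A.pow_mem h n
  | negSucc n =>
    rw [zpow_negSucc, ← inv_pow]
    exact A.pow_mem h' _

private theorem ge_div {x g : Ω} (hg0 : g ≠ 0) (hx : w.Ge (w g) x) : w.Ge 0 (x / g) := by
  intro h0
  have hx0 : x ≠ 0 := by
    rintro rfl
    simp at h0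
  rw [w.map_div hx0 hg0]
  have := hx hx0
  linarith

/-- New parameters in the subring `M`. -/
private theorem new_par {O M : Subring Ω} (hMO : M ≤ O) (hOge : ∀ f ∈ O, w.Ge 0 f)
    (hOinv : ∀ f ∈ O, f ≠ 0 → w f = 0 → f⁻¹ ∈ O) {n : ℕ} {z : Fin n → Ω}
    {J : Finset (Fin n)} (hJ : J.Nonempty) (hz : Par w O z)
    (hdec : ∀ i, ∃ u ∈ O, u ≠ 0 ∧ w u = 0 ∧ ∃ s ∈ M, ∃ a ∈ O,
      z i * u = s + (∏ j ∈ J, z j) ^ 2 * a) :
    ∃ z' : Fin n → Ω, (∀ i, z' i ∈ M) ∧ Par w O z' ∧ ∀ t, SM w O z J t → SM w O z' J t := by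
  classical
  set X : Ω := ∏ j ∈ J, z j with hX
  have hXR : X ∈ O := O.prod_mem fun j _ => hz.mem j
  have hXY : ∀ i ∈ J, ∃ Y ∈ O, X = z i * Y := fun i hi =>
    ⟨∏ j ∈ J.erase i, z j, O.prod_mem fun j _ => hz.mem j, (Finset.mul_prod_erase J z hi).symm⟩
  have hXv : VPos w X := by
    obtain ⟨j, hj⟩ := hJ
    obtain ⟨Y, hY, hXY'⟩ := hXY j hj
    rw [hXY']
    exact VPos.mul (fun _ => hz.pos j) (hOge _ hY)
  have hX2 : ∀ a ∈ O, VPos w (X ^ 2 * a) := by
    intro a ha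
    rw [pow_two, mul_assoc]
    exact hXv.mul (hOge _ (O.mul_mem hXR ha))
  choose u huO hu0 huv s hsM a haO hdec using hdec
  choose! Y hY hXY using hXY
  -- `s i = z i * Ui i` for `i ∈ J`
  set Ui : Fin n → Ω := fun i => if i ∈ J then u i - X * (Y i * a i) else 1 with hUi
  have hUiR : ∀ i, Ui i ∈ O := by
    intro i
    simp only [hUi]
    split_ifs with hi
    · exact O.sub_mem (huO i) (O.mul_mem hXR (O.mul_mem (hY i hi) (haO i)))
    · exact O.one_mem
  have hUiv : ∀ i, Ui i ≠ 0 ∧ w (Ui i) = 0 := by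
    intro i
    simp only [hUi]
    split_ifs with hi
    · rw [sub_eq_add_neg]
      exact Pool.Agent.LU1.val_add_vpos (hu0 i) (huv i)
        (hXv.mul (hOge _ (O.mul_mem (hY i hi) (haO i)))).neg
    · exact ⟨one_ne_zero, w.map_one⟩
  have hUiR' : ∀ i, (Ui i)⁻¹ ∈ O := fun i => hOinv _ (hUiR i) (hUiv i).1 (hUiv i).2
  have hsx : ∀ i ∈ J, s i = z i * Ui i := by
    intro i hi
    have h4 : s i = z i * u i - X ^ 2 * a i := eq_sub_of_add_eq (hdec i).symm
    simp only [hUi, if_pos hi]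
    rw [h4, pow_two]
    nth_rewrite 1 [hXY i hi]
    ring
  -- the new product
  set X2 : Ω := ∏ j ∈ J, s j with hX2def
  set V : Ω := ∏ j ∈ J, Ui j with hV
  have hXV : X2 = X * V := by
    rw [hX2def, hX, hV, ← Finset.prod_mul_distrib]
    exact Finset.prod_congr rfl fun i hi => hsx i hi
  have hV0 : V ≠ 0 := Finset.prod_ne_zero_iff.2 fun i _ => (hUiv i).1
  have hVR : V ∈ O := O.prod_mem fun i _ => hUiR i
  have hX0 : X ≠ 0 := Finset.prod_ne_zero_iff.2 fun i _ => hz.ne i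
  have hX20 : X2 ≠ 0 := by
    rw [hXV]
    exact mul_ne_zero hX0 hV0
  have hX2M : X2 ∈ M := M.prod_mem fun j _ => hsM j
  have hX2v : VPos w X2 := by
    rw [hXV]
    exact hXv.mul (hOge _ hVR)
  -- the parameters
  set z2 : Fin n → Ω := fun i => if i ∈ J then s i else
    if s i = 0 then X2 ^ 2 else s i with hz2
  have hz2J : ∀ i ∈ J, z2 i = z i * Ui i := by
    intro i hi
    simp only [hz2, if_pos hi]
    exact hsx i hi
  have hz2M : ∀ i, z2 i ∈ M := by
    intro i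
    simp only [hz2]
    split_ifs
    · exact hsM i
    · exact M.pow_mem hX2M 2
    · exact hsM i
  have hz20 : ∀ i, z2 i ≠ 0 := by
    intro i
    by_cases hi : i ∈ J
    · rw [hz2J i hi]
      exact mul_ne_zero (hz.ne i) (hUiv i).1
    · simp only [hz2, if_neg hi]
      split_ifs with h0
      · exact pow_ne_zero 2 hX20
      · exact h0
  have hz2v : ∀ i, 0 < w (z2 i) := by
    intro i
    by_cases hi : i ∈ J
    · rw [hz2J i hi, w.map_mul (hz.ne i) (hUiv i).1, (hUiv i).2, add_zero]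
      exact hz.pos i
    · have h1 : VPos w (z2 i) := by
        simp only [hz2, if_neg hi]
        split_ifs with h0
        · rw [pow_two]
          exact hX2v.mul hX2v.ge
        · have h4 : s i = z i * u i - X ^ 2 * a i := eq_sub_of_add_eq (hdec i).symm
          rw [h4]
          refine VPos.sub ?_ (hX2 _ (haO i))
          exact VPos.mul (fun _ => hz.pos i) (hOge _ (huO i))
      exact h1 (hz20 i)
  -- `X ^ 2 a` is in the ideal of the new parameters
  have hX2ip : ∀ a ∈ O, IP O z2 1 (X ^ 2 * a) := by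
    intro a ha
    obtain ⟨j, hj⟩ := hJ
    have h1 : X ^ 2 * a = z2 j * ((Ui j)⁻¹ * Y j * X * a) := by
      rw [hz2J j hj, pow_two]
      nth_rewrite 1 [hXY j hj]
      have := (hUiv j).1
      field_simp
    rw [h1]
    exact (IP.gen (hMO (hz2M j))).mul_right
      (O.mul_mem (O.mul_mem (O.mul_mem (hUiR' j) (hY j hj)) hXR) ha)
  have huO' : ∀ i, (u i)⁻¹ ∈ O := fun i => hOinv _ (huO i) (hu0 i) (huv i)
  have hzip : ∀ i, IP O z2 1 (z i) := by
    intro i
    by_cases hi : i ∈ J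
    · have h1 : z i = z2 i * (Ui i)⁻¹ := by
        rw [hz2J i hi, mul_assoc, mul_inv_cancel₀ (hUiv i).1, mul_one]
      rw [h1]
      exact (IP.gen (hMO (hz2M i))).mul_right (hUiR' i)
    · have h2 : z i = (z i * u i) * (u i)⁻¹ := by
        rw [mul_assoc, mul_inv_cancel₀ (hu0 i), mul_one]
      rw [h2]
      refine IP.mul_right ?_ (huO' i)
      by_cases h0 : s i = 0
      · have h1 := hdec i
        rw [h0, zero_add] at h1
        rw [h1]
        exact hX2ip _ (haO i)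
      · have h1 : z i * u i = z2 i + X ^ 2 * a i := by
          simp only [hz2, if_neg hi, if_neg h0]
          exact hdec i
        rw [h1]
        exact (IP.gen (hMO (hz2M i))).add (hX2ip _ (haO i))
  refine ⟨z2, hz2M, ⟨fun i => hMO (hz2M i), hz20, hz2v, ?_⟩, ?_⟩
  · intro f hf hfv
    exact (hz.gen f hf hfv).map le_rfl hzip
  · rintro f ⟨e, v, hv, hv0, hvv, hfe, h1, h2, h3, h4⟩
    set V2 : Ω := ∏ i, Ui i ^ e i with hV2
    have hV20 : V2 ≠ 0 := Finset.prod_ne_zero_iff.2 fun i _ => zpow_ne_zero _ (hUiv i).1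
    have hV2R : V2 ∈ O := O.prod_mem fun i _ => zpow_mem_of (hUiR i) (hUiR' i) _
    have hV2R' : V2⁻¹ ∈ O := by
      rw [hV2, ← Finset.prod_inv_distrib]
      refine O.prod_mem fun i _ => ?_
      rw [← zpow_neg]
      exact zpow_mem_of (hUiR i) (hUiR' i) _
    have hV2v : w V2 = 0 := by
      have h5 := hOge _ hV2R hV20
      have h6 := hOge _ hV2R' (inv_ne_zero hV20)
      rw [w.map_inv hV20] at h6
      linarith
    have hP : (∏ i, z2 i ^ e i) = (∏ i, z i ^ e i) * V2 := by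
      rw [hV2, ← Finset.prod_mul_distrib]
      refine Finset.prod_congr rfl fun i _ => ?_
      by_cases hi : i ∈ J
      · rw [hz2J i hi, mul_zpow]
      · rw [h1 i hi, zpow_zero, zpow_zero, zpow_zero, mul_one]
    have hf2 : f = (∏ i, z2 i ^ e i) * (v * V2⁻¹) := by
      rw [hP, hfe]
      field_simp
    refine ⟨e, v * V2⁻¹, O.mul_mem hv hV2R', mul_ne_zero hv0 (inv_ne_zero hV20), ?_, hf2, h1, h2,
      h3, h4⟩
    rw [w.map_mul hv0 (inv_ne_zero hV20), w.map_inv hV20, hvv, hV2v]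
    ring

private theorem sm_pow {O : Subring Ω} {n : ℕ} {z : Fin n → Ω} {J : Finset (Fin n)} {t : Ω}
    (hz : ∀ i, z i ≠ 0) (ht : SM w O z J t) (h0 : 0 ≤ w t) (k : ℕ) :
    SM w O z J (t ^ k) ∧ 0 ≤ w (t ^ k) := by
  induction k with
  | zero =>
    rw [pow_zero]
    exact ⟨SM.one, by rw [w.map_one]⟩
  | succ k ih =>
    rw [pow_succ]
    refine ⟨SM.mul hz ih.1 ih.2 ht h0, ?_⟩
    rw [w.map_mul (ih.1.ne hz) (ht.ne hz)]
    exact add_nonneg ih.2 h0

private theorem sm_prod {O : Subring Ω} {n : ℕ} {z : Fin n → Ω} {J : Finset (Fin n)}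
    (hz : ∀ i, z i ≠ 0) {κ : Type*} (S : Finset κ) (t : κ → Ω)
    (ht : ∀ i ∈ S, SM w O z J (t i) ∧ 0 ≤ w (t i)) :
    SM w O z J (∏ i ∈ S, t i) ∧ 0 ≤ w (∏ i ∈ S, t i) := by
  classical
  induction S using Finset.induction_on with
  | empty =>
    rw [Finset.prod_empty]
    exact ⟨SM.one, by rw [w.map_one]⟩
  | insert a S ha ih =>
    rw [Finset.prod_insert ha]
    obtain ⟨h1, h2⟩ := ih fun i hi => ht i (Finset.mem_insert_of_mem hi)
    obtain ⟨h3, h4⟩ := ht a (Finset.mem_insert_self a S)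
    refine ⟨SM.mul hz h3 h4 h1 h2, ?_⟩
    rw [w.map_mul (h3.ne hz) (h1.ne hz)]
    exact add_nonneg h4 h2

theorem exists_FCh (h : Fml w R C K L μ ι π) (hL : LUs w C L) (A : Finset Ω)
    (hA : ∀ a ∈ A, w.Ge 0 a) (hAK : QuoIs (adj R (A : Set Ω)) K) (T : Finset Ω)
    (hT : ∀ t ∈ T, t ∈ L ∧ t ≠ 0) :
    ∃ (n τ : ℕ) (z : Fin n → Ω) (J : Finset (Fin n)) (O : Subring Ω) (c : R) (cc : Fin τ → R),
      FCh w R C μ z J O c cc ∧ ringKrullDim O = n ∧ (∀ t ∈ T, SM w O z J t) ∧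
        ∀ a ∈ A, a ∈ adj R (Set.range (yy c cc)) := by
  classical
  have hRC : R ≤ C := Fml.le h
  have hRge : ∀ r ∈ R, w.Ge 0 r := Fml.ge h
  have hCL : ∀ f ∈ C, f ∈ L := fun f hf => h.quoC.1 f hf
  have hRK : ∀ f ∈ R, f ∈ K := fun f hf => h.quo.1 f hf
  have hKL : ∀ f ∈ K, f ∈ L := by
    intro f hf
    obtain ⟨a, ha, b, hb, -, rfl⟩ := h.quo.2 f hf
    exact L.div_mem (hCL a (hRC ha)) (hCL b (hRC hb))
  have hAinK : ∀ a ∈ A, a ∈ K := fun a ha => hAK.1 a (mem_adj ha)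
  -- numerators and denominators
  have hfr : ∀ f, f ∈ A → ∃ a b : Ω, a ∈ R ∧ b ∈ R ∧ b ≠ 0 ∧ f = a / b := by
    intro f hf
    obtain ⟨a, ha, b, hb, hb0, h3⟩ := h.quo.2 f (hAinK f hf)
    exact ⟨a, b, ha, hb, hb0, h3⟩
  choose! nu de hnu hde hde0 hfr using hfr
  have hQ : QuoIs (adj C (A : Set Ω)) L := by
    refine ⟨fun f hf => ?_, fun f hf => ?_⟩
    · exact adj_induction (p := fun f => f ∈ L) hCL (fun f hf => hKL f (hAinK f hf))
        (fun _ _ => L.add_mem) (fun _ _ => L.mul_mem) hf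
    · obtain ⟨a, ha, b, hb, hb0, h3⟩ := h.quoC.2 f hf
      exact ⟨a, base_le_adj C _ ha, b, base_le_adj C _ hb, hb0, h3⟩
  set T₁ : Finset Ω := (T ∪ Finset.univ.image μ) ∪ A.image de with hT₁
  have hT₁L : ∀ x ∈ T₁, x ∈ L ∧ x ≠ 0 := by
    intro x hx
    rcases Finset.mem_union.1 hx with hx | hx
    · rcases Finset.mem_union.1 hx with hx | hx
      · exact hT x hx
      · obtain ⟨i, -, rfl⟩ := Finset.mem_image.1 hx
        exact ⟨hCL _ (hRC (h.par.mem i)), h.par.ne i⟩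
    · obtain ⟨a, ha, rfl⟩ := Finset.mem_image.1 hx
      exact ⟨hCL _ (hRC (hde a ha)), hde0 a ha⟩
  obtain ⟨n, z, J, O, hM, hdim⟩ := hL A hA hQ T₁ hT₁L
  obtain ⟨g, hg, hg0, hgm, G, hG, hO⟩ := hM.chart
  have hz := hM.par
  have hμm : ∀ i, SM w O z J (μ i) := fun i => hM.mono _ (Finset.mem_coe.2
    (Finset.mem_union_left _ (Finset.mem_union_right _
      (Finset.mem_image_of_mem _ (Finset.mem_univ i)))))
  have hdem : ∀ a ∈ A, SM w O z J (de a) := fun a ha => hM.mono _ (Finset.mem_coe.2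
    (Finset.mem_union_right _ (Finset.mem_image_of_mem _ ha)))
  have hTm : ∀ t ∈ T, SM w O z J t := fun t ht => hM.mono _ (Finset.mem_coe.2
    (Finset.mem_union_left _ (Finset.mem_union_left _ ht)))
  have hJ : J.Nonempty := (hμm ⟨0, h.q_pos⟩).nonempty hz.ne (h.par.pos _)
  -- the ring `O`
  set B : Subring Ω := adj C (A : Set Ω) with hB
  have hBge : ∀ f ∈ B, w.Ge 0 f := adj_nonneg h.geC fun a ha => hA a ha
  have hOge : ∀ f ∈ O, w.Ge 0 f := by
    rw [hO]
    refine lv_nonneg (adj_nonneg h.geC ?_)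
    rintro f (hf | ⟨y, hy, rfl⟩)
    · exact hA f hf
    · exact ge_div hg0 (hG y hy).2
  have hOinv : ∀ f ∈ O, f ≠ 0 → w f = 0 → f⁻¹ ∈ O := by
    rw [hO]
    exact fun f hf => lv_inv hf
  set X : Ω := ∏ j ∈ J, z j with hX
  have hXR : X ∈ O := O.prod_mem fun j _ => hz.mem j
  have hXv : VPos w X := by
    obtain ⟨j, hj⟩ := hJ
    rw [hX, ← Finset.mul_prod_erase J z hj]
    exact VPos.mul (fun _ => hz.pos j) (hOge _ (O.prod_mem fun i _ => hz.mem i))
  have hBO : B ≤ O := by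
    intro a ha
    rw [hO]
    exact le_lv w _ (adj_mono le_rfl Set.subset_union_left ha)
  have hCB : C ≤ B := base_le_adj C _
  have hμR : ∀ i, μ i ∈ R := h.par.mem
  have hμB : ∀ i, μ i ∈ B := fun i => hCB (hRC (hμR i))
  have hμX : ∀ i, ∃ a ∈ O, μ i = X * a := fun i => (hμm i).dvd hz.mem hz.ne (h.par.pos i)
  -- the exponent
  have hgO : g ∈ O := hBO hg
  have hgv : 0 ≤ w g := hOge g hgO hg0
  obtain ⟨e, a₀, ha₀, hXe⟩ := hgm.dvd_pow hOinv hz.mem hz.ne hgv
  set k : ℕ := e + 2 with hk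
  have hIn : ∀ B' : Subring Ω, B ≤ B' → B' ≤ O → ∀ x, IP B' μ k x →
      ∃ a ∈ O, x = g * (X ^ 2 * a) := by
    intro B' hB' hB'O x hx
    obtain ⟨a, ha, h3⟩ := ip_mul_pow hB'O (fun i => hB' (hμB i)) hμX hx
    refine ⟨a₀ * a, O.mul_mem ha₀ ha, ?_⟩
    rw [h3, hk, pow_add, hXe]
    ring
  have happ : ∀ x ∈ B, ∃ y ∈ adj R (A : Set Ω), IP B μ k (x - y) := approx_adj h _ k
  obtain ⟨b, hb, hgb⟩ := happ g hg
  obtain ⟨a₁, ha₁, hgb'⟩ := hIn B le_rfl hBO _ hgb
  -- `b` is `g` times a unit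
  set U : Ω := 1 - X ^ 2 * a₁ with hU
  have hX2 : ∀ a ∈ O, VPos w (X ^ 2 * a) := by
    intro a ha
    rw [pow_two, mul_assoc]
    exact hXv.mul (hOge _ (O.mul_mem hXR ha))
  have hUv : U ≠ 0 ∧ w U = 0 := by
    rw [hU, sub_eq_add_neg]
    exact Pool.Agent.LU1.val_add_vpos one_ne_zero w.map_one (hX2 a₁ ha₁).neg
  have hUR : U ∈ O := O.sub_mem O.one_mem (O.mul_mem (O.pow_mem hXR 2) ha₁)
  have hUR' : U⁻¹ ∈ O := hOinv U hUR hUv.1 hUv.2
  have hbU : b = g * U := by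
    have h3 : b = g - g * (X ^ 2 * a₁) := by
      rw [← hgb']
      ring
    rw [h3, hU]
    ring
  have hb0 : b ≠ 0 := by
    rw [hbU]
    exact mul_ne_zero hg0 hUv.1
  have hbex : ∀ y, y ∈ G → ∃ y' ∈ adj R (A : Set Ω), IP B μ k (y - y') :=
    fun y hy => happ y (hG y hy).1
  choose! bb hbb hbb' using hbex
  have hARB : adj R (A : Set Ω) ≤ B := adj_mono hRC le_rfl
  -- the ring `R'`
  set P3 : Finset Ω := (Finset.univ : Finset (Fin k → Fin q)).image fun φ =>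
    ∏ i, μ (φ i) with hP3
  set W : Finset Ω := G.image bb ∪ P3 with hW
  set FR : Finset Ω := A ∪ W.image fun y => y / b with hFR
  have hWA : ∀ y ∈ W, y ∈ adj R (A : Set Ω) := by
    intro y hy
    rcases Finset.mem_union.1 hy with hy | hy
    · obtain ⟨x, hx, rfl⟩ := Finset.mem_image.1 hy
      exact hbb x hx
    · obtain ⟨φ, -, rfl⟩ := Finset.mem_image.1 hy
      exact base_le_adj R _ (R.prod_mem fun i _ => hμR _)
  set R' : Subring Ω := lv w (adj C (FR : Set Ω)) with hR'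
  have hBF : B ≤ adj C (FR : Set Ω) := by
    refine adj_mono le_rfl ?_
    intro f hf
    exact Finset.mem_coe.2 (Finset.mem_union_left _ hf)
  have hBR' : B ≤ R' := hBF.trans (le_lv w _)
  have hR'loc : ∀ f ∈ R', f ≠ 0 → w f = 0 → f⁻¹ ∈ R' := fun f hf h0 h1 => lv_inv hf h0 h1
  have hWR' : ∀ y ∈ W, y / b ∈ R' := fun y hy => le_lv w _ (mem_adj
    (Finset.mem_coe.2 (Finset.mem_union_right _ (Finset.mem_image_of_mem _ hy))))
  have hbbR' : ∀ y ∈ G, bb y / b ∈ R' := fun y hy =>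
    hWR' _ (Finset.mem_union_left _ (Finset.mem_image_of_mem _ hy))
  have hP3R' : ∀ φ : Fin k → Fin q, (∏ i, μ (φ i)) / b ∈ R' := fun φ =>
    hWR' _ (Finset.mem_union_right _ (Finset.mem_image_of_mem _ (Finset.mem_univ φ)))
  have hdivb : ∀ x, IP B μ k x → ∃ a ∈ O, x / b = X ^ 2 * a := by
    intro x hx
    obtain ⟨a, ha, h3⟩ := hIn B le_rfl hBO x hx
    refine ⟨a * U⁻¹, O.mul_mem ha hUR', ?_⟩
    rw [h3, hbU]
    have := hUv.1
    field_simp
  have hFO : adj C (FR : Set Ω) ≤ O := by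
    refine adj_le ?_ ?_
    · exact fun s hs => hBO (hCB hs)
    · intro f hf
      rcases Finset.mem_union.1 hf with hf | hf
      · exact hBO (mem_adj hf)
      · obtain ⟨y, hy, rfl⟩ := Finset.mem_image.1 hf
        rcases Finset.mem_union.1 hy with hy | hy
        · obtain ⟨x, hx, rfl⟩ := Finset.mem_image.1 hy
          have h3 : x / g ∈ O := by
            rw [hO]
            exact le_lv w _ (mem_adj (Or.inr ⟨x, hx, rfl⟩))
          obtain ⟨a, ha, h4⟩ := hdivb _ (hbb' x hx)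
          have h5 : bb x / b = x / g * U⁻¹ - X ^ 2 * a := by
            rw [← h4, hbU]
            have := hUv.1
            field_simp
            ring
          change bb x / b ∈ O
          rw [h5]
          exact O.sub_mem (O.mul_mem h3 hUR') (O.mul_mem (O.pow_mem hXR 2) ha)
        · obtain ⟨φ, -, rfl⟩ := Finset.mem_image.1 hy
          obtain ⟨a, ha, h4⟩ := hdivb _ (IP.gen_prod hμB φ)
          change (∏ i, μ (φ i)) / b ∈ O
          rw [h4]
          exact O.mul_mem (O.pow_mem hXR 2) ha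
  have hR'O : R' ≤ O := lv_le hFO hOinv
  have hdivR' : ∀ x, IP B μ k x → x / b ∈ R' := fun x hx =>
    ip_div hBR' hμB (fun φ => hP3R' φ) hx
  have hgbR' : g / b ∈ R' := by
    have h3 : g / b = 1 + (g - b) / b := by
      field_simp
      ring
    rw [h3]
    exact R'.add_mem R'.one_mem (hdivR' _ hgb)
  have hgbv : g / b ≠ 0 ∧ w (g / b) = 0 := by
    refine ⟨div_ne_zero hg0 hb0, ?_⟩
    rw [w.map_div hg0 hb0, hbU, w.map_mul hg0 hUv.1, hUv.2]
    ring
  have hOR' : O ≤ R' := by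
    rw [hO]
    refine lv_le (adj_le ?_ ?_) hR'loc
    · exact fun s hs => hBR' (hCB hs)
    · rintro f (hf | ⟨x, hx, rfl⟩)
      · exact hBR' (mem_adj hf)
      · have h3 : x / g = (bb x / b + (x - bb x) / b) * (g / b)⁻¹ := by
          field_simp
          ring
        change x / g ∈ R'
        rw [h3]
        exact R'.mul_mem (R'.add_mem (hbbR' x hx) (hdivR' _ (hbb' x hx)))
          (hR'loc _ hgbR' hgbv.1 hgbv.2)
  have hOeq : O = lv w (adj C (FR : Set Ω)) := le_antisymm hOR' hR'O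
  -- the common denominator
  set β : Ω := ∏ a ∈ A, de a with hβ
  have hβR : β ∈ R := R.prod_mem fun a ha => hde a ha
  have hβm : SM w O z J β ∧ 0 ≤ w β := sm_prod hz.ne A de fun a ha =>
    ⟨hdem a ha, hRge _ (hde a ha) (hde0 a ha)⟩
  have hβ0 : β ≠ 0 := hβm.1.ne hz.ne
  have hclr : ∀ f ∈ adj R (A : Set Ω), ∃ D : ℕ, β ^ D * f ∈ R := by
    refine clear_adj hβR _ fun a ha => ⟨1, ?_⟩
    have ha' : a ∈ A := ha
    have h3 : β ^ 1 * a = (∏ x ∈ A.erase a, de x) * nu a := by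
      have h4 : de a * a = nu a := by
        have h5 := hfr a ha'
        rw [eq_div_iff (hde0 a ha')] at h5
        rw [← h5]
        ring
      rw [pow_one, hβ, ← Finset.mul_prod_erase A de ha', ← h4]
      ring
    rw [h3]
    exact R.mul_mem (R.prod_mem fun x hx => hde x (Finset.mem_of_mem_erase hx)) (hnu a ha')
  obtain ⟨D, hD⟩ := clear_finset hβR (insert b (W ∪ A)) (by
    intro f hf
    rcases Finset.mem_insert.1 hf with rfl | hf
    · exact hclr _ hb
    · rcases Finset.mem_union.1 hf with hf | hf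
      · exact hclr f (hWA f hf)
      · exact hclr f (mem_adj hf))
  have hDb : β ^ D * b ∈ R := hD b (Finset.mem_insert_self _ _)
  have hDW : ∀ y ∈ W, β ^ D * y ∈ R := fun y hy => hD y
    (Finset.mem_insert_of_mem (Finset.mem_union_left _ hy))
  have hDA : ∀ y ∈ A, β ^ D * y ∈ R := fun y hy => hD y
    (Finset.mem_insert_of_mem (Finset.mem_union_right _ hy))
  have hcR : β ^ D * (β ^ D * b) ∈ R := R.mul_mem (R.pow_mem hβR _) hDb
  set c : R := ⟨β ^ D * (β ^ D * b), hcR⟩ with hc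
  have hcv : (c : Ω) = β ^ D * (β ^ D * b) := rfl
  have hβD0 : β ^ D ≠ 0 := pow_ne_zero _ hβ0
  have hc0 : (c : Ω) ≠ 0 := by
    rw [hcv]
    exact mul_ne_zero hβD0 (mul_ne_zero hβD0 hb0)
  have hbm : SM w O z J b := by
    rw [hbU]
    exact hgm.mul_unit hz.ne hUR hUv.1 hUv.2
  have hbv : 0 ≤ w b := hBge b (hARB hb) hb0
  obtain ⟨hβDm, hβDv⟩ := sm_pow hz.ne hβm.1 hβm.2 D
  have hcm : SM w O z J (c : Ω) := by
    rw [hcv]
    refine SM.mul hz.ne hβDm hβDv (SM.mul hz.ne hβDm hβDv hbm hbv) ?_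
    rw [w.map_mul hβD0 hb0]
    exact add_nonneg hβDv hbv
  -- the numerators
  have hnum : ∀ f ∈ FR, f * c ∈ R := by
    intro f hf
    rcases Finset.mem_union.1 hf with hf | hf
    · have h3 : f * c = (β ^ D * f) * (β ^ D * b) := by
        rw [hcv]
        ring
      rw [h3]
      exact R.mul_mem (hDA f hf) hDb
    · obtain ⟨y, hy, rfl⟩ := Finset.mem_image.1 hf
      have h3 : y / b * c = β ^ D * (β ^ D * y) := by
        rw [hcv]
        field_simp
      change y / b * c ∈ R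
      rw [h3]
      exact R.mul_mem (R.pow_mem hβR _) (hDW y hy)
  set cc : Fin FR.card → R := fun i =>
    ⟨((FR.equivFin.symm i : FR) : Ω) * c, hnum _ (FR.equivFin.symm i).2⟩ with hcc
  have hyy : ∀ i, yy c cc i = ((FR.equivFin.symm i : FR) : Ω) := by
    intro i
    change ((FR.equivFin.symm i : FR) : Ω) * c / c = _
    rw [mul_div_assoc, div_self hc0, mul_one]
  have hrange : Set.range (yy c cc) = (FR : Set Ω) := by
    ext f
    constructor
    · rintro ⟨i, rfl⟩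
      rw [hyy]
      exact (FR.equivFin.symm i).2
    · intro hf
      refine ⟨FR.equivFin ⟨f, hf⟩, ?_⟩
      rw [hyy]
      simp
  -- the new parameters
  have hMO : adj R (FR : Set Ω) ≤ O := (adj_mono hRC le_rfl).trans hFO
  have hdec : ∀ i, ∃ u ∈ O, u ≠ 0 ∧ w u = 0 ∧ ∃ s ∈ adj R (FR : Set Ω), ∃ a ∈ O,
      z i * u = s + (∏ j ∈ J, z j) ^ 2 * a := by
    intro i
    obtain ⟨s, hs, u, hu, hu0, hvu, hsu⟩ := hOR' (hz.mem i)
    obtain ⟨s₀, hs₀, hss⟩ := approx_adj h (FR : Set Ω) k s hs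
    obtain ⟨a, ha, hsa⟩ := hIn _ hBF hFO _ hss
    refine ⟨u, hFO hu, hu0, hvu, s₀, hs₀, g * a, O.mul_mem hgO ha, ?_⟩
    rw [hsu, div_mul_cancel₀ s hu0]
    have h3 : s = s₀ + (s - s₀) := by ring
    rw [h3, hsa]
    ring
  obtain ⟨z', hz'M, hz', hSM⟩ := new_par hMO hOge hOinv hJ hz hdec
  refine ⟨n, FR.card, z', J, O, c, cc, ⟨hz', hOge, hOinv, hc0, hSM _ hcm, ?_, ?_,
    fun i => hSM _ (hμm i), hJ⟩, hdim, fun t ht => hSM _ (hTm t ht), ?_⟩
  · rw [hrange]
    exact hOeq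
  · rw [hrange]
    exact hz'M
  · intro a ha
    rw [hrange]
    exact mem_adj (Finset.mem_coe.2 (Finset.mem_union_left _ ha))

end Pool.Agent.LUZ
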