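import Pool.Agent.Lib.LUZ.Z06

/-! # Z08: `r` of the `qq j` suffice -/

set_option autoImplicit false

namespace Pool.Agent.LUZ

open Pool.Agent.H15JM (RVal)
open Pool.Agent.LU1 (VPos)
open Pool.Agent.LUC

universe u

variable {Ω : Type u} [Field Ω] {w : RVal Ω} {R C : Subring Ω} {K L : Subfield Ω} {q n τ l r : ℕ}
  {μ : Fin q → Ω} {Ah : Type u} [CommRing Ah] {ι : R →+* Ah} {π : Ah →+* Ω} {η : Fin l → Ah}
  {z : Fin n → Ω} {J : Finset (Fin n)} {O : Subring Ω} {c : R} {cc : Fin τ → R}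
  {Φ b N₁ N' : ℕ} {η₀ : Fin l → R}

/-- A common denominator. -/
private theorem exists_den (A : Subring Ω) (s : Finset (Fin r)) (f : Fin r → Ω)
    (hf : ∀ k, f k ∈ lv w A) :
    ∃ u ∈ A, u ≠ 0 ∧ w u = 0 ∧ ∀ k ∈ s, u * f k ∈ A := by
  classical
  induction s using Finset.induction_on with
  | empty => exact ⟨1, A.one_mem, one_ne_zero, w.map_one, fun k hk => absurd hk (Finset.notMem_empty k)⟩
  | insert k s hk ih =>
    obtain ⟨u, hu, hu0, hu1, hus⟩ := ih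
    obtain ⟨x, hx, y, hy, hy0, hy1, hxy⟩ := hf k
    refine ⟨u * y, A.mul_mem hu hy, mul_ne_zero hu0 hy0, by rw [w.map_mul hu0 hy0, hu1, hy1, add_zero],
      fun k' hk' => ?_⟩
    rcases Finset.mem_insert.1 hk' with rfl | h
    · have : u * y * f k' = u * x := by
        rw [hxy]
        field_simp
      rw [this]
      exact A.mul_mem hu hx
    · have : u * y * f k' = y * (u * f k') := by ring
      rw [this]
      exact A.mul_mem hy (hus k' h)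

theorem qq_rel (h : Fml w R C K L μ ι π) (hη : ∀ j, π (η j) = 0)
    (hc : FCh w R C μ z J O c cc) (hb : FB w R O μ ι π η z J c cc Φ b N₁ N' η₀)
    (δ : Ah) (a : Fin l → Fin r → Ah) (β : Fin r → Fin l)
    (hrel : ∀ j, δ * η j = ∑ i, a j i * η (β i))
    (e : Fin n → ℕ) (he : ∃ s ∈ O, M0 μ ^ b = (∏ i, z i ^ e i) * s)
    (hδ : ∃ v ∈ O, v ≠ 0 ∧ w v = 0 ∧ π δ = (∏ i, z i ^ e i) * v)
    (σ : Fin r → Fin l) (lam : Fin l → Fin r → Ω) (hlam : ∀ j k, lam j k ∈ O)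
    (hlin : ∀ j i, π (a j i) = ∑ k, lam j k * π (a (σ k) i)) (j : Fin l) :
    In (idS (BB w μ c cc Φ b N₁ η₀) (Set.range fun k => qq μ c Φ b η₀ (σ k)) ⊔
      vI w (BB w μ c cc Φ b N₁ η₀) (BB_ge h hη hc hb) ^ 2) (qq μ c Φ b η₀ j) := by
  classical
  -- approximations
  obtain ⟨δ₀, hδ₀⟩ := h.dense N' δ
  have ha₀ : ∀ j i, ∃ x : R, a j i - ι x ∈ II R μ ι ^ N' := fun j i => h.dense N' (a j i)
  choose a₀ ha₀ using ha₀
  obtain ⟨v₀, hv₀, hv₀0, hv₀1, hδe⟩ := mono_tr h hη hc hb e he δ δ₀ hδ₀ hδ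
  obtain ⟨s, hs, hse⟩ := dvd_tr h hη hc hb e he
  -- common denominator
  obtain ⟨u, hu, hu0, hu1, hul⟩ := exists_den (w := w) (adj C (Set.range (yy c cc))) Finset.univ
    (lam j) (fun k => hc.O_eq ▸ hlam j k)
  obtain ⟨U, hU⟩ := ev_surj h c cc u hu
  have hP : ∀ k, ∃ P : MvPolynomial (Fin τ) Ah, ev π c cc P = u * lam j k := fun k =>
    ev_surj h c cc _ (hul k (Finset.mem_univ k))
  choose P hP using hP
  obtain ⟨U₀, hU₀⟩ := exists_ap h N' U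
  have hP₀ : ∀ k, ∃ P₀ : MvPolynomial (Fin τ) R, Ap ι (II R μ ι ^ N') (P k) P₀ := fun k =>
    exists_ap h N' (P k)
  choose P₀ hP₀ using hP₀
  -- the coefficients
  obtain ⟨F, hF⟩ : ∃ F : Fin r → MvPolynomial (Fin τ) Ah, ∀ i, F i =
      U * MvPolynomial.C (a j i) - ∑ k, P k * MvPolynomial.C (a (σ k) i) := ⟨_, fun _ => rfl⟩
  obtain ⟨F₀, hF₀⟩ : ∃ F₀ : Fin r → MvPolynomial (Fin τ) R, ∀ i, F₀ i =
      U₀ * MvPolynomial.C (a₀ j i) - ∑ k, P₀ k * MvPolynomial.C (a₀ (σ k) i) := ⟨_, fun _ => rfl⟩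
  have evC : ∀ x : Ah, ev π c cc (MvPolynomial.C x) = π x := fun x =>
    MvPolynomial.eval₂Hom_C _ _ x
  have evRC : ∀ x : R, evR c cc (MvPolynomial.C x) = (x : Ω) := fun x =>
    MvPolynomial.eval₂Hom_C _ _ x
  have hF0 : ∀ i, ev π c cc (F i) = 0 := by
    intro i
    rw [hF, map_sub, map_mul, evC, hU, map_sum, hlin j i, Finset.mul_sum, ← Finset.sum_sub_distrib]
    refine Finset.sum_eq_zero fun k _ => ?_
    rw [map_mul, evC, hP]
    ring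
  have hFap : ∀ i, Ap ι (II R μ ι ^ N') (F i) (F₀ i) := by
    intro i
    rw [hF, hF₀]
    exact (hU₀.mul (ap_C (ha₀ j i))).sub
      (Ap.sum _ _ _ fun k _ => (hP₀ k).mul (ap_C (ha₀ (σ k) i)))
  have hκ : ∀ i, ∃ κ : Ω, In (idS (BB w μ c cc Φ b N₁ η₀) (Set.range (qq μ c Φ b η₀)) ⊔
      vI w (BB w μ c cc Φ b N₁ η₀) (BB_ge h hη hc hb) *
        idS (BB w μ c cc Φ b N₁ η₀) (Set.range (bb μ c Φ b N₁))) κ ∧
      evR c cc (F₀ i) = M0 μ ^ b * G1 μ c Φ b ^ 2 * κ := fun i =>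
    kappa h hη hc hb (hF0 i) (hFap i)
  choose κ hκ hκe using hκ
  -- the relation over `Ah`
  have hid : MvPolynomial.C δ * (U * MvPolynomial.C (η j) -
      ∑ k, P k * MvPolynomial.C (η (σ k))) = ∑ i, F i * MvPolynomial.C (η (β i)) := by
    have e1 : ∀ j', (MvPolynomial.C δ : MvPolynomial (Fin τ) Ah) * MvPolynomial.C (η j') =
        ∑ i, MvPolynomial.C (a j' i) * MvPolynomial.C (η (β i)) := by
      intro j'
      rw [← MvPolynomial.C_mul, hrel, map_sum]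
      exact Finset.sum_congr rfl fun i _ => MvPolynomial.C_mul
    have e2 : (MvPolynomial.C δ : MvPolynomial (Fin τ) Ah) * (U * MvPolynomial.C (η j) -
        ∑ k, P k * MvPolynomial.C (η (σ k))) = U * (MvPolynomial.C δ * MvPolynomial.C (η j)) -
        ∑ k, P k * (MvPolynomial.C δ * MvPolynomial.C (η (σ k))) := by
      rw [mul_sub, Finset.mul_sum]
      congr 1
      · ring
      · exact Finset.sum_congr rfl fun k _ => by ring
    rw [e2, e1, Finset.mul_sum]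
    have e3 : ∑ k, P k * (MvPolynomial.C δ * MvPolynomial.C (η (σ k))) =
        ∑ i, ∑ k, P k * MvPolynomial.C (a (σ k) i) * MvPolynomial.C (η (β i)) := by
      rw [Finset.sum_comm]
      refine Finset.sum_congr rfl fun k _ => ?_
      rw [e1, Finset.mul_sum]
      exact Finset.sum_congr rfl fun i _ => by ring
    rw [e3, ← Finset.sum_sub_distrib]
    refine Finset.sum_congr rfl fun i _ => ?_
    rw [hF, sub_mul, Finset.sum_mul]
    ring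
  -- approximation of the relation
  have hA1 : Ap ι (II R μ ι ^ N') (MvPolynomial.C δ * (U * MvPolynomial.C (η j) -
      ∑ k, P k * MvPolynomial.C (η (σ k))))
      (MvPolynomial.C δ₀ * (U₀ * MvPolynomial.C (η₀ j) -
        ∑ k, P₀ k * MvPolynomial.C (η₀ (σ k)))) :=
    (ap_C hδ₀).mul ((hU₀.mul (ap_C (hb.η₀_ap j))).sub
      (Ap.sum _ _ _ fun k _ => (hP₀ k).mul (ap_C (hb.η₀_ap (σ k)))))
  have hA2 : Ap ι (II R μ ι ^ N') (∑ i, F i * MvPolynomial.C (η (β i)))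
      (∑ i, F₀ i * MvPolynomial.C (η₀ (β i))) :=
    Ap.sum _ _ _ fun i _ => (hFap i).mul (ap_C (hb.η₀_ap (β i)))
  rw [hid] at hA1
  obtain ⟨ρ₄, hρ₄, hρe⟩ := rho h hη hc hb (Ap.ip h c cc (hA1.congr hA2))
  -- evaluation
  have hG := G1_ne h hc Φ b (μ := μ)
  have hη₀ : ∀ j', (η₀ j' : Ω) = G1 μ c Φ b ^ 3 * qq μ c Φ b η₀ j' := by
    intro j'
    rw [qq]
    field_simp
  obtain ⟨W, hW⟩ : ∃ W : Ω, W = evR c cc U₀ * qq μ c Φ b η₀ j -
      ∑ k, evR c cc (P₀ k) * qq μ c Φ b η₀ (σ k) := ⟨_, rfl⟩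
  have hZ : (∏ i, z i ^ e i) ≠ 0 := by
    intro h0
    have := pow_ne_zero b (M0_ne h)
    rw [hse, h0, zero_mul] at this
    exact this rfl
  have hmain : v₀ * W = s * (G1 μ c Φ b ^ 2 * ∑ i, κ i * qq μ c Φ b η₀ (β i) +
      (c : Ω) ^ Φ * ρ₄) := by
    have h1 : evR c cc (MvPolynomial.C δ₀ * (U₀ * MvPolynomial.C (η₀ j) -
        ∑ k, P₀ k * MvPolynomial.C (η₀ (σ k)))) = (δ₀ : Ω) * (G1 μ c Φ b ^ 3 * W) := by
      have h11 : ∑ k, evR c cc (P₀ k * MvPolynomial.C (η₀ (σ k))) =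
          G1 μ c Φ b ^ 3 * ∑ k, evR c cc (P₀ k) * qq μ c Φ b η₀ (σ k) := by
        rw [Finset.mul_sum]
        refine Finset.sum_congr rfl fun k _ => ?_
        rw [map_mul, evRC, hη₀]
        ring
      rw [map_mul, map_sub, map_mul, map_sum, evRC, evRC, hη₀, h11, hW]
      ring
    have h2 : evR c cc (∑ i, F₀ i * MvPolynomial.C (η₀ (β i))) =
        G1 μ c Φ b ^ 3 * (M0 μ ^ b * G1 μ c Φ b ^ 2 * ∑ i, κ i * qq μ c Φ b η₀ (β i)) := by
      rw [map_sum, Finset.mul_sum, Finset.mul_sum]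
      refine Finset.sum_congr rfl fun i _ => ?_
      rw [map_mul, evRC, hκe, hη₀]
      ring
    rw [map_sub, h1, h2] at hρe
    have h3 : G1 μ c Φ b = (c : Ω) ^ Φ * M0 μ ^ b := rfl
    have h4 : (δ₀ : Ω) * W = M0 μ ^ b * G1 μ c Φ b ^ 2 * (∑ i, κ i * qq μ c Φ b η₀ (β i)) +
        G1 μ c Φ b * ρ₄ := by
      have h5 : G1 μ c Φ b ^ 3 * ((δ₀ : Ω) * W) = G1 μ c Φ b ^ 3 *
          (M0 μ ^ b * G1 μ c Φ b ^ 2 * (∑ i, κ i * qq μ c Φ b η₀ (β i)) +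
            G1 μ c Φ b * ρ₄) := by
        linear_combination hρe
      exact mul_left_cancel₀ (pow_ne_zero 3 hG) h5
    have h6 : (∏ i, z i ^ e i) * (v₀ * W) = (∏ i, z i ^ e i) *
        (s * (G1 μ c Φ b ^ 2 * ∑ i, κ i * qq μ c Φ b η₀ (β i) + (c : Ω) ^ Φ * ρ₄)) := by
      have h7 : G1 μ c Φ b * ρ₄ = (c : Ω) ^ Φ * M0 μ ^ b * ρ₄ := by rw [h3]
      rw [h7, hse] at h4
      rw [hδe] at h4
      linear_combination h4
    exact mul_left_cancel₀ hZ h6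
  -- memberships
  have hRB : ∀ x : R, (x : Ω) ∈ BB w μ c cc Φ b N₁ η₀ := fun x =>
    adjR_le_BB (base_le_adj R _ x.2)
  have hqI : ∀ j', In (vI w (BB w μ c cc Φ b N₁ η₀) (BB_ge h hη hc hb))
      (qq μ c Φ b η₀ j') := fun j' =>
    in_vI.2 ⟨qq_mem j', fun _ => (qq_memO h hη hc hb j').2.1⟩
  have hbI : idS (BB w μ c cc Φ b N₁ η₀) (Set.range (bb μ c Φ b N₁)) ≤
      vI w (BB w μ c cc Φ b N₁ η₀) (BB_ge h hη hc hb) := by
    refine idS_le ?_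
    rintro _ ⟨φ, rfl⟩ hf
    exact in_vI.2 ⟨hf, fun _ => (bb_memO h hc hb φ).2.1⟩
  have hGB : G1 μ c Φ b ∈ BB w μ c cc Φ b N₁ η₀ :=
    adjR_le_BB (base_le_adj R _ (G1_mem h c Φ b))
  have hsum : In (vI w (BB w μ c cc Φ b N₁ η₀) (BB_ge h hη hc hb) ^ 2)
      (∑ i, κ i * qq μ c Φ b η₀ (β i)) := by
    refine In.sum _ _ fun i _ => ?_
    rw [pow_two]
    exact (in_vI.2 (kappa_pos h hη hc hb (hκ i))).mul (hqI (β i))
  have hρI : In (vI w (BB w μ c cc Φ b N₁ η₀) (BB_ge h hη hc hb) ^ 2) ρ₄ := by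
    rw [pow_two]
    exact hρ₄.mono (Ideal.mul_mono_right hbI)
  have hvW : In (vI w (BB w μ c cc Φ b N₁ η₀) (BB_ge h hη hc hb) ^ 2) (v₀ * W) := by
    rw [hmain]
    exact ((hsum.mul_left (Subring.pow_mem _ hGB 2)).add
      (hρI.mul_left (Subring.pow_mem _ (hRB c) Φ))).mul_left hs
  have hWI : In (vI w (BB w μ c cc Φ b N₁ η₀) (BB_ge h hη hc hb) ^ 2) W := by
    have := hvW.mul_left (BB_inv v₀ hv₀ hv₀0 hv₀1)
    rwa [← mul_assoc, inv_mul_cancel₀ hv₀0, one_mul] at this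
  obtain ⟨hE0, hE1⟩ := unit_tr h hη hc hb (U := U) (U₀ := U₀) (by rw [hU]; exact hu0)
    (by rw [hU]; exact hu1) hU₀
  have hEB : evR c cc U₀ ∈ BB w μ c cc Φ b N₁ η₀ := adjR_le_BB (evR_mem c cc U₀)
  have hfin : qq μ c Φ b η₀ j = (evR c cc U₀)⁻¹ * (W +
      ∑ k, evR c cc (P₀ k) * qq μ c Φ b η₀ (σ k)) := by
    rw [hW, sub_add_cancel, ← mul_assoc, inv_mul_cancel₀ hE0, one_mul]
  rw [hfin]
  refine In.mul_left (In.add (hWI.mono le_sup_right) (In.mono le_sup_left ?_))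
    (BB_inv _ hEB hE0 hE1)
  refine In.sum _ _ fun k _ => ?_
  exact (In.of_mem (S := Set.range fun k => qq μ c Φ b η₀ (σ k)) ⟨k, rfl⟩
    (qq_mem (σ k))).mul_left (adjR_le_BB (evR_mem c cc (P₀ k)))

end Pool.Agent.LUZ
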