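import Pool.Agent.Lib.LUZ.Z07
import Pool.Agent.Lib.LUZ.Z08

/-! # Z09: the parameters of `B`

Recipe. By `vI_le` and the hypothesis `hq` (row Z08) `𝔪 ≤ idS B (range z ∪ range (qq ∘ σ)) ⊔ 𝔪^2`; Nakayama (`B` noetherian, local with maximal ideal `𝔪`): `𝔪 ≤ idS B (..)`. `Par`:
`mem`, `ne`, `pos` by `Fin.addCases` (`hc.par`, `qq_memO`, `qq_mem`, `z_mem_BB`); `gen`: the ideal `idl B (Fin.append z (qq ∘ σ))` is `idS B (range z ∪ range ..)`. -/

set_option autoImplicit false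

namespace Pool.Agent.LUZ

open Pool.Agent.H15JM (RVal)
open Pool.Agent.LU1 (VPos)
open Pool.Agent.LUC

universe u

variable {Ω : Type u} [Field Ω] {w : RVal Ω} {R C : Subring Ω} {K L : Subfield Ω} {q n τ l r : ℕ}
  {μ : Fin q → Ω} {Ah : Type u} [CommRing Ah] {ι : R →+* Ah} {π : Ah →+* Ω} {η : Fin l → Ah}
  {z : Fin n → Ω} {J : Finset (Fin n)} {O : Subring Ω} {c : R} {cc : Fin τ → R}
  {Φ b N₁ N' : ℕ} {η₀ : Fin l → R}

private theorem idS_append_le {B : Subring Ω} {y : Fin r → Ω} :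
    idS B (Set.range z ∪ Set.range y) ≤ idl B (Fin.append z y) := by
  rw [idS, idl]
  refine Ideal.span_mono ?_
  rintro g (⟨i, hi⟩ | ⟨i, hi⟩)
  · exact ⟨Fin.castAdd r i, by rw [Fin.append_left]; exact hi.symm⟩
  · exact ⟨Fin.natAdd n i, by rw [Fin.append_right]; exact hi.symm⟩

theorem BB_par (h : Fml w R C K L μ ι π) (hη : ∀ j, π (η j) = 0)
    (hc : FCh w R C μ z J O c cc) (hb : FB w R O μ ι π η z J c cc Φ b N₁ N' η₀)
    (σ : Fin r → Fin l)
    (hq : ∀ j, In (idS (BB w μ c cc Φ b N₁ η₀) (Set.range fun k => qq μ c Φ b η₀ (σ k)) ⊔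
      vI w (BB w μ c cc Φ b N₁ η₀) (BB_ge h hη hc hb) ^ 2) (qq μ c Φ b η₀ j)) :
    Par w (BB w μ c cc Φ b N₁ η₀) (Fin.append z fun k => qq μ c Φ b η₀ (σ k)) := by
  have hA : ∀ f ∈ adj R (FR μ c cc Φ b N₁ η₀), w.Ge 0 f := fun f hf =>
    BB_ge h hη hc hb f (le_lv w _ hf)
  have hloc : IsLocalRing (lv w (adj R (FR μ c cc Φ b N₁ η₀))) := lv_isLocalRing hA
  have : IsLocalRing (BB w μ c cc Φ b N₁ η₀) := hloc
  have : IsNoetherianRing (BB w μ c cc Φ b N₁ η₀) := BB_noeth h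
  have hmax : vI w (BB w μ c cc Φ b N₁ η₀) (BB_ge h hη hc hb)
      ≤ (⊥ : Ideal (BB w μ c cc Φ b N₁ η₀)).jacobson := by
    rw [IsLocalRing.jacobson_eq_maximalIdeal _ bot_ne_top]
    intro g hg
    exact (mem_max_iff hA g).2 hg
  have key : vI w (BB w μ c cc Φ b N₁ η₀) (BB_ge h hη hc hb)
      ≤ idS (BB w μ c cc Φ b N₁ η₀) (Set.range z ∪ Set.range fun k => qq μ c Φ b η₀ (σ k)) := by
    refine Submodule.le_of_le_smul_of_le_jacobson_bot (IsNoetherian.noetherian _) hmax ?_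
    refine (vI_le h hη hc hb).trans (idS_le ?_)
    have hpow : vI w (BB w μ c cc Φ b N₁ η₀) (BB_ge h hη hc hb) •
        vI w (BB w μ c cc Φ b N₁ η₀) (BB_ge h hη hc hb)
        = vI w (BB w μ c cc Φ b N₁ η₀) (BB_ge h hη hc hb) ^ 2 := by
      rw [smul_eq_mul, sq]
    rintro f (⟨i, rfl⟩ | ⟨j, rfl⟩) hf
    · exact (In.of_mem (S := Set.range z ∪ Set.range fun k => qq μ c Φ b η₀ (σ k))
        (Or.inl ⟨i, rfl⟩) hf).mono le_sup_left
    · refine (hq j).mono ?_
      rw [hpow]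
      refine sup_le_sup_right ?_ _
      exact Ideal.span_mono fun g hg => Or.inr hg
  constructor
  · intro i
    refine Fin.addCases (fun i => ?_) (fun k => ?_) i
    · rw [Fin.append_left]
      exact z_mem_BB hc i
    · rw [Fin.append_right]
      exact qq_mem _
  · intro i
    refine Fin.addCases (fun i => ?_) (fun k => ?_) i
    · rw [Fin.append_left]
      exact hc.par.ne i
    · rw [Fin.append_right]
      exact (qq_memO h hη hc hb _).2.2
  · intro i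
    refine Fin.addCases (fun i => ?_) (fun k => ?_) i
    · rw [Fin.append_left]
      exact hc.par.pos i
    · rw [Fin.append_right]
      exact (qq_memO h hη hc hb _).2.1
  · intro f hf hp
    obtain ⟨g, hg, hg'⟩ := (in_vI (hB := BB_ge h hη hc hb)).2 ⟨hf, hp⟩
    refine ⟨g, hg, ?_⟩
    rw [pow_one]
    exact idS_append_le (key hg')

end Pool.Agent.LUZ
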