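import Pool.Agent.Lib.LUZ.Z06
import Pool.Agent.Lib.LUZ.Z09

/-! # Z16: the exponent `b`, monomials with natural exponents, and the strong monomials of `B`

Recipes. `nat_sm`: `SM w O z J t`, `0 ≤ w t`: all exponents are `≥ 0` (`w t > 0`: positive on `J`, 0 off `J`; `w t = 0`: all 0): `Int.toNat`. `exists_b`: `M0 μ` is a strong monomial of positive value (`M0_sm`, `M0_pos`), so divisible by
`∏ j ∈ J, z j` (`SM.dvd`); `∏ z i ^ e i` with `e` supported on `J` divides `(∏ j ∈ J, z j)^b` for `b ≥ e i`. `sm_B`: `t ∈ K`, `t ≠ 0`, `t = α / β`, `α, β ∈ R`, `SM w O z J t`, `SM w O z J β`; first let `0 ≤ w t`: natural exponents `e` for `t` and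
`e'` for `β`; then `α = ∏ z^(e+e') * v` in `O`; `mono_tr` for `a = ι α` (`π (ι α) = α`, `ap`: `a - ι a₀ = 0`) and for `β`: `α = ∏ z^(e+e') * v₁`, `β = ∏ z^e' * v₂`, so `t = ∏ z^e * (v₁ / v₂)` in `B`; exponents on `Fin (n + r)`: `Fin.append e 0`, support
`J' = J.map (Fin.castAddEmb r)`; `w t < 0`: the inverse (`SM.inv`). The hypothesis `hbe` says that `b` is large enough for the exponents of `α`. -/

set_option autoImplicit false

namespace Pool.Agent.LUZ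

open Pool.Agent.H15JM (RVal)
open Pool.Agent.LU1 (VPos)
open Pool.Agent.LUC

universe u

variable {Ω : Type u} [Field Ω] {w : RVal Ω} {R C : Subring Ω} {K L : Subfield Ω} {q n τ l r : ℕ}
  {μ : Fin q → Ω} {Ah : Type u} [CommRing Ah] {ι : R →+* Ah} {π : Ah →+* Ω} {η : Fin l → Ah}
  {z : Fin n → Ω} {J : Finset (Fin n)} {O : Subring Ω} {c : R} {cc : Fin τ → R}
  {Φ b N₁ N' : ℕ} {η₀ : Fin l → R}

theorem nat_sm {t : Ω} (ht : SM w O z J t) (h0 : 0 ≤ w t) :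
    ∃ e : Fin n → ℕ, ∃ v ∈ O, v ≠ 0 ∧ w v = 0 ∧ t = (∏ i, z i ^ e i) * v ∧
      (∀ i, i ∉ J → e i = 0) ∧ (0 < w t → ∀ i ∈ J, 0 < e i) ∧ (w t = 0 → ∀ i, e i = 0) := by
  obtain ⟨e, u, huO, hu0, hwu, htu, h1, h2, -, h4⟩ := ht
  have hpos : ∀ i, 0 ≤ e i := by
    intro i
    rcases h0.lt_or_eq with h | h
    · by_cases hi : i ∈ J
      · exact (h2 h i hi).le
      · exact (h1 i hi).ge
    · exact (h4 h.symm i).ge
  refine ⟨fun i => (e i).toNat, u, huO, hu0, hwu, ?_, ?_, ?_, ?_⟩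
  · rw [htu]
    congr 1
    refine Finset.prod_congr rfl fun i _ => ?_
    conv_lhs => rw [← Int.toNat_of_nonneg (hpos i)]
    exact zpow_natCast _ _
  · intro i hi
    show (e i).toNat = 0
    rw [h1 i hi]
    rfl
  · intro h i hi
    show 0 < (e i).toNat
    have := h2 h i hi
    omega
  · intro h i
    show (e i).toNat = 0
    rw [h4 h i]
    rfl

/-- A bound: all monomials with exponents `≤ D` supported on `J` divide `(M0 μ)^b`. -/
theorem exists_b (h : Fml w R C K L μ ι π) (hc : FCh w R C μ z J O c cc) (D : ℕ) :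
    ∃ b : ℕ, ∀ e : Fin n → ℕ, (∀ i, i ∉ J → e i = 0) → (∀ i, e i ≤ D) →
      ∃ s ∈ O, M0 μ ^ b = (∏ i, z i ^ e i) * s := by
  obtain ⟨a, haO, ha⟩ := SM.dvd hc.par.mem hc.par.ne (M0_sm h hc) (M0_pos h)
  refine ⟨D, fun e he heD => ⟨(∏ i ∈ J, z i ^ (D - e i)) * a ^ D, ?_, ?_⟩⟩
  · exact O.mul_mem (O.prod_mem fun i _ => O.pow_mem (hc.par.mem i) _) (O.pow_mem haO D)
  · have e1 : ∏ i, z i ^ e i = ∏ i ∈ J, z i ^ e i := by
      symm
      apply Finset.prod_subset (Finset.subset_univ J)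
      intro i _ hi
      rw [he i hi, pow_zero]
    rw [ha, e1, mul_pow, ← mul_assoc, ← Finset.prod_mul_distrib, ← Finset.prod_pow]
    congr 1
    refine Finset.prod_congr rfl fun i _ => ?_
    rw [← pow_add, Nat.add_sub_cancel' (heD i)]

theorem sm_B (h : Fml w R C K L μ ι π) (hη : ∀ j, π (η j) = 0)
    (hc : FCh w R C μ z J O c cc) (hb : FB w R O μ ι π η z J c cc Φ b N₁ N' η₀)
    (x : Fin r → Ω) (hx : ∀ k, x k ≠ 0) {D : ℕ}
    (hbD : ∀ e : Fin n → ℕ, (∀ i, i ∉ J → e i = 0) → (∀ i, e i ≤ D) →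
      ∃ s ∈ O, M0 μ ^ b = (∏ i, z i ^ e i) * s)
    {t : Ω} (α β : R) (hβ0 : (β : Ω) ≠ 0) (ht0 : t ≠ 0) (htαβ : t = (α : Ω) / (β : Ω))
    (e e' : Fin n → ℕ) (he : ∀ i, i ∉ J → e i = 0) (he' : ∀ i, i ∉ J → e' i = 0)
    (hD : ∀ i, e i + e' i ≤ D)
    (ht : 0 ≤ w t) (htv : ∃ v ∈ O, v ≠ 0 ∧ w v = 0 ∧ t = (∏ i, z i ^ e i) * v)
    (ht1 : 0 < w t → ∀ i ∈ J, 0 < e i) (ht2 : w t = 0 → ∀ i, e i = 0)
    (hβv : ∃ v ∈ O, v ≠ 0 ∧ w v = 0 ∧ (β : Ω) = (∏ i, z i ^ e' i) * v) :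
    SM w (BB w μ c cc Φ b N₁ η₀) (Fin.append z x) (J.map (Fin.castAddEmb r)) t := by
  obtain ⟨v, hvO, hv0, hwv, htv⟩ := htv
  obtain ⟨v', hvO', hv0', hwv', hβv⟩ := hβv
  have hα : (α : Ω) = t * (β : Ω) := by
    rw [htαβ, div_mul_cancel₀ _ hβ0]
  obtain ⟨v₁, hv₁, hv₁0, hwv₁, hα1⟩ := mono_tr h hη hc hb (fun i => e i + e' i)
    (hbD _ (fun i hi => by rw [he i hi, he' i hi]) hD) (ι α) α (by rw [sub_self]; exact zero_mem _)
    ⟨v * v', O.mul_mem hvO hvO', mul_ne_zero hv0 hv0', by rw [w.map_mul hv0 hv0', hwv, hwv', add_zero], by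
      rw [h.comp α, hα, htv, hβv]
      have : ∏ i, z i ^ (e i + e' i) = (∏ i, z i ^ e i) * ∏ i, z i ^ e' i := by
        rw [← Finset.prod_mul_distrib]
        exact Finset.prod_congr rfl fun i _ => pow_add _ _ _
      rw [this]
      ring⟩
  obtain ⟨v₂, hv₂, hv₂0, hwv₂, hβ1⟩ := mono_tr h hη hc hb e'
    (hbD _ he' (fun i => le_trans (Nat.le_add_left _ _) (hD i))) (ι β) β (by rw [sub_self]; exact zero_mem _)
    ⟨v', hvO', hv0', hwv', by rw [h.comp β, hβv]⟩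
  have hz0 : ∀ i, z i ≠ 0 := hc.par.ne
  have hP' : (∏ i, z i ^ e' i) ≠ 0 := Finset.prod_ne_zero_iff.2 fun i _ => pow_ne_zero _ (hz0 i)
  have ht' : t = (∏ i, z i ^ e i) * (v₁ * v₂⁻¹) := by
    rw [htαβ, hα1, hβ1]
    have : ∏ i, z i ^ (e i + e' i) = (∏ i, z i ^ e i) * ∏ i, z i ^ e' i := by
      rw [← Finset.prod_mul_distrib]
      exact Finset.prod_congr rfl fun i _ => pow_add _ _ _
    rw [this]
    field_simp
  refine ⟨Fin.append (fun i => (e i : ℤ)) 0, v₁ * v₂⁻¹,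
    (BB w μ c cc Φ b N₁ η₀).mul_mem hv₁ (BB_inv v₂ hv₂ hv₂0 hwv₂), mul_ne_zero hv₁0 (inv_ne_zero hv₂0), ?_, ?_,
    ?_, ?_, ?_, ?_⟩
  · rw [w.map_mul hv₁0 (inv_ne_zero hv₂0), hwv₁, w.map_inv hv₂0, hwv₂]
    simp
  · rw [Fin.prod_univ_add]
    simp only [Fin.append_left, Fin.append_right, Pi.zero_apply, zpow_zero, Finset.prod_const_one, mul_one,
      zpow_natCast]
    exact ht'
  · intro i hi
    refine Fin.addCases (motive := fun i => i ∉ J.map (Fin.castAddEmb r) →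
      Fin.append (fun i => (e i : ℤ)) (0 : Fin r → ℤ) i = 0) (fun j hj => ?_) (fun j _ => ?_) i hi
    · rw [Fin.append_left]
      have : j ∉ J := fun hJ => hj (Finset.mem_map.2 ⟨j, hJ, rfl⟩)
      rw [he j this]
      rfl
    · rw [Fin.append_right]
      rfl
  · intro hpos i hi
    obtain ⟨j, hj, rfl⟩ := Finset.mem_map.1 hi
    have e1 : Fin.append (fun i => (e i : ℤ)) (0 : Fin r → ℤ) (Fin.castAddEmb r j) = (e j : ℤ) :=
      Fin.append_left _ _ j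
    rw [e1]
    exact_mod_cast ht1 hpos j hj
  · intro hneg
    exact absurd ht (not_le.2 hneg)
  · intro hz i
    refine Fin.addCases (motive := fun i => Fin.append (fun i => (e i : ℤ)) (0 : Fin r → ℤ) i = 0)
      (fun j => ?_) (fun j => ?_) i
    · rw [Fin.append_left, ht2 hz j]
      rfl
    · rw [Fin.append_right]
      rfl

end Pool.Agent.LUZ
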