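import Pool.Agent.Lib.LUZ.Z02
import Pool.Agent.Lib.LUZ.Z03
import Pool.Agent.Lib.LUZ.Z12
import Pool.Agent.Lib.LUZ.Z13
import Pool.Agent.Lib.LUZ.Z14
import Pool.Agent.Lib.LUZ.Z15
import Pool.Agent.Lib.LUZ.Z16

/-! # Z17: the formal descent theorem (assembly, helper52) -/

set_option autoImplicit false

namespace Pool.Agent.LUZ

open Pool.Agent.H15JM (RVal)
open Pool.Agent.LU1 (VPos)
open Pool.Agent.LUC

universe u

variable {Ω : Type u} [Field Ω] {w : RVal Ω} {R C : Subring Ω} {K L : Subfield Ω} {q : ℕ}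
  {μ : Fin q → Ω} {Ah : Type u} [CommRing Ah] {ι : R →+* Ah} {π : Ah →+* Ω}

theorem SM.pow {O : Subring Ω} {n : ℕ} {z : Fin n → Ω} {J : Finset (Fin n)} {t : Ω}
    (hz : ∀ i, z i ≠ 0) (h : SM w O z J t) (h0 : 0 ≤ w t) (m : ℕ) :
    SM w O z J (t ^ m) ∧ 0 ≤ w (t ^ m) := by
  induction m with
  | zero =>
    rw [pow_zero]
    exact ⟨LUC.SM.one, by rw [w.map_one]⟩
  | succ m ih =>
    rw [pow_succ]
    refine ⟨LUC.SM.mul hz ih.1 ih.2 h h0, ?_⟩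
    rw [w.map_mul (LUC.SM.ne hz ih.1) (LUC.SM.ne hz h)]
    linarith [ih.2]

/-- The exponents of a strong monomial which is a quotient of elements of `R`. -/
structure Expo (w : RVal Ω) (R O : Subring Ω) {n : ℕ} (z : Fin n → Ω) (J : Finset (Fin n))
    (t : Ω) (α β : R) (e e' : Fin n → ℕ) : Prop where
  t_ne : t ≠ 0
  t_ge : 0 ≤ w t
  β_ne : (β : Ω) ≠ 0
  eq : t = (α : Ω) / (β : Ω)
  e_off : ∀ i, i ∉ J → e i = 0
  e'_off : ∀ i, i ∉ J → e' i = 0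
  e_pos : 0 < w t → ∀ i ∈ J, 0 < e i
  e_zero : w t = 0 → ∀ i, e i = 0
  tv : ∃ v ∈ O, v ≠ 0 ∧ w v = 0 ∧ t = (∏ i, z i ^ e i) * v
  βv : ∃ v ∈ O, v ≠ 0 ∧ w v = 0 ∧ (β : Ω) = (∏ i, z i ^ e' i) * v

theorem exists_expo {O : Subring Ω} {n : ℕ} {z : Fin n → Ω} {J : Finset (Fin n)} {t : Ω}
    (hz : ∀ i, z i ≠ 0) (ht : SM w O z J t) (h0 : 0 ≤ w t) (α β : R)
    (hβ : SM w O z J (β : Ω)) (hβ0 : 0 ≤ w (β : Ω)) (heq : t = (α : Ω) / (β : Ω)) :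
    ∃ e e' : Fin n → ℕ, Expo w R O z J t α β e e' := by
  obtain ⟨e, v, hv, hv0, hv1, htv, h1, h2, h3⟩ := nat_sm ht h0
  obtain ⟨e', v', hv', hv0', hv1', htv', h1', -, -⟩ := nat_sm hβ hβ0
  exact ⟨e, e', LUC.SM.ne hz ht, h0, LUC.SM.ne hz hβ, heq, h1, h1', h2, h3,
    ⟨v, hv, hv0, hv1, htv⟩, ⟨v', hv', hv0', hv1', htv'⟩⟩

theorem formal_descent (h : Fml w R C K L μ ι π) {l r : ℕ} {η : Fin l → Ah} {δ : Ah}
    {a : Fin l → Fin r → Ah} {β : Fin r → Fin l} (hr : FReg π η δ a β) (hL : LUs w C L) :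
    LUs w R K := by
  classical
  intro A hA hAK T hT
  have hη : ∀ j, π (η j) = 0 := by
    intro j
    have h1 : η j ∈ RingHom.ker π := by
      rw [← hr.span]
      exact Ideal.subset_span ⟨j, rfl⟩
    exact h1
  have hCL : ∀ f ∈ C, f ∈ L := h.quoC.1
  have hRC : R ≤ C := h.le
  have hRge : ∀ f ∈ R, w.Ge 0 f := h.ge
  -- the rows
  obtain ⟨σ, lam, hlam, hlin⟩ := exists_rows w L (fun j i => π (a j i))
    (fun j i => hCL _ (h.mem _)) β (π δ) hr.δ_ne hr.diag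
  -- the quotients
  have hTq : ∀ t : T, ∃ x y : R, (y : Ω) ≠ 0 ∧ (t : Ω) = (x : Ω) / (y : Ω) := by
    intro t
    obtain ⟨x, hx, y, hy, hy0, hxy⟩ := h.quo.2 t (hT t t.2).1
    exact ⟨⟨x, hx⟩, ⟨y, hy⟩, hy0, hxy⟩
  choose num den hden hnd using hTq
  have hnum : ∀ t : T, (num t : Ω) ≠ 0 := by
    intro t h0
    have := hnd t
    rw [h0, zero_div] at this
    exact (hT t t.2).2 this
  let T' : Finset Ω := ((((T ∪ Finset.univ.image fun t : T => (num t : Ω)) ∪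
    Finset.univ.image fun t : T => (den t : Ω)) ∪ {π δ}) ∪
    Finset.univ.image fun jk : Fin l × Fin r => lam jk.1 jk.2).filter fun x => x ≠ 0
  have hT'mem : ∀ x, x ∈ T' ↔ (((x ∈ T ∨ ∃ t : T, (num t : Ω) = x) ∨ ∃ t : T, (den t : Ω) = x) ∨
      x = π δ ∨ ∃ jk : Fin l × Fin r, lam jk.1 jk.2 = x) ∧ x ≠ 0 := by
    intro x
    simp only [T', Finset.mem_filter, Finset.mem_union, Finset.mem_image, Finset.mem_univ, true_and,
      Finset.mem_singleton, or_assoc]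
  have hT'L : ∀ t ∈ T', t ∈ L ∧ t ≠ 0 := by
    intro x hx
    obtain ⟨h1, h2⟩ := (hT'mem x).1 hx
    refine ⟨?_, h2⟩
    rcases h1 with ((h1 | ⟨t, rfl⟩) | ⟨t, rfl⟩) | rfl | ⟨jk, rfl⟩
    · obtain ⟨x', hx', y', hy', -, rfl⟩ := h.quo.2 x (hT x h1).1
      exact L.div_mem (hCL _ (hRC hx')) (hCL _ (hRC hy'))
    · exact hCL _ (hRC (num t).2)
    · exact hCL _ (hRC (den t).2)
    · exact hCL _ (h.mem δ)
    · exact (hlam _ _).1
  obtain ⟨n, τ, z, J, O, c, cc, hc, hO, hsm, hAy⟩ := exists_FCh h hL A hA hAK T' hT'L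
  have hzne : ∀ i, z i ≠ 0 := hc.par.ne
  obtain ⟨Φ, hΦ⟩ := exists_Φ h η hr.span c hc.c_ne cc
  have hcge : 0 ≤ w (c : Ω) := hRge _ c.2 hc.c_ne
  -- exponents
  have hnumS : ∀ t : T, SM w O z J (num t : Ω) := fun t =>
    hsm _ ((hT'mem _).2 ⟨Or.inl (Or.inl (Or.inr ⟨t, rfl⟩)), hnum t⟩)
  have hdenS : ∀ t : T, SM w O z J (den t : Ω) := fun t =>
    hsm _ ((hT'mem _).2 ⟨Or.inl (Or.inr ⟨t, rfl⟩), hden t⟩)
  have hTS : ∀ t : T, SM w O z J (t : Ω) := fun t =>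
    hsm _ ((hT'mem _).2 ⟨Or.inl (Or.inl (Or.inl t.2)), (hT t t.2).2⟩)
  have hex : ∀ t : T, ∃ (s : Ω) (x y : R) (e e' : Fin n → ℕ), Expo w R O z J s x y e e' ∧
      ((t : Ω) = s ∨ (t : Ω) = s⁻¹) := by
    intro t
    rcases le_total 0 (w (t : Ω)) with h0 | h0
    · obtain ⟨e, e', he⟩ := exists_expo hzne (hTS t) h0 (num t) (den t) (hdenS t)
        (hRge _ (den t).2 (hden t)) (hnd t)
      exact ⟨_, _, _, e, e', he, Or.inl rfl⟩
    · have h1 : SM w O z J (t : Ω)⁻¹ := LUC.SM.inv hc.inv hzne (hTS t)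
      have h2 : 0 ≤ w (t : Ω)⁻¹ := by
        rw [w.map_inv (hT t t.2).2]
        linarith
      obtain ⟨e, e', he⟩ := exists_expo hzne h1 h2 (den t) (num t) (hnumS t)
        (hRge _ (num t).2 (hnum t)) (by rw [hnd t, inv_div])
      exact ⟨_, _, _, e, e', he, Or.inr (inv_inv _).symm⟩
  choose sT xT yT eT eT' heT hsT using hex
  have hone : SM w O z J ((1 : R) : Ω) := by
    simpa using (LUC.SM.one : SM w O z J (1 : Ω))
  have hone0 : 0 ≤ w ((1 : R) : Ω) := by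
    have : ((1 : R) : Ω) = 1 := rfl
    rw [this, w.map_one]
  obtain ⟨ec, ec', hec⟩ := exists_expo hzne hc.c_sm hcge c 1 hone hone0 (by simp)
  have hM0S : SM w O z J (M0 μ) := M0_sm h hc
  have hM0R : M0 μ ∈ R := M0_mem h
  obtain ⟨eM, eM', heM⟩ := exists_expo hzne hM0S (M0_pos h).le ⟨M0 μ, hM0R⟩ 1 hone hone0 (by simp)
  have hδS : SM w O z J (π δ) := hsm _ ((hT'mem _).2 ⟨Or.inr (Or.inl rfl), hr.δ_ne⟩)
  obtain ⟨eδ, vδ, hvδ, hvδ0, hvδ1, heδ, heδoff, -, -⟩ := nat_sm hδS (h.geC _ (h.mem δ) hr.δ_ne)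
  obtain ⟨D, hDT, hDc, hDM, hDδ⟩ : ∃ D : ℕ, (∀ t i, eT t i + eT' t i ≤ D) ∧
      (∀ i, ec i + ec' i ≤ D) ∧ (∀ i, eM i + eM' i ≤ D) ∧ ∀ i, eδ i ≤ D := by
    refine ⟨(∑ t, ∑ i, (eT t i + eT' t i)) + (∑ i, (ec i + ec' i)) + (∑ i, (eM i + eM' i)) +
      ∑ i, eδ i, fun t i => ?_, fun i => ?_, fun i => ?_, fun i => ?_⟩
    · have h1 : eT t i + eT' t i ≤ ∑ i, (eT t i + eT' t i) :=
        Finset.single_le_sum (f := fun i => eT t i + eT' t i) (fun _ _ => Nat.zero_le _)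
          (Finset.mem_univ i)
      have h2 : ∑ i, (eT t i + eT' t i) ≤ ∑ t, ∑ i, (eT t i + eT' t i) :=
        Finset.single_le_sum (f := fun t => ∑ i, (eT t i + eT' t i)) (fun _ _ => Nat.zero_le _)
          (Finset.mem_univ t)
      omega
    · have h1 : ec i + ec' i ≤ ∑ i, (ec i + ec' i) :=
        Finset.single_le_sum (f := fun i => ec i + ec' i) (fun _ _ => Nat.zero_le _)
          (Finset.mem_univ i)
      omega
    · have h1 : eM i + eM' i ≤ ∑ i, (eM i + eM' i) :=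
        Finset.single_le_sum (f := fun i => eM i + eM' i) (fun _ _ => Nat.zero_le _)
          (Finset.mem_univ i)
      omega
    · have h1 : eδ i ≤ ∑ i, eδ i :=
        Finset.single_le_sum (f := fun i => eδ i) (fun _ _ => Nat.zero_le _)
          (Finset.mem_univ i)
      omega
  obtain ⟨b, hbD⟩ := exists_b h hc D
  obtain ⟨N₁, N', η₀, hb⟩ := exists_FB h hc η Φ hΦ b
  have hlamO : ∀ j k, lam j k ∈ O := by
    intro j k
    by_cases h0 : lam j k = 0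
    · rw [h0]
      exact O.zero_mem
    · exact LUC.SM.mem hc.par.mem (hsm _ ((hT'mem _).2 ⟨Or.inr (Or.inr ⟨(j, k), rfl⟩), h0⟩))
        ((hlam j k).2 h0)
  have hq := qq_rel h hη hc hb δ a β hr.rel eδ (hbD eδ heδoff hDδ) ⟨vδ, hvδ, hvδ0, hvδ1, heδ⟩ σ
    lam hlamO hlin
  have hpar := BB_par h hη hc hb σ hq
  have hdim := BB_dim h hη hr.height hc hO hb σ hpar
  have hxne : ∀ k, qq μ c Φ b η₀ (σ k) ≠ 0 := fun k => (qq_memO h hη hc hb (σ k)).2.2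
  have hsmB : ∀ {t : Ω} {x y : R} {e e' : Fin n → ℕ}, Expo w R O z J t x y e e' →
      (∀ i, e i + e' i ≤ D) →
      SM w (BB w μ c cc Φ b N₁ η₀) (Fin.append z fun k => qq μ c Φ b η₀ (σ k))
        (J.map (Fin.castAddEmb r)) t := by
    intro t x y e e' he hD
    exact sm_B h hη hc hb _ hxne hbD x y he.β_ne he.t_ne he.eq e e' he.e_off he.e'_off hD he.t_ge
      he.tv he.e_pos he.e_zero he.βv
  have hB0 := BB_ge h hη hc hb
  have hBinv : ∀ f ∈ BB w μ c cc Φ b N₁ η₀, f ≠ 0 → w f = 0 → f⁻¹ ∈ BB w μ c cc Φ b N₁ η₀ :=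
    BB_inv
  have hRA : R ≤ adj R (A : Set Ω) := base_le_adj R _
  have hcS := hsmB hec hDc
  have hMS := hsmB heM hDM
  have hG1S : SM w (BB w μ c cc Φ b N₁ η₀) (Fin.append z fun k => qq μ c Φ b η₀ (σ k))
      (J.map (Fin.castAddEmb r)) (G1 μ c Φ b) ∧ 0 ≤ w (G1 μ c Φ b) := by
    have h1 := SM.pow hpar.ne hcS hcge Φ
    have h2 := SM.pow hpar.ne hMS (M0_pos h).le b
    refine ⟨LUC.SM.mul hpar.ne h1.1 h1.2 h2.1 h2.2, ?_⟩
    change 0 ≤ w ((c : Ω) ^ Φ * M0 μ ^ b)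
    rw [w.map_mul (LUC.SM.ne hpar.ne h1.1) (LUC.SM.ne hpar.ne h2.1)]
    linarith [h1.2, h2.2]
  have hG13S := (SM.pow hpar.ne hG1S.1 hG1S.2 3).1
  refine ⟨n + r, Fin.append z fun k => qq μ c Φ b η₀ (σ k), J.map (Fin.castAddEmb r),
    BB w μ c cc Φ b N₁ η₀, ⟨hpar, ?_, ?_⟩, hdim⟩
  · have hfin : (FR μ c cc Φ b N₁ η₀).Finite := FR_finite
    refine chart_of (hz := hpar.ne) hBinv hB0 A (adj_nonneg hRge fun f hf => hA f hf)
      (fun x hx => adjR_le_BB (hAy x hx)) hfin.toFinset ?_ ?_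
    · rw [Set.Finite.coe_toFinset]
      rfl
    · intro f hf
      rw [Set.Finite.mem_toFinset] at hf
      rcases hf with (⟨t, rfl⟩ | ⟨φ, rfl⟩) | ⟨j, rfl⟩
      · exact ⟨cc t, hRA (cc t).2, c, hRA c.2, hcS, rfl⟩
      · exact ⟨_, hRA (R.prod_mem fun i _ => h.par.mem _), _, hRA (G1_mem h c Φ b), hG1S.1, rfl⟩
      · exact ⟨_, hRA (η₀ j).2, _, hRA (R.pow_mem (G1_mem h c Φ b) 3), hG13S, rfl⟩
  · intro t ht
    have h1 := hsmB (heT ⟨t, ht⟩) (hDT ⟨t, ht⟩)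
    rcases hsT ⟨t, ht⟩ with h2 | h2
    · change t = _ at h2
      rw [h2]
      exact h1
    · change t = _ at h2
      rw [h2]
      exact LUC.SM.inv hBinv hpar.ne h1

end Pool.Agent.LUZ
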