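import Pool.Agent.Lib.LUZ.Y01
import Pool.Agent.Lib.LUZ.Y03
import Pool.Agent.Lib.LUZ.Y04
import Pool.Agent.Lib.LUZ.Y05
import Pool.Agent.Lib.LUZ.Z17
import Pool.Agent.Lib.LU2_h15z.ValC
import Pool.Agent.Lib.LUC.F2

/-! # Y07a: the extension of the valuation to the completion, and the reduction to complete local
domains -/

set_option autoImplicit false

namespace Pool.Agent.LUZ

open IsLocalRing
open Pool.Agent.H15JM (RVal)
open Pool.Agent.LU1 (VPos)
open Pool.Agent.LU2 (IsR1 IndVal IndRes Rel vring rel_vring)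
open Pool.Agent.LUC

universe u

/-- What is known about the image `π.range` of the completion in `Ω`. -/
structure HD {R K Ω : Type u} [CommRing R] [IsLocalRing R] [Field K] [Algebra R K] [Field Ω]
    (v : RVal K) (w : RVal Ω) (π : Hat R →+* Ω) (j : K →+* Ω) (H : Ideal (Hat R)) : Prop where
  comp : ∀ r : R, π (algebraMap R (Hat R) r) = j (algebraMap R K r)
  val : ∀ x : K, x ≠ 0 → w (j x) = v x
  frac : ∀ x : Ω, ∃ a b, π b ≠ 0 ∧ x = π a / π b
  ge : ∀ f, w.Ge 0 (π f)
  ker : RingHom.ker π = H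
  dens : ∀ (x : Ω) (B : ℝ), ∃ y : K, w.Ge B (x - j y)
  posR : ∀ r ∈ maximalIdeal R, VPos w (j (algebraMap R K r))

namespace HD

variable {R K Ω : Type u} [CommRing R] [IsLocalRing R] [Field K] [Algebra R K] [Field Ω]
    {v : RVal K} {w : RVal Ω} {π : Hat R →+* Ω} {j : K →+* Ω} {H : Ideal (Hat R)}

/-- The value group of `Ω` is that of `K`. -/
theorem exists_value (h : HD v w π j H) (x : Ω) (hx : x ≠ 0) :
    ∃ y : K, y ≠ 0 ∧ v y = w x ∧ VPos w (x / j y - 1) := by
  obtain ⟨y, hy⟩ := h.dens x (w x + 1)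
  have hy0 : j y ≠ 0 := by
    intro h0
    rw [h0, sub_zero] at hy
    have := hy hx
    linarith
  have hy0' : y ≠ 0 := fun h => hy0 (by rw [h, map_zero])
  have h1 : w (j y) = w x := by
    have h2 : j y = x + (j y - x) := by ring
    by_cases h0 : j y - x = 0
    · rw [h2, h0, add_zero]
    · have h3 : w.Ge (w x + 1) (j y - x) := by
        have := hy.neg
        rwa [neg_sub] at this
      have h4 : w x < w (j y - x) := by
        have := h3 h0
        linarith
      rw [h2, (RVal.add_of_lt (v := w) hx h0 h4).2]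
  refine ⟨y, hy0', by rw [← h.val y hy0', h1], ?_⟩
  intro h0
  have h2 : x / j y - 1 = (x - j y) * (j y)⁻¹ := by
    rw [sub_mul, mul_inv_cancel₀ hy0, div_eq_mul_inv]
  have h3 : x - j y ≠ 0 := by
    intro h
    apply h0
    rw [h2, h, zero_mul]
  rw [h2, w.map_mul h3 (inv_ne_zero hy0), w.map_inv hy0, h1]
  have := hy h3
  linarith

theorem ge_iff (h : HD v w π j H) (B : ℝ) (x : K) : w.Ge B (j x) ↔ v.Ge B x := by
  constructor
  · intro h1 h0
    rw [← h.val x h0]
    exact h1 ((map_ne_zero j).2 h0)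
  · intro h1 h0
    have h0' := (map_ne_zero j).1 h0
    rw [h.val x h0']
    exact h1 h0'

theorem pos_iff (h : HD v w π j H) (x : K) : VPos w (j x) ↔ VPos v x := by
  constructor
  · intro h1 h0
    rw [← h.val x h0]
    exact h1 ((map_ne_zero j).2 h0)
  · intro h1 h0
    have h0' := (map_ne_zero j).1 h0
    rw [h.val x h0']
    exact h1 h0'

theorem isFractionRing (h : HD v w π j H) : IsFractionRing π.range Ω where
  map_units y := by
    have : ((y : π.range) : Ω) ≠ 0 := by
      intro h0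
      exact nonZeroDivisors.ne_zero y.2 (Subtype.ext h0)
    exact (isUnit_iff_ne_zero).2 this
  surj x := by
    obtain ⟨a, b, hb, rfl⟩ := h.frac x
    refine ⟨(⟨π a, a, rfl⟩, ⟨⟨π b, b, rfl⟩, mem_nonZeroDivisors_of_ne_zero fun h0 =>
      hb (congrArg Subtype.val h0)⟩), ?_⟩
    change π a / π b * π b = π a
    rw [div_mul_cancel₀ _ hb]
  exists_of_eq {x y} hxy := ⟨1, by rw [Subtype.ext hxy]⟩

theorem indVal (h : HD v w π j H) {V : ValuationSubring K} (hV : Rel V v) {r : ℕ}
    {a : Fin r → K} (ha : IndVal V a) : IndVal (vring w) fun i => j (a i) := by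
  rw [(rel_vring w).indVal_iff]
  rw [hV.indVal_iff] at ha
  refine ⟨fun i => (map_ne_zero j).2 (ha.1 i), ?_⟩
  have : (fun i => w (j (a i))) = fun i => v (a i) := funext fun i => h.val _ (ha.1 i)
  rw [this]
  exact ha.2

theorem indVal_max (h : HD v w π j H) {V : ValuationSubring K} (hV : Rel V v) {r : ℕ}
    (hmax : ∀ Y : Fin r → K, ¬ IndVal V Y) (Y : Fin r → Ω) : ¬ IndVal (vring w) Y := by
  intro hY
  rw [(rel_vring w).indVal_iff] at hY
  choose y hy0 hy hy' using fun i => h.exists_value (Y i) (hY.1 i)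
  apply hmax y
  rw [hV.indVal_iff]
  refine ⟨hy0, ?_⟩
  have : (fun i => v (y i)) = fun i => w (Y i) := funext hy
  rw [this]
  exact hY.2

theorem isR1 (h : HD v w π j H) {V : ValuationSubring K} (hV : Rel V v) (hR : IsR1 V) :
    ∃ c : Ω, c ≠ 0 ∧ 0 < w c := by
  obtain ⟨x1, hx1⟩ := LU2.indVal_one hR.1
  have h1 := hV.indVal_iff.1 hx1
  have h2 : v (x1 0) ≠ 0 := h1.2.ne_zero 0
  have h3 : j (x1 0) ≠ 0 := (map_ne_zero j).2 (h1.1 0)
  rcases lt_or_gt_of_ne h2 with h4 | h4
  · refine ⟨(j (x1 0))⁻¹, inv_ne_zero h3, ?_⟩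
    rw [w.map_inv h3, h.val _ (h1.1 0)]
    linarith
  · exact ⟨j (x1 0), h3, by rw [h.val _ (h1.1 0)]; exact h4⟩

section Range

variable [IsNoetherianRing R] [IsLocalRing π.range]

theorem pos (h : HD v w π j H) (x : π.range) (hx : x ∈ maximalIdeal π.range) :
    VPos w (x : Ω) := by
  rw [range_max, Ideal.map] at hx
  induction hx using Submodule.span_induction with
  | mem x hx =>
    obtain ⟨r, hr, rfl⟩ := hx
    have := h.posR r hr
    rw [← h.comp] at this
    exact this
  | zero => exact VPos.zero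
  | add x y _ _ hx hy => exact VPos.add hx hy
  | smul c x _ hx =>
    obtain ⟨f, hf⟩ := c.2
    have h1 : w.Ge 0 (c : Ω) := by
      rw [← hf]
      exact h.ge f
    exact VPos.mul' h1 hx

theorem mem_max (r : R) (hr : r ∈ maximalIdeal R) :
    π.rangeRestrict (algebraMap R (Hat R) r) ∈ maximalIdeal π.range := by
  rw [range_max]
  exact Ideal.mem_map_of_mem (π.rangeRestrict.comp (algebraMap R (Hat R))) hr

theorem indRes (h : HD v w π j H) {V : ValuationSubring K} (hV : Rel V v) {d : ℕ}
    (b : Fin d → K) (hb : ∀ i, b i ∈ V)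
    (hb' : ∀ P : MvPolynomial (Fin d) R, V.valuation (MvPolynomial.aeval b P) < 1 →
      ∀ α, P.coeff α ∈ maximalIdeal R) (P : MvPolynomial (Fin d) π.range)
    (hP : (vring w).valuation (MvPolynomial.aeval (fun i => j (b i)) P) < 1) (α : Fin d →₀ ℕ) :
    P.coeff α ∈ maximalIdeal π.range := by
  refine indep_range w π j h.comp h.ge h.pos (range_res π) mem_max b
    (fun i => (h.ge_iff 0 _).2 ((hV.mem_iff _).1 (hb i))) (fun P hP => hb' P ?_) P ?_ α
  · rw [hV.lt_one_iff']
    exact (h.pos_iff _).1 hP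
  · rw [(rel_vring w).lt_one_iff'] at hP
    exact hP

theorem resAlg (h : HD v w π j H) {V : ValuationSubring K} (hV : Rel V v)
    (hra : ∀ x ∈ V, ∃ P : Polynomial R, P.Monic ∧ V.valuation (Polynomial.aeval x P) < 1)
    (x : Ω) (hx : x ∈ vring w) :
    ∃ P : Polynomial π.range, P.Monic ∧ (vring w).valuation (Polynomial.aeval x P) < 1 := by
  obtain ⟨y, hy⟩ := h.dens x 1
  have hx' : w.Ge 0 x := hx
  have hy1 : w.Ge 0 (j y) := by
    have h1 : j y = x + (-(x - j y)) := by ring
    rw [h1]
    refine hx'.add ?_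
    have := hy.neg
    exact fun h0 => zero_le_one.trans (this h0)
  have hyV : y ∈ V := (hV.mem_iff y).2 ((h.ge_iff 0 y).1 hy1)
  obtain ⟨P, hP, hP1⟩ := hra y hyV
  let f : R →+* π.range := π.rangeRestrict.comp (algebraMap R (Hat R))
  refine ⟨P.map f, hP.map f, ?_⟩
  rw [(rel_vring w).lt_one_iff']
  have h2 : VPos w (j (Polynomial.aeval y P)) := by
    rw [h.pos_iff, ← hV.lt_one_iff']
    exact hP1
  have h3 : j (Polynomial.aeval y P) = Polynomial.aeval (j y) (P.map f) := by
    rw [Polynomial.aeval_def, Polynomial.aeval_def, Polynomial.eval₂_map, Polynomial.hom_eval₂]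
    congr 1
    ext r
    exact (h.comp r).symm
  have hC : ∀ c : π.range, w.Ge 0 (algebraMap π.range Ω c) := by
    rintro ⟨_, f, rfl⟩
    exact h.ge f
  -- the difference
  have h4 : ∀ Q : Polynomial π.range,
      VPos w (Polynomial.aeval x Q - Polynomial.aeval (j y) Q) ∧
        w.Ge 0 (Polynomial.aeval (j y) Q) := by
    intro Q
    have hxy : VPos w (x - j y) := fun h0 => lt_of_lt_of_le zero_lt_one (hy h0)
    induction Q using Polynomial.induction_on with
    | C c =>
      rw [Polynomial.aeval_C, Polynomial.aeval_C, sub_self]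
      exact ⟨VPos.zero, hC c⟩
    | add p q hp hq =>
      rw [map_add, map_add]
      refine ⟨?_, hp.2.add hq.2⟩
      have h1 := hp.1.add hq.1
      have h2 : Polynomial.aeval x p + Polynomial.aeval x q -
          (Polynomial.aeval (j y) p + Polynomial.aeval (j y) q) =
          (Polynomial.aeval x p - Polynomial.aeval (j y) p) +
            (Polynomial.aeval x q - Polynomial.aeval (j y) q) := by ring
      rw [h2]
      exact h1
    | monomial n c hp =>
      have e1 : ∀ z : Ω, Polynomial.aeval z (Polynomial.C c * Polynomial.X ^ (n + 1)) =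
          Polynomial.aeval z (Polynomial.C c * Polynomial.X ^ n) * z := by
        intro z
        rw [map_mul, map_mul, map_pow, map_pow, Polynomial.aeval_X, pow_succ]
        ring
      rw [e1, e1]
      refine ⟨?_, by simpa using hp.2.mul hy1⟩
      have h2 : Polynomial.aeval x (Polynomial.C c * Polynomial.X ^ n) * x -
          Polynomial.aeval (j y) (Polynomial.C c * Polynomial.X ^ n) * j y =
          x * (Polynomial.aeval x (Polynomial.C c * Polynomial.X ^ n) -
            Polynomial.aeval (j y) (Polynomial.C c * Polynomial.X ^ n)) +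
          Polynomial.aeval (j y) (Polynomial.C c * Polynomial.X ^ n) * (x - j y) := by ring
      rw [h2]
      exact VPos.add (VPos.mul' hx' hp.1) (VPos.mul' hp.2 hxy)
  have h5 : Polynomial.aeval x (P.map f) = (Polynomial.aeval x (P.map f) -
      Polynomial.aeval (j y) (P.map f)) + j (Polynomial.aeval y P) := by
    rw [h3]
    ring
  rw [h5]
  exact VPos.add (h4 _).1 h2

end Range

end HD

/-- The reduction to the complete local domain `π.range`. -/
theorem exists_HD {R K : Type u} [CommRing R] [IsDomain R] [IsLocalRing R]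
    [IsNoetherianRing R] [Field K] [Algebra R K] [IsFractionRing R K] {V : ValuationSubring K}
    {v : RVal K} (hrel : Rel V v) (hge : ∀ r : R, algebraMap R K r ∈ V)
    (hpos : ∀ r ∈ maximalIdeal R, V.valuation (algebraMap R K r) < 1)
    (hm : maximalIdeal R ≠ ⊥)
    (hreg : ∀ Q : Ideal (Hat R), ∀ _ : Q.IsPrime, Q.comap (algebraMap R (Hat R)) = ⊥ →
      IsRegularLocalRing (Localization.AtPrime Q))
    (H : Ideal (Hat R)) (hH : ∀ f, f ∈ H ↔ f ∈ impl (K := K) v) :
    ∃ (Ω : Type u) (_ : Field Ω) (w : RVal Ω) (π : Hat R →+* Ω) (j : K →+* Ω),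
      HD v w π j H ∧ (LUrV π.range (vring w) →
        LUs w (j.comp (algebraMap R K)).range j.fieldRange) := by
  obtain ⟨Ω, i0, w, π, j, h1, h2, h3, h4, h5, h6⟩ := exists_hat (R := R) v
    (fun r => (hrel.mem_iff _).1 (hge r)) (fun r hr => (hrel.lt_one_iff' _).1 (hpos r hr)) hm
  have hd : HD v w π j H := by
    refine ⟨h1, h2, h3, h4, ?_, h6, ?_⟩
    · ext f
      rw [RingHom.mem_ker, h5, hH]
    · intro r hr h0
      have h0' := (map_ne_zero j).1 h0
      rw [h2 _ h0']
      exact (hrel.lt_one_iff' _).1 (hpos r hr) h0'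
  refine ⟨Ω, i0, w, π, j, hd, fun h => ?_⟩
  obtain ⟨q, μ, ι, hF⟩ := exists_Fml w π j h1 h3 h4 hd.posR hm
  have hnoe : IsNoetherianRing (Hat R) := hat_isNoetherian
  have hprime : (RingHom.ker π).IsPrime := RingHom.ker_isPrime π
  have hreg' : IsRegularLocalRing (Localization.AtPrime (RingHom.ker π)) := by
    refine hreg _ hprime ?_
    rw [eq_bot_iff]
    intro r hr
    rw [Ideal.mem_comap, RingHom.mem_ker, h1, map_eq_zero] at hr
    exact (IsFractionRing.injective R K) (hr.trans (map_zero _).symm)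
  obtain ⟨l, r, η, δ, a, β, hR⟩ := exists_FReg π
  refine formal_descent hF hR ?_
  have h7 : LUs w (algebraMap π.range Ω).range (algebraMap Ω Ω).fieldRange := by
    refine LUrV.lus (V := vring w) (fun f => (rel_vring w).mem_iff f) (fun c => ?_) h
    obtain ⟨f, hf⟩ := c.2
    have : w.Ge 0 (algebraMap π.range Ω c) := by
      change w.Ge 0 (c : Ω)
      rw [← hf]
      exact h4 f
    exact this
  have h8 : (algebraMap π.range Ω).range = π.range := by
    ext x
    constructor
    · rintro ⟨c, rfl⟩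
      exact c.2
    · intro hx
      exact ⟨⟨x, hx⟩, rfl⟩
  have h9 : (algebraMap Ω Ω).fieldRange = ⊤ := by
    ext x
    exact ⟨fun _ => trivial, fun _ => ⟨x, rfl⟩⟩
  rwa [h8, h9] at h7

end Pool.Agent.LUZ
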