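import Pool.Agent.Lib.LUZ.Y07a
import Pool.Agent.Lib.LCD.P7
import Pool.Agent.Lib.LCD.MIX2

/-! # Y08a: log uniformization over a noetherian local domain whose residue field is finitely
generated over a perfect field -/

set_option autoImplicit false

namespace Pool.Agent.LUZ

open IsLocalRing
open Pool.Agent.H15JM (RVal)
open Pool.Agent.LU1 (VPos)
open Pool.Agent.LU2 (IsR1 IndVal IndRes Rel vring rel_vring)
open Pool.Agent.LUC

universe u

/-- The residue field of the image of the completion. -/
theorem exists_residue_equiv {R Ω : Type u} [CommRing R] [IsLocalRing R] [IsNoetherianRing R]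
    [Field Ω] (π : Hat R →+* Ω) [IsLocalRing π.range] :
    ∃ e : ResidueField R ≃+* ResidueField π.range,
      ∀ r : R, e (residue R r) = residue π.range (π.rangeRestrict (algebraMap R (Hat R) r)) := by
  let f : R →+* π.range := π.rangeRestrict.comp (algebraMap R (Hat R))
  have hloc : IsLocalHom f := by
    refine ⟨fun a ha => ?_⟩
    by_contra h
    have h1 := HD.mem_max (π := π) a ((mem_maximalIdeal a).2 h)
    exact (mem_maximalIdeal _).1 h1 ha
  have hsurj : Function.Surjective (ResidueField.map f) := by
    intro x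
    obtain ⟨y, rfl⟩ := residue_surjective x
    obtain ⟨r, hr⟩ := range_res π y
    refine ⟨residue R r, ?_⟩
    rw [ResidueField.map_residue]
    have h1 := (residue_eq_zero_iff _).2 hr
    rw [map_sub, sub_eq_zero] at h1
    exact h1.symm
  exact ⟨RingEquiv.ofBijective (ResidueField.map f) ⟨(ResidueField.map f).injective, hsurj⟩,
    fun r => ResidueField.map_residue f r⟩

theorem lus_local2 (p : ℕ) (hp : p.Prime) {R K k : Type u} [CommRing R] [IsDomain R]
    [IsLocalRing R] [IsNoetherianRing R] [Field k] [PerfectField k] (ι : k →+* ResidueField R)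
    (hfg : @Algebra.EssFiniteType k (ResidueField R) _ _ ι.toAlgebra)
    [Field K] [Algebra R K] [IsFractionRing R K] {V : ValuationSubring K}
    {v : RVal K} (hR : IsR1 V) (hrel : Rel V v) (hge : ∀ r : R, algebraMap R K r ∈ V)
    (hpos : ∀ r ∈ maximalIdeal R, V.valuation (algebraMap R K r) < 1)
    (hm : maximalIdeal R ≠ ⊥) (hpm : (p : R) ∈ maximalIdeal R)
    (hreg : ∀ Q : Ideal (Hat R), ∀ _ : Q.IsPrime, Q.comap (algebraMap R (Hat R)) = ⊥ →
      IsRegularLocalRing (Localization.AtPrime Q))
    (H : Ideal (Hat R)) (hH : ∀ f, f ∈ H ↔ f ∈ impl (K := K) v) {m : ℕ}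
    (hdim : ringKrullDim (Hat R ⧸ H) = m) {r d : ℕ} (a : Fin r → K) (ha : IndVal V a)
    (b : Fin d → K) (hb : ∀ i, b i ∈ V)
    (hb' : ∀ P : MvPolynomial (Fin d) R, V.valuation (MvPolynomial.aeval b P) < 1 →
      ∀ α, P.coeff α ∈ maximalIdeal R)
    (hdef : m ≤ r + d + 1)
    (hmix : (p : R) ≠ 0 → d = 0 ∧ PerfectField (ResidueField R) ∧
      ∀ x ∈ V, ∃ P : Polynomial R, P.Monic ∧ V.valuation (Polynomial.aeval x P) < 1) :
    ∃ (Ω : Type u) (_ : Field Ω) (w : RVal Ω) (j : K →+* Ω), (∀ x : K, x ≠ 0 → w (j x) = v x) ∧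
      LUs w (j.comp (algebraMap R K)).range j.fieldRange := by
  obtain ⟨Ω, i0, w, π, j, h, hred⟩ := exists_HD hrel hge hpos hm hreg H hH
  refine ⟨Ω, i0, w, j, h.val, hred ?_⟩
  have i1 : IsLocalRing π.range := range_isLocal π
  have i2 : IsNoetherianRing π.range := range_isNoetherian π
  have i3 : IsAdicComplete (maximalIdeal π.range) π.range := range_isAdicComplete π
  have i5 : IsFractionRing π.range Ω := h.isFractionRing
  have hdim' : ringKrullDim π.range = m := by
    rw [range_dim, h.ker, hdim]
  have hR' : IsR1 (vring w) :=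
    LCD.isR1_of_real (fun f => (rel_vring w).mem_iff f) (h.isR1 hrel hR)
  have hC : ∀ c : π.range, algebraMap π.range Ω c ∈ vring w := by
    rintro ⟨_, f, rfl⟩
    exact h.ge f
  have hmC : ∀ c ∈ maximalIdeal π.range, (vring w).valuation (algebraMap π.range Ω c) < 1 := by
    intro c hc
    rw [(rel_vring w).lt_one_iff']
    exact h.pos c hc
  have hinj : Function.Injective (π.rangeRestrict.comp (algebraMap R (Hat R))) := by
    intro x y hxy
    have h1 : π (algebraMap R (Hat R) x) = π (algebraMap R (Hat R) y) := congrArg Subtype.val hxy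
    rw [h.comp, h.comp] at h1
    exact IsFractionRing.injective R K (j.injective h1)
  obtain ⟨e, he⟩ := exists_residue_equiv π
  by_cases hp0 : (p : R) = 0
  · have i6 : CharP π.range p := (CharP.charP_iff_prime_eq_zero hp).2 (by
      have h2 := congrArg (π.rangeRestrict.comp (algebraMap R (Hat R))) hp0
      rwa [map_natCast, map_zero] at h2)
    have hm' : maximalIdeal π.range ≠ ⊥ := by
      obtain ⟨t, ht, ht0⟩ := Submodule.exists_mem_ne_zero_of_ne_bot hm
      intro h0
      have h1 := HD.mem_max (π := π) t ht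
      rw [h0, Ideal.mem_bot] at h1
      exact ht0 (hinj (h1.trans (map_zero _).symm))
    refine LCD.lurV_complete_eq2 p hp (e.toRingHom.comp ι) ?_ hdim' (vring w) hR' hC hmC hm'
      (fun i => j (a i)) (h.indVal hrel ha) (fun i => j (b i))
      (fun i => (h.ge_iff 0 _).2 ((hrel.mem_iff _).1 (hb i))) (h.indRes hrel b hb hb') hdef
    let j1 : Algebra k (ResidueField R) := ι.toAlgebra
    let j2 : Algebra k (ResidueField π.range) := (e.toRingHom.comp ι).toAlgebra
    have j3 : Algebra.EssFiniteType k (ResidueField R) := hfg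
    exact (Algebra.EssFiniteType.iff_of_algEquiv (R := k)
      (AlgEquiv.ofRingEquiv (f := e) fun _ => rfl)).1 j3
  · obtain ⟨h1, h2, h3⟩ := hmix hp0
    have i4 : PerfectField (ResidueField π.range) := PerfectField.of_ringEquiv e
    have i6 : CharZero R := by
      obtain ⟨q, hq⟩ := CharP.exists R
      rcases CharP.char_is_prime_or_zero R q with h4 | h4
      · exfalso
        have h5 : (q : R) = 0 := CharP.cast_eq_zero R q
        by_cases hqp : q = p
        · rw [hqp] at h5
          exact hp0 h5
        · have h6 : IsCoprime (q : ℤ) (p : ℤ) :=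
            Nat.isCoprime_iff_coprime.2 ((Nat.coprime_primes h4 hp).2 hqp)
          obtain ⟨s, t, hst⟩ := h6
          have h7 := congrArg (Int.cast : ℤ → R) hst
          push_cast at h7
          rw [h5, mul_zero, zero_add] at h7
          exact (maximalIdeal R).ne_top_iff_one.1 (maximalIdeal.isMaximal R).ne_top
            (h7 ▸ Ideal.mul_mem_left _ _ hpm)
      · subst h4
        exact CharP.charP_to_charZero R
    have i7 : CharZero π.range := charZero_of_injective_ringHom hinj
    have hpC : (p : π.range) ∈ maximalIdeal π.range := by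
      have h4 := HD.mem_max (π := π) _ hpm
      rwa [map_natCast, map_natCast] at h4
    -- the dimension is positive
    have hm0 : m ≠ 0 := by
      intro hm0
      have h5 : ringKrullDim π.range = 0 := by rw [hdim', hm0]; rfl
      have h5' : Ring.KrullDimLE 0 π.range := ringKrullDimZero_iff_ringKrullDim_eq_zero.2 h5
      have h6 : IsField π.range := Ring.KrullDimLE.isField_of_isDomain
      have h7 : maximalIdeal π.range = ⊥ := isField_iff_maximalIdeal_eq.1 h6
      rw [h7, Ideal.mem_bot] at hpC
      exact hp.ne_zero (by exact_mod_cast hpC)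
    obtain ⟨e, he⟩ : ∃ e : ℕ, m = e + 1 := ⟨m - 1, by omega⟩
    have her : e ≤ r := by omega
    refine LCD.lurV_complete_mix p hp hpC (m := e) (by rw [hdim', he]) (vring w) hR' hC hmC
      (fun i => j (a (Fin.castLE her i))) (h.indVal hrel ?_) (h.resAlg hrel h3)
    rw [hrel.indVal_iff] at ha ⊢
    exact ⟨fun i => ha.1 _, ha.2.comp _ (Fin.castLE_injective her)⟩

end Pool.Agent.LUZ
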