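import Mathlib.RingTheory.AdicCompletion.LocalRing
import Pool.Agent.Lib.LUC.Loc

/-! # YDefs: the elements of infinite value of the completion -/

set_option autoImplicit false

namespace Pool.Agent.LUZ

open Pool.Agent.H15JM (RVal)
open Pool.Agent.LU1 (VPos)
open Pool.Agent.LUC

universe u

/-- The completion of a local ring. -/
abbrev Hat (R : Type u) [CommRing R] [IsLocalRing R] : Type u :=
  AdicCompletion (IsLocalRing.maximalIdeal R) R

/-- The maximal ideal of the completion (extended from `R`). -/
noncomputable def hatI (R : Type u) [CommRing R] [IsLocalRing R] : Ideal (Hat R) :=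
  (IsLocalRing.maximalIdeal R).map (algebraMap R (Hat R))

/-- The elements of the completion whose close approximations in `R` have large value. -/
def impl {R K : Type u} [CommRing R] [IsLocalRing R] [Field K] [Algebra R K] (v : RVal K) :
    Set (Hat R) :=
  {f | ∀ B : ℝ, ∃ N : ℕ, ∀ r : R, f - algebraMap R (Hat R) r ∈ hatI R ^ N →
    v.Ge B (algebraMap R K r)}

end Pool.Agent.LUZ
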