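import Pool.Agent.Lib.LUZ.FinDefs
import Pool.Agent.Lib.LUZ.YDefs
import Pool.Agent.Lib.LU2_h15z.Entry

/-! # Y08c: the local ring at the center -/

set_option autoImplicit false

namespace Pool.Agent.LUZ

open IsLocalRing
open Pool.Agent.H15JM (RVal)
open Pool.Agent.LU1 (VPos)
open Pool.Agent.LU2 (IsR1 IndVal IndRes Rel)
open Pool.Agent.LU2G (centerRing chart)

section Center

variable {A : Type} [CommRing A] [IsDomain A] {V : ValuationSubring (FractionRing A)}
  {B : Subalgebra A (FractionRing A)}

theorem le_centerRing {z : FractionRing A} (hz : z ∈ B) : z ∈ centerRing V B :=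
  ⟨z, hz, 1, B.one_mem, map_one _, by rw [div_one]⟩

theorem centerRing_le (hB : ∀ z ∈ B, z ∈ V) (z : centerRing V B) :
    algebraMap (centerRing V B) (FractionRing A) z ∈ V := by
  obtain ⟨a, ha, b, hb, hb1, h⟩ := z.2
  change (z : FractionRing A) ∈ V
  rw [h, ← V.valuation_le_one_iff, map_div₀, hb1, div_one, V.valuation_le_one_iff]
  exact hB a ha

theorem isUnit_centerRing (z : centerRing V B)
    (h : V.valuation (z : FractionRing A) = 1) : IsUnit z := by
  obtain ⟨a, ha, b, hb, hb1, hz⟩ := z.2
  have ha1 : V.valuation a = 1 := by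
    rw [hz, map_div₀, hb1, div_one] at h
    exact h
  have hz' : (z : FractionRing A)⁻¹ ∈ centerRing V B := ⟨b, hb, a, ha, ha1, by rw [hz, inv_div]⟩
  have hz0 : (z : FractionRing A) ≠ 0 := by
    intro h0
    rw [h0, map_zero] at h
    exact zero_ne_one h
  exact IsUnit.of_mul_eq_one ⟨_, hz'⟩ (Subtype.ext (mul_inv_cancel₀ hz0))

theorem isUnit_centerRing_iff (hB : ∀ z ∈ B, z ∈ V) (z : centerRing V B) :
    IsUnit z ↔ V.valuation (z : FractionRing A) = 1 := by
  refine ⟨fun h => ?_, isUnit_centerRing z⟩
  obtain ⟨z', hz'⟩ := h.exists_right_inv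
  have h1 : (z : FractionRing A) * (z' : FractionRing A) = 1 := congrArg Subtype.val hz'
  have h2 := congrArg V.valuation h1
  rw [map_mul, map_one] at h2
  have h3 : V.valuation (z : FractionRing A) ≤ 1 :=
    (V.valuation_le_one_iff _).2 (centerRing_le hB z)
  have h4 : V.valuation (z' : FractionRing A) ≤ 1 :=
    (V.valuation_le_one_iff _).2 (centerRing_le hB z')
  refine le_antisymm h3 ?_
  rw [← h2]
  exact mul_le_of_le_one_right' h4

theorem isLocalRing_center (hB : ∀ z ∈ B, z ∈ V) : IsLocalRing (centerRing V B) := by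
  refine IsLocalRing.of_nonunits_add fun x y hx hy => ?_
  rw [mem_nonunits_iff, isUnit_centerRing_iff hB] at hx hy ⊢
  have hx' := lt_of_le_of_ne ((V.valuation_le_one_iff _).2 (centerRing_le hB x)) hx
  have hy' := lt_of_le_of_ne ((V.valuation_le_one_iff _).2 (centerRing_le hB y)) hy
  exact ((V.valuation.map_add _ _).trans_lt (max_lt hx' hy')).ne

theorem mem_max_center (hB : ∀ z ∈ B, z ∈ V) [IsLocalRing (centerRing V B)]
    (z : centerRing V B) :
    z ∈ maximalIdeal (centerRing V B) ↔ V.valuation (z : FractionRing A) < 1 := by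
  rw [mem_maximalIdeal, mem_nonunits_iff, isUnit_centerRing_iff hB]
  have h := (V.valuation_le_one_iff _).2 (centerRing_le hB z)
  exact ⟨fun h1 => lt_of_le_of_ne h h1, fun h1 => h1.ne⟩

theorem centerIdeal_eq (hB : ∀ z ∈ B, z ∈ V) [IsLocalRing (centerRing V B)] :
    centerIdeal V B = maximalIdeal (centerRing V B) := by
  refine le_antisymm (Ideal.span_le.2 fun z hz => (mem_max_center hB z).2 hz) fun z hz => ?_
  exact Ideal.subset_span ((mem_max_center hB z).1 hz)

/-- The elements of `B` of value zero. -/
private def unitVal (V : ValuationSubring (FractionRing A)) (B : Subalgebra A (FractionRing A)) :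
    Submonoid B where
  carrier := {a | V.valuation (a : FractionRing A) = 1}
  mul_mem' := by
    intro a b ha hb
    have ha' : V.valuation (a : FractionRing A) = 1 := ha
    have hb' : V.valuation (b : FractionRing A) = 1 := hb
    change V.valuation ((a * b : B) : FractionRing A) = 1
    rw [MulMemClass.coe_mul, map_mul, ha', hb', one_mul]
  one_mem' := by
    change V.valuation ((1 : B) : FractionRing A) = 1
    rw [OneMemClass.coe_one, map_one]

theorem isNoetherian_center [IsNoetherianRing B] : IsNoetherianRing (centerRing V B) := by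
  let f : B →+* centerRing V B := (Subalgebra.inclusion (fun z hz => le_centerRing hz)).toRingHom
  let _ : Algebra B (centerRing V B) := f.toAlgebra
  have hmap : ∀ s : B, ((algebraMap B (centerRing V B) s : centerRing V B) : FractionRing A) = s :=
    fun _ => rfl
  have h : IsLocalization (unitVal V B) (centerRing V B) := by
    refine ⟨fun b => isUnit_centerRing _ b.2, ?_, ?_⟩
    · intro z
      obtain ⟨a, ha, b, hb, hb1, hz⟩ := z.2
      refine ⟨(⟨a, ha⟩, ⟨⟨b, hb⟩, hb1⟩), Subtype.ext ?_⟩
      change (z : FractionRing A) * b = a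
      have hb0 : b ≠ 0 := by
        rintro rfl
        rw [map_zero] at hb1
        exact zero_ne_one hb1
      rw [hz, div_mul_cancel₀ _ hb0]
    · intro x y hxy
      refine ⟨1, ?_⟩
      have h1 : (x : FractionRing A) = y :=
        congrArg (fun t : centerRing V B => (t : FractionRing A)) hxy
      rw [Subtype.ext h1]
  exact IsLocalization.isNoetherianRing (unitVal V B) _ inferInstance

theorem isFractionRing_center : IsFractionRing (centerRing V B) (FractionRing A) where
  map_units y := by
    have : ((y : centerRing V B) : FractionRing A) ≠ 0 := by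
      intro h0
      exact nonZeroDivisors.ne_zero y.2 (Subtype.ext h0)
    exact isUnit_iff_ne_zero.2 this
  surj x := by
    obtain ⟨a, b, hb, rfl⟩ := IsFractionRing.div_surjective (A := A) x
    have hb0 : algebraMap A (FractionRing A) b ≠ 0 :=
      IsFractionRing.to_map_ne_zero_of_mem_nonZeroDivisors hb
    refine ⟨(algebraMap A _ a, ⟨algebraMap A _ b, mem_nonZeroDivisors_of_ne_zero fun h0 =>
      hb0 (congrArg Subtype.val h0)⟩), ?_⟩
    change algebraMap A (FractionRing A) a / algebraMap A (FractionRing A) b *
      algebraMap A (FractionRing A) b = algebraMap A (FractionRing A) a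
    rw [div_mul_cancel₀ _ hb0]
  exists_of_eq {x y} hxy := ⟨1, by rw [Subtype.ext hxy]⟩

/-- The charts of blowings up are finitely generated. -/
theorem exists_chart_eq [IsNoetherianRing A] (I : Ideal A) (g : A) :
    ∃ F : Finset A, (∀ a ∈ F, a ∈ I) ∧ chart I g = Algebra.adjoin A
      ((fun a => algebraMap A (FractionRing A) a / algebraMap A (FractionRing A) g) ''
        (F : Set A)) := by
  obtain ⟨F, hF⟩ := (isNoetherian_def.1 (inferInstance : IsNoetherian A A)) I
  refine ⟨F, fun a ha => by rw [← hF]; exact Submodule.subset_span ha, ?_⟩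
  refine le_antisymm (Algebra.adjoin_le ?_) (Algebra.adjoin_mono ?_)
  · rintro z ⟨a, ha, rfl⟩
    have ha' : a ∈ Submodule.span A (F : Set A) := by rw [hF]; exact ha
    clear ha
    induction ha' using Submodule.span_induction with
    | mem x hx => exact Algebra.subset_adjoin ⟨x, hx, rfl⟩
    | zero => rw [map_zero, zero_div]; exact Subalgebra.zero_mem _
    | add x y hx hy h1 h2 =>
      rw [map_add, add_div]
      exact Subalgebra.add_mem _ h1 h2
    | smul c x hx h1 =>
      rw [smul_eq_mul, map_mul, mul_div_assoc]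
      exact Subalgebra.mul_mem _ (Subalgebra.algebraMap_mem _ c) h1
  · rintro z ⟨a, ha, rfl⟩
    exact ⟨a, by rw [← hF]; exact Submodule.subset_span ha, rfl⟩

/-- The charts of blowings up are noetherian. -/
theorem isNoetherian_chart [IsNoetherianRing A] (I : Ideal A) (g : A) :
    IsNoetherianRing (chart I g) := by
  classical
  obtain ⟨F, -, h⟩ := exists_chart_eq I g
  have h2 : (chart I g).FG := ⟨F.image fun a => algebraMap A (FractionRing A) a /
    algebraMap A (FractionRing A) g, by rw [Finset.coe_image]; exact h.symm⟩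
  have h3 : Algebra.FiniteType A (chart I g) := (Subalgebra.fg_iff_finiteType _).1 h2
  exact Algebra.FiniteType.isNoetherianRing A _

theorem chart_le (hV : ∀ a : A, algebraMap A (FractionRing A) a ∈ V) (I : Ideal A) (g : A)
    (hg0 : g ≠ 0) (hg : ∀ a ∈ I, V.valuation (algebraMap A (FractionRing A) a) ≤
      V.valuation (algebraMap A (FractionRing A) g)) : ∀ z ∈ chart I g, z ∈ V := by
  have hg1 : algebraMap A (FractionRing A) g ≠ 0 := fun h =>
    hg0 (IsFractionRing.injective A (FractionRing A) (h.trans (map_zero _).symm))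
  intro z hz
  rw [chart] at hz
  induction hz using Algebra.adjoin_induction with
  | mem x hx =>
    obtain ⟨a, ha, rfl⟩ := hx
    rw [← V.valuation_le_one_iff, map_div₀, div_le_one₀ ((Valuation.pos_iff _).2 hg1)]
    exact hg a ha
  | algebraMap s => exact hV s
  | add a b _ _ ha hb => exact V.add_mem _ _ ha hb
  | mul a b _ _ ha hb => exact V.mul_mem _ _ ha hb

end Center

end Pool.Agent.LUZ
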