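import Pool.Agent.Lib.LUZ.Defs

/-! # Z01: approximation of polynomials over `Ah` by polynomials over `R`

Recipes. `Ap ι I F F₀`: all coefficients of `F - map ι F₀` are in `I` (`MvPolynomial.mem_map_C_iff`). `exists_ap`: coefficientwise
(`Fml.dense`): `F₀ = ∑ m ∈ F.support, monomial m r_m`. `Ap.mul`: `F G - F₀ G₀ = F (G - G₀) + (F - F₀) G₀` (images under `map ι`). `ap_map`: trivial.
`Ap.ip`: if `Ap ι (II R μ ι ^ M) 0 F₀`, all coefficients `r` of `F₀` have `ι r ∈ II ^ M` (also `-`), so `r ∈ idl R μ ^ M` (`Fml.sep`), and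
`evR F₀ = ∑ coeff * y^m` is in `(μ)^M R[y]` (`IP.mono`, `IP.mul_right`, `IP.sum`). `ev_map`: `π ∘ ι = subtype`
(`Fml.comp`). `ev_mem`, `ev_surj`: `adj C (range y)` is the range of `ev` (both inclusions by induction: `adj_induction`,
`MvPolynomial.induction_on`). `Ap.val`: `ev F - evR F₀ = ev (F - map ι F₀)` is in `(μ)^M C[y]`, so in `(μ)^M O`:
all elements of `II R μ ι ^ M` have image under `π` in `(μ)^M C` (`Ideal.map_pow`, `II = (idl R μ).map ι`), then `IP.sum`. -/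

set_option autoImplicit false

namespace Pool.Agent.LUZ

open Pool.Agent.H15JM (RVal)
open Pool.Agent.LU1 (VPos)
open Pool.Agent.LUC

universe u

variable {Ω : Type u} [Field Ω] {w : RVal Ω} {R C : Subring Ω} {K L : Subfield Ω} {q τ : ℕ}
  {μ : Fin q → Ω} {Ah : Type u} [CommRing Ah] {ι : R →+* Ah} {π : Ah →+* Ω}

private theorem Fml_le' (h : Fml w R C K L μ ι π) : R ≤ C := by
  intro r hr
  have h1 := h.mem (ι ⟨r, hr⟩)
  rwa [h.comp] at h1

private theorem pi_ip' (h : Fml w R C K L μ ι π) {M : ℕ} {f : Ah} (hf : f ∈ II R μ ι ^ M) :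
    IP C μ M (π f) := by
  have h1 : ((idl R μ).map ι).map (π.codRestrict C h.mem) ≤ idl C μ := by
    rw [Ideal.map_map, idl, Ideal.map_span, Ideal.span_le]
    rintro _ ⟨b, ⟨i, hi⟩, rfl⟩
    refine Ideal.subset_span ⟨i, ?_⟩
    exact (h.comp b).trans hi
  refine ⟨π.codRestrict C h.mem f, rfl, ?_⟩
  have h2 : π.codRestrict C h.mem f ∈ (((idl R μ).map ι).map (π.codRestrict C h.mem)) ^ M := by
    rw [← Ideal.map_pow]
    exact Ideal.mem_map_of_mem _ hf
  exact Ideal.pow_right_mono h1 M h2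

theorem Ap.add {I : Ideal Ah} {F G : MvPolynomial (Fin τ) Ah} {F₀ G₀ : MvPolynomial (Fin τ) R}
    (h : Ap ι I F F₀) (h' : Ap ι I G G₀) : Ap ι I (F + G) (F₀ + G₀) := by
  unfold Ap at *
  have e : F + G - MvPolynomial.map ι (F₀ + G₀) =
      (F - MvPolynomial.map ι F₀) + (G - MvPolynomial.map ι G₀) := by rw [map_add]; ring
  rw [e]
  exact Ideal.add_mem _ h h'

theorem Ap.sub {I : Ideal Ah} {F G : MvPolynomial (Fin τ) Ah} {F₀ G₀ : MvPolynomial (Fin τ) R}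
    (h : Ap ι I F F₀) (h' : Ap ι I G G₀) : Ap ι I (F - G) (F₀ - G₀) := by
  unfold Ap at *
  have e : F - G - MvPolynomial.map ι (F₀ - G₀) =
      (F - MvPolynomial.map ι F₀) - (G - MvPolynomial.map ι G₀) := by rw [map_sub]; ring
  rw [e]
  exact Ideal.sub_mem _ h h'

theorem Ap.mul {I : Ideal Ah} {F G : MvPolynomial (Fin τ) Ah} {F₀ G₀ : MvPolynomial (Fin τ) R}
    (h : Ap ι I F F₀) (h' : Ap ι I G G₀) : Ap ι I (F * G) (F₀ * G₀) := by
  unfold Ap at *
  have e : F * G - MvPolynomial.map ι (F₀ * G₀) =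
      F * (G - MvPolynomial.map ι G₀) + (F - MvPolynomial.map ι F₀) * MvPolynomial.map ι G₀ := by
    rw [map_mul]; ring
  rw [e]
  exact Ideal.add_mem _ (Ideal.mul_mem_left _ _ h') (Ideal.mul_mem_right _ _ h)

theorem Ap.sum {I : Ideal Ah} {κ : Type*} (s : Finset κ) (F : κ → MvPolynomial (Fin τ) Ah)
    (F₀ : κ → MvPolynomial (Fin τ) R) (h : ∀ i ∈ s, Ap ι I (F i) (F₀ i)) :
    Ap ι I (∑ i ∈ s, F i) (∑ i ∈ s, F₀ i) := by
  classical
  induction s using Finset.induction_on with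
  | empty =>
    simp only [Finset.sum_empty]
    unfold Ap
    simp
  | insert a s ha ih =>
    rw [Finset.sum_insert ha, Finset.sum_insert ha]
    exact (h a (Finset.mem_insert_self a s)).add (ih fun i hi => h i (Finset.mem_insert_of_mem hi))

theorem ap_map (I : Ideal Ah) (F₀ : MvPolynomial (Fin τ) R) :
    Ap ι I (MvPolynomial.map ι F₀) F₀ := by
  unfold Ap
  simp

theorem ap_C {I : Ideal Ah} {a : Ah} {r : R} (h : a - ι r ∈ I) :
    Ap ι I (MvPolynomial.C a : MvPolynomial (Fin τ) Ah) (MvPolynomial.C r) := by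
  unfold Ap
  rw [MvPolynomial.map_C, ← map_sub]
  exact Ideal.mem_map_of_mem _ h

theorem Ap.congr {I : Ideal Ah} {F : MvPolynomial (Fin τ) Ah} {F₀ F₁ : MvPolynomial (Fin τ) R}
    (h : Ap ι I F F₀) (h' : Ap ι I F F₁) : Ap ι I 0 (F₀ - F₁) := by
  unfold Ap at *
  have e : 0 - MvPolynomial.map ι (F₀ - F₁) =
      (F - MvPolynomial.map ι F₀) - (F - MvPolynomial.map ι F₁) := by rw [map_sub]; ring
  rw [e]
  exact Ideal.sub_mem _ h h'

theorem exists_ap (h : Fml w R C K L μ ι π) (M : ℕ) (F : MvPolynomial (Fin τ) Ah) :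
    ∃ F₀ : MvPolynomial (Fin τ) R, Ap ι (II R μ ι ^ M) F F₀ := by
  induction F using MvPolynomial.induction_on with
  | C a =>
    obtain ⟨r, hr⟩ := h.dense M a
    exact ⟨MvPolynomial.C r, ap_C hr⟩
  | add F G hF hG =>
    obtain ⟨F₀, hF₀⟩ := hF
    obtain ⟨G₀, hG₀⟩ := hG
    exact ⟨F₀ + G₀, hF₀.add hG₀⟩
  | mul_X F i hF =>
    obtain ⟨F₀, hF₀⟩ := hF
    refine ⟨F₀ * MvPolynomial.X i, hF₀.mul ?_⟩
    have h1 := ap_map (ι := ι) (II R μ ι ^ M) (MvPolynomial.X i : MvPolynomial (Fin τ) R)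
    rwa [MvPolynomial.map_X] at h1

theorem Ap.ip (h : Fml w R C K L μ ι π) (c : R) (cc : Fin τ → R) {M : ℕ}
    {F₀ : MvPolynomial (Fin τ) R} (h' : Ap ι (II R μ ι ^ M) 0 F₀) :
    IP (adj R (Set.range (yy c cc))) μ M (evR c cc F₀) := by
  have hμ : ∀ i, μ i ∈ adj R (Set.range (yy c cc)) := fun i => base_le_adj _ _ (h.par.mem i)
  have hco : ∀ m, F₀.coeff m ∈ idl R μ ^ M := by
    intro m
    have h1 := (MvPolynomial.mem_map_C_iff.1 h') m
    rw [zero_sub, MvPolynomial.coeff_neg, MvPolynomial.coeff_map, neg_mem_iff] at h1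
    exact h.sep M _ h1
  unfold evR
  rw [MvPolynomial.coe_eval₂Hom, MvPolynomial.eval₂_eq]
  refine IP.sum _ _ fun m _ => ?_
  have h2 : IP R μ M (R.subtype (F₀.coeff m)) := ⟨F₀.coeff m, rfl, hco m⟩
  refine (h2.mono (base_le_adj _ _) hμ).mul_right ?_
  exact Subring.prod_mem _ fun i _ => Subring.pow_mem _ (mem_adj (Set.mem_range_self i)) _

theorem ev_map (h : Fml w R C K L μ ι π) (c : R) (cc : Fin τ → R) (F₀ : MvPolynomial (Fin τ) R) :
    ev π c cc (MvPolynomial.map ι F₀) = evR c cc F₀ := by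
  unfold ev evR
  rw [MvPolynomial.eval₂Hom_map_hom]
  congr 2
  ext r
  exact h.comp r

theorem ev_mem (h : Fml w R C K L μ ι π) (c : R) (cc : Fin τ → R)
    (F : MvPolynomial (Fin τ) Ah) : ev π c cc F ∈ adj C (Set.range (yy c cc)) := by
  unfold ev
  rw [MvPolynomial.coe_eval₂Hom, MvPolynomial.eval₂_eq]
  refine Subring.sum_mem _ fun m _ => Subring.mul_mem _ (base_le_adj _ _ (h.mem _)) ?_
  exact Subring.prod_mem _ fun i _ => Subring.pow_mem _ (mem_adj (Set.mem_range_self i)) _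

theorem ev_surj (h : Fml w R C K L μ ι π) (c : R) (cc : Fin τ → R) (f : Ω)
    (hf : f ∈ adj C (Set.range (yy c cc))) :
    ∃ F : MvPolynomial (Fin τ) Ah, ev π c cc F = f := by
  refine adj_induction (p := fun f => ∃ F : MvPolynomial (Fin τ) Ah, ev π c cc F = f)
    ?_ ?_ ?_ ?_ hf
  · intro f hf
    obtain ⟨a, ha⟩ := h.surj f hf
    exact ⟨MvPolynomial.C a, by unfold ev; rw [MvPolynomial.eval₂Hom_C, ha]⟩
  · rintro f ⟨t, rfl⟩
    exact ⟨MvPolynomial.X t, by unfold ev; rw [MvPolynomial.eval₂Hom_X']⟩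
  · rintro f g ⟨F, rfl⟩ ⟨G, rfl⟩
    exact ⟨F + G, map_add _ _ _⟩
  · rintro f g ⟨F, rfl⟩ ⟨G, rfl⟩
    exact ⟨F * G, map_mul _ _ _⟩

theorem evR_mem (c : R) (cc : Fin τ → R) (F : MvPolynomial (Fin τ) R) :
    evR c cc F ∈ adj R (Set.range (yy c cc)) := by
  unfold evR
  rw [MvPolynomial.coe_eval₂Hom, MvPolynomial.eval₂_eq]
  refine Subring.sum_mem _ fun m _ => Subring.mul_mem _ (base_le_adj _ _ (F.coeff m).2) ?_
  exact Subring.prod_mem _ fun i _ => Subring.pow_mem _ (mem_adj (Set.mem_range_self i)) _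

theorem evR_surj (c : R) (cc : Fin τ → R) (f : Ω) (hf : f ∈ adj R (Set.range (yy c cc))) :
    ∃ F : MvPolynomial (Fin τ) R, evR c cc F = f := by
  refine adj_induction (p := fun f => ∃ F : MvPolynomial (Fin τ) R, evR c cc F = f)
    ?_ ?_ ?_ ?_ hf
  · intro f hf
    exact ⟨MvPolynomial.C ⟨f, hf⟩, by unfold evR; rw [MvPolynomial.eval₂Hom_C]; rfl⟩
  · rintro f ⟨t, rfl⟩
    exact ⟨MvPolynomial.X t, by unfold evR; rw [MvPolynomial.eval₂Hom_X']⟩
  · rintro f g ⟨F, rfl⟩ ⟨G, rfl⟩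
    exact ⟨F + G, map_add _ _ _⟩
  · rintro f g ⟨F, rfl⟩ ⟨G, rfl⟩
    exact ⟨F * G, map_mul _ _ _⟩

/-- Approximations have close values. -/
theorem Ap.val (h : Fml w R C K L μ ι π) {c : R} {cc : Fin τ → R} {M : ℕ}
    {F : MvPolynomial (Fin τ) Ah} {F₀ : MvPolynomial (Fin τ) R}
    (h' : Ap ι (II R μ ι ^ M) F F₀) :
    IP (adj C (Set.range (yy c cc))) μ M (ev π c cc F - evR c cc F₀) := by
  have hμ : ∀ i, μ i ∈ adj C (Set.range (yy c cc)) := fun i =>
    base_le_adj _ _ (Fml_le' h (h.par.mem i))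
  rw [← ev_map h, ← map_sub]
  unfold ev
  rw [MvPolynomial.coe_eval₂Hom, MvPolynomial.eval₂_eq]
  refine IP.sum _ _ fun m _ => ?_
  have h2 := pi_ip' h ((MvPolynomial.mem_map_C_iff.1 h') m)
  refine (h2.mono (base_le_adj _ _) hμ).mul_right ?_
  exact Subring.prod_mem _ fun i _ => Subring.pow_mem _ (mem_adj (Set.mem_range_self i)) _

/-- The image under `π` of the `M`-th power of `II`. -/
theorem pi_ip (h : Fml w R C K L μ ι π) {M : ℕ} {f : Ah} (hf : f ∈ II R μ ι ^ M) :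
    IP C μ M (π f) := by
  exact pi_ip' h hf

theorem Fml.le (h : Fml w R C K L μ ι π) : R ≤ C := by
  exact Fml_le' h

theorem Fml.ge (h : Fml w R C K L μ ι π) : ∀ r ∈ R, w.Ge 0 r := by
  exact fun r hr => h.geC r (Fml_le' h hr)

end Pool.Agent.LUZ
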