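import Pool.Agent.Lib.LUZ.Z01

/-! # Z02: the exponent `Φ`

Recipe. `𝔏 = span (range fun t => C (ι c) * X t - C (ι (cc t)))`. (a) For every `F` there are `d` and `a : Ah` with `C (ι c ^ d) * F - C a ∈ 𝔏`
(`MvPolynomial.induction_on`: `C a`: `d = 0`; sums: raise both to the same `d`; `F * X t`: `C (ι c ^ (d+1)) * (F * X t) - C (a * ι (cc t)) =
(C (ι c ^ d) * F - C a) * C (ι c) * X t + C a * (C (ι c) * X t - C (ι (cc t)))`). (b) `ev` kills `𝔏` (`π (ι c) = c ≠ 0`, `y t = cc t / c`), so if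
`ev F = 0` then `π a = 0`, `a ∈ ker π = span (range η)`, `C a ∈ span (range (C ∘ η))`: so `C (ι c ^ d) * F` is in the ideal. (c) `RingHom.ker (ev π c cc)` is
finitely generated (`Ah[Y]` is noetherian by `h.noethA`): take the maximum of the `d` of the generators; the set of the `F` with
`C (ι c ^ Φ) * F ∈ ideal` is an ideal (`Submodule.span_induction`). -/

set_option autoImplicit false

namespace Pool.Agent.LUZ

open Pool.Agent.H15JM (RVal)
open Pool.Agent.LU1 (VPos)
open Pool.Agent.LUC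

universe u

variable {Ω : Type u} [Field Ω] {w : RVal Ω} {R C : Subring Ω} {K L : Subfield Ω} {q τ l : ℕ}
  {μ : Fin q → Ω} {Ah : Type u} [CommRing Ah] {ι : R →+* Ah} {π : Ah →+* Ω}

private theorem z02_a (γ : Ah) (δ : Fin τ → Ah) (F : MvPolynomial (Fin τ) Ah) :
    ∃ (d : ℕ) (a : Ah), MvPolynomial.C (γ ^ d) * F - MvPolynomial.C a ∈ Ideal.span
      (Set.range fun t => MvPolynomial.C γ * MvPolynomial.X t -
        (MvPolynomial.C (δ t) : MvPolynomial (Fin τ) Ah)) := by
  induction F using MvPolynomial.induction_on with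
  | C a => exact ⟨0, a, by simp⟩
  | add p q hp hq =>
    obtain ⟨d₁, a₁, h₁⟩ := hp
    obtain ⟨d₂, a₂, h₂⟩ := hq
    refine ⟨d₁ + d₂, γ ^ d₂ * a₁ + γ ^ d₁ * a₂, ?_⟩
    have h3 : MvPolynomial.C (γ ^ (d₁ + d₂)) * (p + q) -
        (MvPolynomial.C (γ ^ d₂ * a₁ + γ ^ d₁ * a₂) : MvPolynomial (Fin τ) Ah) =
        MvPolynomial.C (γ ^ d₂) * (MvPolynomial.C (γ ^ d₁) * p - MvPolynomial.C a₁) +
          MvPolynomial.C (γ ^ d₁) * (MvPolynomial.C (γ ^ d₂) * q - MvPolynomial.C a₂) := by
      simp only [map_mul, map_add, pow_add]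
      ring
    rw [h3]
    exact Ideal.add_mem _ (Ideal.mul_mem_left _ _ h₁) (Ideal.mul_mem_left _ _ h₂)
  | mul_X p t hp =>
    obtain ⟨d, a, h₁⟩ := hp
    refine ⟨d + 1, a * δ t, ?_⟩
    have h3 : MvPolynomial.C (γ ^ (d + 1)) * (p * MvPolynomial.X t) -
        (MvPolynomial.C (a * δ t) : MvPolynomial (Fin τ) Ah) =
        (MvPolynomial.C γ * MvPolynomial.X t) * (MvPolynomial.C (γ ^ d) * p - MvPolynomial.C a) +
          MvPolynomial.C a * (MvPolynomial.C γ * MvPolynomial.X t - MvPolynomial.C (δ t)) := by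
      simp only [map_mul, pow_succ]
      ring
    rw [h3]
    exact Ideal.add_mem _ (Ideal.mul_mem_left _ _ h₁)
      (Ideal.mul_mem_left _ _ (Ideal.subset_span ⟨t, rfl⟩))

theorem exists_Φ (h : Fml w R C K L μ ι π) (η : Fin l → Ah)
    (hη : Ideal.span (Set.range η) = RingHom.ker π) (c : R) (hc : (c : Ω) ≠ 0)
    (cc : Fin τ → R) :
    ∃ Φ : ℕ, ∀ F : MvPolynomial (Fin τ) Ah, ev π c cc F = 0 →
      MvPolynomial.C (ι c ^ Φ) * F ∈ Ideal.span
        (Set.range (fun j => (MvPolynomial.C (η j) : MvPolynomial (Fin τ) Ah)) ∪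
          Set.range fun t => MvPolynomial.C (ι c) * MvPolynomial.X t -
            MvPolynomial.C (ι (cc t))) := by
  classical
  have hnoeth := h.noethA
  have evC : ∀ a : Ah, ev π c cc (MvPolynomial.C a) = π a := fun a => by
    simp only [ev, MvPolynomial.coe_eval₂Hom, MvPolynomial.eval₂_C]
  have evX : ∀ t, ev π c cc (MvPolynomial.X t) = (cc t : Ω) / (c : Ω) := fun t => by
    simp only [ev, MvPolynomial.coe_eval₂Hom, MvPolynomial.eval₂_X, yy]
  -- the elements `F` of the kernel, one at a time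
  have hb : ∀ F : MvPolynomial (Fin τ) Ah, ev π c cc F = 0 → ∃ d : ℕ,
      MvPolynomial.C (ι c ^ d) * F ∈ Ideal.span
        (Set.range (fun j => (MvPolynomial.C (η j) : MvPolynomial (Fin τ) Ah)) ∪
          Set.range fun t => MvPolynomial.C (ι c) * MvPolynomial.X t -
            MvPolynomial.C (ι (cc t))) := by
    intro F hF
    obtain ⟨d, a, ha⟩ := z02_a (ι c) (fun t => ι (cc t)) F
    have h1 : Ideal.span (Set.range fun t => MvPolynomial.C (ι c) * MvPolynomial.X t -
        (MvPolynomial.C (ι (cc t)) : MvPolynomial (Fin τ) Ah)) ≤ RingHom.ker (ev π c cc) := by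
      rw [Ideal.span_le]
      rintro _ ⟨t, rfl⟩
      change ev π c cc _ = 0
      rw [map_sub, map_mul, evC, evC, evX, h.comp, h.comp, mul_div_cancel₀ _ hc, sub_self]
    have h2 : π a = 0 := by
      have h3 := RingHom.mem_ker.1 (h1 ha)
      rwa [map_sub, map_mul, hF, mul_zero, evC, zero_sub, neg_eq_zero] at h3
    have h3 : (MvPolynomial.C a : MvPolynomial (Fin τ) Ah) ∈ Ideal.span
        (Set.range fun j => (MvPolynomial.C (η j) : MvPolynomial (Fin τ) Ah)) := by
      have h4 : a ∈ Ideal.span (Set.range η) := by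
        rw [hη]
        exact h2
      have h5 := Ideal.mem_map_of_mem (MvPolynomial.C : Ah →+* MvPolynomial (Fin τ) Ah) h4
      rwa [Ideal.map_span, ← Set.range_comp] at h5
    refine ⟨d, ?_⟩
    have h4 := Ideal.add_mem _ (Ideal.span_mono Set.subset_union_right ha)
      (Ideal.span_mono Set.subset_union_left h3)
    rwa [sub_add_cancel] at h4
  choose! d hd using hb
  obtain ⟨S, hS⟩ := IsNoetherian.noetherian (RingHom.ker (ev (R := R) π c cc))
  refine ⟨S.sup d, fun F hF => ?_⟩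
  have hF' : F ∈ Submodule.span (MvPolynomial (Fin τ) Ah) (S : Set (MvPolynomial (Fin τ) Ah)) := by
    rw [hS]
    exact RingHom.mem_ker.2 hF
  clear hF
  induction hF' using Submodule.span_induction with
  | mem x hx =>
    have h1 : ev π c cc x = 0 := by
      have h2 : x ∈ RingHom.ker (ev (R := R) π c cc) := by
        rw [← hS]
        exact Submodule.subset_span hx
      exact RingHom.mem_ker.1 h2
    have h2 : d x ≤ S.sup d := Finset.le_sup hx
    obtain ⟨j, hj⟩ := Nat.exists_eq_add_of_le' h2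
    rw [hj, pow_add, map_mul, mul_assoc]
    exact Ideal.mul_mem_left _ _ (hd x h1)
  | zero =>
    rw [mul_zero]
    exact Ideal.zero_mem _
  | add x y hx hy ihx ihy =>
    rw [mul_add]
    exact Ideal.add_mem _ ihx ihy
  | smul a x hx ih =>
    rw [smul_eq_mul, mul_left_comm]
    exact Ideal.mul_mem_left _ _ ih

end Pool.Agent.LUZ
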