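import Pool.Agent.Lib.LUZ.Z01

/-! # Z04: basic facts about the ring `B = lv w (R[y, μ^φ / G₁, q])`

Recipes. `P = ∏ j ∈ J, z j` has positive value (`J_ne`). `bb φ = P * s`, `s ∈ O` (`FB.hN₁`), not 0: positive value. `qq j`: `η₀ j = π (ι (η₀ j)) = - π (η j - ι (η₀ j))` if
`π (η j) = 0`, which is in `(μ)^N' C` (`pi_ip`), `N' ≥ 4 N₁ + 1`: by `IP.sum_iff` it is a sum of products of `N'` of the `μ i` with coefficients in `C ≤ O`; each product of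
`N₁` of them is `G1 * P * s`, so `η₀ j ∈ G1^4 O * (positive)` (use `hN₁` three times, `w.Ge 0` of the rest, the factor `P`). `BB_le`: `lv_le`, `adj_le`. -/

set_option autoImplicit false

namespace Pool.Agent.LUZ

open Pool.Agent.H15JM (RVal)
open Pool.Agent.LU1 (VPos)
open Pool.Agent.LUC

universe u

variable {Ω : Type u} [Field Ω] {w : RVal Ω} {R C : Subring Ω} {K L : Subfield Ω} {q n τ l : ℕ}
  {μ : Fin q → Ω} {Ah : Type u} [CommRing Ah] {ι : R →+* Ah} {π : Ah →+* Ω} {η : Fin l → Ah}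
  {z : Fin n → Ω} {J : Finset (Fin n)} {O : Subring Ω} {c : R} {cc : Fin τ → R}
  {Φ b N₁ N' : ℕ} {η₀ : Fin l → R}

theorem M0_mem (h : Fml w R C K L μ ι π) : M0 μ ∈ R :=
  R.prod_mem fun i _ => h.par.mem i

theorem M0_ne (h : Fml w R C K L μ ι π) : M0 μ ≠ 0 :=
  Finset.prod_ne_zero_iff.2 fun i _ => h.par.ne i

theorem M0_pos (h : Fml w R C K L μ ι π) : 0 < w (M0 μ) := by
  rw [M0, w.map_prod _ _ fun i _ => h.par.ne i]
  exact Finset.sum_pos (fun i _ => h.par.pos i) ⟨⟨0, h.q_pos⟩, Finset.mem_univ _⟩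

theorem G1_mem (h : Fml w R C K L μ ι π) (c : R) (Φ b : ℕ) : G1 μ c Φ b ∈ R :=
  R.mul_mem (R.pow_mem c.2 _) (R.pow_mem (M0_mem h) _)

theorem G1_ne (h : Fml w R C K L μ ι π) (hc : FCh w R C μ z J O c cc) (Φ b : ℕ) :
    G1 μ c Φ b ≠ 0 :=
  mul_ne_zero (pow_ne_zero _ hc.c_ne) (pow_ne_zero _ (M0_ne h))

theorem M0_sm (h : Fml w R C K L μ ι π) (hc : FCh w R C μ z J O c cc) :
    SM w O z J (M0 μ) := by
  have h1 : ∀ s : Finset (Fin q), SM w O z J (∏ i ∈ s, μ i) ∧ 0 ≤ w (∏ i ∈ s, μ i) := by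
    classical
    intro s
    induction s using Finset.induction_on with
    | empty =>
      rw [Finset.prod_empty]
      exact ⟨SM.one, w.map_one.ge⟩
    | insert a s ha ih =>
      rw [Finset.prod_insert ha]
      refine ⟨SM.mul hc.par.ne (hc.μ_sm a) (h.par.pos a).le ih.1 ih.2, ?_⟩
      rw [w.map_mul (h.par.ne a) (Finset.prod_ne_zero_iff.2 fun i _ => h.par.ne i)]
      exact add_nonneg (h.par.pos a).le ih.2
  exact (h1 Finset.univ).1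

private theorem pow_sm (hz : ∀ i, z i ≠ 0) {t : Ω} (ht : SM w O z J t) (h0 : t ≠ 0)
    (h1 : 0 ≤ w t) (m : ℕ) : SM w O z J (t ^ m) ∧ 0 ≤ w (t ^ m) := by
  induction m with
  | zero =>
    rw [pow_zero]
    exact ⟨SM.one, w.map_one.ge⟩
  | succ m ih =>
    rw [pow_succ]
    refine ⟨SM.mul hz ih.1 ih.2 ht h1, ?_⟩
    rw [w.map_mul (pow_ne_zero _ h0) h0]
    exact add_nonneg ih.2 h1

theorem G1_sm (h : Fml w R C K L μ ι π) (hc : FCh w R C μ z J O c cc) (Φ b : ℕ) :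
    SM w O z J (G1 μ c Φ b) := by
  have h1 := pow_sm hc.par.ne hc.c_sm hc.c_ne (h.ge _ c.2 hc.c_ne) Φ
  have h2 := pow_sm hc.par.ne (M0_sm h hc) (M0_ne h) (M0_pos h).le b
  exact SM.mul hc.par.ne h1.1 h1.2 h2.1 h2.2

theorem C_le_O (h : Fml w R C K L μ ι π) (hc : FCh w R C μ z J O c cc) :
    adj C (Set.range (yy c cc)) ≤ O := by
  have _ := h
  rw [hc.O_eq]
  exact le_lv w _

private theorem P_ne (hc : FCh w R C μ z J O c cc) : (∏ j ∈ J, z j) ≠ 0 :=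
  Finset.prod_ne_zero_iff.2 fun j _ => hc.par.ne j

private theorem P_pos (hc : FCh w R C μ z J O c cc) : 0 < w (∏ j ∈ J, z j) := by
  rw [w.map_prod _ _ fun i _ => hc.par.ne i]
  exact Finset.sum_pos (fun i _ => hc.par.pos i) hc.J_ne

private theorem P_mem (hc : FCh w R C μ z J O c cc) : (∏ j ∈ J, z j) ∈ O :=
  O.prod_mem fun j _ => hc.par.mem j

/-- An element `P * s` -/
private theorem P_mul (hc : FCh w R C μ z J O c cc) {s f : Ω} (hs : s ∈ O)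
    (hf : f = (∏ j ∈ J, z j) * s) (hf0 : f ≠ 0) : f ∈ O ∧ 0 < w f ∧ f ≠ 0 := by
  subst hf
  refine ⟨O.mul_mem (P_mem hc) hs, ?_, hf0⟩
  have hs0 : s ≠ 0 := right_ne_zero_of_mul hf0
  rw [w.map_mul (P_ne hc) hs0]
  exact add_pos_of_pos_of_nonneg (P_pos hc) (hc.ge s hs hs0)

theorem bb_memO (h : Fml w R C K L μ ι π) (hc : FCh w R C μ z J O c cc)
    (hb : FB w R O μ ι π η z J c cc Φ b N₁ N' η₀) (φ : Fin N₁ → Fin q) :
    bb μ c Φ b N₁ φ ∈ O ∧ 0 < w (bb μ c Φ b N₁ φ) ∧ bb μ c Φ b N₁ φ ≠ 0 := by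
  obtain ⟨s, hs, hsφ⟩ := hb.hN₁ φ
  have hG := G1_ne h hc Φ b
  refine P_mul hc hs ?_ ?_
  · rw [bb, hsφ, mul_assoc, mul_div_cancel_left₀ _ hG]
  · exact div_ne_zero (Finset.prod_ne_zero_iff.2 fun i _ => h.par.ne _) hG

private theorem C_le (h : Fml w R C K L μ ι π) (hc : FCh w R C μ z J O c cc) : C ≤ O :=
  (base_le_adj C _).trans (C_le_O h hc)

private theorem cube (h : Fml w R C K L μ ι π) (hc : FCh w R C μ z J O c cc)
    (hb : FB w R O μ ι π η z J c cc Φ b N₁ N' η₀) {f : Ω} (hf : IP C μ (N₁ + N₁ + N₁) f) :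
    ∃ t ∈ O, f = G1 μ c Φ b ^ 3 * ((∏ j ∈ J, z j) * t) := by
  obtain ⟨a, ha, rfl⟩ := (IP.sum_iff fun i => h.le (h.par.mem i)).1 hf
  choose s hs hsφ using hb.hN₁
  refine ⟨∑ φ : Fin (N₁ + N₁ + N₁) → Fin q, a φ * ((∏ j ∈ J, z j) ^ 2 *
    (s (fun i => φ (Fin.castAdd _ (Fin.castAdd _ i))) *
      s (fun i => φ (Fin.castAdd _ (Fin.natAdd _ i))) * s (fun i => φ (Fin.natAdd _ i)))),
    ?_, ?_⟩
  · refine O.sum_mem fun φ _ => O.mul_mem (C_le h hc (ha φ)) (O.mul_mem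
      (O.pow_mem (P_mem hc) 2) (O.mul_mem (O.mul_mem (hs _) (hs _)) (hs _)))
  · rw [Finset.mul_sum, Finset.mul_sum]
    refine Finset.sum_congr rfl fun φ _ => ?_
    rw [Fin.prod_univ_add, Fin.prod_univ_add, hsφ, hsφ, hsφ]
    ring

theorem qq_memO (h : Fml w R C K L μ ι π) (hη : ∀ j, π (η j) = 0)
    (hc : FCh w R C μ z J O c cc) (hb : FB w R O μ ι π η z J c cc Φ b N₁ N' η₀) (j : Fin l) :
    qq μ c Φ b η₀ j ∈ O ∧ 0 < w (qq μ c Φ b η₀ j) ∧ qq μ c Φ b η₀ j ≠ 0 := by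
  have h1 := pi_ip h (hb.η₀_ap j)
  rw [map_sub, hη, h.comp, zero_sub] at h1
  have h2 := h1.neg
  rw [neg_neg] at h2
  have hN := hb.hN'
  obtain ⟨t, ht, hft⟩ := cube h hc hb (h2.anti (by omega : N₁ + N₁ + N₁ ≤ N'))
  have hG := G1_ne h hc Φ b
  refine P_mul hc ht ?_ ?_
  · rw [qq, hft, mul_div_cancel_left₀ _ (pow_ne_zero 3 hG)]
  · refine div_ne_zero ?_ (pow_ne_zero 3 hG)
    intro h3
    exact hb.η₀_ne j (Subtype.ext h3)

theorem BB_le (h : Fml w R C K L μ ι π) (hη : ∀ j, π (η j) = 0)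
    (hc : FCh w R C μ z J O c cc) (hb : FB w R O μ ι π η z J c cc Φ b N₁ N' η₀) :
    BB w μ c cc Φ b N₁ η₀ ≤ O := by
  refine lv_le (adj_le (h.le.trans (C_le h hc)) ?_) hc.inv
  rintro f ((⟨t, rfl⟩ | ⟨φ, rfl⟩) | ⟨j, rfl⟩)
  · exact C_le_O h hc (mem_adj ⟨t, rfl⟩)
  · exact (bb_memO h hc hb φ).1
  · exact (qq_memO h hη hc hb j).1

theorem BB_ge (h : Fml w R C K L μ ι π) (hη : ∀ j, π (η j) = 0)
    (hc : FCh w R C μ z J O c cc) (hb : FB w R O μ ι π η z J c cc Φ b N₁ N' η₀) :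
    ∀ f ∈ BB w μ c cc Φ b N₁ η₀, w.Ge 0 f :=
  fun f hf => hc.ge f (BB_le h hη hc hb hf)

theorem BB_inv : ∀ f ∈ BB w μ c cc Φ b N₁ η₀, f ≠ 0 → w f = 0 → f⁻¹ ∈ BB w μ c cc Φ b N₁ η₀ :=
  fun _ => lv_inv

theorem adjR_le_BB : adj R (Set.range (yy c cc)) ≤ BB w μ c cc Φ b N₁ η₀ :=
  (adj_mono le_rfl fun _ hf => Or.inl (Or.inl hf)).trans (le_lv w _)

theorem bb_mem (φ : Fin N₁ → Fin q) : bb μ c Φ b N₁ φ ∈ BB w μ c cc Φ b N₁ η₀ :=
  le_lv w _ (mem_adj (Or.inl (Or.inr ⟨φ, rfl⟩)))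

theorem qq_mem (j : Fin l) : qq μ c Φ b η₀ j ∈ BB w μ c cc Φ b N₁ η₀ :=
  le_lv w _ (mem_adj (Or.inr ⟨j, rfl⟩))

theorem BB_K (h : Fml w R C K L μ ι π) : ∀ f ∈ BB w μ c cc Φ b N₁ η₀, f ∈ K := by
  have hR : ∀ f ∈ R, f ∈ K := h.quo.1
  have hG : G1 μ c Φ b ∈ K := hR _ (G1_mem h c Φ b)
  have h1 : adj R (FR μ c cc Φ b N₁ η₀) ≤ K.toSubring := by
    refine adj_le hR ?_
    rintro f ((⟨t, rfl⟩ | ⟨φ, rfl⟩) | ⟨j, rfl⟩)
    · exact K.div_mem (hR _ (cc t).2) (hR _ c.2)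
    · exact K.div_mem (hR _ (R.prod_mem fun i _ => h.par.mem _)) hG
    · exact K.div_mem (hR _ (η₀ j).2) (K.pow_mem hG 3)
  rintro f ⟨a, ha, b', hb', -, -, rfl⟩
  exact K.div_mem (h1 ha) (h1 hb')

theorem FR_finite : (FR μ c cc Φ b N₁ η₀).Finite :=
  ((Set.finite_range _).union (Set.finite_range _)).union (Set.finite_range _)

theorem BB_noeth (h : Fml w R C K L μ ι π) : IsNoetherianRing (BB w μ c cc Φ b N₁ η₀) := by
  have := h.noeth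
  have h1 := adj_isNoetherian R (FR_finite (μ := μ) (c := c) (cc := cc) (Φ := Φ) (b := b)
    (N₁ := N₁) (η₀ := η₀)).toFinset
  rw [Set.Finite.coe_toFinset] at h1
  exact lv_isNoetherian _

end Pool.Agent.LUZ
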