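import Pool.Agent.Lib.LUZ.Z04

/-! # Z05: the error terms

`𝔮 = idS B (range qq)`, `𝔟 = idS B (range bb)`, `𝔪 = vI w B _` (elements of positive value), `B = BB ..`.
Recipes. `rho`: `IP (R[y]) μ N' ρ`, `N' ≥ 4 N₁ + 1` (`IP.anti`: take `N' = 4 N₁ + 1`): by `IP.sum_iff` (`IP.mono` to `B`) `ρ = ∑ φ, s φ * ∏ i, μ (φ i)`, and a product of `4 N₁ + 1` of
the `μ i` is a product of four products of `N₁` (`= G1 * bb`) and one `μ i` (in `𝔪`): `ρ = G1^4 * ρ₄`, `ρ₄` in `𝔪 * 𝔟` (`In.mul`; `finProdFinEquiv`, or `IP` with `idl^(N₁+..) = idl^N₁ * ..`: an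
element of `idl^N₁` is `G1` times an element of `𝔟`). `kappa`: by `hb.K0` and `Ideal.mem_span` of a union of two finite ranges
`C (ι c ^ Φ) * F = ∑ P j * C (η j) + ∑ Q t * (C (ι c) * X t - C (ι (cc t)))`; approximations `P₀ j`, `Q₀ t` (`exists_ap`), so
`Ap 0 (C (c^Φ) * F₀ - ∑ P₀ j * C (η₀ j) - ∑ Q₀ t * (C c * X t - C (cc t)))`, `Ap.ip`, `rho`; `evR` of the second sum is 0; `η₀ j = G1^3 * qq j`, `G1 = c^Φ * M0^b`:
`evR F₀ = M0^b * G1^2 * (∑ evR (P₀ j) * qq j + G1 * ρ₄)`. -/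

set_option autoImplicit false

namespace Pool.Agent.LUZ

open Pool.Agent.H15JM (RVal)
open Pool.Agent.LU1 (VPos)
open Pool.Agent.LUC

universe u

variable {Ω : Type u} [Field Ω] {w : RVal Ω} {R C : Subring Ω} {K L : Subfield Ω} {q n τ l : ℕ}
  {μ : Fin q → Ω} {Ah : Type u} [CommRing Ah] {ι : R →+* Ah} {π : Ah →+* Ω} {η : Fin l → Ah}
  {z : Fin n → Ω} {J : Finset (Fin n)} {O : Subring Ω} {c : R} {cc : Fin τ → R}
  {Φ b N₁ N' : ℕ} {η₀ : Fin l → R}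

private theorem div_G1 {B : Subring Ω} (hμ : ∀ i, μ i ∈ B) {T : Ideal B} {G : Ω}
    (hG : ∀ φ : Fin N₁ → Fin q, In (idS B (Set.range (fun φ : Fin N₁ → Fin q =>
      (∏ i, μ (φ i)) / G))) ((∏ i, μ (φ i)) / G)) {x : Ω}
    (hx : In (T * idl B μ ^ N₁) x) :
    In (T * idS B (Set.range (fun φ : Fin N₁ → Fin q => (∏ i, μ (φ i)) / G))) (x / G) := by
  obtain ⟨g, rfl, hg⟩ := hx
  refine Submodule.mul_induction_on (C := fun x : B => In (T * idS B (Set.range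
    (fun φ : Fin N₁ → Fin q => (∏ i, μ (φ i)) / G))) ((x : Ω) / G)) hg ?_ ?_
  · intro a ha v hv
    obtain ⟨d, hd, hv'⟩ := (IP.sum_iff hμ).1 ⟨v, rfl, hv⟩
    have h1 : In (idS B (Set.range (fun φ : Fin N₁ → Fin q => (∏ i, μ (φ i)) / G)))
        ((v : Ω) / G) := by
      rw [hv', Finset.sum_div]
      refine In.sum _ _ fun φ _ => ?_
      rw [mul_div_assoc]
      exact (hG φ).mul_left (hd φ)
    rw [Subring.coe_mul, mul_div_assoc]
    exact (In.coe.2 ha).mul h1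
  · intro a b' ha hb'
    rw [Subring.coe_add, add_div]
    exact ha.add hb'

theorem rho (h : Fml w R C K L μ ι π) (hη : ∀ j, π (η j) = 0)
    (hc : FCh w R C μ z J O c cc) (hb : FB w R O μ ι π η z J c cc Φ b N₁ N' η₀) {ρ : Ω}
    (hρ : IP (adj R (Set.range (yy c cc))) μ N' ρ) :
    ∃ ρ₄ : Ω, In (vI w (BB w μ c cc Φ b N₁ η₀) (BB_ge h hη hc hb) *
      idS (BB w μ c cc Φ b N₁ η₀) (Set.range (bb μ c Φ b N₁))) ρ₄ ∧
      ρ = G1 μ c Φ b ^ 4 * ρ₄ := by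
  have hμ : ∀ i, μ i ∈ BB w μ c cc Φ b N₁ η₀ := fun i =>
    adjR_le_BB (base_le_adj _ _ (h.par.mem i))
  have hρ1 : IP (BB w μ c cc Φ b N₁ η₀) μ (4 * N₁ + 1) ρ :=
    (hρ.mono adjR_le_BB hμ).anti hb.hN'
  set B := BB w μ c cc Φ b N₁ η₀ with hB
  have hG : ∀ φ : Fin N₁ → Fin q, In (idS B (Set.range (fun φ : Fin N₁ → Fin q =>
      (∏ i, μ (φ i)) / G1 μ c Φ b))) ((∏ i, μ (φ i)) / G1 μ c Φ b) := fun φ =>
    In.of_mem ⟨φ, rfl⟩ (bb_mem (b := b) φ)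
  have hG0 := G1_ne h hc Φ b
  obtain ⟨g, hg, hg'⟩ := hρ1
  have e0 : idl B μ ^ (4 * N₁ + 1) = idl B μ ^ (3 * N₁ + 1) * idl B μ ^ N₁ := by
    rw [← pow_add]; congr 1; ring
  have s1 := div_G1 hμ hG (T := idl B μ ^ (3 * N₁ + 1)) (x := ρ) ⟨g, hg, by rw [← e0]; exact hg'⟩
  change In (_ * idS B (Set.range (bb μ c Φ b N₁))) _ at s1
  have e1 : idl B μ ^ (3 * N₁ + 1) * idS B (Set.range (bb μ c Φ b N₁)) =
      (idl B μ ^ (2 * N₁ + 1) * idS B (Set.range (bb μ c Φ b N₁))) * idl B μ ^ N₁ := by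
    rw [show 3 * N₁ + 1 = 2 * N₁ + 1 + N₁ by ring, pow_add]; ring
  rw [e1] at s1
  have s2 := div_G1 hμ hG s1
  change In (_ * idS B (Set.range (bb μ c Φ b N₁))) _ at s2
  have e2 : idl B μ ^ (2 * N₁ + 1) * idS B (Set.range (bb μ c Φ b N₁)) *
      idS B (Set.range (bb μ c Φ b N₁)) =
      (idl B μ ^ (N₁ + 1) * idS B (Set.range (bb μ c Φ b N₁)) *
        idS B (Set.range (bb μ c Φ b N₁))) * idl B μ ^ N₁ := by
    rw [show 2 * N₁ + 1 = N₁ + 1 + N₁ by ring, pow_add]; ring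
  rw [e2] at s2
  have s3 := div_G1 hμ hG s2
  change In (_ * idS B (Set.range (bb μ c Φ b N₁))) _ at s3
  have e3 : idl B μ ^ (N₁ + 1) * idS B (Set.range (bb μ c Φ b N₁)) *
        idS B (Set.range (bb μ c Φ b N₁)) * idS B (Set.range (bb μ c Φ b N₁)) =
      (idl B μ * idS B (Set.range (bb μ c Φ b N₁)) *
        idS B (Set.range (bb μ c Φ b N₁)) * idS B (Set.range (bb μ c Φ b N₁))) *
          idl B μ ^ N₁ := by
    rw [show N₁ + 1 = 1 + N₁ by ring, pow_add, pow_one]; ring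
  rw [e3] at s3
  have s4 := div_G1 hμ hG s3
  change In (_ * idS B (Set.range (bb μ c Φ b N₁))) _ at s4
  refine ⟨ρ / G1 μ c Φ b / G1 μ c Φ b / G1 μ c Φ b / G1 μ c Φ b, ?_, ?_⟩
  · refine s4.mono (Ideal.mul_mono_left ?_)
    refine Ideal.mul_le_left.trans (Ideal.mul_le_left.trans (Ideal.mul_le_left.trans ?_))
    rw [idl, Ideal.span_le]
    rintro x ⟨i, hi⟩
    change VPos w (x : Ω)
    rw [hi]
    exact fun _ => h.par.pos i
  · field_simp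

theorem kappa (h : Fml w R C K L μ ι π) (hη : ∀ j, π (η j) = 0)
    (hc : FCh w R C μ z J O c cc) (hb : FB w R O μ ι π η z J c cc Φ b N₁ N' η₀)
    {F : MvPolynomial (Fin τ) Ah} {F₀ : MvPolynomial (Fin τ) R} (hF : ev π c cc F = 0)
    (hap : Ap ι (II R μ ι ^ N') F F₀) :
    ∃ κ : Ω, In (idS (BB w μ c cc Φ b N₁ η₀) (Set.range (qq μ c Φ b η₀)) ⊔
      vI w (BB w μ c cc Φ b N₁ η₀) (BB_ge h hη hc hb) *
        idS (BB w μ c cc Φ b N₁ η₀) (Set.range (bb μ c Φ b N₁))) κ ∧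
      evR c cc F₀ = M0 μ ^ b * G1 μ c Φ b ^ 2 * κ := by
  have h1 := hb.K0 F hF
  rw [Ideal.span_union, Submodule.mem_sup] at h1
  obtain ⟨y1, hy1, y2, hy2, hy⟩ := h1
  rw [Ideal.mem_span_range_iff_exists_fun] at hy1 hy2
  obtain ⟨P, rfl⟩ := hy1
  obtain ⟨Q, rfl⟩ := hy2
  choose P₀ hP₀ using fun j => exists_ap h N' (P j)
  choose Q₀ hQ₀ using fun t => exists_ap h N' (Q t)
  have a1 : Ap ι (II R μ ι ^ N') (MvPolynomial.C (ι c ^ Φ) * F)
      (MvPolynomial.C (c ^ Φ) * F₀) :=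
    (ap_C (by rw [map_pow, sub_self]; exact Ideal.zero_mem _)).mul hap
  have a2 : Ap ι (II R μ ι ^ N') (∑ j, P j * MvPolynomial.C (η j))
      (∑ j, P₀ j * MvPolynomial.C (η₀ j)) :=
    Ap.sum _ _ _ fun j _ => (hP₀ j).mul (ap_C (hb.η₀_ap j))
  have a3 : Ap ι (II R μ ι ^ N')
      (∑ t, Q t * (MvPolynomial.C (ι c) * MvPolynomial.X t - MvPolynomial.C (ι (cc t))))
      (∑ t, Q₀ t * (MvPolynomial.C c * MvPolynomial.X t - MvPolynomial.C (cc t))) :=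
    Ap.sum _ _ _ fun t _ => (hQ₀ t).mul (by
      have := ap_map (τ := τ) (ι := ι) (II R μ ι ^ N')
        (MvPolynomial.C c * MvPolynomial.X t - MvPolynomial.C (cc t))
      simpa using this)
  have a4 := a2.add a3
  rw [hy] at a4
  have a5 := (a1.congr a4).ip h c cc
  obtain ⟨ρ₄, hρ₄, e4⟩ := rho h hη hc hb a5
  have hc0 : (c : Ω) ≠ 0 := hc.c_ne
  have hG0 := G1_ne h hc Φ b
  have hX : ∀ t, evR c cc (MvPolynomial.C c * MvPolynomial.X t - MvPolynomial.C (cc t)) = 0 := by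
    intro t
    simp only [evR, map_sub, map_mul, MvPolynomial.eval₂Hom_C, MvPolynomial.eval₂Hom_X', yy,
      Subring.subtype_apply]
    field_simp
    ring
  have e5 : (c : Ω) ^ Φ * evR c cc F₀ =
      (∑ j, evR c cc (P₀ j) * (η₀ j : Ω)) + G1 μ c Φ b ^ 4 * ρ₄ := by
    rw [← e4]
    have hC : ∀ r : R, evR c cc (MvPolynomial.C r) = (r : Ω) := fun r => by
      simp only [evR, MvPolynomial.eval₂Hom_C, Subring.subtype_apply]
    rw [map_sub, map_mul, map_add, map_sum, map_sum, hC]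
    have z2 : ∑ t, evR c cc (Q₀ t * (MvPolynomial.C c * MvPolynomial.X t -
        MvPolynomial.C (cc t))) = 0 := by
      refine Finset.sum_eq_zero fun t _ => ?_
      rw [map_mul, hX, mul_zero]
    have z1 : ∑ j, evR c cc (P₀ j * MvPolynomial.C (η₀ j)) =
        ∑ j, evR c cc (P₀ j) * (η₀ j : Ω) :=
      Finset.sum_congr rfl fun j _ => by rw [map_mul, hC]
    rw [z2, z1, Subring.coe_pow]
    ring
  refine ⟨(∑ j, evR c cc (P₀ j) * qq μ c Φ b η₀ j) + G1 μ c Φ b * ρ₄, ?_, ?_⟩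
  · refine In.add ?_ ?_
    · refine In.mono le_sup_left (In.sum _ _ fun j _ => ?_)
      exact (In.of_mem (Set.mem_range_self j) (qq_mem j)).mul_left (adjR_le_BB (evR_mem c cc _))
    · refine In.mono le_sup_right (hρ₄.mul_left ?_)
      exact adjR_le_BB (base_le_adj _ _ (G1_mem h c Φ b))
  · have hcp : (c : Ω) ^ Φ ≠ 0 := pow_ne_zero _ hc0
    apply mul_left_cancel₀ hcp
    rw [e5]
    have e6 : ∑ j, evR c cc (P₀ j) * (η₀ j : Ω) =
        G1 μ c Φ b ^ 3 * ∑ j, evR c cc (P₀ j) * qq μ c Φ b η₀ j := by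
      rw [Finset.mul_sum]
      refine Finset.sum_congr rfl fun j _ => ?_
      unfold qq
      field_simp
    have e7 : (c : Ω) ^ Φ * (M0 μ ^ b * G1 μ c Φ b ^ 2 *
        ((∑ j, evR c cc (P₀ j) * qq μ c Φ b η₀ j) + G1 μ c Φ b * ρ₄)) =
        ((c : Ω) ^ Φ * M0 μ ^ b) * G1 μ c Φ b ^ 2 *
        ((∑ j, evR c cc (P₀ j) * qq μ c Φ b η₀ j) + G1 μ c Φ b * ρ₄) := by ring
    rw [e6, e7, ← G1]
    ring

/-- All the elements in question have positive value. -/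
theorem kappa_pos (h : Fml w R C K L μ ι π) (hη : ∀ j, π (η j) = 0)
    (hc : FCh w R C μ z J O c cc) (hb : FB w R O μ ι π η z J c cc Φ b N₁ N' η₀) {κ : Ω}
    (hκ : In (idS (BB w μ c cc Φ b N₁ η₀) (Set.range (qq μ c Φ b η₀)) ⊔
      vI w (BB w μ c cc Φ b N₁ η₀) (BB_ge h hη hc hb) *
        idS (BB w μ c cc Φ b N₁ η₀) (Set.range (bb μ c Φ b N₁))) κ) :
    κ ∈ BB w μ c cc Φ b N₁ η₀ ∧ VPos w κ := by
  have h1 : idS (BB w μ c cc Φ b N₁ η₀) (Set.range (qq μ c Φ b η₀)) ≤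
      vI w (BB w μ c cc Φ b N₁ η₀) (BB_ge h hη hc hb) := by
    refine idS_le ?_
    rintro _ ⟨j, rfl⟩ hj
    exact in_vI.2 ⟨hj, fun _ => (qq_memO h hη hc hb j).2.1⟩
  have h2 := hκ.mono (sup_le h1 Ideal.mul_le_left)
  exact in_vI.1 h2

end Pool.Agent.LUZ
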