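import Pool.Agent.Lib.LUZ.Z05

/-! # Z06: monomials of `O` are monomials of `B`

`M^b = (M0 μ)^b`. `dvd_tr`: let `M^b = Z * s`, `Z = ∏ z i ^ e i`, `s ∈ O = lv w C[y]`: `s = s' / u`, `s', u ∈ C[y]`,
`w u = 0`; `U, S` over `Ah` with `ev U = u`, `ev S = s'` (`ev_surj`), `Z₀` over `R` with `evR Z₀ = Z` (`evR_surj`, `hc.z_mem`). `F = U * map ι (C M^b) - map ι Z₀ * S`, `ev F = 0`; `F₀ = U₀ * C M^b - Z₀ * S₀`
(`exists_ap`, `Ap.mul`, `ap_map`): `kappa`: `evR U₀ * M^b - Z * evR S₀ = M^b * G1^2 * κ`. `v = evR U₀ - G1^2 * κ ∈ B` has value 0: `evR U₀ - u` has positive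
value (`Ap.val`, `N' > 0`, `IP.vpos`), `κ` has positive value (`kappa_pos`), `G1 ∈ R`. So `M^b = Z * (evR S₀ / v)`, `v⁻¹ ∈ B`. `mono_tr`: the same with
`F = U * a - map ι Z₀ * V`, `π a = Z * v`, `v = v' / u` (`v', u` of value 0), `F₀ = U₀ * C a₀ - Z₀ * V₀`: `evR U₀ * a₀ - Z * evR V₀ = M^b * G1^2 * κ = Z * s_B * G1^2 * κ` (by `dvd_tr`), so
`a₀ = Z * (evR V₀ + s_B * G1^2 * κ) / evR U₀`. -/

set_option autoImplicit false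

namespace Pool.Agent.LUZ

open Pool.Agent.H15JM (RVal)
open Pool.Agent.LU1 (VPos)
open Pool.Agent.LUC

universe u

variable {Ω : Type u} [Field Ω] {w : RVal Ω} {R C : Subring Ω} {K L : Subfield Ω} {q n τ l : ℕ}
  {μ : Fin q → Ω} {Ah : Type u} [CommRing Ah] {ι : R →+* Ah} {π : Ah →+* Ω} {η : Fin l → Ah}
  {z : Fin n → Ω} {J : Finset (Fin n)} {O : Subring Ω} {c : R} {cc : Fin τ → R}
  {Φ b N₁ N' : ℕ} {η₀ : Fin l → R}

private theorem z06_unit (h : Fml w R C K L μ ι π)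
    (hc : FCh w R C μ z J O c cc) (hb : FB w R O μ ι π η z J c cc Φ b N₁ N' η₀)
    {U : MvPolynomial (Fin τ) Ah} {U₀ : MvPolynomial (Fin τ) R}
    (hU : ev π c cc U ≠ 0) (hU' : w (ev π c cc U) = 0) (hap : Ap ι (II R μ ι ^ N') U U₀) :
    evR c cc U₀ ≠ 0 ∧ w (evR c cc U₀) = 0 := by
  have h1 := Ap.val (c := c) (cc := cc) h hap
  have h2 : 1 ≤ N' := le_trans (Nat.le_add_left 1 (4 * N₁)) hb.hN'
  have h3 : VPos w (ev π c cc U - evR c cc U₀) :=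
    IP.vpos (fun f hf => hc.ge f (C_le_O h hc hf)) (fun i _ => h.par.pos i)
      (fun i => base_le_adj C _ (Fml.le h (h.par.mem i))) (h1.anti h2)
  have h4 := Pool.Agent.LU1.val_add_vpos hU hU' h3.neg
  rwa [show ev π c cc U + -(ev π c cc U - evR c cc U₀) = evR c cc U₀ by ring] at h4

/-- The relation for approximations, with an error term of positive value. -/
private theorem z06_rel (h : Fml w R C K L μ ι π) (hη : ∀ j, π (η j) = 0)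
    (hc : FCh w R C μ z J O c cc) (hb : FB w R O μ ι π η z J c cc Φ b N₁ N' η₀)
    (e : Fin n → ℕ) {a : Ah} {a₀ : R} (ha : a - ι a₀ ∈ II R μ ι ^ N')
    {U S : MvPolynomial (Fin τ) Ah} {U₀ S₀ : MvPolynomial (Fin τ) R}
    (hU : Ap ι (II R μ ι ^ N') U U₀) (hS : Ap ι (II R μ ι ^ N') S S₀)
    (he : ev π c cc U * π a = (∏ i, z i ^ e i) * ev π c cc S) :
    ∃ κ ∈ BB w μ c cc Φ b N₁ η₀, VPos w κ ∧
      evR c cc U₀ * (a₀ : Ω) - (∏ i, z i ^ e i) * evR c cc S₀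
        = M0 μ ^ b * G1 μ c Φ b ^ 2 * κ := by
  choose Z hZ using fun i => evR_surj c cc (z i) (hc.z_mem i)
  have hZ0 : evR c cc (∏ i, Z i ^ e i) = ∏ i, z i ^ e i := by
    rw [map_prod]
    exact Finset.prod_congr rfl fun i _ => by rw [map_pow, hZ]
  have hF : ev π c cc (U * MvPolynomial.C a -
      MvPolynomial.map ι (∏ i, Z i ^ e i) * S) = 0 := by
    rw [map_sub, map_mul, map_mul, ev_map h, hZ0]
    have h1 : ev π c cc (MvPolynomial.C a) = π a := by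
      simp only [ev, MvPolynomial.coe_eval₂Hom, MvPolynomial.eval₂_C]
    rw [h1, he, sub_self]
  have hap : Ap ι (II R μ ι ^ N') (U * MvPolynomial.C a -
      MvPolynomial.map ι (∏ i, Z i ^ e i) * S)
      (U₀ * MvPolynomial.C a₀ - (∏ i, Z i ^ e i) * S₀) :=
    (hU.mul (ap_C ha)).sub ((ap_map _ _).mul hS)
  obtain ⟨κ, hκ, hk⟩ := kappa h hη hc hb hF hap
  obtain ⟨hκB, hκp⟩ := kappa_pos h hη hc hb hκ
  refine ⟨κ, hκB, hκp, ?_⟩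
  rw [← hk, map_sub, map_mul, map_mul, hZ0]
  have h1 : evR c cc (MvPolynomial.C a₀) = (a₀ : Ω) := by
    simp only [evR, MvPolynomial.coe_eval₂Hom, MvPolynomial.eval₂_C, Subring.subtype_apply]
  rw [h1]

private theorem z06_err (h : Fml w R C K L μ ι π) (hη : ∀ j, π (η j) = 0)
    (hc : FCh w R C μ z J O c cc) (hb : FB w R O μ ι π η z J c cc Φ b N₁ N' η₀)
    {s κ : Ω} (hs : s ∈ BB w μ c cc Φ b N₁ η₀) (hκ : VPos w κ) :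
    VPos w (s * (G1 μ c Φ b ^ 2 * κ)) := by
  refine VPos.mul' (BB_ge h hη hc hb s hs) (VPos.mul' ?_ hκ)
  exact BB_ge h hη hc hb _ ((BB w μ c cc Φ b N₁ η₀).pow_mem
    (adjR_le_BB (base_le_adj R _ (G1_mem h c Φ b))) 2)

theorem dvd_tr (h : Fml w R C K L μ ι π) (hη : ∀ j, π (η j) = 0)
    (hc : FCh w R C μ z J O c cc) (hb : FB w R O μ ι π η z J c cc Φ b N₁ N' η₀)
    (e : Fin n → ℕ) (he : ∃ s ∈ O, M0 μ ^ b = (∏ i, z i ^ e i) * s) :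
    ∃ s ∈ BB w μ c cc Φ b N₁ η₀, M0 μ ^ b = (∏ i, z i ^ e i) * s := by
  obtain ⟨s, hs, hs'⟩ := he
  rw [hc.O_eq, mem_lv] at hs
  obtain ⟨s₁, hs₁, u, hu, hu0, hu1, rfl⟩ := hs
  obtain ⟨U, rfl⟩ := ev_surj h c cc u hu
  obtain ⟨S, rfl⟩ := ev_surj h c cc s₁ hs₁
  obtain ⟨U₀, hU⟩ := exists_ap h N' U
  obtain ⟨S₀, hS⟩ := exists_ap h N' S
  have ha : ι ((⟨M0 μ, M0_mem h⟩ : R) ^ b) - ι ((⟨M0 μ, M0_mem h⟩ : R) ^ b) ∈
      II R μ ι ^ N' := by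
    rw [sub_self]
    exact Ideal.zero_mem _
  have hco : (((⟨M0 μ, M0_mem h⟩ : R) ^ b : R) : Ω) = M0 μ ^ b := by
    rw [Subring.coe_pow]
  obtain ⟨κ, hκB, hκp, hk⟩ := z06_rel h hη hc hb e ha hU hS (by
    rw [h.comp, hco, hs']
    field_simp)
  obtain ⟨hv0, hv1⟩ := z06_unit h hc hb hu0 hu1 hU
  have hG : G1 μ c Φ b ∈ BB w μ c cc Φ b N₁ η₀ := adjR_le_BB (base_le_adj R _ (G1_mem h c Φ b))
  have hp : VPos w (-(G1 μ c Φ b ^ 2 * κ)) := by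
    have h1 := z06_err h hη hc hb (s := 1) (BB w μ c cc Φ b N₁ η₀).one_mem hκp
    rw [one_mul] at h1
    exact h1.neg
  obtain ⟨hw0, hw1⟩ := Pool.Agent.LU1.val_add_vpos hv0 hv1 hp
  have hvB : evR c cc U₀ + -(G1 μ c Φ b ^ 2 * κ) ∈ BB w μ c cc Φ b N₁ η₀ :=
    (BB w μ c cc Φ b N₁ η₀).add_mem (adjR_le_BB (evR_mem c cc U₀))
      ((BB w μ c cc Φ b N₁ η₀).neg_mem ((BB w μ c cc Φ b N₁ η₀).mul_mem
        ((BB w μ c cc Φ b N₁ η₀).pow_mem hG 2) hκB))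
  refine ⟨evR c cc S₀ * (evR c cc U₀ + -(G1 μ c Φ b ^ 2 * κ))⁻¹,
    (BB w μ c cc Φ b N₁ η₀).mul_mem (adjR_le_BB (evR_mem c cc S₀)) (BB_inv _ hvB hw0 hw1), ?_⟩
  rw [hco] at hk
  rw [← mul_assoc, eq_mul_inv_iff_mul_eq₀ hw0]
  linear_combination hk

theorem mono_tr (h : Fml w R C K L μ ι π) (hη : ∀ j, π (η j) = 0)
    (hc : FCh w R C μ z J O c cc) (hb : FB w R O μ ι π η z J c cc Φ b N₁ N' η₀)
    (e : Fin n → ℕ) (he : ∃ s ∈ O, M0 μ ^ b = (∏ i, z i ^ e i) * s) (a : Ah) (a₀ : R)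
    (ha : a - ι a₀ ∈ II R μ ι ^ N')
    (hav : ∃ v ∈ O, v ≠ 0 ∧ w v = 0 ∧ π a = (∏ i, z i ^ e i) * v) :
    ∃ v ∈ BB w μ c cc Φ b N₁ η₀, v ≠ 0 ∧ w v = 0 ∧ (a₀ : Ω) = (∏ i, z i ^ e i) * v := by
  obtain ⟨s, hs, hs'⟩ := dvd_tr h hη hc hb e he
  obtain ⟨v, hv, hv0, hv1, hav⟩ := hav
  rw [hc.O_eq, mem_lv] at hv
  obtain ⟨v₁, hv₁, u, hu, hu0, hu1, rfl⟩ := hv
  have hv₁0 : v₁ ≠ 0 := by
    rintro rfl
    exact hv0 (zero_div u)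
  have hv₁1 : w v₁ = 0 := by
    have h1 := w.map_div hv₁0 hu0
    rw [hv1, hu1] at h1
    linarith
  obtain ⟨U, rfl⟩ := ev_surj h c cc u hu
  obtain ⟨V, rfl⟩ := ev_surj h c cc v₁ hv₁
  obtain ⟨U₀, hU⟩ := exists_ap h N' U
  obtain ⟨V₀, hV⟩ := exists_ap h N' V
  obtain ⟨κ, hκB, hκp, hk⟩ := z06_rel h hη hc hb e ha hU hV (by
    rw [hav]
    field_simp)
  obtain ⟨hU0, hU1⟩ := z06_unit h hc hb hu0 hu1 hU
  obtain ⟨hV0, hV1⟩ := z06_unit h hc hb hv₁0 hv₁1 hV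
  have hG : G1 μ c Φ b ∈ BB w μ c cc Φ b N₁ η₀ := adjR_le_BB (base_le_adj R _ (G1_mem h c Φ b))
  obtain ⟨hw0, hw1⟩ := Pool.Agent.LU1.val_add_vpos hV0 hV1 (z06_err h hη hc hb hs hκp)
  have hvB : evR c cc V₀ + s * (G1 μ c Φ b ^ 2 * κ) ∈ BB w μ c cc Φ b N₁ η₀ :=
    (BB w μ c cc Φ b N₁ η₀).add_mem (adjR_le_BB (evR_mem c cc V₀))
      ((BB w μ c cc Φ b N₁ η₀).mul_mem hs ((BB w μ c cc Φ b N₁ η₀).mul_mem
        ((BB w μ c cc Φ b N₁ η₀).pow_mem hG 2) hκB))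
  refine ⟨(evR c cc V₀ + s * (G1 μ c Φ b ^ 2 * κ)) * (evR c cc U₀)⁻¹,
    (BB w μ c cc Φ b N₁ η₀).mul_mem hvB (BB_inv _ (adjR_le_BB (evR_mem c cc U₀)) hU0 hU1),
    mul_ne_zero hw0 (inv_ne_zero hU0), ?_, ?_⟩
  · rw [w.map_mul hw0 (inv_ne_zero hU0), w.map_inv hU0, hw1, hU1]
    simp
  · rw [← mul_assoc, eq_mul_inv_iff_mul_eq₀ hU0]
    rw [hs'] at hk
    linear_combination hk

/-- An element of `Ah[Y]` of value zero has approximations of value zero. -/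
theorem unit_tr (h : Fml w R C K L μ ι π) (hη : ∀ j, π (η j) = 0)
    (hc : FCh w R C μ z J O c cc) (hb : FB w R O μ ι π η z J c cc Φ b N₁ N' η₀)
    {U : MvPolynomial (Fin τ) Ah} {U₀ : MvPolynomial (Fin τ) R}
    (hU : ev π c cc U ≠ 0) (hU' : w (ev π c cc U) = 0) (hap : Ap ι (II R μ ι ^ N') U U₀) :
    evR c cc U₀ ≠ 0 ∧ w (evR c cc U₀) = 0 :=
  z06_unit h hc hb hU hU' hap

end Pool.Agent.LUZ
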