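import Pool.Agent.Lib.LUZ.Z06

/-! # Z07: the elements of positive value of `B` are in the ideal generated by the `z i` and the `qq j`

`𝔪 = vI`, `𝔟 = idS B (range bb)`, `𝔞 = idS B (range z ∪ range qq)`. Recipes. `bI_le`: for `m = ∏ i, μ (φ i)`: `m = G1 * P * s`, `s ∈ O` (`hb.hN₁`), `P * s ∈ (z) O` (`J_ne`), so
`m * u = G1 * ∑ z i * s i`, `u, s i ∈ C[y]`, `w u = 0` (`hc.O_eq`, common denominator); lifts `U, S i` over `Ah` (`ev_surj`), `Z i` over `R` with `evR (Z i) = z i`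
(`hc.z_mem`, `evR_surj`); `F = map ι (C m) * U - map ι (C G1) * ∑ map ι (Z i) * S i`, `F₀ = C m * U₀ - C G1 * ∑ Z i * S₀ i`, `kappa`:
`m * evR U₀ = G1 * ∑ z i * evR (S₀ i) + M0^b * G1^2 * κ`; divide by `G1 ≠ 0`: `bb φ * evR U₀ ∈ 𝔞 ⊔ 𝔪 * 𝔟` (`G1, M0 ∈ R ≤ B`, `κ ∈ 𝔮 ⊔ 𝔪 * 𝔟`), and `evR U₀` is a unit of `B` (`unit_tr`, `BB_inv`). So
`𝔟 ≤ 𝔞 ⊔ 𝔪 * 𝔟`, Nakayama (`Submodule.le_of_le_smul_of_le_jacobson_bot` or similar; `B` is noetherian and local: `lv_isLocalRing`, `mem_max_iff`): `𝔟 ≤ 𝔞`.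
`vI_le`: `f ∈ B`, `VPos w f`: `f = g / v`, `g, v ∈ adj R FR`, `w v = 0`; `g ∈ R[y] + (bb, qq)` (`adj_induction`), so modulo `𝔞` `g = f₀ ∈ R[y]`, `VPos w f₀` (elements of `𝔞` have positive value); as above
(`f₀ ∈ O` of positive value is in `(z) O`: `hc.par.gen`): `f₀ * u = ∑ z i * s i`, `F = map ι F₁ * U - ∑ map ι (Z i) * S i`, `evR F₁ = f₀`: `f₀ * evR U₀ = ∑ z i * evR (S₀ i) + M0^b * G1^2 * κ ∈ 𝔞`. -/

set_option autoImplicit false

namespace Pool.Agent.LUZ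

open Pool.Agent.H15JM (RVal)
open Pool.Agent.LU1 (VPos)
open Pool.Agent.LUC

universe u

variable {Ω : Type u} [Field Ω] {w : RVal Ω} {R C : Subring Ω} {K L : Subfield Ω} {q n τ l : ℕ}
  {μ : Fin q → Ω} {Ah : Type u} [CommRing Ah] {ι : R →+* Ah} {π : Ah →+* Ω} {η : Fin l → Ah}
  {z : Fin n → Ω} {J : Finset (Fin n)} {O : Subring Ω} {c : R} {cc : Fin τ → R}
  {Φ b N₁ N' : ℕ} {η₀ : Fin l → R}

/-- A common denominator. -/
private theorem z07_common {D : Subring Ω} {m : ℕ} (s : Fin m → Ω) (hs : ∀ i, s i ∈ lv w D) :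
    ∃ u ∈ D, u ≠ 0 ∧ w u = 0 ∧ ∃ s' : Fin m → Ω, (∀ i, s' i ∈ D) ∧ ∀ i, s i * u = s' i := by
  classical
  induction m with
  | zero =>
    exact ⟨1, D.one_mem, one_ne_zero, w.map_one, fun i => i.elim0, fun i => i.elim0,
      fun i => i.elim0⟩
  | succ m ih =>
    obtain ⟨u, hu, hu0, hwu, s', hs', hss⟩ := ih (fun i => s i.castSucc) fun i => hs _
    obtain ⟨a, ha, d, hd, hd0, hwd, had⟩ := hs (Fin.last m)
    refine ⟨u * d, D.mul_mem hu hd, mul_ne_zero hu0 hd0,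
      by rw [w.map_mul hu0 hd0, hwu, hwd, add_zero],
      Fin.snoc (fun i => s' i * d) (a * u), ?_, ?_⟩
    · refine Fin.lastCases ?_ fun i => ?_
      · simp only [Fin.snoc_last]
        exact D.mul_mem ha hu
      · simp only [Fin.snoc_castSucc]
        exact D.mul_mem (hs' i) hd
    · refine Fin.lastCases ?_ fun i => ?_
      · simp only [Fin.snoc_last]
        rw [had]
        field_simp
      · simp only [Fin.snoc_castSucc]
        rw [← hss i]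
        ring

/-- Relations with coefficients in `O` give relations with coefficients in `R[y]`, up to a small
error term. -/
private theorem z07_lift (h : Fml w R C K L μ ι π) (hη : ∀ j, π (η j) = 0)
    (hc : FCh w R C μ z J O c cc) (hb : FB w R O μ ι π η z J c cc Φ b N₁ N' η₀) (m g : Ω)
    (hm : m ∈ adj R (Set.range (yy c cc))) (hg : g ∈ adj R (Set.range (yy c cc)))
    (s : Fin n → Ω) (hs : ∀ i, s i ∈ O) (hrel : m = g * ∑ i, z i * s i) :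
    ∃ v ∈ adj R (Set.range (yy c cc)), v ≠ 0 ∧ w v = 0 ∧ ∃ S : Fin n → Ω,
      (∀ i, S i ∈ adj R (Set.range (yy c cc))) ∧ ∃ κ : Ω,
        In (idS (BB w μ c cc Φ b N₁ η₀) (Set.range (qq μ c Φ b η₀)) ⊔
          vI w (BB w μ c cc Φ b N₁ η₀) (BB_ge h hη hc hb) *
            idS (BB w μ c cc Φ b N₁ η₀) (Set.range (bb μ c Φ b N₁))) κ ∧
        m * v = g * (∑ i, z i * S i) + M0 μ ^ b * G1 μ c Φ b ^ 2 * κ := by
  obtain ⟨u, hu, hu0, hwu, s', hs', hss⟩ := z07_common (w := w) (D := adj C (Set.range (yy c cc)))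
    s (fun i => by rw [← hc.O_eq]; exact hs i)
  obtain ⟨U, hU⟩ := ev_surj h c cc u hu
  choose S' hS' using fun i => ev_surj h c cc (s' i) (hs' i)
  choose Z hZ using fun i => evR_surj c cc (z i) (hc.z_mem i)
  obtain ⟨M, hM⟩ := evR_surj c cc m hm
  obtain ⟨G, hG⟩ := evR_surj c cc g hg
  obtain ⟨U₀, hU₀⟩ := exists_ap h N' U
  choose S₀ hS₀ using fun i => exists_ap h N' (S' i)
  have hev : ev π c cc (MvPolynomial.map ι M * U -
      MvPolynomial.map ι G * ∑ i, MvPolynomial.map ι (Z i) * S' i) = 0 := by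
    rw [map_sub, map_mul, map_mul, map_sum, ev_map h, ev_map h, hU, hM, hG, sub_eq_zero]
    have h1 : ∀ i, ev π c cc (MvPolynomial.map ι (Z i) * S' i) = z i * s i * u := by
      intro i
      rw [map_mul, ev_map h, hZ, hS', ← hss i]
      ring
    rw [Finset.sum_congr rfl fun i _ => h1 i, ← Finset.sum_mul, hrel]
    ring
  have hap : Ap ι (II R μ ι ^ N') (MvPolynomial.map ι M * U -
      MvPolynomial.map ι G * ∑ i, MvPolynomial.map ι (Z i) * S' i)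
      (M * U₀ - G * ∑ i, Z i * S₀ i) :=
    ((ap_map _ M).mul hU₀).sub ((ap_map _ G).mul
      (Ap.sum Finset.univ _ _ fun i _ => (ap_map _ (Z i)).mul (hS₀ i)))
  obtain ⟨κ, hκ, hκ'⟩ := kappa h hη hc hb hev hap
  obtain ⟨hv0, hwv⟩ := unit_tr h hη hc hb (by rw [hU]; exact hu0) (by rw [hU]; exact hwu) hU₀
  refine ⟨evR c cc U₀, evR_mem c cc U₀, hv0, hwv, fun i => evR c cc (S₀ i),
    fun i => evR_mem c cc _, κ, hκ, ?_⟩
  rw [map_sub, map_mul, map_mul, map_sum, hM, hG] at hκ'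
  have h1 : ∀ i, evR c cc (Z i * S₀ i) = z i * evR c cc (S₀ i) := by
    intro i
    rw [map_mul, hZ]
  rw [Finset.sum_congr rfl fun i _ => h1 i] at hκ'
  linear_combination hκ'

theorem z_mem_BB (hc : FCh w R C μ z J O c cc) (i : Fin n) :
    z i ∈ BB w μ c cc Φ b N₁ η₀ :=
  adjR_le_BB (hc.z_mem i)

private theorem z07_loc (h : Fml w R C K L μ ι π) (hη : ∀ j, π (η j) = 0)
    (hc : FCh w R C μ z J O c cc) (hb : FB w R O μ ι π η z J c cc Φ b N₁ N' η₀) :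
    vI w (BB w μ c cc Φ b N₁ η₀) (BB_ge h hη hc hb) ≤
      Ideal.jacobson (⊥ : Ideal (BB w μ c cc Φ b N₁ η₀)) := by
  have hB : ∀ f ∈ adj R (FR μ c cc Φ b N₁ η₀), w.Ge 0 f := fun f hf =>
    BB_ge h hη hc hb f (le_lv w _ hf)
  have hloc : IsLocalRing (lv w (adj R (FR μ c cc Φ b N₁ η₀))) := lv_isLocalRing hB
  have : IsLocalRing (BB w μ c cc Φ b N₁ η₀) := hloc
  rw [IsLocalRing.jacobson_eq_maximalIdeal _ bot_ne_top]
  intro f hf
  exact (mem_max_iff (B := adj R (FR μ c cc Φ b N₁ η₀)) hB f).2 hf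

theorem bI_le (h : Fml w R C K L μ ι π) (hη : ∀ j, π (η j) = 0)
    (hc : FCh w R C μ z J O c cc) (hb : FB w R O μ ι π η z J c cc Φ b N₁ N' η₀) :
    idS (BB w μ c cc Φ b N₁ η₀) (Set.range (bb μ c Φ b N₁)) ≤
      idS (BB w μ c cc Φ b N₁ η₀) (Set.range z ∪ Set.range (qq μ c Φ b η₀)) := by
  classical
  have hRy : ∀ f ∈ R, f ∈ adj R (Set.range (yy c cc)) := fun f hf => base_le_adj R _ hf
  have hnoeth := BB_noeth (c := c) (cc := cc) (Φ := Φ) (b := b) (N₁ := N₁) (η₀ := η₀) h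
  refine Submodule.le_of_le_smul_of_le_jacobson_bot
    ((isNoetherianRing_iff_ideal_fg _).1 hnoeth _) (z07_loc h hη hc hb) ?_
  rw [Ideal.smul_eq_mul]
  refine idS_le ?_
  rintro _ ⟨φ, rfl⟩ -
  obtain ⟨s, hs, hm⟩ := hb.hN₁ φ
  obtain ⟨j₀, hj₀⟩ := hc.J_ne
  have hG1 : G1 μ c Φ b ≠ 0 := G1_ne h hc Φ b
  -- the relation over `O`
  have hrel : ∏ i, μ (φ i) = G1 μ c Φ b * ∑ i, z i *
      (if i = j₀ then (∏ j ∈ J.erase j₀, z j) * s else 0) := by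
    rw [Finset.sum_eq_single j₀]
    · rw [if_pos rfl, hm, ← Finset.mul_prod_erase J z hj₀]
      ring
    · intro i _ hi
      rw [if_neg hi, mul_zero]
    · intro hj
      exact absurd (Finset.mem_univ _) hj
  obtain ⟨v, hv, hv0, hwv, S, hS, κ, hκ, hκ'⟩ := z07_lift h hη hc hb (∏ i, μ (φ i))
    (G1 μ c Φ b) (Subring.prod_mem _ fun i _ => hRy _ (h.par.mem _)) (hRy _ (G1_mem h c Φ b))
    (fun i => if i = j₀ then (∏ j ∈ J.erase j₀, z j) * s else 0) (by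
      intro i
      split_ifs
      · exact O.mul_mem (O.prod_mem fun j _ => hc.par.mem j) hs
      · exact O.zero_mem) hrel
  have hvB : v ∈ BB w μ c cc Φ b N₁ η₀ := adjR_le_BB hv
  have hvi : v⁻¹ ∈ BB w μ c cc Φ b N₁ η₀ := BB_inv v hvB hv0 hwv
  have hbb : bb μ c Φ b N₁ φ = v⁻¹ * ((∑ i, S i * z i) +
      M0 μ ^ b * G1 μ c Φ b * κ) := by
    have h1 : ∑ i, S i * z i = ∑ i, z i * S i := Finset.sum_congr rfl fun i _ => mul_comm _ _
    rw [h1, bb, eq_comm, inv_mul_eq_iff_eq_mul₀ hv0, mul_div_assoc', eq_div_iff hG1,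
      mul_comm v, hκ']
    ring
  rw [hbb]
  refine In.mul_left (In.add ?_ ?_) hvi
  · refine In.sum _ _ fun i _ => In.mul_left (In.mono le_sup_left ?_) (adjR_le_BB (hS i))
    exact In.of_mem (Or.inl ⟨i, rfl⟩) (z_mem_BB hc i)
  · refine In.mul_left (In.mono ?_ hκ) (Subring.mul_mem _ (Subring.pow_mem _
      (adjR_le_BB (hRy _ (M0_mem h))) _) (adjR_le_BB (hRy _ (G1_mem h c Φ b))))
    refine sup_le_sup (idS_le ?_) le_rfl
    intro f hf hfB
    exact In.of_mem (Or.inr hf) hfB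

theorem vI_le (h : Fml w R C K L μ ι π) (hη : ∀ j, π (η j) = 0)
    (hc : FCh w R C μ z J O c cc) (hb : FB w R O μ ι π η z J c cc Φ b N₁ N' η₀) :
    vI w (BB w μ c cc Φ b N₁ η₀) (BB_ge h hη hc hb) ≤
      idS (BB w μ c cc Φ b N₁ η₀) (Set.range z ∪ Set.range (qq μ c Φ b η₀)) := by
  classical
  have hbI := bI_le h hη hc hb
  have hRy : ∀ f ∈ R, f ∈ adj R (Set.range (yy c cc)) := fun f hf => base_le_adj R _ hf
  have hqI : idS (BB w μ c cc Φ b N₁ η₀) (Set.range (qq μ c Φ b η₀)) ≤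
      idS (BB w μ c cc Φ b N₁ η₀) (Set.range z ∪ Set.range (qq μ c Φ b η₀)) :=
    idS_le fun f hf hfB => In.of_mem (Or.inr hf) hfB
  have hκI : idS (BB w μ c cc Φ b N₁ η₀) (Set.range (qq μ c Φ b η₀)) ⊔
      vI w (BB w μ c cc Φ b N₁ η₀) (BB_ge h hη hc hb) *
        idS (BB w μ c cc Φ b N₁ η₀) (Set.range (bb μ c Φ b N₁)) ≤
      idS (BB w μ c cc Φ b N₁ η₀) (Set.range z ∪ Set.range (qq μ c Φ b η₀)) :=
    sup_le hqI (Ideal.mul_le_right.trans hbI)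
  -- elements of the ideal have positive value
  have haI : idS (BB w μ c cc Φ b N₁ η₀) (Set.range z ∪ Set.range (qq μ c Φ b η₀)) ≤
      vI w (BB w μ c cc Φ b N₁ η₀) (BB_ge h hη hc hb) := by
    refine idS_le ?_
    rintro f (⟨i, rfl⟩ | ⟨j, rfl⟩) hfB
    · exact in_vI.2 ⟨hfB, fun _ => hc.par.pos i⟩
    · exact in_vI.2 ⟨hfB, fun _ => (qq_memO h hη hc hb j).2.1⟩
  -- elements of `R[y, b, q]` are in `R[y]` modulo the ideal
  have hmod : ∀ g ∈ adj R (FR μ c cc Φ b N₁ η₀), ∃ f₀ ∈ adj R (Set.range (yy c cc)),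
      In (idS (BB w μ c cc Φ b N₁ η₀) (Set.range z ∪ Set.range (qq μ c Φ b η₀))) (g - f₀) := by
    intro g hg
    refine adj_induction (p := fun g => ∃ f₀ ∈ adj R (Set.range (yy c cc)),
      In (idS (BB w μ c cc Φ b N₁ η₀) (Set.range z ∪ Set.range (qq μ c Φ b η₀))) (g - f₀))
      ?_ ?_ ?_ ?_ hg
    · intro f hf
      exact ⟨f, hRy f hf, by rw [sub_self]; exact In.zero⟩
    · rintro f ((hf | hf) | hf)
      · exact ⟨f, mem_adj hf, by rw [sub_self]; exact In.zero⟩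
      · refine ⟨0, Subring.zero_mem _, ?_⟩
        rw [sub_zero]
        obtain ⟨φ, rfl⟩ := hf
        exact In.mono hbI (In.of_mem ⟨φ, rfl⟩ (bb_mem φ))
      · refine ⟨0, Subring.zero_mem _, ?_⟩
        rw [sub_zero]
        obtain ⟨j, rfl⟩ := hf
        exact In.of_mem (Or.inr ⟨j, rfl⟩) (qq_mem j)
    · rintro f g ⟨f₀, hf₀, hf⟩ ⟨g₀, hg₀, hg⟩
      exact ⟨f₀ + g₀, Subring.add_mem _ hf₀ hg₀, by rw [add_sub_add_comm]; exact hf.add hg⟩
    · rintro f g ⟨f₀, hf₀, hf⟩ ⟨g₀, hg₀, hg⟩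
      refine ⟨f₀ * g₀, Subring.mul_mem _ hf₀ hg₀, ?_⟩
      have h1 : f * g - f₀ * g₀ = (f₀ + (f - f₀)) * (g - g₀) + g₀ * (f - f₀) := by ring
      rw [h1]
      refine In.add (In.mul_left hg ?_) (In.mul_left hf (adjR_le_BB hg₀))
      exact Subring.add_mem _ (adjR_le_BB hf₀) hf.mem
  rintro ⟨f, hf⟩ hfp
  have hfp' : VPos w f := hfp
  obtain ⟨g, hg, v, hv, hv0, hwv, rfl⟩ := hf
  have hvB : v ∈ BB w μ c cc Φ b N₁ η₀ := le_lv w _ hv
  have hvi : v⁻¹ ∈ BB w μ c cc Φ b N₁ η₀ := BB_inv v hvB hv0 hwv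
  obtain ⟨f₀, hf₀, hgf⟩ := hmod g hg
  have hgp : VPos w g := by
    have h1 : g = g / v * v := (div_mul_cancel₀ g hv0).symm
    rw [h1]
    exact VPos.mul hfp' (BB_ge h hη hc hb v hvB)
  have hf₀p : VPos w f₀ := by
    have h1 : f₀ = g - (g - f₀) := by ring
    rw [h1]
    exact hgp.sub (in_vI.1 (In.mono haI hgf)).2
  have hf₀O : f₀ ∈ O := C_le_O h hc (adj_mono (Fml.le h) le_rfl hf₀)
  obtain ⟨a, ha, haf⟩ := (IP.one_iff hc.par.mem).1 (hc.par.gen f₀ hf₀O hf₀p)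
  obtain ⟨u, hu, hu0, hwu, S, hS, κ, hκ, hκ'⟩ := z07_lift h hη hc hb f₀ 1 hf₀
    (Subring.one_mem _) a ha (by
      rw [one_mul, haf]
      exact Finset.sum_congr rfl fun i _ => mul_comm _ _)
  have huB : u ∈ BB w μ c cc Φ b N₁ η₀ := adjR_le_BB hu
  have hui : u⁻¹ ∈ BB w μ c cc Φ b N₁ η₀ := BB_inv u huB hu0 hwu
  have hf₀I : In (idS (BB w μ c cc Φ b N₁ η₀) (Set.range z ∪ Set.range (qq μ c Φ b η₀))) f₀ := by
    have h1 : f₀ = u⁻¹ * ((∑ i, S i * z i) + M0 μ ^ b * G1 μ c Φ b ^ 2 * κ) := by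
      have h2 : ∑ i, S i * z i = ∑ i, z i * S i := Finset.sum_congr rfl fun i _ => mul_comm _ _
      rw [h2, eq_comm, inv_mul_eq_iff_eq_mul₀ hu0, mul_comm u, hκ', one_mul]
    rw [h1]
    refine In.mul_left (In.add ?_ ?_) hui
    · refine In.sum _ _ fun i _ => In.mul_left ?_ (adjR_le_BB (hS i))
      exact In.of_mem (Or.inl ⟨i, rfl⟩) (z_mem_BB hc i)
    · exact In.mul_left (In.mono hκI hκ) (Subring.mul_mem _ (Subring.pow_mem _
        (adjR_le_BB (hRy _ (M0_mem h))) _) (Subring.pow_mem _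
        (adjR_le_BB (hRy _ (G1_mem h c Φ b))) _))
  have hgI : In (idS (BB w μ c cc Φ b N₁ η₀) (Set.range z ∪ Set.range (qq μ c Φ b η₀))) g := by
    have h1 : g = (g - f₀) + f₀ := by ring
    rw [h1]
    exact hgf.add hf₀I
  refine In.coe.1 ?_
  show In _ (g / v)
  rw [div_eq_mul_inv]
  exact hgI.mul_right hvi

end Pool.Agent.LUZ
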